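import Mathlib

/-!
# Duality, abstract form
-/

open Complex Set Filter Topology MeasureTheory
open scoped ContDiff

namespace Pool.Agent.Lib.MP_00e05b_nt

/-- Duality in abstract form. -/
lemma dual_abstract {ι : Type*} (s : Finset ι) (a b : ℝ) (hab : a ≤ b) (f : ℝ → ℂ)
    (hf : Continuous f) (φ : ι → ℝ → ℂ) (hφ : ∀ i, Continuous (φ i)) (H : ι → ι → ℝ) (C : ℝ)
    (hC : 0 < C) (hsymm : ∀ i j, H i j = H j i)
    (hH : ∀ i ∈ s, ∀ j ∈ s, ‖∫ u in a..b, (starRingEnd ℂ) (φ i u) * φ j u‖ ≤ H i j)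
    (hrow : ∀ i ∈ s, ∑ j ∈ s, H i j ≤ C) :
    ∑ i ∈ s, ‖∫ u in a..b, f u * φ i u‖ ^ 2 ≤ C * ∫ u in a..b, ‖f u‖ ^ 2 := by
  classical
  set c : ι → ℂ := fun i => ∫ u in a..b, f u * φ i u with hc
  set G : ℝ → ℂ := fun u => ∑ i ∈ s, c i * (starRingEnd ℂ) (φ i u) with hG
  have hGc : Continuous G := by
    rw [hG]
    exact continuous_finsetSum _ fun i _ => continuous_const.mul (Complex.continuous_conj.comp (hφ i))
  set S : ℝ := ∑ i ∈ s, ‖c i‖ ^ 2 with hS
  have hfG : ∫ u in a..b, f u * (starRingEnd ℂ) (G u) = (S : ℂ) := by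
    have e1 : ∀ u, f u * (starRingEnd ℂ) (G u) = ∑ i ∈ s, (starRingEnd ℂ) (c i) * (f u * φ i u) := by
      intro u
      simp only [hG]
      rw [map_sum, Finset.mul_sum]
      apply Finset.sum_congr rfl
      intro i _
      rw [map_mul, Complex.conj_conj]
      ring
    simp_rw [e1]
    rw [intervalIntegral.integral_finsetSum]
    · rw [hS]
      push_cast
      apply Finset.sum_congr rfl
      intro i _
      rw [intervalIntegral.integral_const_mul, ← Complex.conj_mul']
    · intro i _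
      exact (continuous_const.mul (hf.mul (hφ i))).intervalIntegrable _ _
  have hGG : ∫ u in a..b, ‖G u‖ ^ 2 ≤ C * S := by
    have e1 : ((∫ u in a..b, ‖G u‖ ^ 2 : ℝ) : ℂ) = ∑ i ∈ s, ∑ j ∈ s, c i * (starRingEnd ℂ) (c j) *
        ∫ u in a..b, (starRingEnd ℂ) (φ i u) * φ j u := by
      rw [← intervalIntegral.integral_ofReal]
      have e2 : ∀ u, ((‖G u‖ ^ 2 : ℝ) : ℂ) = ∑ i ∈ s, ∑ j ∈ s, c i * (starRingEnd ℂ) (c j) *
          ((starRingEnd ℂ) (φ i u) * φ j u) := by
        intro u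
        rw [Complex.ofReal_pow, ← Complex.mul_conj']
        simp only [hG]
        rw [map_sum, Finset.sum_mul_sum]
        apply Finset.sum_congr rfl; intro i _
        apply Finset.sum_congr rfl; intro j _
        rw [map_mul, Complex.conj_conj]
        ring
      simp_rw [e2]
      have hci : ∀ i j, Continuous fun u => c i * (starRingEnd ℂ) (c j) *
          ((starRingEnd ℂ) (φ i u) * φ j u) := fun i j =>
        continuous_const.mul ((Complex.continuous_conj.comp (hφ i)).mul (hφ j))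
      rw [intervalIntegral.integral_finsetSum]
      · apply Finset.sum_congr rfl; intro i _
        rw [intervalIntegral.integral_finsetSum]
        · apply Finset.sum_congr rfl; intro j _
          rw [intervalIntegral.integral_const_mul]
        · intro j _
          exact (hci i j).intervalIntegrable _ _
      · intro i _
        exact (continuous_finsetSum _ fun j _ => hci i j).intervalIntegrable _ _
    have hnn : 0 ≤ ∫ u in a..b, ‖G u‖ ^ 2 :=
      intervalIntegral.integral_nonneg hab fun u _ => by positivity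
    have e3 : ∫ u in a..b, ‖G u‖ ^ 2 ≤ ∑ i ∈ s, ∑ j ∈ s, ‖c i‖ * ‖c j‖ * H i j := by
      calc ∫ u in a..b, ‖G u‖ ^ 2 = ‖((∫ u in a..b, ‖G u‖ ^ 2 : ℝ) : ℂ)‖ := by
            rw [Complex.norm_real, Real.norm_eq_abs, abs_of_nonneg hnn]
        _ = ‖∑ i ∈ s, ∑ j ∈ s, c i * (starRingEnd ℂ) (c j) *
              ∫ u in a..b, (starRingEnd ℂ) (φ i u) * φ j u‖ := by rw [e1]
        _ ≤ ∑ i ∈ s, ∑ j ∈ s, ‖c i * (starRingEnd ℂ) (c j) *
              ∫ u in a..b, (starRingEnd ℂ) (φ i u) * φ j u‖ :=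
            (norm_sum_le _ _).trans (Finset.sum_le_sum fun i _ => norm_sum_le _ _)
        _ ≤ _ := by
            apply Finset.sum_le_sum; intro i hi
            apply Finset.sum_le_sum; intro j hj
            rw [norm_mul, norm_mul, RCLike.norm_conj]
            gcongr
            exact hH i hi j hj
    have hH0 : ∀ i ∈ s, ∀ j ∈ s, 0 ≤ H i j := fun i hi j hj => (norm_nonneg _).trans (hH i hi j hj)
    calc ∫ u in a..b, ‖G u‖ ^ 2 ≤ ∑ i ∈ s, ∑ j ∈ s, ‖c i‖ * ‖c j‖ * H i j := e3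
      _ ≤ ∑ i ∈ s, ∑ j ∈ s, ((1 / 2) * (‖c i‖ ^ 2 * H i j) + (1 / 2) * (‖c j‖ ^ 2 * H j i)) := by
          apply Finset.sum_le_sum; intro i hi
          apply Finset.sum_le_sum; intro j hj
          rw [hsymm j i]
          nlinarith [mul_nonneg (sq_nonneg (‖c i‖ - ‖c j‖)) (hH0 i hi j hj)]
      _ = (1 / 2) * ∑ i ∈ s, ∑ j ∈ s, ‖c i‖ ^ 2 * H i j +
          (1 / 2) * ∑ i ∈ s, ∑ j ∈ s, ‖c j‖ ^ 2 * H j i := by
          simp only [Finset.sum_add_distrib, Finset.mul_sum]
      _ = (1 / 2) * ∑ i ∈ s, ∑ j ∈ s, ‖c i‖ ^ 2 * H i j +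
          (1 / 2) * ∑ i ∈ s, ∑ j ∈ s, ‖c i‖ ^ 2 * H i j := by
          congr 2
          rw [Finset.sum_comm]
      _ = ∑ i ∈ s, ‖c i‖ ^ 2 * ∑ j ∈ s, H i j := by
          simp only [Finset.mul_sum]
          rw [← Finset.sum_add_distrib]
          apply Finset.sum_congr rfl; intro i _
          rw [← Finset.sum_add_distrib]
          apply Finset.sum_congr rfl; intro j _
          ring
      _ ≤ ∑ i ∈ s, ‖c i‖ ^ 2 * C := by
          apply Finset.sum_le_sum; intro i hi
          have := hrow i hi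
          gcongr
      _ = C * S := by rw [← Finset.sum_mul, mul_comm]
  -- expand
  have hexp : ∫ u in a..b, ‖f u - ((1 / C : ℝ) : ℂ) * G u‖ ^ 2 =
      (∫ u in a..b, ‖f u‖ ^ 2) - 2 * (1 / C) * S + (1 / C) ^ 2 * ∫ u in a..b, ‖G u‖ ^ 2 := by
    have e1 : ∀ u, ‖f u - ((1 / C : ℝ) : ℂ) * G u‖ ^ 2 = ‖f u‖ ^ 2 -
        2 * (1 / C) * Complex.reCLM (f u * (starRingEnd ℂ) (G u)) + (1 / C) ^ 2 * ‖G u‖ ^ 2 := by
      intro u
      rw [Complex.sq_norm, Complex.sq_norm, Complex.sq_norm]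
      simp only [Complex.normSq_apply, Complex.sub_re, Complex.sub_im, Complex.mul_re,
        Complex.mul_im, Complex.ofReal_re, Complex.ofReal_im, Complex.reCLM_apply,
        Complex.conj_re, Complex.conj_im]
      ring
    simp_rw [e1]
    have c1 : Continuous fun u => ‖f u‖ ^ 2 := by fun_prop
    have c2 : Continuous fun u => f u * (starRingEnd ℂ) (G u) :=
      hf.mul (Complex.continuous_conj.comp hGc)
    have c2' : Continuous fun u => 2 * (1 / C) * Complex.reCLM (f u * (starRingEnd ℂ) (G u)) :=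
      continuous_const.mul (Complex.reCLM.continuous.comp c2)
    have c3 : Continuous fun u => (1 / C) ^ 2 * ‖G u‖ ^ 2 := by fun_prop
    have c12 : Continuous fun u => ‖f u‖ ^ 2 - 2 * (1 / C) * Complex.reCLM (f u * (starRingEnd ℂ) (G u)) :=
      c1.sub c2'
    rw [intervalIntegral.integral_add (c12.intervalIntegrable _ _)
      (c3.intervalIntegrable _ _), intervalIntegral.integral_sub (c1.intervalIntegrable _ _)
      (c2'.intervalIntegrable _ _), intervalIntegral.integral_const_mul,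
      intervalIntegral.integral_const_mul,
      ContinuousLinearMap.intervalIntegral_comp_comm _ (c2.intervalIntegrable _ _), hfG]
    simp
  have hpos : 0 ≤ ∫ u in a..b, ‖f u - ((1 / C : ℝ) : ℂ) * G u‖ ^ 2 :=
    intervalIntegral.integral_nonneg hab fun u _ => by positivity
  rw [hexp] at hpos
  have h1 : (1 / C) ^ 2 * ∫ u in a..b, ‖G u‖ ^ 2 ≤ (1 / C) ^ 2 * (C * S) := by gcongr
  have h2 : (1 / C) ^ 2 * (C * S) = (1 / C) * S := by field_simp
  have h3 : (1 / C) * S ≤ ∫ u in a..b, ‖f u‖ ^ 2 := by linarith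
  calc S = C * ((1 / C) * S) := by field_simp
    _ ≤ C * ∫ u in a..b, ‖f u‖ ^ 2 := by gcongr

end Pool.Agent.Lib.MP_00e05b_nt
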