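import Mathlib

/-!
# An elementary lower bound
-/

open Finset Real

namespace Pool.Agent.Lib.MP_00e05b_nt

lemma sq_lower (z w τ : ℂ) (C : ℝ) (h : ‖z + (starRingEnd ℂ) w‖ ≤ C) :
    ‖τ‖ ^ 2 + 2 * ((w - τ) * (starRingEnd ℂ) τ).re - 2 * C * ‖τ‖ ≤ ‖z‖ ^ 2 := by
  set e : ℂ := (starRingEnd ℂ) z + w with he
  have he1 : ‖e‖ ≤ C := by
    have : e = (starRingEnd ℂ) (z + (starRingEnd ℂ) w) := by
      rw [map_add, Complex.conj_conj]
    rw [this, RCLike.norm_conj]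
    exact h
  have hz : ‖z‖ = ‖w - e‖ := by
    have : w - e = -(starRingEnd ℂ) z := by rw [he]; ring
    rw [this, norm_neg, RCLike.norm_conj]
  have h2 : ‖w - e - τ‖ ^ 2 = ‖w - e‖ ^ 2 - 2 * ((w - e) * (starRingEnd ℂ) τ).re + ‖τ‖ ^ 2 := by
    rw [Complex.sq_norm, Complex.sq_norm, Complex.sq_norm]
    simp only [Complex.normSq_apply, Complex.sub_re, Complex.sub_im, Complex.mul_re,
      Complex.conj_re, Complex.conj_im]
    ring
  have h3 : ((w - e) * (starRingEnd ℂ) τ).re = ((w - τ) * (starRingEnd ℂ) τ).re + ‖τ‖ ^ 2 -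
      (e * (starRingEnd ℂ) τ).re := by
    rw [Complex.sq_norm]
    simp only [Complex.normSq_apply, Complex.sub_re, Complex.sub_im, Complex.mul_re,
      Complex.conj_re, Complex.conj_im]
    ring
  have h4 : (e * (starRingEnd ℂ) τ).re ≤ C * ‖τ‖ := by
    calc (e * (starRingEnd ℂ) τ).re ≤ ‖e * (starRingEnd ℂ) τ‖ := Complex.re_le_norm _
      _ = ‖e‖ * ‖τ‖ := by rw [norm_mul, RCLike.norm_conj]
      _ ≤ C * ‖τ‖ := by gcongr
  rw [hz]
  nlinarith [sq_nonneg ‖w - e - τ‖]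

end Pool.Agent.Lib.MP_00e05b_nt
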