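import Mathlib
import Pool.Agent.Lib.MP_00e05b_nt.Osc

/-!
# Existence of bumps
-/

open Complex Set Filter Topology MeasureTheory
open scoped ContDiff

namespace Pool.Agent.Lib.MP_00e05b_nt

/-- smooth functions vanishing for `3/4 ≤ |u|` give bump data -/
lemma bump_of_smooth {f : ℝ → ℝ} (hf : ContDiff ℝ ∞ f) (hs : ∀ u, 3 / 4 ≤ |u| → f u = 0) :
    ∃ K : ℝ, Bump f (deriv f) (deriv (deriv f)) (deriv (deriv (deriv f))) K := by
  have h1 : ContDiff ℝ ∞ (deriv f) := (contDiff_infty_iff_deriv.1 hf).2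
  have h2 : ContDiff ℝ ∞ (deriv (deriv f)) := (contDiff_infty_iff_deriv.1 h1).2
  have h3 : ContDiff ℝ ∞ (deriv (deriv (deriv f))) := (contDiff_infty_iff_deriv.1 h2).2
  have hcs : HasCompactSupport f := by
    apply HasCompactSupport.intro (isCompact_Icc (a := -1) (b := 1))
    intro x hx
    apply hs
    rw [mem_Icc, not_and_or] at hx
    rcases hx with h | h
    · rw [abs_of_neg (by linarith)]; linarith
    · rw [abs_of_pos (by linarith)]; linarith
  have hc1 := hcs.deriv
  have hc2 := hc1.deriv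
  have hc3 := hc2.deriv
  have bd : ∀ g : ℝ → ℝ, Continuous g → HasCompactSupport g → ∃ C, ∀ x, |g x| ≤ C := by
    intro g hg hgs
    obtain ⟨C, hC⟩ := hgs.exists_bound_of_continuous hg
    exact ⟨C, fun x => by simpa using hC x⟩
  obtain ⟨C0, k0⟩ := bd f hf.continuous hcs
  obtain ⟨C1, k1⟩ := bd _ h1.continuous hc1
  obtain ⟨C2, k2⟩ := bd _ h2.continuous hc2
  obtain ⟨C3, k3⟩ := bd _ h3.continuous hc3
  have ne : (∞ : WithTop ℕ∞) ≠ 0 := by simp
  have hev : ∀ u : ℝ, 1 ≤ |u| → f =ᶠ[𝓝 u] fun _ => 0 := by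
    intro u hu
    have ho : IsOpen {x : ℝ | 3 / 4 < |x|} := isOpen_lt continuous_const continuous_abs
    filter_upwards [ho.mem_nhds (show 3 / 4 < |u| by linarith)] with x hx
    exact hs x (le_of_lt hx)
  refine ⟨max (max C0 C1) (max C2 C3), ⟨?_, ?_, ?_, h3.continuous, ?_, ?_, ?_, ?_, ?_⟩⟩
  · intro u; exact (hf.differentiable (by simp)).differentiableAt.hasDerivAt
  · intro u; exact (h1.differentiable (by simp)).differentiableAt.hasDerivAt
  · intro u; exact (h2.differentiable (by simp)).differentiableAt.hasDerivAt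
  · intro u; exact (k0 u).trans ((le_max_left _ _).trans (le_max_left _ _))
  · intro u; exact (k1 u).trans ((le_max_right _ _).trans (le_max_left _ _))
  · intro u; exact (k2 u).trans ((le_max_left _ _).trans (le_max_right _ _))
  · intro u; exact (k3 u).trans ((le_max_right _ _).trans (le_max_right _ _))
  · intro u hu
    have e0 := hev u hu
    have e1 : deriv f =ᶠ[𝓝 u] fun _ => 0 := by
      have := e0.deriv
      simpa using this
    have e2 : deriv (deriv f) =ᶠ[𝓝 u] fun _ => 0 := by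
      have := e1.deriv
      simpa using this
    exact ⟨e0.self_of_nhds, e1.self_of_nhds, e2.self_of_nhds⟩

/-- the standard bump -/
lemma exists_bump : ∃ W : ℝ → ℝ, ContDiff ℝ ∞ W ∧ (∀ u, 0 ≤ W u) ∧ (∀ u, W u ≤ 1) ∧
    (∀ u, |u| ≤ 1 / 2 → W u = 1) ∧ (∀ u, 3 / 4 ≤ |u| → W u = 0) := by
  let f : ContDiffBump (0 : ℝ) := ⟨1 / 2, 3 / 4, by norm_num, by norm_num⟩
  refine ⟨f, f.contDiff, fun u => f.nonneg, fun u => f.le_one, ?_, ?_⟩
  · intro u hu
    apply f.one_of_mem_closedBall
    rw [Metric.mem_closedBall, dist_zero_right, Real.norm_eq_abs]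
    exact hu
  · intro u hu
    apply f.zero_of_le_dist
    rw [dist_zero_right, Real.norm_eq_abs]
    exact hu

end Pool.Agent.Lib.MP_00e05b_nt
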