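import Mathlib

/-!
# The Laplace transform of `u ^ 2`
-/

open Complex Metric Set Filter Topology MeasureTheory

namespace Pool.Agent.Lib.MP_00e05b_nt

lemma norm_exp_mul (z : ℂ) (u : ℝ) : ‖Complex.exp (-(z * u))‖ = Real.exp (-(z.re * u)) := by
  rw [Complex.norm_exp]
  simp

lemma sq_mul_exp_le {b : ℝ} (hb : 0 < b) {u : ℝ} (hu : 0 ≤ u) :
    u ^ 2 * Real.exp (-(b * u)) ≤ 16 / b ^ 2 * Real.exp (-(b / 2 * u)) := by
  have h1 : b / 4 * u ≤ Real.exp (b / 4 * u) := by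
    have := Real.add_one_le_exp (b / 4 * u)
    linarith
  have h2 : (b / 4 * u) ^ 2 ≤ Real.exp (b / 2 * u) := by
    calc (b / 4 * u) ^ 2 ≤ (Real.exp (b / 4 * u)) ^ 2 := by
          gcongr
      _ = Real.exp (b / 2 * u) := by
          rw [← Real.exp_nat_mul]
          congr 1
          push_cast
          ring
  have h3 : u ^ 2 = 16 / b ^ 2 * (b / 4 * u) ^ 2 := by
    field_simp
    ring
  calc u ^ 2 * Real.exp (-(b * u)) = 16 / b ^ 2 * ((b / 4 * u) ^ 2 * Real.exp (-(b * u))) := by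
        rw [h3]; ring
    _ ≤ 16 / b ^ 2 * (Real.exp (b / 2 * u) * Real.exp (-(b * u))) := by gcongr
    _ = 16 / b ^ 2 * Real.exp (-(b / 2 * u)) := by
        rw [← Real.exp_add]
        congr 2
        ring

lemma integrableOn_exp_neg {b : ℝ} (hb : 0 < b) :
    IntegrableOn (fun u : ℝ => Real.exp (-(b * u))) (Ioi 0) := by
  have := exp_neg_integrableOn_Ioi 0 hb
  refine this.congr_fun ?_ measurableSet_Ioi
  intro u _
  simp

lemma integrableOn_sq_exp {z : ℂ} (hz : 0 < z.re) :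
    IntegrableOn (fun u : ℝ => (u : ℂ) ^ 2 * Complex.exp (-(z * u))) (Ioi 0) := by
  have h1 : IntegrableOn (fun u : ℝ => 16 / z.re ^ 2 * Real.exp (-(z.re / 2 * u))) (Ioi 0) :=
    (integrableOn_exp_neg (by linarith)).const_mul _
  refine Integrable.mono' h1 ?_ ?_
  · apply Continuous.aestronglyMeasurable
    fun_prop
  · refine (ae_restrict_iff' measurableSet_Ioi).2 (Eventually.of_forall fun u hu => ?_)
    rw [norm_mul, norm_exp_mul, norm_pow, Complex.norm_real, Real.norm_eq_abs, sq_abs]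
    exact sq_mul_exp_le hz (le_of_lt hu)

lemma tendsto_exp_neg {b : ℝ} (hb : 0 < b) :
    Tendsto (fun u : ℝ => Real.exp (-(b * u))) atTop (𝓝 0) := by
  have : Tendsto (fun u : ℝ => -(b * u)) atTop atBot :=
    tendsto_neg_atTop_atBot.comp (tendsto_id.const_mul_atTop hb)
  exact Real.tendsto_exp_atBot.comp this

lemma laplace_sq {z : ℂ} (hz : 0 < z.re) :
    ∫ u in Ioi (0 : ℝ), (u : ℂ) ^ 2 * Complex.exp (-(z * u)) = 2 / z ^ 3 := by
  have hz0 : z ≠ 0 := by rintro rfl; simp at hz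
  set F : ℝ → ℂ := fun u => -(Complex.exp (-(z * u)) * ((u : ℂ) ^ 2 / z + 2 * u / z ^ 2 + 2 / z ^ 3))
    with hF
  have hd : ∀ u ∈ Ioi (0 : ℝ), HasDerivAt F ((u : ℂ) ^ 2 * Complex.exp (-(z * u))) u := by
    intro u _
    have h1 : HasDerivAt (fun u : ℝ => (u : ℂ)) 1 u := Complex.ofRealCLM.hasDerivAt
    have h2 : HasDerivAt (fun u : ℝ => Complex.exp (-(z * u)))
        (Complex.exp (-(z * u)) * (-(z * 1))) u := ((h1.const_mul z).fun_neg).cexp
    have h3 : HasDerivAt (fun u : ℝ => (u : ℂ) ^ 2 / z + 2 * u / z ^ 2 + 2 / z ^ 3)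
        (((2 : ℕ) * (u : ℂ) ^ (2 - 1) * 1) / z + 2 * 1 / z ^ 2) u := by
      exact (((h1.fun_pow 2).div_const z).fun_add ((h1.const_mul 2).div_const (z ^ 2))).add_const _
    have h4 := (h2.mul h3).neg
    refine h4.congr_deriv ?_
    field_simp
    ring
  have hcont : ContinuousWithinAt F (Ici 0) 0 := by
    apply Continuous.continuousWithinAt
    rw [hF]
    fun_prop
  have htend : Tendsto F atTop (𝓝 0) := by
    rw [tendsto_zero_iff_norm_tendsto_zero]
    have hb : 0 < z.re / 2 := by linarith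
    have hlim : Tendsto (fun u : ℝ => (16 / z.re ^ 2 / ‖z‖ + 2 * (16 / z.re ^ 2 + 1) / ‖z‖ ^ 2 +
        2 / ‖z‖ ^ 3) * Real.exp (-(z.re / 2 * u))) atTop (𝓝 0) := by
      have := (tendsto_exp_neg hb).const_mul (16 / z.re ^ 2 / ‖z‖ + 2 * (16 / z.re ^ 2 + 1) / ‖z‖ ^ 2 +
        2 / ‖z‖ ^ 3)
      rwa [mul_zero] at this
    refine squeeze_zero' (Eventually.of_forall fun u => norm_nonneg _) ?_ hlim
    filter_upwards [eventually_ge_atTop 0] with u hu
    have hzn : 0 < ‖z‖ := norm_pos_iff.2 hz0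
    have e0 : Real.exp (-(z.re * u)) ≤ Real.exp (-(z.re / 2 * u)) := by
      apply Real.exp_le_exp.2
      nlinarith
    have e2 := sq_mul_exp_le hz hu
    have e1 : u * Real.exp (-(z.re * u)) ≤ (16 / z.re ^ 2 + 1) * Real.exp (-(z.re / 2 * u)) := by
      have : u ≤ u ^ 2 + 1 := by nlinarith [sq_nonneg (u - 1)]
      calc u * Real.exp (-(z.re * u)) ≤ (u ^ 2 + 1) * Real.exp (-(z.re * u)) := by gcongr
        _ = u ^ 2 * Real.exp (-(z.re * u)) + Real.exp (-(z.re * u)) := by ring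
        _ ≤ 16 / z.re ^ 2 * Real.exp (-(z.re / 2 * u)) + Real.exp (-(z.re / 2 * u)) := by
            gcongr
        _ = _ := by ring
    rw [hF]
    simp only [norm_neg, norm_mul]
    rw [norm_exp_mul]
    calc Real.exp (-(z.re * u)) * ‖(u : ℂ) ^ 2 / z + 2 * u / z ^ 2 + 2 / z ^ 3‖
        ≤ Real.exp (-(z.re * u)) * (u ^ 2 / ‖z‖ + 2 * u / ‖z‖ ^ 2 + 2 / ‖z‖ ^ 3) := by
          gcongr
          refine (norm_add_le _ _).trans ?_
          refine add_le_add ((norm_add_le _ _).trans (le_of_eq ?_)) (le_of_eq ?_)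
          · simp [abs_of_nonneg hu]
          · simp
      _ = (u ^ 2 * Real.exp (-(z.re * u))) / ‖z‖ + 2 * (u * Real.exp (-(z.re * u))) / ‖z‖ ^ 2 +
            2 * Real.exp (-(z.re * u)) / ‖z‖ ^ 3 := by ring
      _ ≤ (16 / z.re ^ 2 * Real.exp (-(z.re / 2 * u))) / ‖z‖ +
            2 * ((16 / z.re ^ 2 + 1) * Real.exp (-(z.re / 2 * u))) / ‖z‖ ^ 2 +
            2 * Real.exp (-(z.re / 2 * u)) / ‖z‖ ^ 3 := by gcongr
      _ = _ := by ring
  have := integral_Ioi_of_hasDerivAt_of_tendsto hcont hd (integrableOn_sq_exp hz) htend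
  rw [this, hF]
  simp

end Pool.Agent.Lib.MP_00e05b_nt
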