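import Mathlib

/-!
# Pairing a Laplace transform with a test function
-/

open Complex Metric Set Filter Topology MeasureTheory
open scoped FourierTransform SchwartzMap ContDiff

namespace Pool.Agent.Lib.MP_00e05b_nt

lemma pairing (H : 𝓢(ℝ, ℂ)) (ψ : ℝ → ℂ) (hψ : Integrable ψ) :
    ∫ ξ : ℝ, 𝓕 (H : ℝ → ℂ) ξ * (∫ u : ℝ, ψ u * Complex.exp (2 * Real.pi * ξ * u * I)) =
      ∫ u : ℝ, ψ u * H u := by
  have hF : Integrable (𝓕 (H : ℝ → ℂ)) := by
    rw [← SchwartzMap.fourier_coe]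
    exact (𝓕 H).integrable
  have hexp : Continuous (fun p : ℝ × ℝ => Complex.exp (2 * Real.pi * p.1 * p.2 * I)) := by
    fun_prop
  have hprod : Integrable (fun p : ℝ × ℝ => 𝓕 (H : ℝ → ℂ) p.1 *
      (ψ p.2 * Complex.exp (2 * Real.pi * p.1 * p.2 * I))) (volume.prod volume) := by
    have h1 : Integrable (fun p : ℝ × ℝ => 𝓕 (H : ℝ → ℂ) p.1 * ψ p.2) (volume.prod volume) :=
      hF.mul_prod hψ
    have h2 := h1.mul_bdd (c := 1) (g := fun p : ℝ × ℝ => Complex.exp (2 * Real.pi * p.1 * p.2 * I))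
      hexp.aestronglyMeasurable (Eventually.of_forall (fun p => by
        have : (2 * Real.pi * p.1 * p.2 * I : ℂ) = ((2 * Real.pi * p.1 * p.2 : ℝ) : ℂ) * I := by
          push_cast; ring
        rw [this, Complex.norm_exp_ofReal_mul_I]))
    refine h2.congr (Eventually.of_forall fun p => ?_)
    simp only
    ring
  calc ∫ ξ : ℝ, 𝓕 (H : ℝ → ℂ) ξ * (∫ u : ℝ, ψ u * Complex.exp (2 * Real.pi * ξ * u * I))
      = ∫ ξ : ℝ, ∫ u : ℝ, 𝓕 (H : ℝ → ℂ) ξ * (ψ u * Complex.exp (2 * Real.pi * ξ * u * I)) := by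
        congr 1; ext ξ
        rw [integral_const_mul]
    _ = ∫ u : ℝ, ∫ ξ : ℝ, 𝓕 (H : ℝ → ℂ) ξ * (ψ u * Complex.exp (2 * Real.pi * ξ * u * I)) :=
        integral_integral_swap hprod
    _ = ∫ u : ℝ, ψ u * H u := by
        congr 1; ext u
        have h3 : 𝓕⁻ (𝓕 (H : ℝ → ℂ)) u = H u := by
          rw [H.continuous.fourierInv_fourier_eq H.integrable hF]
        rw [← h3, Real.fourierInv_eq', ← integral_const_mul]
        congr 1; ext ξ
        simp only [smul_eq_mul]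
        have e1 : Complex.exp (2 * Real.pi * ξ * u * I) =
            Complex.exp (↑(2 * Real.pi * (inner ℝ ξ u)) * I) := by
          congr 1
          simp
          ring
        rw [e1]
        ring

end Pool.Agent.Lib.MP_00e05b_nt
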