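import Mathlib

/-!
# Removing finitely many zeros of an entire function
-/

open Complex Metric Set Filter Topology

namespace Pool.Agent.Lib.MP_00e05b_nt

variable {f : ℂ → ℂ}

lemma order_ne_top (hf : Differentiable ℂ f) {z₀ : ℂ} (h0 : f z₀ ≠ 0) (a : ℂ) :
    analyticOrderAt f a ≠ ⊤ := by
  have hfa : AnalyticOnNhd ℂ f univ := fun z _ => hf.analyticAt z
  refine hfa.analyticOrderAt_ne_top_of_isPreconnected isPreconnected_univ (mem_univ z₀)
    (mem_univ a) ?_
  rw [(hf.analyticAt z₀).analyticOrderAt_eq_zero.2 h0]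
  simp

lemma order_eq_zero (hf : Differentiable ℂ f) {a : ℂ} (h0 : f a ≠ 0) :
    analyticOrderNatAt f a = 0 := by
  rw [analyticOrderNatAt, (hf.analyticAt a).analyticOrderAt_eq_zero.2 h0]
  rfl

lemma order_pos (hf : Differentiable ℂ f) {z₀ : ℂ} (h0 : f z₀ ≠ 0) {a : ℂ} (ha : f a = 0) :
    0 < analyticOrderNatAt f a := by
  rw [Nat.pos_iff_ne_zero]
  intro h
  have h1 := Nat.cast_analyticOrderNatAt (order_ne_top hf h0 a)
  rw [h] at h1
  have h2 := (hf.analyticAt a).analyticOrderAt_eq_zero.1 h1.symm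
  exact h2 ha

lemma exists_factor_one (hf : Differentiable ℂ f) {z₀ : ℂ} (h0 : f z₀ ≠ 0) (a : ℂ) :
    ∃ g : ℂ → ℂ, Differentiable ℂ g ∧ (∀ z, f z = (z - a) ^ (analyticOrderNatAt f a) * g z) ∧
      g a ≠ 0 := by
  obtain ⟨g₀, hg₀, hne, hev⟩ := ((hf.analyticAt a).analyticOrderAt_ne_top).1 (order_ne_top hf h0 a)
  set m := analyticOrderNatAt f a with hm
  set g : ℂ → ℂ := fun z => if z = a then g₀ a else f z / (z - a) ^ m with hg
  have hga : g a = g₀ a := by simp [hg]
  have hgz : ∀ z, z ≠ a → g z = f z / (z - a) ^ m := fun z hz => by simp [hg, hz]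
  have hev2 : g =ᶠ[𝓝 a] g₀ := by
    filter_upwards [hev] with z hz
    by_cases h : z = a
    · subst h; exact hga
    · rw [hgz z h, hz, smul_eq_mul, mul_div_cancel_left₀]
      exact pow_ne_zero _ (sub_ne_zero.2 h)
  refine ⟨g, ?_, ?_, ?_⟩
  · intro z
    by_cases h : z = a
    · subst h
      exact (hg₀.congr hev2.symm).differentiableAt
    · have h1 : g =ᶠ[𝓝 z] fun z => f z / (z - a) ^ m := by
        filter_upwards [isOpen_ne.mem_nhds h] with w hw
        exact hgz w hw
      refine DifferentiableAt.congr_of_eventuallyEq ?_ h1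
      refine (hf z).div (by fun_prop) ?_
      exact pow_ne_zero _ (sub_ne_zero.2 h)
  · intro z
    by_cases h : z = a
    · subst h
      rw [hga]
      have := hev.self_of_nhds
      simpa [smul_eq_mul] using this
    · rw [hgz z h, mul_div_cancel₀]
      exact pow_ne_zero _ (sub_ne_zero.2 h)
  · rw [hga]; exact hne

lemma exists_factor (hf : Differentiable ℂ f) {z₀ : ℂ} (h0 : f z₀ ≠ 0) (S : Finset ℂ) :
    ∃ g : ℂ → ℂ, Differentiable ℂ g ∧
      (∀ z, f z = (∏ a ∈ S, (z - a) ^ (analyticOrderNatAt f a)) * g z) ∧ ∀ a ∈ S, g a ≠ 0 := by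
  classical
  induction S using Finset.induction_on with
  | empty => exact ⟨f, hf, by simp, by simp⟩
  | insert a S ha ih =>
    obtain ⟨g, hg, hfg, hS⟩ := ih
    have hg0 : g z₀ ≠ 0 := by
      intro h
      apply h0
      rw [hfg, h, mul_zero]
    obtain ⟨g₂, hg₂, hgg, hne⟩ := exists_factor_one hg hg0 a
    have hord : analyticOrderNatAt f a = analyticOrderNatAt g a := by
      have h1 : f = (fun z => ∏ a ∈ S, (z - a) ^ (analyticOrderNatAt f a)) * g := by
        funext z; exact hfg z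
      have hP : AnalyticAt ℂ (fun z => ∏ a ∈ S, (z - a) ^ (analyticOrderNatAt f a)) a := by
        have : Differentiable ℂ (fun z => ∏ a ∈ S, (z - a) ^ (analyticOrderNatAt f a)) := by
          fun_prop
        exact this.analyticAt a
      have hPa : (∏ b ∈ S, (a - b) ^ (analyticOrderNatAt f b)) ≠ 0 := by
        rw [Finset.prod_ne_zero_iff]
        intro b hb
        apply pow_ne_zero
        rw [sub_ne_zero]
        rintro rfl
        exact ha hb
      have h2 : analyticOrderAt f a = analyticOrderAt g a := by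
        conv_lhs => rw [h1]
        rw [analyticOrderAt_mul hP (hg.analyticAt a), hP.analyticOrderAt_eq_zero.2 hPa, zero_add]
      rw [analyticOrderNatAt, h2, analyticOrderNatAt]
    refine ⟨g₂, hg₂, ?_, ?_⟩
    · intro z
      rw [Finset.prod_insert ha, hord, mul_right_comm, mul_comm _ (∏ a ∈ S, _)]
      rw [hfg z, hgg z]
    · intro b hb
      rw [Finset.mem_insert] at hb
      rcases hb with rfl | hb
      · exact hne
      · intro h
        exact hS b hb (by rw [hgg b, h, mul_zero])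

/-- normalised version: product of `1 - z/a` -/
lemma exists_factor' (hf : Differentiable ℂ f) (h0 : f 0 ≠ 0) (S : Finset ℂ)
    (hS : ∀ a ∈ S, f a = 0) :
    ∃ g : ℂ → ℂ, Differentiable ℂ g ∧
      (∀ z, f z = (∏ a ∈ S, (1 - z / a) ^ (analyticOrderNatAt f a)) * g z) ∧
      (∀ a ∈ S, g a ≠ 0) ∧ g 0 = f 0 := by
  obtain ⟨g, hg, hfg, hne⟩ := exists_factor hf h0 S
  have ha0 : ∀ a ∈ S, a ≠ 0 := by
    rintro a ha rfl
    exact h0 (hS 0 ha)
  set c : ℂ := ∏ a ∈ S, (-a) ^ (analyticOrderNatAt f a) with hc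
  have hc0 : c ≠ 0 := by
    rw [hc, Finset.prod_ne_zero_iff]
    intro a ha
    exact pow_ne_zero _ (neg_ne_zero.2 (ha0 a ha))
  refine ⟨fun z => c * g z, by fun_prop, ?_, ?_, ?_⟩
  · intro z
    rw [hfg z, ← mul_assoc]
    congr 1
    rw [hc, ← Finset.prod_mul_distrib]
    apply Finset.prod_congr rfl
    intro a ha
    rw [← mul_pow]
    congr 1
    field_simp [ha0 a ha]
    ring
  · intro a ha
    exact mul_ne_zero hc0 (hne a ha)
  · change c * g 0 = f 0
    rw [hfg 0, hc]
    congr 1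
    apply Finset.prod_congr rfl
    intro a _
    rw [zero_sub]

end Pool.Agent.Lib.MP_00e05b_nt
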