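import Mathlib
import Pool.Agent.Lib.MP_00e05b_nt.Factor

/-!
# Counting zeros of entire functions of order at most two
-/

open Complex Metric Set Filter Topology

namespace Pool.Agent.Lib.MP_00e05b_nt

variable {f : ℂ → ℂ}

/-- `f` is entire, `f 0 ≠ 0` and `log |f|` grows at most quadratically. -/
structure Growth (f : ℂ → ℂ) (C : ℝ) : Prop where
  diff : Differentiable ℂ f
  ne : f 0 ≠ 0
  nonneg : 0 ≤ C
  bound : ∀ z, ‖f z‖ ≤ Real.exp (C * (1 + ‖z‖) ^ 2)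

lemma norm_le_of_sphere {g : ℂ → ℂ} (hg : Differentiable ℂ g) {R M : ℝ} (hR : 0 < R)
    (h : ∀ z, ‖z‖ = R → ‖g z‖ ≤ M) {z : ℂ} (hz : ‖z‖ ≤ R) : ‖g z‖ ≤ M := by
  have h1 : DiffContOnCl ℂ g (ball 0 R) := hg.diffContOnCl
  refine Complex.norm_le_of_forall_mem_frontier_norm_le isBounded_ball h1 ?_ ?_
  · intro w hw
    rw [frontier_ball _ hR.ne'] at hw
    exact h w (by simpa using hw)
  · rw [closure_ball _ hR.ne']
    simpa using hz

lemma sum_order_le {C : ℝ} (hf : Growth f C) {r : ℝ} (hr : 0 < r) (S : Finset ℂ)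
    (hS : ∀ a ∈ S, f a = 0 ∧ ‖a‖ ≤ r) :
    (∑ a ∈ S, (analyticOrderNatAt f a : ℝ)) * Real.log 2 ≤ C * (1 + 3 * r) ^ 2 -
      Real.log ‖f 0‖ := by
  obtain ⟨g, hg, hfg, -, hg0⟩ := exists_factor' hf.diff hf.ne S (fun a ha => (hS a ha).1)
  set n : ℕ := ∑ a ∈ S, analyticOrderNatAt f a with hn
  have hb : ∀ z, ‖z‖ = 3 * r → ‖g z‖ ≤ Real.exp (C * (1 + 3 * r) ^ 2) / 2 ^ n := by
    intro z hz
    rw [le_div_iff₀ (by positivity)]
    have h1 := hf.bound z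
    rw [hfg z, norm_mul, hz] at h1
    refine le_trans ?_ h1
    rw [mul_comm]
    gcongr
    rw [norm_prod, hn, ← Finset.prod_pow_eq_pow_sum]
    gcongr with a ha
    rw [norm_pow]
    gcongr
    have ha0 : a ≠ 0 := by
      rintro rfl
      exact hf.ne (hS 0 ha).1
    have hap : 0 < ‖a‖ := norm_pos_iff.2 ha0
    have h2 : ‖z / a‖ = 3 * r / ‖a‖ := by rw [norm_div, hz]
    have h3 : 3 ≤ 3 * r / ‖a‖ := by
      rw [le_div_iff₀ hap]
      have := (hS a ha).2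
      linarith
    have h4 : ‖z / a‖ - ‖(1 : ℂ)‖ ≤ ‖z / a - 1‖ := norm_sub_norm_le _ _
    rw [norm_one, h2] at h4
    rw [norm_sub_rev]
    linarith
  have h5 : ‖g 0‖ ≤ _ := norm_le_of_sphere hg (by positivity : 0 < 3 * r) hb (z := 0) (by simp; positivity)
  rw [hg0] at h5
  have hf0 : 0 < ‖f 0‖ := norm_pos_iff.2 hf.ne
  rw [le_div_iff₀ (by positivity)] at h5
  have h6 := Real.log_le_log (by positivity) h5
  rw [Real.log_exp, Real.log_mul hf0.ne' (by positivity), Real.log_pow] at h6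
  have h7 : (n : ℝ) = ∑ a ∈ S, (analyticOrderNatAt f a : ℝ) := by
    rw [hn]; push_cast; rfl
  rw [h7] at h6
  linarith

lemma finite_zeros {C : ℝ} (hf : Growth f C) (r : ℝ) : {a : ℂ | f a = 0 ∧ ‖a‖ ≤ r}.Finite := by
  rcases le_or_gt r 0 with hr | hr
  · refine Set.Finite.subset (Set.finite_singleton (0 : ℂ)) ?_
    intro a ha
    simp only [mem_ofPred_eq] at ha
    rw [mem_singleton_iff]
    exact norm_le_zero_iff.1 (ha.2.trans hr)
  by_contra hinf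
  have hinf' : {a : ℂ | f a = 0 ∧ ‖a‖ ≤ r}.Infinite := hinf
  obtain ⟨n, hn⟩ := exists_nat_gt ((C * (1 + 3 * r) ^ 2 - Real.log ‖f 0‖) / Real.log 2)
  obtain ⟨S, hS, hcard⟩ := hinf'.exists_subset_card_eq n
  have h1 := sum_order_le hf hr S (fun a ha => hS ha)
  have hl : 0 < Real.log 2 := Real.log_pos (by norm_num)
  rw [div_lt_iff₀ hl] at hn
  have h2 : (n : ℝ) ≤ ∑ a ∈ S, (analyticOrderNatAt f a : ℝ) := by
    calc (n : ℝ) = ∑ a ∈ S, (1 : ℝ) := by simp [hcard]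
      _ ≤ _ := by
        apply Finset.sum_le_sum
        intro a ha
        have := order_pos hf.diff hf.ne (hS ha).1
        exact_mod_cast this
  nlinarith

/-- The finite set of zeros in the closed ball of radius `r`. -/
noncomputable def zs (f : ℂ → ℂ) (r : ℝ) : Finset ℂ := by
  classical
  exact if h : {a : ℂ | f a = 0 ∧ ‖a‖ ≤ r}.Finite then h.toFinset else ∅

lemma mem_zs {C : ℝ} (hf : Growth f C) (r : ℝ) (a : ℂ) : a ∈ zs f r ↔ f a = 0 ∧ ‖a‖ ≤ r := by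
  unfold zs
  rw [dif_pos (finite_zeros hf r)]
  simp

lemma count_bound {C : ℝ} (hf : Growth f C) : ∃ K : ℝ, 0 ≤ K ∧ ∀ r : ℝ, 0 < r → ∀ S : Finset ℂ,
    (∀ a ∈ S, f a = 0 ∧ ‖a‖ ≤ r) → ∑ a ∈ S, (analyticOrderNatAt f a : ℝ) ≤ K * (1 + r) ^ 2 := by
  have hl : 0 < Real.log 2 := Real.log_pos (by norm_num)
  refine ⟨(9 * C + |Real.log ‖f 0‖|) / Real.log 2, ?_, ?_⟩
  · have := hf.nonneg
    positivity
  · intro r hr S hS
    have h1 := sum_order_le hf hr S hS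
    rw [div_mul_eq_mul_div, le_div_iff₀ hl]
    refine h1.trans ?_
    have h2 : -Real.log ‖f 0‖ ≤ |Real.log ‖f 0‖| := neg_le_abs _
    have h3 : (1 : ℝ) ≤ (1 + r) ^ 2 := by nlinarith
    have h4 : C * (1 + 3 * r) ^ 2 ≤ 9 * C * (1 + r) ^ 2 := by
      have := hf.nonneg
      have h5 : (1 + 3 * r) ^ 2 ≤ 9 * (1 + r) ^ 2 := by nlinarith
      nlinarith
    have h6 : |Real.log ‖f 0‖| ≤ |Real.log ‖f 0‖| * (1 + r) ^ 2 := by
      have := abs_nonneg (Real.log ‖f 0‖)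
      nlinarith
    linarith

lemma summable_order {C : ℝ} (hf : Growth f C) :
    Summable (fun a : ℂ => (analyticOrderNatAt f a : ℝ) / (1 + ‖a‖) ^ 3) := by
  obtain ⟨K, hK, hcount⟩ := count_bound hf
  refine summable_of_sum_le (c := 18 * K) (fun a => by positivity) ?_
  intro S
  -- restrict to zeros
  classical
  set S' := S.filter (fun a => f a = 0) with hS'
  have h1 : ∑ a ∈ S, (analyticOrderNatAt f a : ℝ) / (1 + ‖a‖) ^ 3 =
      ∑ a ∈ S', (analyticOrderNatAt f a : ℝ) / (1 + ‖a‖) ^ 3 := by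
    rw [hS', Finset.sum_filter]
    apply Finset.sum_congr rfl
    intro a _
    split_ifs with h
    · rfl
    · rw [order_eq_zero hf.diff h]; simp
  rw [h1]
  set jj : ℂ → ℕ := fun a => Nat.log 2 (⌊‖a‖⌋₊ + 1) with hjj
  have hfib : ∑ a ∈ S', (analyticOrderNatAt f a : ℝ) / (1 + ‖a‖) ^ 3 =
      ∑ j ∈ S'.image jj, ∑ a ∈ S' with jj a = j,
        (analyticOrderNatAt f a : ℝ) / (1 + ‖a‖) ^ 3 :=
    (Finset.sum_fiberwise_of_maps_to (fun a ha => Finset.mem_image_of_mem jj ha) _).symm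
  rw [hfib]
  have hterm : ∀ j ∈ S'.image jj, ∑ a ∈ S' with jj a = j,
        (analyticOrderNatAt f a : ℝ) / (1 + ‖a‖) ^ 3 ≤ 9 * K * (1 / 2 : ℝ) ^ j := by
    intro j _
    have hj : ∀ a ∈ S'.filter (fun a => jj a = j), (2 : ℝ) ^ j ≤ 1 + ‖a‖ ∧ ‖a‖ ≤ 2 ^ (j + 1) := by
      intro a ha
      rw [Finset.mem_filter] at ha
      have h2 := ha.2
      rw [hjj] at h2
      simp only at h2
      have h3 : 2 ^ j ≤ ⌊‖a‖⌋₊ + 1 := by
        rw [← h2]; exact Nat.pow_log_le_self 2 (by omega)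
      have h4 : ⌊‖a‖⌋₊ + 1 < 2 ^ (j + 1) := by
        rw [← h2]; exact Nat.lt_pow_succ_log_self (by norm_num) _
      have h5 : (⌊‖a‖⌋₊ : ℝ) ≤ ‖a‖ := Nat.floor_le (norm_nonneg a)
      have h6 : ‖a‖ < ⌊‖a‖⌋₊ + 1 := Nat.lt_floor_add_one _
      have h3' : (2 : ℝ) ^ j ≤ ⌊‖a‖⌋₊ + 1 := by exact_mod_cast h3
      have h4' : ((⌊‖a‖⌋₊ : ℝ) + 1) < 2 ^ (j + 1) := by exact_mod_cast h4
      constructor
      · linarith
      · linarith
    calc ∑ a ∈ S' with jj a = j, (analyticOrderNatAt f a : ℝ) / (1 + ‖a‖) ^ 3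
        ≤ ∑ a ∈ S' with jj a = j, (analyticOrderNatAt f a : ℝ) / ((2 : ℝ) ^ j) ^ 3 := by
          apply Finset.sum_le_sum
          intro a ha
          have := (hj a ha).1
          gcongr
      _ = (∑ a ∈ S' with jj a = j, (analyticOrderNatAt f a : ℝ)) / ((2 : ℝ) ^ j) ^ 3 := by
          rw [Finset.sum_div]
      _ ≤ (K * (1 + 2 ^ (j + 1)) ^ 2) / ((2 : ℝ) ^ j) ^ 3 := by
          gcongr
          apply hcount _ (by positivity)
          intro a ha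
          refine ⟨?_, (hj a ha).2⟩
          rw [Finset.mem_filter, hS', Finset.mem_filter] at ha
          exact ha.1.2
      _ ≤ 9 * K * (1 / 2 : ℝ) ^ j := by
          have e1 : (1 : ℝ) ≤ 2 ^ j := one_le_pow₀ (by norm_num)
          have e2 : (2 : ℝ) ^ (j + 1) = 2 * 2 ^ j := by ring
          rw [e2, div_le_iff₀ (by positivity)]
          have e3 : (1 / 2 : ℝ) ^ j * ((2 : ℝ) ^ j) ^ 3 = (2 ^ j) ^ 2 := by
            have : (1 / 2 : ℝ) ^ j * 2 ^ j = 1 := by rw [← mul_pow]; norm_num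
            calc _ = ((1 / 2 : ℝ) ^ j * 2 ^ j) * (2 ^ j) ^ 2 := by ring
              _ = _ := by rw [this, one_mul]
          have e4 : (1 + 2 * (2 : ℝ) ^ j) ^ 2 ≤ 9 * (2 ^ j) ^ 2 := by nlinarith
          calc K * (1 + 2 * 2 ^ j) ^ 2 ≤ K * (9 * (2 ^ j) ^ 2) := by gcongr
            _ = 9 * K * (1 / 2) ^ j * (2 ^ j) ^ 3 := by rw [mul_assoc (9 * K), e3]; ring
  refine (Finset.sum_le_sum hterm).trans ?_
  have hsum : Summable (fun j : ℕ => 9 * K * (1 / 2 : ℝ) ^ j) :=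
    (summable_geometric_of_lt_one (by norm_num) (by norm_num)).mul_left _
  refine (hsum.sum_le_tsum _ (fun j _ => by positivity)).trans ?_
  rw [tsum_mul_left, tsum_geometric_of_lt_one (by norm_num) (by norm_num)]
  apply le_of_eq
  ring

end Pool.Agent.Lib.MP_00e05b_nt
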