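import Mathlib

/-!
# Partial fractions for the second derivative of the logarithmic derivative
-/

open Complex Metric Set Filter Topology

namespace Pool.Agent.Lib.MP_00e05b_nt

variable {f : ℂ → ℂ}

lemma exists_log_ball {g : ℂ → ℂ} (hg : Differentiable ℂ g) {R : ℝ}
    (hR : 0 < R) (hne : ∀ z ∈ ball (0 : ℂ) R, g z ≠ 0) :
    ∃ h : ℂ → ℂ, h 0 = 0 ∧ (∀ z ∈ ball (0 : ℂ) R, HasDerivAt h (logDeriv g z) z) ∧
      ∀ z ∈ ball (0 : ℂ) R, g z = g 0 * Complex.exp (h z) := by
  have h1 : DifferentiableOn ℂ (logDeriv g) (ball (0 : ℂ) R) := by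
    intro z hz
    have : DifferentiableAt ℂ (fun z => deriv g z / g z) z := by
      refine DifferentiableAt.div ?_ (hg z) (hne z hz)
      exact (hg.analyticAt z).deriv.differentiableAt
    exact this.differentiableWithinAt
  obtain ⟨h, h0, hh⟩ := (h1.isExactOn_ball).with_val_at 0 0
  refine ⟨h, h0, hh, ?_⟩
  intro z hz
  set φ : ℂ → ℂ := fun z => g z * Complex.exp (-h z) with hφ
  have hd : ∀ w ∈ ball (0 : ℂ) R, HasDerivAt φ 0 w := by
    intro w hw
    have e1 := (hg w).hasDerivAt.mul ((hh w hw).neg.cexp)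
    refine e1.congr_deriv ?_
    rw [logDeriv_apply]
    field_simp [hne w hw]
    ring
  have h2 : φ z = φ 0 := by
    refine isOpen_ball.is_const_of_deriv_eq_zero (convex_ball 0 R).isPreconnected
      (fun w hw => (hd w hw).differentiableAt.differentiableWithinAt) ?_ hz
      (mem_ball_self hR)
    intro w hw
    exact (hd w hw).deriv
  rw [hφ] at h2
  simp only [h0, neg_zero, Complex.exp_zero, mul_one] at h2
  rw [← h2, mul_assoc, ← Complex.exp_add, neg_add_cancel, Complex.exp_zero, mul_one]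

/-- third derivative bound of the logarithm -/
lemma log_third {g : ℂ → ℂ} (hg : Differentiable ℂ g) {R A : ℝ} (hR : 0 < R) (hA : 0 < A)
    (hne : ∀ z ∈ ball (0 : ℂ) R, g z ≠ 0)
    (hb : ∀ z ∈ ball (0 : ℂ) R, ‖g z‖ ≤ ‖g 0‖ * Real.exp A) {z : ℂ} (hz : ‖z‖ ≤ R / 4) :
    ‖deriv (deriv (logDeriv g)) z‖ ≤ 768 * A / R ^ 3 := by
  obtain ⟨h, h0, hh, hexp⟩ := exists_log_ball hg hR hne
  have hg0 : 0 < ‖g 0‖ := norm_pos_iff.2 (hne 0 (mem_ball_self hR))
  have hre : ∀ w ∈ ball (0 : ℂ) R, (h w).re ≤ A := by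
    intro w hw
    have h1 := hb w hw
    rw [hexp w hw, norm_mul, Complex.norm_exp] at h1
    have h2 := le_of_mul_le_mul_left h1 hg0
    exact Real.exp_le_exp.1 h2
  have hdiff : DifferentiableOn ℂ h (ball 0 R) := fun w hw =>
    (hh w hw).differentiableAt.differentiableWithinAt
  have hbound : ∀ w : ℂ, ‖w‖ ≤ R / 2 → ‖h w‖ ≤ 2 * A := by
    intro w hw
    have hw' : w ∈ ball (0 : ℂ) R := by
      rw [mem_ball_zero_iff]; linarith
    have h3 := borelCaratheodory_zero hA hdiff (fun w hw => hre w hw) hR hw' h0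
    refine h3.trans ?_
    rw [div_le_iff₀ (by linarith)]
    have : 2 * A * ‖w‖ ≤ 2 * A * (R / 2) := by gcongr
    nlinarith
  have hsub : ball z (R / 4) ⊆ ball (0 : ℂ) R := by
    intro w hw
    rw [mem_ball, dist_eq_norm] at hw
    rw [mem_ball_zero_iff]
    have := norm_add_le (w - z) z
    rw [sub_add_cancel] at this
    linarith
  have hsub' : closedBall z (R / 4) ⊆ ball (0 : ℂ) R := by
    intro w hw
    rw [mem_closedBall, dist_eq_norm] at hw
    rw [mem_ball_zero_iff]
    have := norm_add_le (w - z) z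
    rw [sub_add_cancel] at this
    linarith
  have hdc : DiffContOnCl ℂ h (ball z (R / 4)) := by
    refine ⟨hdiff.mono hsub, ?_⟩
    rw [closure_ball _ (by linarith)]
    exact (hdiff.mono hsub').continuousOn
  have h4 := norm_iteratedDeriv_le_of_forall_mem_sphere_norm_le 3 (by linarith : 0 < R / 4) hdc
    (C := 2 * A) (by
      intro w hw
      apply hbound
      rw [mem_sphere_iff_norm] at hw
      have := norm_add_le (w - z) z
      rw [sub_add_cancel] at this
      linarith)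
  have h5 : iteratedDeriv 3 h z = deriv (deriv (logDeriv g)) z := by
    rw [iteratedDeriv_succ', iteratedDeriv_succ', iteratedDeriv_succ', iteratedDeriv_zero]
    have hz' : z ∈ ball (0 : ℂ) R := by rw [mem_ball_zero_iff]; linarith
    have e1 : deriv h =ᶠ[𝓝 z] logDeriv g := by
      filter_upwards [isOpen_ball.mem_nhds hz'] with w hw
      exact (hh w hw).deriv
    exact e1.deriv.deriv_eq
  rw [h5] at h4
  refine h4.trans (le_of_eq ?_)
  norm_num [Nat.factorial]
  field_simp
  norm_num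

/-- second derivative of finite partial fractions -/
lemma deriv2_pf (S : Finset ℂ) (m : ℂ → ℂ) {z : ℂ} (hz : ∀ a ∈ S, z ≠ a) :
    deriv (deriv (fun w => ∑ a ∈ S, m a / (w - a))) z = ∑ a ∈ S, 2 * m a / (z - a) ^ 3 := by
  have hopen : ∀ᶠ w in 𝓝 z, ∀ a ∈ S, w ≠ a := by
    rw [Filter.eventually_all_finset]
    intro a ha
    exact isOpen_ne.mem_nhds (hz a ha)
  have hd1 : ∀ w : ℂ, (∀ a ∈ S, w ≠ a) →
      HasDerivAt (fun w => ∑ a ∈ S, m a / (w - a)) (∑ a ∈ S, -(m a) / (w - a) ^ 2) w := by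
    intro w hw
    apply HasDerivAt.fun_sum
    intro a ha
    have hne : w - a ≠ 0 := sub_ne_zero.2 (hw a ha)
    have := ((hasDerivAt_id w).sub_const a).inv hne
    have := this.const_mul (m a)
    simp only [id_eq] at this
    refine (this.congr_deriv ?_)
    field_simp
  have hd2 : ∀ w : ℂ, (∀ a ∈ S, w ≠ a) →
      HasDerivAt (fun w => ∑ a ∈ S, -(m a) / (w - a) ^ 2) (∑ a ∈ S, 2 * (m a) / (w - a) ^ 3) w := by
    intro w hw
    apply HasDerivAt.fun_sum
    intro a ha
    have hne : w - a ≠ 0 := sub_ne_zero.2 (hw a ha)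
    have h0 : HasDerivAt (fun x : ℂ => (x - a) ^ 2) (2 * (w - a)) w := by
      have := ((hasDerivAt_id w).sub_const a).fun_pow 2
      simpa using this
    have h1 : HasDerivAt (fun x : ℂ => ((x - a) ^ 2)⁻¹) (-(2 * (w - a)) / ((w - a) ^ 2) ^ 2) w :=
      h0.fun_inv (pow_ne_zero 2 hne)
    have := h1.const_mul (-(m a))
    refine (this.congr_deriv ?_)
    field_simp
  have e1 : deriv (fun w => ∑ a ∈ S, m a / (w - a)) =ᶠ[𝓝 z]
      fun w => ∑ a ∈ S, -(m a) / (w - a) ^ 2 := by
    filter_upwards [hopen] with w hw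
    exact (hd1 w hw).deriv
  rw [e1.deriv_eq]
  exact (hd2 z hz).deriv

lemma logDeriv_factor (S : Finset ℂ) (m : ℂ → ℕ) {g : ℂ → ℂ} (hg : Differentiable ℂ g)
    (hS0 : ∀ a ∈ S, a ≠ 0) {z : ℂ} (hz : ∀ a ∈ S, z ≠ a) (hgz : g z ≠ 0) :
    logDeriv (fun z => (∏ a ∈ S, (1 - z / a) ^ (m a)) * g z) z =
      ∑ a ∈ S, (m a : ℂ) / (z - a) + logDeriv g z := by
  have hne : ∀ a ∈ S, (1 - z / a) ≠ 0 := by
    intro a ha h
    apply hz a ha
    have := hS0 a ha
    field_simp at h
    linear_combination -h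
  rw [logDeriv_mul]
  · congr 1
    rw [logDeriv_prod]
    · apply Finset.sum_congr rfl
      intro a ha
      rw [logDeriv_fun_pow (by fun_prop)]
      rw [logDeriv_apply]
      have hd : HasDerivAt (fun z : ℂ => 1 - z / a) (-(1 / a)) z := by
        have := ((hasDerivAt_id z).div_const a).const_sub 1
        simpa using this
      rw [hd.deriv]
      have h2 := hne a ha
      have h3 := hS0 a ha
      have h4 : z - a ≠ 0 := sub_ne_zero.2 (hz a ha)
      have h5 : a - z ≠ 0 := sub_ne_zero.2 (hz a ha).symm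
      have h6 : (1 - z / a) = (a - z) / a := by field_simp
      rw [h6]
      field_simp
      ring
    · intro a ha
      exact pow_ne_zero _ (hne a ha)
    · intro a ha
      fun_prop
  · rw [Finset.prod_ne_zero_iff]
    intro a ha
    exact pow_ne_zero _ (hne a ha)
  · exact hgz
  · fun_prop
  · exact hg z

end Pool.Agent.Lib.MP_00e05b_nt
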