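import Mathlib
import Pool.Agent.Lib.MP_00e05b_nt.PartialFrac
import Pool.Agent.Lib.MP_00e05b_nt.Count

/-!
# The partial fraction theorem for functions of quadratic growth
-/

open Complex Metric Set Filter Topology

namespace Pool.Agent.Lib.MP_00e05b_nt

variable {f : ℂ → ℂ}

lemma deriv2_add {F G : ℂ → ℂ} {z : ℂ} (hF : AnalyticAt ℂ F z) (hG : AnalyticAt ℂ G z) :
    deriv (deriv (fun w => F w + G w)) z = deriv (deriv F) z + deriv (deriv G) z := by
  have h1 : deriv (fun w => F w + G w) =ᶠ[𝓝 z] fun w => deriv F w + deriv G w := by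
    filter_upwards [hF.eventually_analyticAt, hG.eventually_analyticAt] with w hw1 hw2
    exact deriv_fun_add hw1.differentiableAt hw2.differentiableAt
  rw [h1.deriv_eq]
  exact deriv_fun_add hF.deriv.differentiableAt hG.deriv.differentiableAt

lemma pf_bound {C : ℝ} (hf : Growth f C) {z : ℂ} (hz : f z ≠ 0) :
    ∃ K : ℝ, 0 ≤ K ∧ ∀ a : ℂ, f a = 0 → 1 / ‖z - a‖ ^ 3 ≤ K / (1 + ‖a‖) ^ 3 := by
  have h1 : ∀ᶠ w in 𝓝 z, f w ≠ 0 := hf.diff.continuous.continuousAt.eventually_ne hz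
  obtain ⟨δ, hδ, hball⟩ := Metric.eventually_nhds_iff_ball.1 h1
  refine ⟨((1 + ‖z‖) / δ + 1) ^ 3, by positivity, ?_⟩
  intro a ha
  have h2 : δ ≤ ‖z - a‖ := by
    by_contra h
    push Not at h
    refine hball a ?_ ha
    rw [mem_ball, dist_comm, dist_eq_norm]
    exact h
  have h3 : 0 < ‖z - a‖ := hδ.trans_le h2
  have h4 : 1 + ‖a‖ ≤ ((1 + ‖z‖) / δ + 1) * ‖z - a‖ := by
    have h5 : ‖a‖ ≤ ‖z‖ + ‖z - a‖ := by
      have := norm_sub_norm_le a z
      rw [norm_sub_rev] at this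
      linarith
    have h6 : 1 + ‖z‖ ≤ (1 + ‖z‖) / δ * ‖z - a‖ := by
      rw [div_mul_eq_mul_div, le_div_iff₀ hδ]
      have : 0 ≤ ‖z‖ := norm_nonneg z
      nlinarith
    linarith
  rw [div_le_div_iff₀ (by positivity) (by positivity), one_mul, ← mul_pow]
  gcongr

lemma pf_summable {C : ℝ} (hf : Growth f C) {z : ℂ} (hz : f z ≠ 0) :
    Summable (fun a : ℂ => ‖2 * (analyticOrderNatAt f a : ℂ) / (z - a) ^ 3‖) := by
  obtain ⟨K, hK, hbd⟩ := pf_bound hf hz
  refine Summable.of_nonneg_of_le (fun a => norm_nonneg _) ?_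
    ((summable_order hf).mul_left (2 * K))
  intro a
  rw [norm_div, norm_mul, norm_pow, Complex.norm_natCast]
  simp only [RCLike.norm_ofNat]
  by_cases ha : f a = 0
  · have := hbd a ha
    calc 2 * (analyticOrderNatAt f a : ℝ) / ‖z - a‖ ^ 3 =
          2 * (analyticOrderNatAt f a : ℝ) * (1 / ‖z - a‖ ^ 3) := by ring
      _ ≤ 2 * (analyticOrderNatAt f a : ℝ) * (K / (1 + ‖a‖) ^ 3) := by gcongr
      _ = _ := by ring
  · rw [order_eq_zero hf.diff ha]
    simp

lemma pf_finite {C : ℝ} (hf : Growth f C) {z : ℂ} (hz : f z ≠ 0) {R : ℝ} (hR : 1 ≤ R)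
    (hzR : ‖z‖ ≤ R / 4) :
    ‖deriv (deriv (logDeriv f)) z - ∑ a ∈ zs f R, 2 * (analyticOrderNatAt f a : ℂ) / (z - a) ^ 3‖ ≤
      768 * (C * (1 + 2 * R) ^ 2 + |Real.log ‖f 0‖| + 1) / R ^ 3 := by
  have hR0 : 0 < R := by linarith
  obtain ⟨g, hg, hfg, hgS, hg0⟩ := exists_factor' hf.diff hf.ne (zs f R)
    (fun a ha => ((mem_zs hf R a).1 ha).1)
  have ha0 : ∀ a ∈ zs f R, a ≠ 0 := by
    rintro a ha rfl
    exact hf.ne ((mem_zs hf R 0).1 ha).1
  have hza : ∀ a ∈ zs f R, z ≠ a := by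
    rintro a ha rfl
    exact hz ((mem_zs hf R z).1 ha).1
  -- bound for g
  have hb : ∀ w, ‖w‖ = 2 * R → ‖g w‖ ≤ Real.exp (C * (1 + 2 * R) ^ 2) := by
    intro w hw
    have h1 := hf.bound w
    rw [hfg w, norm_mul, hw] at h1
    refine le_trans ?_ h1
    have h2 : 1 ≤ ‖∏ a ∈ zs f R, (1 - w / a) ^ (analyticOrderNatAt f a)‖ := by
      rw [norm_prod]
      rw [← Finset.prod_const_one (s := zs f R)]
      apply Finset.prod_le_prod
      · intro a _; norm_num
      intro a ha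
      rw [norm_pow]
      apply one_le_pow₀
      have hap : 0 < ‖a‖ := norm_pos_iff.2 (ha0 a ha)
      have h2 : ‖w / a‖ = 2 * R / ‖a‖ := by rw [norm_div, hw]
      have h3 : 2 ≤ 2 * R / ‖a‖ := by
        rw [le_div_iff₀ hap]
        have := ((mem_zs hf R a).1 ha).2
        linarith
      have h4 : ‖w / a‖ - ‖(1 : ℂ)‖ ≤ ‖w / a - 1‖ := norm_sub_norm_le _ _
      rw [norm_one, h2] at h4
      rw [norm_sub_rev]
      linarith
    nlinarith [norm_nonneg (g w)]
  have hgne : ∀ w ∈ ball (0 : ℂ) R, g w ≠ 0 := by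
    intro w hw h
    have hfw : f w = 0 := by rw [hfg w, h, mul_zero]
    have : w ∈ zs f R := (mem_zs hf R w).2 ⟨hfw, (mem_ball_zero_iff.1 hw).le⟩
    exact hgS w this h
  have hf0 : 0 < ‖f 0‖ := norm_pos_iff.2 hf.ne
  have hA : 0 < C * (1 + 2 * R) ^ 2 + |Real.log ‖f 0‖| + 1 := by
    have := hf.nonneg
    positivity
  have hgb : ∀ w ∈ ball (0 : ℂ) R, ‖g w‖ ≤
      ‖g 0‖ * Real.exp (C * (1 + 2 * R) ^ 2 + |Real.log ‖f 0‖| + 1) := by
    intro w hw
    have h1 : ‖g w‖ ≤ Real.exp (C * (1 + 2 * R) ^ 2) :=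
      norm_le_of_sphere hg (by positivity) hb (by rw [mem_ball_zero_iff] at hw; linarith)
    refine h1.trans ?_
    rw [hg0]
    conv_rhs => rw [← Real.exp_log hf0, ← Real.exp_add]
    rw [Real.log_exp]
    apply Real.exp_le_exp.2
    have := neg_le_abs (Real.log ‖f 0‖)
    linarith
  have h3 := log_third hg hR0 hA hgne hgb hzR
  have hzb : z ∈ ball (0 : ℂ) R := by rw [mem_ball_zero_iff]; linarith
  -- decomposition
  have e1 : logDeriv f =ᶠ[𝓝 z] fun w => (∑ a ∈ zs f R, (analyticOrderNatAt f a : ℂ) / (w - a)) +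
      logDeriv g w := by
    have h4 : ∀ᶠ w in 𝓝 z, f w ≠ 0 := hf.diff.continuous.continuousAt.eventually_ne hz
    filter_upwards [h4] with w hw
    have hwa : ∀ a ∈ zs f R, w ≠ a := by
      rintro a ha rfl
      exact hw ((mem_zs hf R w).1 ha).1
    have hgw : g w ≠ 0 := by
      intro h
      exact hw (by rw [hfg w, h, mul_zero])
    have h5 : f = fun z => (∏ a ∈ zs f R, (1 - z / a) ^ (analyticOrderNatAt f a)) * g z := by
      funext z; exact hfg z
    conv_lhs => rw [h5]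
    exact logDeriv_factor _ _ hg ha0 hwa hgw
  have hF : AnalyticAt ℂ (fun w => ∑ a ∈ zs f R, (analyticOrderNatAt f a : ℂ) / (w - a)) z := by
    refine Finset.analyticAt_fun_sum _ ?_
    intro a ha
    exact analyticAt_const.div (analyticAt_id.sub analyticAt_const) (sub_ne_zero.2 (hza a ha))
  have hG : AnalyticAt ℂ (logDeriv g) z :=
    (hg.analyticAt z).deriv.div (hg.analyticAt z) (hgne z hzb)
  rw [(e1.deriv).deriv_eq, deriv2_add hF hG, deriv2_pf _ _ hza, add_sub_cancel_left]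
  exact h3

theorem partial_fraction {C : ℝ} (hf : Growth f C) {z : ℂ} (hz : f z ≠ 0) :
    HasSum (fun a : ℂ => 2 * (analyticOrderNatAt f a : ℂ) / (z - a) ^ 3)
      (deriv (deriv (logDeriv f)) z) := by
  set T : ℂ → ℂ := fun a => 2 * (analyticOrderNatAt f a : ℂ) / (z - a) ^ 3 with hT
  have hs : Summable (fun a => ‖T a‖) := pf_summable hf hz
  have hs' : Summable T := hs.of_norm
  have hz0 : ∀ a, f a ≠ 0 → T a = 0 := by
    intro a ha
    rw [hT]
    simp [order_eq_zero hf.diff ha]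
  have h1 : Tendsto (fun R : ℕ => ∑' a, if ‖a‖ ≤ (R : ℝ) then T a else 0) atTop (𝓝 (∑' a, T a)) := by
    refine tendsto_tsum_of_dominated_convergence hs ?_ ?_
    · intro a
      apply tendsto_const_nhds.congr'
      obtain ⟨N, hN⟩ := exists_nat_ge ‖a‖
      filter_upwards [eventually_ge_atTop N] with R hR
      rw [if_pos (hN.trans (by exact_mod_cast hR))]
    · refine Eventually.of_forall fun R a => ?_
      split_ifs
      · exact le_rfl
      · simp
  have h2 : ∀ R : ℕ, (∑' a, if ‖a‖ ≤ (R : ℝ) then T a else 0) = ∑ a ∈ zs f R, T a := by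
    intro R
    rw [tsum_eq_sum (s := zs f R)]
    · apply Finset.sum_congr rfl
      intro a ha
      rw [if_pos ((mem_zs hf R a).1 ha).2]
    · intro a ha
      split_ifs with h
      · apply hz0
        intro h0
        exact ha ((mem_zs hf R a).2 ⟨h0, h⟩)
      · rfl
  have h3 : Tendsto (fun R : ℕ => deriv (deriv (logDeriv f)) z - ∑ a ∈ zs f R, T a) atTop (𝓝 0) := by
    have hlim : Tendsto (fun R : ℕ => 768 * (C * (1 + 2 * (R : ℝ)) ^ 2 + |Real.log ‖f 0‖| + 1) /
        (R : ℝ) ^ 3) atTop (𝓝 0) := by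
      have hi : Tendsto (fun R : ℕ => ((R : ℝ))⁻¹) atTop (𝓝 0) :=
        tendsto_inv_atTop_zero.comp tendsto_natCast_atTop_atTop
      have : Tendsto (fun R : ℕ => 768 * (C * ((R : ℝ)⁻¹ + 2) ^ 2 * (R : ℝ)⁻¹ +
          (|Real.log ‖f 0‖| + 1) * ((R : ℝ)⁻¹) ^ 3)) atTop
          (𝓝 (768 * (C * (0 + 2) ^ 2 * 0 + (|Real.log ‖f 0‖| + 1) * 0 ^ 3))) := by
        refine Tendsto.const_mul _ (Tendsto.add ?_ ?_)
        · exact ((tendsto_const_nhds).mul ((hi.add tendsto_const_nhds).pow 2)).mul hi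
        · exact (tendsto_const_nhds).mul (hi.pow 3)
      simp only [mul_zero, ne_eq, OfNat.ofNat_ne_zero, not_false_eq_true, zero_pow, add_zero] at this
      refine this.congr' ?_
      filter_upwards [eventually_ge_atTop 1] with R hR
      have hR' : (R : ℝ) ≠ 0 := by
        have : (0 : ℝ) < R := by exact_mod_cast hR
        exact this.ne'
      field_simp
      ring
    rw [tendsto_zero_iff_norm_tendsto_zero]
    refine squeeze_zero' (Eventually.of_forall fun R => norm_nonneg _) ?_ hlim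
    obtain ⟨N, hN⟩ := exists_nat_ge (4 * ‖z‖)
    filter_upwards [eventually_ge_atTop (max N 1)] with R hR
    have hR1 : (1 : ℝ) ≤ R := by exact_mod_cast (le_max_right N 1).trans hR
    have hRN : (N : ℝ) ≤ R := by exact_mod_cast (le_max_left N 1).trans hR
    exact pf_finite hf hz hR1 (by linarith)
  have h4 : Tendsto (fun R : ℕ => ∑ a ∈ zs f R, T a) atTop (𝓝 (deriv (deriv (logDeriv f)) z)) := by
    have := (tendsto_const_nhds (x := deriv (deriv (logDeriv f)) z)).sub h3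
    simpa using this
  have h5 : ∑' a, T a = deriv (deriv (logDeriv f)) z := by
    refine tendsto_nhds_unique ?_ h4
    refine h1.congr ?_
    intro R
    exact h2 R
  rw [← h5]
  exact hs'.hasSum

end Pool.Agent.Lib.MP_00e05b_nt
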