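import Mathlib
import Pool.Agent.Lib.MP_00e05b_nt.Count

/-!
# The entire function `xi s = s (1 - s) Λ(s)`
-/

open Complex Metric Set Filter Topology MeasureTheory

namespace Pool.Agent.Lib.MP_00e05b_nt

/-- `s (1 - s) Λ(s)`, written with the entire function `Λ₀`. -/
noncomputable def xi (s : ℂ) : ℂ := s * (1 - s) * completedRiemannZeta₀ s - 1

lemma differentiable_xi : Differentiable ℂ xi := by
  unfold xi
  have := differentiable_completedZeta₀
  fun_prop

lemma xi_one_sub (s : ℂ) : xi (1 - s) = xi s := by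
  unfold xi
  rw [completedRiemannZeta₀_one_sub]
  ring

lemma xi_zero : xi 0 = -1 := by simp [xi]

lemma xi_one : xi 1 = -1 := by simp [xi]

lemma xi_eq {s : ℂ} (h0 : s ≠ 0) (h1 : s ≠ 1) : xi s = s * (1 - s) * completedRiemannZeta s := by
  have h2 : 1 - s ≠ 0 := sub_ne_zero.2 h1.symm
  rw [xi, completedRiemannZeta_eq]
  field_simp
  ring

lemma xi_eq_zeta {s : ℂ} (h0 : 0 < s.re) (h1 : s ≠ 1) :
    xi s = s * (1 - s) * Gammaℝ s * riemannZeta s := by
  have h2 : s ≠ 0 := by rintro rfl; simp at h0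
  rw [xi_eq h2 h1, riemannZeta_def_of_ne_zero h2]
  have := Gammaℝ_ne_zero_of_re_pos h0
  field_simp

lemma strip_bound : ∃ B : ℝ, 0 ≤ B ∧ ∀ s : ℂ, -3 ≤ s.re → s.re ≤ 4 →
    ‖completedRiemannZeta₀ s‖ ≤ B := by
  set P := HurwitzZeta.hurwitzEvenFEPair 0 with hP
  have hconv : ∀ s : ℂ, MellinConvergent P.f_modif s := fun s =>
    (P.isStrongFEPair_toStrongFEPair.hasMellin s).1
  have hc : ∀ x : ℝ, IntegrableOn (fun t : ℝ => ‖P.f_modif t‖ * t ^ (x - 1)) (Ioi 0) := by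
    intro x
    have h1 : IntegrableOn (fun t : ℝ => ‖(t : ℂ) ^ ((x : ℂ) - 1) • P.f_modif t‖) (Ioi 0) :=
      (hconv x).norm
    refine h1.congr_fun ?_ measurableSet_Ioi
    intro t ht
    have ht' : 0 < t := ht
    simp only [norm_smul]
    rw [Complex.norm_cpow_eq_rpow_re_of_pos ht', mul_comm]
    simp
  refine ⟨(∫ t in Ioi (0 : ℝ), (‖P.f_modif t‖ * t ^ ((-3 / 2 : ℝ) - 1) +
    ‖P.f_modif t‖ * t ^ ((2 : ℝ) - 1))) / 2, ?_, ?_⟩
  · have : 0 ≤ ∫ t in Ioi (0 : ℝ), (‖P.f_modif t‖ * t ^ ((-3 / 2 : ℝ) - 1) +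
      ‖P.f_modif t‖ * t ^ ((2 : ℝ) - 1)) := by
      apply setIntegral_nonneg measurableSet_Ioi
      intro t ht
      have ht' : 0 < t := ht
      positivity
    linarith
  · intro s hs1 hs2
    have h2 : completedRiemannZeta₀ s = mellin P.f_modif (s / 2) / 2 := rfl
    rw [h2, norm_div]
    simp only [RCLike.norm_ofNat]
    gcongr
    rw [mellin]
    refine (norm_integral_le_integral_norm _).trans ?_
    apply setIntegral_mono_on
    · exact (hconv (s / 2)).norm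
    · exact (hc _).add (hc _)
    · exact measurableSet_Ioi
    · intro t ht
      have ht' : 0 < t := ht
      rw [norm_smul, Complex.norm_cpow_eq_rpow_re_of_pos ht', mul_comm, ← mul_add]
      gcongr
      have hre : (s / 2 - 1).re = s.re / 2 - 1 := by simp
      rw [hre]
      rcases le_total t 1 with h | h
      · have : t ^ (s.re / 2 - 1) ≤ t ^ ((-3 / 2 : ℝ) - 1) := by
          apply Real.rpow_le_rpow_of_exponent_ge ht' h
          linarith
        have h3 : 0 ≤ t ^ ((2 : ℝ) - 1) := by positivity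
        exact this.trans (le_add_of_nonneg_right h3)
      · have : t ^ (s.re / 2 - 1) ≤ t ^ ((2 : ℝ) - 1) := by
          apply Real.rpow_le_rpow_of_exponent_le h
          linarith
        have h3 : 0 ≤ t ^ ((-3 / 2 : ℝ) - 1) := by positivity
        exact this.trans (le_add_of_nonneg_left h3)

lemma norm_Gamma_le {s : ℂ} (hs : 0 < s.re) : ‖Complex.Gamma s‖ ≤ Real.Gamma s.re := by
  rw [Complex.Gamma_eq_integral hs, Real.Gamma_eq_integral hs, Complex.GammaIntegral]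
  refine (norm_integral_le_integral_norm _).trans (le_of_eq ?_)
  apply setIntegral_congr_fun measurableSet_Ioi
  intro t ht
  have ht' : 0 < t := ht
  simp only [norm_mul]
  rw [Complex.norm_cpow_eq_rpow_re_of_pos ht', Complex.norm_real, Real.norm_eq_abs,
    abs_of_pos (Real.exp_pos _)]
  simp

lemma Gamma_le_exp {x : ℝ} (hx : 2 ≤ x) : Real.Gamma x ≤ Real.exp ((x + 1) ^ 2) := by
  set n : ℕ := ⌈x⌉₊ with hn
  have h1 : x ≤ n := Nat.le_ceil x
  have h2 : (n : ℝ) < x + 1 := Nat.ceil_lt_add_one (by linarith)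
  have h3 : Real.Gamma x ≤ Real.Gamma (n + 1) := by
    apply Real.Gamma_strictMonoOn_Ici.monotoneOn
    · exact hx
    · simp only [mem_Ici]; linarith
    · linarith
  rw [Real.Gamma_nat_eq_factorial] at h3
  refine h3.trans ?_
  have h4 : (n.factorial : ℝ) ≤ (n : ℝ) ^ n := by exact_mod_cast Nat.factorial_le_pow n
  refine h4.trans ?_
  have h5 : (n : ℝ) ≤ Real.exp n := by
    have := Real.add_one_le_exp (n : ℝ)
    linarith
  calc (n : ℝ) ^ n ≤ (Real.exp n) ^ n := by gcongr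
    _ = Real.exp (n * n) := by rw [← Real.exp_nat_mul]
    _ ≤ Real.exp ((x + 1) ^ 2) := by
        apply Real.exp_le_exp.2
        nlinarith [Nat.cast_nonneg (α := ℝ) n]

lemma zeta_bound : ∃ B : ℝ, 0 ≤ B ∧ ∀ s : ℂ, 2 ≤ s.re → ‖riemannZeta s‖ ≤ B := by
  have hsum : Summable (fun n : ℕ => 1 / (n : ℝ) ^ (2 : ℝ)) :=
    Real.summable_one_div_nat_rpow.2 (by norm_num)
  refine ⟨∑' n : ℕ, 1 / (n : ℝ) ^ (2 : ℝ), tsum_nonneg (fun n => by positivity), ?_⟩
  intro s hs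
  rw [zeta_eq_tsum_one_div_nat_cpow (by linarith)]
  refine tsum_of_norm_bounded hsum.hasSum ?_
  intro n
  rcases Nat.eq_zero_or_pos n with h | h
  · subst h
    have : s ≠ 0 := by rintro rfl; simp at hs; linarith
    simp [this]
  · have hn : (1 : ℝ) ≤ n := by exact_mod_cast h
    rw [norm_div, norm_one, ← Complex.ofReal_natCast,
      Complex.norm_cpow_eq_rpow_re_of_pos (by linarith)]
    gcongr

lemma right_bound : ∃ B : ℝ, 0 ≤ B ∧ ∀ s : ℂ, 4 ≤ s.re →
    ‖completedRiemannZeta₀ s‖ ≤ B * Real.exp ((1 + ‖s‖) ^ 2) := by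
  obtain ⟨B, hB, hz⟩ := zeta_bound
  refine ⟨B + 2, by linarith, ?_⟩
  intro s hs
  have hs0 : s ≠ 0 := by rintro rfl; simp at hs; linarith
  have hsn : 4 ≤ ‖s‖ := hs.trans (Complex.re_le_norm s)
  have h1 : completedRiemannZeta₀ s = Gammaℝ s * riemannZeta s + 1 / s + 1 / (1 - s) := by
    rw [riemannZeta_def_of_ne_zero hs0, completedRiemannZeta_eq]
    have := Gammaℝ_ne_zero_of_re_pos (s := s) (by linarith)
    field_simp
    ring
  rw [h1]
  have h2 : ‖Gammaℝ s‖ ≤ Real.exp ((1 + ‖s‖) ^ 2) := by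
    rw [Gammaℝ_def, norm_mul, Complex.norm_cpow_eq_rpow_re_of_pos Real.pi_pos]
    have e1 : Real.pi ^ (-s / 2).re ≤ 1 := by
      apply Real.rpow_le_one_of_one_le_of_nonpos
      · linarith [Real.pi_gt_three]
      · simp; linarith
    have e2 : ‖Complex.Gamma (s / 2)‖ ≤ Real.exp ((1 + ‖s‖) ^ 2) := by
      have hre : (s / 2).re = s.re / 2 := by simp
      refine (norm_Gamma_le (by rw [hre]; linarith)).trans ?_
      rw [hre]
      refine (Gamma_le_exp (by linarith)).trans ?_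
      apply Real.exp_le_exp.2
      have := Complex.re_le_norm s
      gcongr ?_ ^ 2
      linarith
    calc _ ≤ 1 * Real.exp ((1 + ‖s‖) ^ 2) := by gcongr
      _ = _ := one_mul _
  have h3 : (1 : ℝ) ≤ Real.exp ((1 + ‖s‖) ^ 2) := Real.one_le_exp (by positivity)
  have h4 : ‖1 / s‖ ≤ 1 := by
    rw [norm_div, norm_one, div_le_one (by linarith)]
    linarith
  have h5 : ‖1 / (1 - s)‖ ≤ 1 := by
    have : 3 ≤ ‖1 - s‖ := by
      have := norm_sub_norm_le s 1
      rw [norm_one, norm_sub_rev] at this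
      linarith
    rw [norm_div, norm_one, div_le_one (by linarith)]
    linarith
  calc ‖Gammaℝ s * riemannZeta s + 1 / s + 1 / (1 - s)‖
      ≤ ‖Gammaℝ s‖ * ‖riemannZeta s‖ + ‖1 / s‖ + ‖1 / (1 - s)‖ := by
        refine (norm_add_le _ _).trans ?_
        gcongr
        refine (norm_add_le _ _).trans ?_
        rw [norm_mul]
    _ ≤ Real.exp ((1 + ‖s‖) ^ 2) * B + 1 + 1 := by
        gcongr
        exact hz s (by linarith)
    _ ≤ (B + 2) * Real.exp ((1 + ‖s‖) ^ 2) := by linarith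

lemma lambda0_bound : ∃ B : ℝ, 1 ≤ B ∧ ∀ s : ℂ,
    ‖completedRiemannZeta₀ s‖ ≤ B * Real.exp ((2 + ‖s‖) ^ 2) := by
  obtain ⟨B1, hB1, h1⟩ := strip_bound
  obtain ⟨B2, hB2, h2⟩ := right_bound
  refine ⟨B1 + B2 + 1, by linarith, ?_⟩
  intro s
  have he : (1 : ℝ) ≤ Real.exp ((2 + ‖s‖) ^ 2) := Real.one_le_exp (by positivity)
  rcases le_or_gt 4 s.re with h | h
  · calc _ ≤ B2 * Real.exp ((1 + ‖s‖) ^ 2) := h2 s h
      _ ≤ (B1 + B2 + 1) * Real.exp ((2 + ‖s‖) ^ 2) := by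
        gcongr <;> linarith
  · rcases le_or_gt (-3) s.re with h' | h'
    · calc _ ≤ B1 := h1 s h' h.le
        _ ≤ (B1 + B2 + 1) * 1 := by linarith
        _ ≤ _ := by gcongr
    · rw [← completedRiemannZeta₀_one_sub]
      have h3 : ‖1 - s‖ ≤ 1 + ‖s‖ := by
        refine (norm_sub_le _ _).trans ?_
        rw [norm_one]
      calc _ ≤ B2 * Real.exp ((1 + ‖1 - s‖) ^ 2) := h2 (1 - s) (by simp; linarith)
        _ ≤ (B1 + B2 + 1) * Real.exp ((2 + ‖s‖) ^ 2) := by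
          have h5 : 1 + ‖1 - s‖ ≤ 2 + ‖s‖ := by linarith
          have h6 : Real.exp ((1 + ‖1 - s‖) ^ 2) ≤ Real.exp ((2 + ‖s‖) ^ 2) := by
            apply Real.exp_le_exp.2
            gcongr ?_ ^ 2
          have h7 : B2 ≤ B1 + B2 + 1 := by linarith
          gcongr

theorem xi_growth : ∃ C : ℝ, Growth xi C := by
  obtain ⟨B, hB, hb⟩ := lambda0_bound
  have hB0 : 0 ≤ Real.log (B + 1) := Real.log_nonneg (by linarith)
  refine ⟨Real.log (B + 1) + 10, differentiable_xi, by rw [xi_zero]; norm_num, by linarith, ?_⟩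
  intro s
  have h1 : ‖xi s‖ ≤ (1 + ‖s‖) ^ 2 * (B * Real.exp ((2 + ‖s‖) ^ 2)) + 1 := by
    unfold xi
    refine (norm_sub_le _ _).trans ?_
    rw [norm_one, norm_mul, norm_mul]
    gcongr
    · have h3 : ‖1 - s‖ ≤ 1 + ‖s‖ := by
        refine (norm_sub_le _ _).trans ?_
        rw [norm_one]
      have := norm_nonneg s
      nlinarith [norm_nonneg (1 - s)]
    · exact hb s
  refine h1.trans ?_
  have h2 : (1 + ‖s‖) ^ 2 ≤ Real.exp ((1 + ‖s‖) ^ 2) := by
    have := Real.add_one_le_exp ((1 + ‖s‖) ^ 2)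
    linarith
  have h3 : (1 : ℝ) ≤ Real.exp ((1 + ‖s‖) ^ 2) * Real.exp ((2 + ‖s‖) ^ 2) := by
    have e1 : (1 : ℝ) ≤ Real.exp ((1 + ‖s‖) ^ 2) := Real.one_le_exp (by positivity)
    have e2 : (1 : ℝ) ≤ Real.exp ((2 + ‖s‖) ^ 2) := Real.one_le_exp (by positivity)
    nlinarith
  calc (1 + ‖s‖) ^ 2 * (B * Real.exp ((2 + ‖s‖) ^ 2)) + 1
      ≤ Real.exp ((1 + ‖s‖) ^ 2) * (B * Real.exp ((2 + ‖s‖) ^ 2)) +
        Real.exp ((1 + ‖s‖) ^ 2) * Real.exp ((2 + ‖s‖) ^ 2) := by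
        gcongr
    _ = (B + 1) * (Real.exp ((1 + ‖s‖) ^ 2) * Real.exp ((2 + ‖s‖) ^ 2)) := by ring
    _ = Real.exp (Real.log (B + 1) + ((1 + ‖s‖) ^ 2 + (2 + ‖s‖) ^ 2)) := by
        rw [Real.exp_add, Real.exp_add, Real.exp_log (by linarith)]
    _ ≤ Real.exp ((Real.log (B + 1) + 10) * (1 + ‖s‖) ^ 2) := by
        apply Real.exp_le_exp.2
        have h4 : (1 : ℝ) ≤ (1 + ‖s‖) ^ 2 := by nlinarith [norm_nonneg s]
        have h5 : (2 + ‖s‖) ^ 2 ≤ 4 * (1 + ‖s‖) ^ 2 := by nlinarith [norm_nonneg s]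
        nlinarith

end Pool.Agent.Lib.MP_00e05b_nt
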