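import Mathlib
import Pool.Agent.Lib.MP_00e05b_nt.Xi
import Pool.Agent.Lib.MP_00e05b_nt.PF

/-!
# The partial fraction identity for zeta, in differenced form
-/

open Complex Metric Set Filter Topology MeasureTheory

namespace Pool.Agent.Lib.MP_00e05b_nt

/-- multiplicity of a point as a zero of `xi` -/
noncomputable def mx (a : ℂ) : ℕ := analyticOrderNatAt xi a

/-- `Λ` as complex sequence -/
noncomputable def vMc (n : ℕ) : ℂ := ((ArithmeticFunction.vonMangoldt n : ℝ) : ℂ)

lemma xi_ne_zero {s : ℂ} (hs : 1 ≤ s.re) : xi s ≠ 0 := by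
  by_cases h1 : s = 1
  · rw [h1, xi_one]; norm_num
  · rw [xi_eq_zeta (by linarith) h1]
    have h0 : s ≠ 0 := by rintro rfl; simp at hs; linarith
    exact mul_ne_zero (mul_ne_zero (mul_ne_zero h0 (sub_ne_zero.2 (Ne.symm h1)))
      (Gammaℝ_ne_zero_of_re_pos (by linarith))) (riemannZeta_ne_zero_of_one_le_re hs)

lemma xi_zero_re {s : ℂ} (hs : xi s = 0) : 0 < s.re ∧ s.re < 1 := by
  constructor
  · by_contra h
    push Not at h
    have : xi (1 - s) = 0 := by rw [xi_one_sub, hs]
    exact xi_ne_zero (by simp; linarith) this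
  · by_contra h
    push Not at h
    exact xi_ne_zero h hs

lemma shift_identity {s : ℂ} (hs : 1 < s.re) :
    xi (s + 2) * ((2 * Real.pi) * ((s - 1) * riemannZeta s)) =
      ((s + 2) * (s + 1) * riemannZeta (s + 2)) * xi s := by
  have h0 : s ≠ 0 := by rintro rfl; simp at hs; linarith
  have h1 : s ≠ 1 := by rintro rfl; simp at hs
  have h2 : s + 2 ≠ 1 := by
    intro h
    have := congrArg Complex.re h
    simp at this
    linarith
  rw [xi_eq_zeta (s := s + 2) (by simp; linarith) h2, xi_eq_zeta (by linarith) h1, Gammaℝ_add_two h0]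
  have hpi : (Real.pi : ℂ) ≠ 0 := by exact_mod_cast Real.pi_ne_zero
  field_simp
  ring

lemma absc : LSeries.abscissaOfAbsConv vMc ≤ 1 := by
  refine LSeries.abscissaOfAbsConv_le_of_forall_lt_LSeriesSummable' ?_
  intro y hy
  have h1 : 1 < ((y : ℝ) : ℂ).re := by
    rw [Complex.ofReal_re]
    exact_mod_cast hy
  exact ArithmeticFunction.LSeriesSummable_vonMangoldt h1

lemma absc_lt {s : ℂ} (hs : 1 < s.re) : LSeries.abscissaOfAbsConv vMc < s.re :=
  absc.trans_lt (by exact_mod_cast hs)

/-- `Λ(n) (log n)^2` as an L-series. -/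
noncomputable def f2 : ℕ → ℂ := LSeries.logMul (LSeries.logMul vMc)

lemma analyticAt_LvM {s : ℂ} (hs : 1 < s.re) : AnalyticAt ℂ (LSeries vMc) s :=
  LSeries_analyticOnNhd vMc s (absc_lt hs)

lemma deriv2_LvM {s : ℂ} (hs : 1 < s.re) : deriv (deriv (LSeries vMc)) s = LSeries f2 s := by
  have h := LSeries_iteratedDeriv 2 (absc_lt hs)
  rw [iteratedDeriv_succ, iteratedDeriv_one] at h
  rw [h]
  norm_num [f2]

lemma isOpen_re_gt' : IsOpen {s : ℂ | 1 < s.re} := isOpen_lt continuous_const continuous_re

lemma logDeriv_shift {s : ℂ} (hs : 1 < s.re) :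
    logDeriv xi (s + 2) = logDeriv xi s + (1 / (s + 2) + (1 / (s + 1) + (-1 / (s - 1) +
      (LSeries vMc s + -LSeries vMc (s + 2))))) := by
  have h0 : s ≠ 0 := by rintro rfl; simp at hs; linarith
  have h1 : s - 1 ≠ 0 := by
    intro h
    have := congrArg Complex.re h
    simp at this
    linarith
  have h2 : s + 2 ≠ 0 := by
    intro h
    have := congrArg Complex.re h
    simp at this
    linarith
  have h3 : s + 1 ≠ 0 := by
    intro h
    have := congrArg Complex.re h
    simp at this
    linarith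
  have hpi : (Real.pi : ℂ) ≠ 0 := by exact_mod_cast Real.pi_ne_zero
  have hre2 : 1 < (s + 2).re := by simp; linarith
  have hz : riemannZeta s ≠ 0 := riemannZeta_ne_zero_of_one_lt_re hs
  have hz2 : riemannZeta (s + 2) ≠ 0 := riemannZeta_ne_zero_of_one_lt_re hre2
  have hx : xi s ≠ 0 := xi_ne_zero hs.le
  have hx2 : xi (s + 2) ≠ 0 := xi_ne_zero hre2.le
  have hdz : DifferentiableAt ℂ riemannZeta s :=
    differentiableAt_riemannZeta (by rintro rfl; simp at hs)
  have hdz2 : DifferentiableAt ℂ riemannZeta (s + 2) :=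
    differentiableAt_riemannZeta (by
      intro h
      rw [h] at hre2
      simp at hre2)
  have hdz2' : DifferentiableAt ℂ (fun w => riemannZeta (w + 2)) s :=
    DifferentiableAt.comp s (f := fun w => w + 2) hdz2 (by fun_prop)
  have hdx : DifferentiableAt ℂ xi s := differentiable_xi s
  have hdx2 : DifferentiableAt ℂ (fun w => xi (w + 2)) s :=
    DifferentiableAt.comp s (f := fun w => w + 2) (differentiable_xi _) (by fun_prop)
  have hev : (fun w => xi (w + 2) * ((2 * Real.pi : ℂ) * ((w - 1) * riemannZeta w))) =ᶠ[𝓝 s]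
      fun w => ((w + 2) * (w + 1) * riemannZeta (w + 2)) * xi w := by
    filter_upwards [isOpen_re_gt'.mem_nhds hs] with w hw
    exact shift_identity hw
  have hld := (logDeriv_congr_nhds hev).self_of_nhds
  have e1 : logDeriv (fun w => xi (w + 2)) s = logDeriv xi (s + 2) := by
    rw [logDeriv_apply, logDeriv_apply, deriv_comp_add_const]
  have e2 : logDeriv (fun w => riemannZeta (w + 2)) s = logDeriv riemannZeta (s + 2) := by
    rw [logDeriv_apply, logDeriv_apply, deriv_comp_add_const]
  have e3 : logDeriv riemannZeta s = -LSeries vMc s := by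
    rw [logDeriv_apply]
    have := ArithmeticFunction.LSeries_vonMangoldt_eq_deriv_riemannZeta_div hs
    have e : LSeries vMc s = - deriv riemannZeta s / riemannZeta s := this
    rw [e]; ring
  have e4 : logDeriv riemannZeta (s + 2) = -LSeries vMc (s + 2) := by
    rw [logDeriv_apply]
    have := ArithmeticFunction.LSeries_vonMangoldt_eq_deriv_riemannZeta_div hre2
    have e : LSeries vMc (s + 2) = - deriv riemannZeta (s + 2) / riemannZeta (s + 2) := this
    rw [e]; ring
  have e5 : logDeriv (fun w : ℂ => w - 1) s = 1 / (s - 1) := by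
    rw [logDeriv_apply]; simp
  have e6 : logDeriv (fun w : ℂ => w + 2) s = 1 / (s + 2) := by
    rw [logDeriv_apply]; simp
  have e7 : logDeriv (fun w : ℂ => w + 1) s = 1 / (s + 1) := by
    rw [logDeriv_apply]; simp
  have hL : logDeriv (fun w => xi (w + 2) * ((2 * Real.pi : ℂ) * ((w - 1) * riemannZeta w))) s =
      logDeriv xi (s + 2) + (1 / (s - 1) + -LSeries vMc s) := by
    have h2pi : (2 * Real.pi : ℂ) ≠ 0 := mul_ne_zero two_ne_zero hpi
    have hd1 : DifferentiableAt ℂ (fun w : ℂ => w - 1) s := by fun_prop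
    rw [logDeriv_mul (f := fun w => xi (w + 2))
      (g := fun w => (2 * Real.pi : ℂ) * ((w - 1) * riemannZeta w)) s hx2
      (mul_ne_zero h2pi (mul_ne_zero h1 hz)) hdx2 ((hd1.mul hdz).const_mul _), e1]
    congr 1
    rw [logDeriv_const_mul s _ h2pi]
    rw [logDeriv_mul (f := fun w => w - 1) (g := riemannZeta) s h1 hz hd1 hdz, e5, e3]
  have hR : logDeriv (fun w => ((w + 2) * (w + 1) * riemannZeta (w + 2)) * xi w) s =
      (1 / (s + 2) + 1 / (s + 1) + -LSeries vMc (s + 2)) + logDeriv xi s := by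
    have hd21 : DifferentiableAt ℂ (fun w : ℂ => (w + 2) * (w + 1)) s := by fun_prop
    rw [logDeriv_mul (f := fun w => (w + 2) * (w + 1) * riemannZeta (w + 2)) (g := xi) s
      (mul_ne_zero (mul_ne_zero h2 h3) hz2) hx (hd21.mul hdz2') hdx]
    congr 1
    rw [logDeriv_mul (f := fun w => (w + 2) * (w + 1)) (g := fun w => riemannZeta (w + 2)) s
      (mul_ne_zero h2 h3) hz2 hd21 hdz2', e2, e4]
    congr 1
    rw [logDeriv_mul (f := fun w => w + 2) (g := fun w => w + 1) s h2 h3 (by fun_prop)
      (by fun_prop), e6, e7]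
  rw [hL, hR] at hld
  linear_combination hld

lemma analyticAt_ldxi {s : ℂ} (hs : xi s ≠ 0) : AnalyticAt ℂ (logDeriv xi) s :=
  (differentiable_xi.analyticAt s).deriv.div (differentiable_xi.analyticAt s) hs

lemma deriv2_inv (c : ℂ) {s : ℂ} (b : ℂ) (hs : s + b ≠ 0) :
    deriv (deriv (fun w => c / (w + b))) s = 2 * c / (s + b) ^ 3 := by
  have h := deriv2_pf {-b} (fun _ => c) (z := s) (by
    intro a ha
    rw [Finset.mem_singleton] at ha
    subst ha
    intro h
    apply hs
    rw [h]; ring)
  simpa using h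

theorem star {s : ℂ} (hs : 1 < s.re) :
    HasSum (fun a : ℂ => (mx a : ℂ) * (2 / (s + 2 - a) ^ 3 - 2 / (s - a) ^ 3))
      (2 / (s + 2) ^ 3 + 2 / (s + 1) ^ 3 - 2 / (s - 1) ^ 3 + (LSeries f2 s - LSeries f2 (s + 2))) := by
  obtain ⟨C, hC⟩ := xi_growth
  have hre2 : 1 < (s + 2).re := by simp; linarith
  have hx : xi s ≠ 0 := xi_ne_zero hs.le
  have hx2 : xi (s + 2) ≠ 0 := xi_ne_zero hre2.le
  have h1 := (partial_fraction hC hx2).sub (partial_fraction hC hx)
  have h2 : deriv (deriv (logDeriv xi)) (s + 2) - deriv (deriv (logDeriv xi)) s =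
      2 / (s + 2) ^ 3 + 2 / (s + 1) ^ 3 - 2 / (s - 1) ^ 3 +
        (LSeries f2 s - LSeries f2 (s + 2)) := by
    have e1 : deriv (deriv (logDeriv xi)) (s + 2) =
        deriv (deriv (fun w => logDeriv xi (w + 2))) s := by
      have : deriv (fun w => logDeriv xi (w + 2)) = fun w => deriv (logDeriv xi) (w + 2) := by
        funext w
        rw [deriv_comp_add_const]
      rw [this, deriv_comp_add_const]
    have e2 : (fun w => logDeriv xi (w + 2)) =ᶠ[𝓝 s] fun w => logDeriv xi w + (1 / (w + 2) +
        (1 / (w + 1) + (-1 / (w - 1) + (LSeries vMc w + -LSeries vMc (w + 2))))) := by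
      filter_upwards [isOpen_re_gt'.mem_nhds hs] with w hw
      exact logDeriv_shift hw
    have n2 : s + 2 ≠ 0 := by
      intro h
      have := congrArg Complex.re h
      simp at this
      linarith
    have n1 : s + 1 ≠ 0 := by
      intro h
      have := congrArg Complex.re h
      simp at this
      linarith
    have n0 : s - 1 ≠ 0 := by
      intro h
      have := congrArg Complex.re h
      simp at this
      linarith
    have a2 : AnalyticAt ℂ (fun w : ℂ => 1 / (w + 2)) s :=
      analyticAt_const.div (analyticAt_id.add analyticAt_const) n2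
    have a1 : AnalyticAt ℂ (fun w : ℂ => 1 / (w + 1)) s :=
      analyticAt_const.div (analyticAt_id.add analyticAt_const) n1
    have a0 : AnalyticAt ℂ (fun w : ℂ => -1 / (w - 1)) s :=
      analyticAt_const.div (analyticAt_id.sub analyticAt_const) n0
    have aL : AnalyticAt ℂ (LSeries vMc) s := analyticAt_LvM hs
    have aL2 : AnalyticAt ℂ (fun w => -LSeries vMc (w + 2)) s := by
      have h : AnalyticAt ℂ (fun w : ℂ => w + 2) s := analyticAt_id.add analyticAt_const
      have := AnalyticAt.fun_comp (f := fun w : ℂ => w + 2) (g := LSeries vMc) (x := s)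
        (analyticAt_LvM hre2) h
      exact this.neg
    rw [e1, (e2.deriv).deriv_eq, deriv2_add (analyticAt_ldxi hx)
      (a2.fun_add (a1.fun_add (a0.fun_add (aL.fun_add aL2)))),
      deriv2_add a2 (a1.fun_add (a0.fun_add (aL.fun_add aL2))),
      deriv2_add a1 (a0.fun_add (aL.fun_add aL2)),
      deriv2_add a0 (aL.fun_add aL2), deriv2_add aL aL2, deriv2_inv _ _ n2, deriv2_inv _ _ n1]
    have e3 : deriv (deriv (fun w : ℂ => -1 / (w - 1))) s = -2 / (s - 1) ^ 3 := by
      have := deriv2_inv (-1) (s := s) (-1) (by rw [← sub_eq_add_neg]; exact n0)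
      simp only [← sub_eq_add_neg] at this
      rw [this]; ring
    have e4 : deriv (deriv (fun w => -LSeries vMc (w + 2))) s = -LSeries f2 (s + 2) := by
      have : deriv (fun w => -LSeries vMc (w + 2)) = fun w => -(deriv (LSeries vMc) (w + 2)) := by
        funext w
        rw [deriv.fun_neg, deriv_comp_add_const]
      rw [this, deriv.fun_neg, deriv_comp_add_const (f := deriv (LSeries vMc)), deriv2_LvM hre2]
    rw [e3, e4, deriv2_LvM hs]
    ring
  rw [h2] at h1
  refine h1.congr_fun ?_
  intro a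
  simp only [mx]
  ring

end Pool.Agent.Lib.MP_00e05b_nt
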