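import Mathlib
import Pool.Agent.Lib.MP_00e05b_nt.Pair
import Pool.Agent.Lib.MP_00e05b_nt.Lap
import Pool.Agent.Lib.MP_00e05b_nt.Star

/-!
# Pairing the partial fraction identity with a test function
-/

open Complex Metric Set Filter Topology MeasureTheory
open scoped FourierTransform SchwartzMap ContDiff

namespace Pool.Agent.Lib.MP_00e05b_nt

/-- the point `2 - 2 π i ξ` -/
noncomputable def sg (ξ : ℝ) : ℂ := 2 - 2 * Real.pi * ξ * I

lemma sg_re (ξ : ℝ) : (sg ξ).re = 2 := by simp [sg]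

lemma norm_sg_le (ξ : ℝ) : ‖sg ξ‖ ≤ 2 + 2 * Real.pi * |ξ| := by
  unfold sg
  refine (norm_sub_le _ _).trans ?_
  simp [abs_of_pos Real.pi_pos]

lemma continuous_sg : Continuous sg := by unfold sg; fun_prop

lemma pair_basic (H : 𝓢(ℝ, ℂ)) {c : ℂ} (hc : c.re < 2) :
    ∫ ξ : ℝ, 𝓕 (H : ℝ → ℂ) ξ * (2 / (sg ξ - c) ^ 3) =
      ∫ u in Ioi (0 : ℝ), (u : ℂ) ^ 2 * Complex.exp (-((2 - c) * u)) * H u := by
  have hz : 0 < (2 - c).re := by simp; linarith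
  have hψ : Integrable ((Ioi (0 : ℝ)).indicator
      (fun u : ℝ => (u : ℂ) ^ 2 * Complex.exp (-((2 - c) * u)))) :=
    (integrable_indicator_iff measurableSet_Ioi).2 (integrableOn_sq_exp hz)
  have h1 := pairing H _ hψ
  have h2 : ∀ ξ : ℝ, ∫ u : ℝ, (Ioi (0 : ℝ)).indicator
      (fun u : ℝ => (u : ℂ) ^ 2 * Complex.exp (-((2 - c) * u))) u *
      Complex.exp (2 * Real.pi * ξ * u * I) = 2 / (sg ξ - c) ^ 3 := by
    intro ξ
    have hz' : 0 < (sg ξ - c).re := by rw [Complex.sub_re, sg_re]; linarith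
    rw [← laplace_sq hz', ← integral_indicator measurableSet_Ioi]
    congr 1; ext u
    by_cases hu : u ∈ Ioi (0 : ℝ)
    · rw [indicator_of_mem hu, indicator_of_mem hu, mul_assoc, ← Complex.exp_add]
      congr 2
      unfold sg
      ring
    · rw [indicator_of_notMem hu, indicator_of_notMem hu, zero_mul]
  simp_rw [h2] at h1
  rw [h1, ← integral_indicator measurableSet_Ioi]
  congr 1; ext u
  by_cases hu : u ∈ Ioi (0 : ℝ)
  · rw [indicator_of_mem hu, indicator_of_mem hu]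
  · rw [indicator_of_notMem hu, indicator_of_notMem hu, zero_mul]

lemma fourier_integrable (H : 𝓢(ℝ, ℂ)) : Integrable (𝓕 (H : ℝ → ℂ)) := by
  rw [← SchwartzMap.fourier_coe]
  exact (𝓕 H).integrable

lemma fourier_weight_integrable (H : 𝓢(ℝ, ℂ)) :
    Integrable (fun ξ : ℝ => ‖𝓕 (H : ℝ → ℂ) ξ‖ * (6 + 2 * Real.pi * |ξ|) ^ 3) := by
  have h0 := (fourier_integrable H).norm
  have h3 : Integrable (fun ξ : ℝ => ‖ξ‖ ^ 3 * ‖𝓕 (H : ℝ → ℂ) ξ‖) := by
    rw [← SchwartzMap.fourier_coe]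
    exact (𝓕 H).integrable_pow_mul volume 3
  have h4 := (h0.const_mul (4 * 6 ^ 3)).add (h3.const_mul (4 * (2 * Real.pi) ^ 3))
  refine h4.mono' ?_ (Eventually.of_forall fun ξ => ?_)
  · apply AEStronglyMeasurable.mul
    · exact h0.aestronglyMeasurable
    · apply Continuous.aestronglyMeasurable
      fun_prop
  · rw [Real.norm_of_nonneg (by positivity)]
    simp only [Pi.add_apply]
    have hp := Real.pi_pos
    have h5 : (6 + 2 * Real.pi * |ξ|) ^ 3 ≤ 4 * 6 ^ 3 + 4 * (2 * Real.pi) ^ 3 * |ξ| ^ 3 := by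
      have ha : 0 ≤ 2 * Real.pi * |ξ| := by positivity
      have := add_pow_le (show (0 : ℝ) ≤ 6 by norm_num) ha 3
      calc _ ≤ _ := this
        _ = _ := by ring
    rw [Real.norm_eq_abs]
    calc ‖𝓕 (H : ℝ → ℂ) ξ‖ * (6 + 2 * Real.pi * |ξ|) ^ 3
        ≤ ‖𝓕 (H : ℝ → ℂ) ξ‖ * (4 * 6 ^ 3 + 4 * (2 * Real.pi) ^ 3 * |ξ| ^ 3) := by gcongr
      _ = _ := by ring

lemma cube_bound {z a : ℂ} (h : 1 ≤ (z - a).re) : 1 / ‖z - a‖ ^ 3 ≤ (2 + ‖z‖) ^ 3 / (1 + ‖a‖) ^ 3 := by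
  have h1 : 1 ≤ ‖z - a‖ := h.trans (Complex.re_le_norm _)
  have h2 : 1 + ‖a‖ ≤ (2 + ‖z‖) * ‖z - a‖ := by
    have h3 : ‖a‖ ≤ ‖z‖ + ‖z - a‖ := by
      have := norm_sub_norm_le a z
      rw [norm_sub_rev] at this
      linarith
    nlinarith [norm_nonneg z]
  rw [div_le_div_iff₀ (by positivity) (by positivity), one_mul, ← mul_pow]
  gcongr

lemma T_bound {a : ℂ} (ha : a.re < 1) (ξ : ℝ) :
    ‖2 / (sg ξ + 2 - a) ^ 3 - 2 / (sg ξ - a) ^ 3‖ ≤ 4 * (6 + 2 * Real.pi * |ξ|) ^ 3 / (1 + ‖a‖) ^ 3 := by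
  have hs := norm_sg_le ξ
  have e1 : ‖2 / (sg ξ - a) ^ 3‖ ≤ 2 * (6 + 2 * Real.pi * |ξ|) ^ 3 / (1 + ‖a‖) ^ 3 := by
    rw [norm_div, norm_pow]
    simp only [RCLike.norm_ofNat]
    have := cube_bound (z := sg ξ) (a := a) (by rw [Complex.sub_re, sg_re]; linarith)
    calc 2 / ‖sg ξ - a‖ ^ 3 = 2 * (1 / ‖sg ξ - a‖ ^ 3) := by ring
      _ ≤ 2 * ((2 + ‖sg ξ‖) ^ 3 / (1 + ‖a‖) ^ 3) := by gcongr
      _ ≤ 2 * ((6 + 2 * Real.pi * |ξ|) ^ 3 / (1 + ‖a‖) ^ 3) := by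
          gcongr 2 * (?_ ^ 3 / (1 + ‖a‖) ^ 3)
          linarith
      _ = _ := by ring
  have e2 : ‖2 / (sg ξ + 2 - a) ^ 3‖ ≤ 2 * (6 + 2 * Real.pi * |ξ|) ^ 3 / (1 + ‖a‖) ^ 3 := by
    rw [norm_div, norm_pow]
    simp only [RCLike.norm_ofNat]
    have := cube_bound (z := sg ξ + 2) (a := a) (by
      rw [Complex.sub_re, Complex.add_re, sg_re]; simp; linarith)
    have hs2 : ‖sg ξ + 2‖ ≤ 4 + 2 * Real.pi * |ξ| := by
      refine (norm_add_le _ _).trans ?_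
      simp only [RCLike.norm_ofNat]
      linarith
    calc 2 / ‖sg ξ + 2 - a‖ ^ 3 = 2 * (1 / ‖sg ξ + 2 - a‖ ^ 3) := by ring
      _ ≤ 2 * ((2 + ‖sg ξ + 2‖) ^ 3 / (1 + ‖a‖) ^ 3) := by gcongr
      _ ≤ 2 * ((6 + 2 * Real.pi * |ξ|) ^ 3 / (1 + ‖a‖) ^ 3) := by
          gcongr 2 * (?_ ^ 3 / (1 + ‖a‖) ^ 3)
          linarith
      _ = _ := by ring
  refine (norm_sub_le _ _).trans ?_
  calc _ ≤ _ := add_le_add e2 e1
    _ = _ := by ring

lemma countable_zeros : {a : ℂ | xi a = 0}.Countable := by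
  obtain ⟨C, hC⟩ := xi_growth
  have : {a : ℂ | xi a = 0} ⊆ ⋃ n : ℕ, {a : ℂ | xi a = 0 ∧ ‖a‖ ≤ (n : ℝ)} := by
    intro a ha
    obtain ⟨n, hn⟩ := exists_nat_ge ‖a‖
    exact mem_iUnion.2 ⟨n, ha, hn⟩
  refine Set.Countable.mono this ?_
  exact countable_iUnion fun n => (finite_zeros hC n).countable

lemma mx_eq_zero {a : ℂ} (ha : xi a ≠ 0) : mx a = 0 := order_eq_zero differentiable_xi ha

/-- Pairing of the sum over zeros. -/
lemma pair_zeros (H : 𝓢(ℝ, ℂ)) :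
    HasSum (fun a : ℂ => (mx a : ℂ) * ∫ ξ : ℝ, 𝓕 (H : ℝ → ℂ) ξ *
        (2 / (sg ξ + 2 - a) ^ 3 - 2 / (sg ξ - a) ^ 3))
      (∫ ξ : ℝ, 𝓕 (H : ℝ → ℂ) ξ * (2 / (sg ξ + 2) ^ 3 + 2 / (sg ξ + 1) ^ 3 - 2 / (sg ξ - 1) ^ 3 +
        (LSeries f2 (sg ξ) - LSeries f2 (sg ξ + 2)))) := by
  classical
  obtain ⟨C, hC⟩ := xi_growth
  set Z : Set ℂ := {a : ℂ | xi a = 0} with hZ
  have : Countable Z := countable_zeros.to_subtype
  set F : Z → ℝ → ℂ := fun a ξ => (mx a : ℂ) * (𝓕 (H : ℝ → ℂ) ξ *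
    (2 / (sg ξ + 2 - a) ^ 3 - 2 / (sg ξ - a) ^ 3)) with hF
  have hW := fourier_weight_integrable H
  set W : ℝ → ℝ := fun ξ => ‖𝓕 (H : ℝ → ℂ) ξ‖ * (6 + 2 * Real.pi * |ξ|) ^ 3 with hWdef
  have hne : ∀ (a : Z) (ξ : ℝ), sg ξ - a ≠ 0 ∧ sg ξ + 2 - a ≠ 0 := by
    intro a ξ
    have ha := (xi_zero_re a.2).2
    constructor
    · intro h
      have := congrArg Complex.re h
      rw [Complex.sub_re, sg_re] at this
      simp at this
      linarith
    · intro h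
      have := congrArg Complex.re h
      rw [Complex.sub_re, Complex.add_re, sg_re] at this
      simp at this
      linarith
  have hmeas : ∀ a : Z, AEStronglyMeasurable (F a) volume := by
    intro a
    have h1 := (fourier_integrable H).aestronglyMeasurable
    have h2 : Continuous (fun ξ : ℝ => 2 / (sg ξ + 2 - (a : ℂ)) ^ 3 - 2 / (sg ξ - (a : ℂ)) ^ 3) := by
      have := continuous_sg
      refine Continuous.sub ?_ ?_
      · refine Continuous.div continuous_const (by fun_prop) ?_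
        intro ξ
        exact pow_ne_zero _ (hne a ξ).2
      · refine Continuous.div continuous_const (by fun_prop) ?_
        intro ξ
        exact pow_ne_zero _ (hne a ξ).1
    exact (h1.mul h2.aestronglyMeasurable).const_mul _
  have hbd : ∀ (a : Z) (ξ : ℝ), ‖F a ξ‖ ≤ (mx a : ℝ) / (1 + ‖(a : ℂ)‖) ^ 3 * (4 * W ξ) := by
    intro a ξ
    have ha := (xi_zero_re a.2).2
    rw [hF]
    simp only [norm_mul, Complex.norm_natCast]
    have := T_bound ha ξ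
    calc (mx a : ℝ) * (‖𝓕 (H : ℝ → ℂ) ξ‖ * ‖2 / (sg ξ + 2 - (a : ℂ)) ^ 3 - 2 / (sg ξ - a) ^ 3‖)
        ≤ (mx a : ℝ) * (‖𝓕 (H : ℝ → ℂ) ξ‖ *
          (4 * (6 + 2 * Real.pi * |ξ|) ^ 3 / (1 + ‖(a : ℂ)‖) ^ 3)) := by gcongr
      _ = _ := by rw [hWdef]; ring
  have hint : ∀ a : Z, Integrable (F a) := by
    intro a
    exact ((hW.const_mul 4).const_mul _).mono' (hmeas a) (Eventually.of_forall (hbd a))
  have hsum : Summable (fun a : Z => ∫ ξ, ‖F a ξ‖) := by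
    have h1 : Summable (fun a : Z => (mx a : ℝ) / (1 + ‖(a : ℂ)‖) ^ 3 * (∫ ξ, 4 * W ξ)) := by
      have := (summable_order hC).comp_injective (Subtype.val_injective (p := (· ∈ Z)))
      exact this.mul_right _
    refine Summable.of_nonneg_of_le (fun a => integral_nonneg fun ξ => norm_nonneg _) ?_ h1
    intro a
    rw [← integral_const_mul]
    exact integral_mono (hint a).norm ((hW.const_mul 4).const_mul _) (hbd a)
  have key := hasSum_integral_of_summable_integral_norm hint hsum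
  have hR : (∫ ξ, ∑' a : Z, F a ξ) = ∫ ξ : ℝ, 𝓕 (H : ℝ → ℂ) ξ *
      (2 / (sg ξ + 2) ^ 3 + 2 / (sg ξ + 1) ^ 3 - 2 / (sg ξ - 1) ^ 3 +
        (LSeries f2 (sg ξ) - LSeries f2 (sg ξ + 2))) := by
    congr 1; ext ξ
    have h1 := star (s := sg ξ) (by rw [sg_re]; norm_num)
    have h2 := (hasSum_subtype_iff_of_support_subset (s := Z) (by
      intro a ha
      by_contra hx
      apply ha
      have : mx a = 0 := mx_eq_zero hx
      simp [this])).2 h1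
    have h3 := h2.mul_left (𝓕 (H : ℝ → ℂ) ξ)
    rw [← h3.tsum_eq]
    apply tsum_congr
    intro a
    rw [hF]
    simp only [Function.comp_apply]
    ring
  rw [hR] at key
  refine (hasSum_subtype_iff_of_support_subset (s := Z) (by
      intro a ha
      by_contra hx
      apply ha
      have : mx a = 0 := mx_eq_zero hx
      simp [this])).1 ?_
  refine key.congr_fun ?_
  intro a
  rw [hF]
  simp only [Function.comp_apply]
  rw [integral_const_mul]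

end Pool.Agent.Lib.MP_00e05b_nt
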