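import Mathlib
import Pool.Agent.Lib.MP_00e05b_nt.Pair2

/-!
# The explicit formula for smooth test functions supported in `(0, ∞)`
-/

open Complex Metric Set Filter Topology MeasureTheory
open scoped FourierTransform SchwartzMap ContDiff

namespace Pool.Agent.Lib.MP_00e05b_nt

lemma absc_f2 {c : ℝ} (hc : 1 < c) : LSeries.abscissaOfAbsConv f2 < (c : EReal) := by
  unfold f2
  rw [LSeries.abscissaOfAbsConv_logMul, LSeries.abscissaOfAbsConv_logMul]
  exact absc.trans_lt (by exact_mod_cast hc)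

lemma summable_f2 {s : ℂ} (hs : 1 < s.re) : LSeriesSummable f2 s :=
  LSeriesSummable_of_abscissaOfAbsConv_lt_re (absc_f2 hs)

lemma norm_term_f2 (c : ℝ) (ξ : ℝ) (n : ℕ) :
    ‖LSeries.term f2 ((c : ℂ) - 2 * Real.pi * ξ * I) n‖ = ‖LSeries.term f2 (c : ℂ) n‖ := by
  rw [LSeries.norm_term_eq, LSeries.norm_term_eq]
  simp

lemma fourier_inv_point (H : 𝓢(ℝ, ℂ)) (x : ℝ) :
    ∫ ξ : ℝ, 𝓕 (H : ℝ → ℂ) ξ * Complex.exp (2 * Real.pi * ξ * x * I) = H x := by
  have h3 : 𝓕⁻ (𝓕 (H : ℝ → ℂ)) x = H x := by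
    rw [H.continuous.fourierInv_fourier_eq H.integrable (fourier_integrable H)]
  rw [← h3, Real.fourierInv_eq']
  congr 1; ext ξ
  simp only [smul_eq_mul]
  have e1 : Complex.exp (2 * Real.pi * ξ * x * I) =
      Complex.exp (↑(2 * Real.pi * (inner ℝ ξ x)) * I) := by
    congr 1
    simp
    ring
  rw [e1]
  ring

lemma term_shift (c : ℝ) (ξ : ℝ) (n : ℕ) :
    LSeries.term f2 ((c : ℂ) - 2 * Real.pi * ξ * I) n =
      LSeries.term f2 (c : ℂ) n * Complex.exp (2 * Real.pi * ξ * Real.log n * I) := by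
  rcases Nat.eq_zero_or_pos n with h | h
  · subst h; simp
  · have hn : (n : ℂ) ≠ 0 := by exact_mod_cast h.ne'
    rw [LSeries.term_of_ne_zero h.ne', LSeries.term_of_ne_zero h.ne',
      Complex.cpow_def_of_ne_zero hn, Complex.cpow_def_of_ne_zero hn, div_mul_eq_mul_div, mul_div_assoc,
      div_eq_mul_inv, ← Complex.exp_neg]
    rw [div_eq_mul_inv (Complex.exp _), ← Complex.exp_neg, ← Complex.exp_add]
    congr 2
    rw [← Complex.natCast_log]
    ring

lemma pair_dir (H : 𝓢(ℝ, ℂ)) {c : ℝ} (hc : 1 < c) :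
    Integrable (fun ξ : ℝ => 𝓕 (H : ℝ → ℂ) ξ * LSeries f2 ((c : ℂ) - 2 * Real.pi * ξ * I)) ∧
    HasSum (fun n : ℕ => LSeries.term f2 (c : ℂ) n * H (Real.log n))
      (∫ ξ : ℝ, 𝓕 (H : ℝ → ℂ) ξ * LSeries f2 ((c : ℂ) - 2 * Real.pi * ξ * I)) := by
  have hsum : Summable (fun n => ‖LSeries.term f2 (c : ℂ) n‖) :=
    (summable_f2 (s := (c : ℂ)) (by simpa using hc)).norm
  have hF := fourier_integrable H
  set F : ℕ → ℝ → ℂ := fun n ξ => 𝓕 (H : ℝ → ℂ) ξ *
    LSeries.term f2 ((c : ℂ) - 2 * Real.pi * ξ * I) n with hFd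
  have hre : ∀ ξ : ℝ, 1 < ((c : ℂ) - 2 * Real.pi * ξ * I).re := by intro ξ; simpa using hc
  have hint : ∀ n, Integrable (F n) := by
    intro n
    have : F n = fun ξ => 𝓕 (H : ℝ → ℂ) ξ *
        (LSeries.term f2 (c : ℂ) n * Complex.exp (2 * Real.pi * ξ * Real.log n * I)) := by
      funext ξ
      rw [hFd]
      simp only
      rw [term_shift]
    rw [this]
    refine Integrable.mul_bdd (c := ‖LSeries.term f2 (c : ℂ) n‖) hF ?_ ?_
    · apply Continuous.aestronglyMeasurable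
      fun_prop
    · refine Eventually.of_forall fun ξ => ?_
      rw [norm_mul]
      have : (2 * Real.pi * ξ * Real.log n * I : ℂ) =
        ((2 * Real.pi * ξ * Real.log n : ℝ) : ℂ) * I := by push_cast; ring
      rw [this, Complex.norm_exp_ofReal_mul_I, mul_one]
  have hnorm : ∀ n ξ, ‖F n ξ‖ = ‖LSeries.term f2 (c : ℂ) n‖ * ‖𝓕 (H : ℝ → ℂ) ξ‖ := by
    intro n ξ
    rw [hFd]
    simp only [norm_mul]
    rw [norm_term_f2, mul_comm]
  have hsum2 : Summable (fun n => ∫ ξ, ‖F n ξ‖) := by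
    simp_rw [hnorm, integral_const_mul]
    exact hsum.mul_right _
  have key := hasSum_integral_of_summable_integral_norm hint hsum2
  have e1 : ∀ ξ, ∑' n, F n ξ = 𝓕 (H : ℝ → ℂ) ξ * LSeries f2 ((c : ℂ) - 2 * Real.pi * ξ * I) := by
    intro ξ
    rw [hFd]
    simp only
    rw [tsum_mul_left]
    rfl
  simp_rw [e1] at key
  refine ⟨?_, ?_⟩
  · have hcont : Continuous (fun ξ : ℝ => LSeries f2 ((c : ℂ) - 2 * Real.pi * ξ * I)) := by
      rw [continuous_iff_continuousAt]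
      intro ξ
      have h1 : ContinuousAt (LSeries f2) ((c : ℂ) - 2 * Real.pi * ξ * I) :=
        (LSeries_analyticOnNhd f2 _ (absc_f2 (hre ξ))).continuousAt
      exact ContinuousAt.comp (f := fun ξ : ℝ => ((c : ℂ) - 2 * Real.pi * ξ * I)) h1
        (by fun_prop)
    refine Integrable.mul_bdd (c := ∑' n, ‖LSeries.term f2 (c : ℂ) n‖) hF
      hcont.aestronglyMeasurable (Eventually.of_forall fun ξ => ?_)
    refine tsum_of_norm_bounded hsum.hasSum ?_
    intro n
    rw [norm_term_f2]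
  · refine HasSum.congr_fun key ?_
    intro n
    rw [hFd]
    simp only
    rw [← fourier_inv_point H (Real.log n), ← integral_const_mul]
    congr 1; ext ξ
    rw [term_shift]
    ring

/-- Admissible test functions: smooth, compactly supported in `(0, ∞)`. -/
structure Test (g : ℝ → ℂ) : Prop where
  smooth : ContDiff ℝ ∞ g
  cpt : HasCompactSupport g
  supp : tsupport g ⊆ Ioi 0

/-- the auxiliary weight -/
noncomputable def kw (u : ℝ) : ℝ := Real.exp (2 * u) / (u ^ 2 * (Real.exp (-(2 * u)) - 1))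

lemma kw_den {u : ℝ} (hu : 0 < u) : u ^ 2 * (Real.exp (-(2 * u)) - 1) ≠ 0 := by
  have : Real.exp (-(2 * u)) < 1 := by
    rw [Real.exp_lt_one_iff]; linarith
  have h2 : Real.exp (-(2 * u)) - 1 ≠ 0 := by linarith
  positivity

/-- the Schwartz function used in the pairing -/
noncomputable def Hf (g : ℝ → ℂ) (u : ℝ) : ℂ := g u * (kw u : ℂ)

lemma Hf_contDiff {g : ℝ → ℂ} (hg : Test g) : ContDiff ℝ ∞ (Hf g) := by
  rw [contDiff_iff_contDiffAt]
  intro x
  by_cases hx : x ∈ tsupport g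
  · have hx0 : 0 < x := hg.supp hx
    refine ContDiffAt.mul hg.smooth.contDiffAt ?_
    have h1 : ContDiffAt ℝ ∞ kw x := by
      unfold kw
      refine ContDiffAt.div (by fun_prop) (by fun_prop) (kw_den hx0)
    exact Complex.ofRealCLM.contDiff.contDiffAt.comp x h1
  · have h1 : g =ᶠ[𝓝 x] 0 := notMem_tsupport_iff_eventuallyEq.1 hx
    have h2 : Hf g =ᶠ[𝓝 x] fun _ => 0 := by
      filter_upwards [h1] with y hy
      simp [Hf, hy]
    exact contDiffAt_const.congr_of_eventuallyEq h2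

lemma Hf_cpt {g : ℝ → ℂ} (hg : Test g) : HasCompactSupport (Hf g) := by
  exact hg.cpt.mul_right

noncomputable def HS {g : ℝ → ℂ} (hg : Test g) : 𝓢(ℝ, ℂ) := (Hf_cpt hg).toSchwartzMap (Hf_contDiff hg)

lemma HS_apply {g : ℝ → ℂ} (hg : Test g) (u : ℝ) : HS hg u = Hf g u := rfl

lemma Test.zero {g : ℝ → ℂ} (hg : Test g) {u : ℝ} (hu : u ≤ 0) : g u = 0 := by
  by_contra h
  have := hg.supp (subset_tsupport g h)
  exact absurd this (not_lt.2 hu)

lemma int_Ioi {g : ℝ → ℂ} (hg : Test g) (f : ℝ → ℂ) :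
    ∫ u in Ioi (0 : ℝ), g u * f u = ∫ u, g u * f u := by
  rw [← integral_indicator measurableSet_Ioi]
  congr 1; ext u
  by_cases hu : u ∈ Ioi (0 : ℝ)
  · rw [indicator_of_mem hu]
  · rw [indicator_of_notMem hu, hg.zero (not_lt.1 hu), zero_mul]

/-- the integral `M(c)` -/
noncomputable def Mc {g : ℝ → ℂ} (hg : Test g) (c : ℂ) : ℂ :=
  ∫ u in Ioi (0 : ℝ), (u : ℂ) ^ 2 * Complex.exp (-((2 - c) * u)) * HS hg u

lemma Mc_integrable {g : ℝ → ℂ} (hg : Test g) (c : ℂ) :
    Integrable (fun u : ℝ => (u : ℂ) ^ 2 * Complex.exp (-((2 - c) * u)) * HS hg u) := by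
  apply Continuous.integrable_of_hasCompactSupport
  · have := (HS hg).continuous
    fun_prop
  · exact HasCompactSupport.mul_left (Hf_cpt hg)

lemma Mc_diff {g : ℝ → ℂ} (hg : Test g) (a : ℂ) :
    Mc hg (a - 2) - Mc hg a = ∫ u, g u * Complex.exp (a * u) := by
  rw [Mc, Mc, ← integral_sub (Mc_integrable hg _).integrableOn (Mc_integrable hg _).integrableOn,
    ← int_Ioi hg]
  apply setIntegral_congr_fun measurableSet_Ioi
  intro u hu
  have hu' : 0 < u := hu
  have hden := kw_den hu'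
  have hden' : (u : ℂ) ^ 2 * (Complex.exp (-(2 * u)) - 1) ≠ 0 := by
    intro h
    apply hden
    exact_mod_cast h
  have hk : (kw u : ℂ) = Complex.exp (2 * u) / ((u : ℂ) ^ 2 * (Complex.exp (-(2 * u)) - 1)) := by
    unfold kw
    push_cast
    rfl
  simp only [HS_apply, Hf]
  rw [hk]
  have e1 : Complex.exp (-((2 - (a - 2)) * u)) =
      Complex.exp (a * u) * Complex.exp (-(2 * u)) * Complex.exp (-(2 * u)) := by
    rw [← Complex.exp_add, ← Complex.exp_add]
    congr 1; ring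
  have e2 : Complex.exp (-((2 - a) * u)) = Complex.exp (a * u) * Complex.exp (-(2 * u)) := by
    rw [← Complex.exp_add]
    congr 1; ring
  have e3 : Complex.exp (-(2 * u)) * Complex.exp (2 * u) = 1 := by
    rw [← Complex.exp_add]; simp
  rw [e1, e2]
  have hw : ((u : ℂ) ^ 2 * (Complex.exp (-(2 * u)) - 1)) *
      (Complex.exp (2 * u) / ((u : ℂ) ^ 2 * (Complex.exp (-(2 * u)) - 1))) =
      Complex.exp (2 * u) := mul_div_cancel₀ _ hden'
  linear_combination (Complex.exp (a * u) * Complex.exp (-(2 * u)) * g u) * hw +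
    Complex.exp (a * u) * g u * e3

end Pool.Agent.Lib.MP_00e05b_nt
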