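import Mathlib
import Pool.Agent.Lib.MP_00e05b_nt.Explicit

/-!
# The explicit formula for smooth test functions supported in `(0, ∞)`: final form
-/

open Complex Metric Set Filter Topology MeasureTheory
open scoped FourierTransform SchwartzMap ContDiff

namespace Pool.Agent.Lib.MP_00e05b_nt

/-- contribution of the trivial zeros -/
noncomputable def rt (u : ℝ) : ℝ := Real.exp (-(2 * u)) / (1 - Real.exp (-(2 * u)))

lemma Mc_main {g : ℝ → ℂ} (hg : Test g) :
    Mc hg (-2) + Mc hg (-1) - Mc hg 1 =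
      (∫ u, g u * Complex.exp u) - ∫ u, g u * (rt u : ℂ) := by
  have hi1 : Integrable (fun u => g u * Complex.exp u) := by
    apply Continuous.integrable_of_hasCompactSupport
    · have := hg.smooth.continuous
      fun_prop
    · exact hg.cpt.mul_right
  have hi2 : Integrable (fun u => g u * (rt u : ℂ)) := by
    have hc : Continuous (fun u => g u * (rt u : ℂ)) := by
      rw [continuous_iff_continuousAt]
      intro x
      by_cases hx : x ∈ tsupport g
      · have hx0 : 0 < x := hg.supp hx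
        refine ContinuousAt.mul hg.smooth.continuous.continuousAt ?_
        have : ContinuousAt rt x := by
          unfold rt
          refine ContinuousAt.div (by fun_prop) (by fun_prop) ?_
          have : Real.exp (-(2 * x)) < 1 := by rw [Real.exp_lt_one_iff]; linarith
          linarith
        exact Complex.continuous_ofReal.continuousAt.comp this
      · have h1 : g =ᶠ[𝓝 x] 0 := notMem_tsupport_iff_eventuallyEq.1 hx
        have h2 : (fun u => g u * (rt u : ℂ)) =ᶠ[𝓝 x] fun _ => 0 := by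
          filter_upwards [h1] with y hy
          simp [hy]
        exact continuousAt_const.congr h2.symm
    exact hc.integrable_of_hasCompactSupport hg.cpt.mul_right
  have j1 := (Mc_integrable hg (-2)).integrableOn (s := Ioi 0)
  have j2 := (Mc_integrable hg (-1)).integrableOn (s := Ioi 0)
  have j3 := (Mc_integrable hg 1).integrableOn (s := Ioi 0)
  have j12 : IntegrableOn (fun u : ℝ => (u : ℂ) ^ 2 * Complex.exp (-((2 - (-2)) * u)) * HS hg u +
    (u : ℂ) ^ 2 * Complex.exp (-((2 - (-1)) * u)) * HS hg u) (Ioi 0) := j1.add j2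
  rw [Mc, Mc, Mc, ← integral_add j1 j2, ← integral_sub j12 j3, ← int_Ioi hg, ← int_Ioi hg,
    ← integral_sub hi1.integrableOn hi2.integrableOn]
  apply setIntegral_congr_fun measurableSet_Ioi
  intro u hu
  have hu' : 0 < u := hu
  have hden := kw_den hu'
  have hden' : (u : ℂ) ^ 2 * (Complex.exp (-(2 * u)) - 1) ≠ 0 := by
    intro h
    apply hden
    exact_mod_cast h
  have hk : (kw u : ℂ) = Complex.exp (2 * u) / ((u : ℂ) ^ 2 * (Complex.exp (-(2 * u)) - 1)) := by
    unfold kw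
    push_cast
    rfl
  have hr : (rt u : ℂ) = Complex.exp (-(2 * u)) / (1 - Complex.exp (-(2 * u))) := by
    unfold rt
    push_cast
    rfl
  simp only [HS_apply, Hf]
  rw [hk, hr]
  have e3 : Complex.exp (-(2 * u)) * Complex.exp (2 * u) = 1 := by
    rw [← Complex.exp_add]; simp
  have e0 : Complex.exp (-(2 * u)) * Complex.exp u = Complex.exp (-u) := by
    rw [← Complex.exp_add]; congr 1; ring
  have e1 : Complex.exp (-((2 - (-2)) * u)) =
      Complex.exp (-(2 * u)) * Complex.exp (-(2 * u)) := by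
    rw [← Complex.exp_add]
    congr 1; ring
  have e2 : Complex.exp (-((2 - (-1)) * u)) = Complex.exp (-(2 * u)) * Complex.exp (-u) := by
    rw [← Complex.exp_add]
    congr 1; ring
  have e4 : Complex.exp (-((2 - 1) * u)) = Complex.exp (-u) := by
    congr 1; ring
  rw [e1, e2, e4]
  have hw : ((u : ℂ) ^ 2 * (Complex.exp (-(2 * u)) - 1)) *
      (Complex.exp (2 * u) / ((u : ℂ) ^ 2 * (Complex.exp (-(2 * u)) - 1))) =
      Complex.exp (2 * u) := mul_div_cancel₀ _ hden'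
  set w := (Complex.exp (2 * u) / ((u : ℂ) ^ 2 * (Complex.exp (-(2 * u)) - 1))) with hwdef
  have hD : Complex.exp (-(2 * u)) - 1 ≠ 0 := right_ne_zero_of_mul hden'
  have hD' : 1 - Complex.exp (-(2 * u)) ≠ 0 := by
    intro h; apply hD; linear_combination -h
  have hq : (1 - Complex.exp (-(2 * u))) * (Complex.exp (-(2 * u)) / (1 - Complex.exp (-(2 * u)))) =
      Complex.exp (-(2 * u)) := mul_div_cancel₀ _ hD'
  set q := (Complex.exp (-(2 * u)) / (1 - Complex.exp (-(2 * u)))) with hqdef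
  set E := Complex.exp (-(2 * u)) with hE
  set P := Complex.exp (2 * u) with hP
  set N := Complex.exp (-u) with hN
  set X := Complex.exp u with hX
  apply mul_left_cancel₀ hD
  have hPN : P * N = X := by
    rw [hP, hN, hX, ← Complex.exp_add]; congr 1; ring
  linear_combination (g u * (E * E + E * N - N)) * hw + g u * (E + N) * e3 -
    g u * hPN - g u * hq - g u * e0

lemma term_combine {g : ℝ → ℂ} (hg : Test g) (n : ℕ) :
    LSeries.term f2 ((2 : ℝ) : ℂ) n * HS hg (Real.log n) -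
      LSeries.term f2 ((4 : ℝ) : ℂ) n * HS hg (Real.log n) =
      -(((ArithmeticFunction.vonMangoldt n : ℝ) : ℂ) * g (Real.log n)) := by
  rcases Nat.lt_or_ge n 2 with h | h
  · interval_cases n
    · simp
    · have : g 0 = 0 := hg.zero le_rfl
      simp [HS_apply, Hf, this]
  · have hn0 : n ≠ 0 := by omega
    have hn1 : (1 : ℝ) < n := by exact_mod_cast h
    have hnc : (n : ℂ) ≠ 0 := by exact_mod_cast hn0
    have hlog : 0 < Real.log n := Real.log_pos hn1
    rw [LSeries.term_of_ne_zero hn0, LSeries.term_of_ne_zero hn0, HS_apply, Hf]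
    have hf2 : f2 n = (Real.log n : ℂ) ^ 2 * ((ArithmeticFunction.vonMangoldt n : ℝ) : ℂ) := by
      unfold f2 LSeries.logMul vMc
      rw [← Complex.natCast_log]
      ring
    have hk : (kw (Real.log n) : ℂ) = (n : ℂ) ^ 2 /
        ((Real.log n : ℂ) ^ 2 * (((n : ℂ) ^ 2)⁻¹ - 1)) := by
      unfold kw
      have e1 : Real.exp (2 * Real.log n) = (n : ℝ) ^ 2 := by
        rw [mul_comm, Real.exp_mul, Real.exp_log (by linarith)]
        norm_num
      rw [Real.exp_neg, e1]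
      push_cast
      rfl
    have hc2 : (n : ℂ) ^ ((2 : ℝ) : ℂ) = (n : ℂ) ^ 2 := by
      rw [show ((2 : ℝ) : ℂ) = ((2 : ℕ) : ℂ) by norm_num, Complex.cpow_natCast]
    have hc4 : (n : ℂ) ^ ((4 : ℝ) : ℂ) = (n : ℂ) ^ 4 := by
      rw [show ((4 : ℝ) : ℂ) = ((4 : ℕ) : ℂ) by norm_num, Complex.cpow_natCast]
    rw [hc2, hc4, hk, hf2]
    have hl0 : (Real.log n : ℂ) ≠ 0 := by exact_mod_cast hlog.ne'
    have hd : ((n : ℂ) ^ 2)⁻¹ - 1 ≠ 0 := by
      have : ((n : ℝ) ^ 2)⁻¹ < 1 := inv_lt_one_of_one_lt₀ (by nlinarith)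
      intro h
      have h' : ((((n : ℝ) ^ 2)⁻¹ - 1 : ℝ) : ℂ) = 0 := by
        push_cast
        exact h
      have h'' : ((n : ℝ) ^ 2)⁻¹ - 1 = 0 := Complex.ofReal_eq_zero.1 h'
      linarith
    have hd2 : (1 - (n : ℂ) ^ 2) ≠ 0 := by
      intro h
      apply hd
      have : (n : ℂ) ^ 2 = 1 := by linear_combination -h
      rw [this]; norm_num
    have hd3 : ((n : ℂ) ^ 2)⁻¹ - 1 = (1 - (n : ℂ) ^ 2) / (n : ℂ) ^ 2 := by
      field_simp
    rw [hd3]
    field_simp
    ring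

/-- **Explicit formula** for test functions supported in `(0, ∞)`. The sum is over all complex
numbers, weighted by their multiplicity as zeros of `xi`. -/
theorem explicit_formula {g : ℝ → ℂ} (hg : Test g) :
    HasSum (fun a : ℂ => (mx a : ℂ) * ∫ u, g u * Complex.exp (a * u))
      ((∫ u, g u * Complex.exp u) - (∫ u, g u * (rt u : ℂ)) -
        ∑' n : ℕ, ((ArithmeticFunction.vonMangoldt n : ℝ) : ℂ) * g (Real.log n)) := by
  have hz := pair_zeros (HS hg)
  obtain ⟨hi2, hs2⟩ := pair_dir (HS hg) (c := 2) (by norm_num)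
  obtain ⟨hi4, hs4⟩ := pair_dir (HS hg) (c := 4) (by norm_num)
  have hsg2 : ∀ ξ : ℝ, ((2 : ℝ) : ℂ) - 2 * Real.pi * ξ * I = sg ξ := by
    intro ξ; unfold sg; push_cast; ring
  have hsg4 : ∀ ξ : ℝ, ((4 : ℝ) : ℂ) - 2 * Real.pi * ξ * I = sg ξ + 2 := by
    intro ξ; unfold sg; push_cast; ring
  simp_rw [hsg2] at hi2 hs2
  simp_rw [hsg4] at hi4 hs4
  have hF := fourier_integrable (HS hg)
  have hib : ∀ b : ℂ, b.re < 2 →
      Integrable (fun ξ : ℝ => 𝓕 (HS hg : ℝ → ℂ) ξ * (2 / (sg ξ - b) ^ 3)) := by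
    intro b hb
    refine Integrable.mul_bdd (c := 2 / (2 - b.re) ^ 3) hF ?_ (Eventually.of_forall fun ξ => ?_)
    · apply Continuous.aestronglyMeasurable
      have := continuous_sg
      refine Continuous.div continuous_const (by fun_prop) ?_
      intro ξ
      apply pow_ne_zero
      intro h
      have := congrArg Complex.re h
      rw [Complex.sub_re, sg_re] at this
      simp at this
      linarith
    · rw [norm_div, norm_pow]
      simp only [RCLike.norm_ofNat]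
      have h1 : 2 - b.re ≤ ‖sg ξ - b‖ := by
        have := Complex.re_le_norm (sg ξ - b)
        rwa [Complex.sub_re, sg_re] at this
      have h2 : 0 < 2 - b.re := by linarith
      gcongr
  have e1 := pair_basic (HS hg) (c := -2) (by simp)
  have e2 := pair_basic (HS hg) (c := -1) (by simp; norm_num)
  have e3 := pair_basic (HS hg) (c := 1) (by simp)
  have i1 := hib (-2) (by simp)
  have i2 := hib (-1) (by simp; norm_num)
  have i3 := hib 1 (by simp)
  have hrhs : (∫ ξ : ℝ, 𝓕 (HS hg : ℝ → ℂ) ξ *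
      (2 / (sg ξ + 2) ^ 3 + 2 / (sg ξ + 1) ^ 3 - 2 / (sg ξ - 1) ^ 3 +
        (LSeries f2 (sg ξ) - LSeries f2 (sg ξ + 2)))) =
      ((∫ u, g u * Complex.exp u) - ∫ u, g u * (rt u : ℂ)) -
        ∑' n : ℕ, ((ArithmeticFunction.vonMangoldt n : ℝ) : ℂ) * g (Real.log n) := by
    have h1 : ∀ ξ : ℝ, 𝓕 (HS hg : ℝ → ℂ) ξ *
      (2 / (sg ξ + 2) ^ 3 + 2 / (sg ξ + 1) ^ 3 - 2 / (sg ξ - 1) ^ 3 +
        (LSeries f2 (sg ξ) - LSeries f2 (sg ξ + 2))) =
        (𝓕 (HS hg : ℝ → ℂ) ξ * (2 / (sg ξ - -2) ^ 3) + 𝓕 (HS hg : ℝ → ℂ) ξ * (2 / (sg ξ - -1) ^ 3) -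
        𝓕 (HS hg : ℝ → ℂ) ξ * (2 / (sg ξ - 1) ^ 3)) +
        (𝓕 (HS hg : ℝ → ℂ) ξ * LSeries f2 (sg ξ) - 𝓕 (HS hg : ℝ → ℂ) ξ * LSeries f2 (sg ξ + 2)) := by
      intro ξ
      rw [sub_neg_eq_add, sub_neg_eq_add]
      ring
    simp_rw [h1]
    have i12 : Integrable (fun ξ : ℝ => 𝓕 (HS hg : ℝ → ℂ) ξ * (2 / (sg ξ - -2) ^ 3) +
      𝓕 (HS hg : ℝ → ℂ) ξ * (2 / (sg ξ - -1) ^ 3)) := i1.add i2
    have i123 : Integrable (fun ξ : ℝ => 𝓕 (HS hg : ℝ → ℂ) ξ * (2 / (sg ξ - -2) ^ 3) +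
      𝓕 (HS hg : ℝ → ℂ) ξ * (2 / (sg ξ - -1) ^ 3) -
      𝓕 (HS hg : ℝ → ℂ) ξ * (2 / (sg ξ - 1) ^ 3)) := i12.sub i3
    have i45 : Integrable (fun ξ : ℝ => 𝓕 (HS hg : ℝ → ℂ) ξ * LSeries f2 (sg ξ) -
      𝓕 (HS hg : ℝ → ℂ) ξ * LSeries f2 (sg ξ + 2)) := hi2.sub hi4
    rw [integral_add i123 i45, integral_sub i12 i3,
      integral_add i1 i2, integral_sub hi2 hi4, e1, e2, e3]
    have h2 := hs2.sub hs4
    simp_rw [term_combine hg] at h2
    have h3 := h2.tsum_eq
    rw [tsum_neg] at h3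
    rw [← h3]
    have h4 := Mc_main hg
    unfold Mc at h4
    rw [h4]
    ring
  rw [hrhs] at hz
  refine HasSum.congr_fun hz ?_
  intro a
  by_cases ha : xi a = 0
  · congr 1
    have hre := (xi_zero_re ha).2
    have h1 : ∀ ξ : ℝ, 𝓕 (HS hg : ℝ → ℂ) ξ * (2 / (sg ξ + 2 - a) ^ 3 - 2 / (sg ξ - a) ^ 3) =
        𝓕 (HS hg : ℝ → ℂ) ξ * (2 / (sg ξ - (a - 2)) ^ 3) -
        𝓕 (HS hg : ℝ → ℂ) ξ * (2 / (sg ξ - a) ^ 3) := by
      intro ξ
      rw [show sg ξ - (a - 2) = sg ξ + 2 - a by ring]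
      ring
    simp_rw [h1]
    rw [integral_sub (hib _ (by simp; linarith)) (hib _ (by linarith)),
      pair_basic (HS hg) (c := a - 2) (by simp; linarith), pair_basic (HS hg) (by linarith)]
    exact (Mc_diff hg a).symm
  · rw [mx_eq_zero ha]; simp

end Pool.Agent.Lib.MP_00e05b_nt
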