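import Mathlib

/-!
# The pair correlation function `F(α, T)` of the zeros of the Riemann zeta function
-/

open Complex Set

namespace Pool.Agent.Lib.MP_00e05b_nt

/-- The ordinates in `(0, T]`: the reals `γ` with `0 < γ ≤ T` and `ζ(1/2 + iγ) = 0`. -/
def ordinateSet (T : ℝ) : Set ℝ :=
  {γ : ℝ | 0 < γ ∧ γ ≤ T ∧ riemannZeta (1 / 2 + γ * I) = 0}

/-- There are finitely many ordinates in `(0, T]`. -/
lemma ordinateSet_finite (T : ℝ) : (ordinateSet T).Finite := by
  have hK : IsCompact ((fun γ : ℝ => (1 / 2 + γ * I : ℂ)) '' Icc 0 T) :=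
    isCompact_Icc.image (by fun_prop)
  have hfin := IsCompact.inter_riemannZetaZeros_finite hK
  have hinj : Function.Injective (fun γ : ℝ => (1 / 2 + γ * I : ℂ)) := by
    intro a b h
    have := congrArg Complex.im h
    simpa using this
  refine Set.Finite.of_finite_image (f := fun γ : ℝ => (1 / 2 + γ * I : ℂ)) ?_ hinj.injOn
  refine hfin.subset ?_
  rintro _ ⟨γ, ⟨h0, hT, hz⟩, rfl⟩
  exact ⟨⟨γ, ⟨h0.le, hT⟩, rfl⟩, hz⟩

/-- The finite set of ordinates in `(0, T]`. -/
noncomputable def ordinates (T : ℝ) : Finset ℝ := (ordinateSet_finite T).toFinset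

/-- The multiplicity of `1/2 + iγ` as a zero of the Riemann zeta function. -/
noncomputable def mult (γ : ℝ) : ℕ := analyticOrderNatAt riemannZeta (1 / 2 + γ * I)

/-- Montgomery's weight `w(u) = 4 / (4 + u ^ 2)`. -/
noncomputable def weight (u : ℝ) : ℝ := 4 / (4 + u ^ 2)

/-- The pair correlation function
`F(α, T) = ((T / 2π) log T)⁻¹ ∑_{γ, γ'} T ^ (i α (γ - γ')) w(γ - γ')`, where `γ, γ'` run over the
ordinates in `(0, T]`, each counted with its multiplicity. -/
noncomputable def pairF (α T : ℝ) : ℂ :=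
  (T / (2 * Real.pi) * Real.log T : ℂ)⁻¹ *
    ∑ γ ∈ ordinates T, ∑ γ' ∈ ordinates T,
      (mult γ : ℂ) * (mult γ' : ℂ) * (T : ℂ) ^ (I * α * (γ - γ')) * (weight (γ - γ') : ℂ)

end Pool.Agent.Lib.MP_00e05b_nt
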