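import Mathlib
import Pool.Agent.Lib.MP_00e05b_nt.Defs

/-!
# `F(α, T)` as a mean square
-/

open Complex Set Filter Topology MeasureTheory

namespace Pool.Agent.Lib.MP_00e05b_nt

/-- the exponential sum over ordinates -/
noncomputable def SS (T v : ℝ) : ℂ := ∑ γ ∈ ordinates T, (mult γ : ℂ) * Complex.exp (γ * v * I)

lemma continuous_SS (T : ℝ) : Continuous (SS T) := by
  unfold SS
  fun_prop

lemma kernel_integrable (u : ℝ) :
    Integrable (fun v : ℝ => Complex.exp (u * v * I) * Real.exp (-(2 * |v|))) := by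
  have h1 : Integrable (fun v : ℝ => Real.exp (-(2 * |v|))) := by
    have a1 : IntegrableOn (fun v : ℝ => Real.exp (-(2 * |v|))) (Ioi 0) := by
      refine (integrableOn_exp_mul_Ioi (a := -2) (by norm_num) 0).congr_fun ?_ measurableSet_Ioi
      intro v hv
      have hv' : 0 < v := hv
      simp only [abs_of_pos hv']
      congr 1
      ring
    have a2 : IntegrableOn (fun v : ℝ => Real.exp (-(2 * |v|))) (Iic 0) := by
      refine (integrableOn_exp_mul_Iic (a := 2) (by norm_num) 0).congr_fun ?_ measurableSet_Iic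
      intro v hv
      have hv' : v ≤ 0 := hv
      simp only [abs_of_nonpos hv']
      congr 1
      ring
    have := a2.union a1
    rwa [Iic_union_Ioi, integrableOn_univ] at this
  have h2 : Integrable (fun v : ℝ => ((Real.exp (-(2 * |v|)) : ℝ) : ℂ)) := h1.ofReal
  refine Integrable.bdd_mul (c := 1) h2 ?_ ?_
  · apply Continuous.aestronglyMeasurable
    fun_prop
  · refine Eventually.of_forall fun v => ?_
    have : (u * v * I : ℂ) = ((u * v : ℝ) : ℂ) * I := by push_cast; ring
    rw [this, Complex.norm_exp_ofReal_mul_I]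

lemma kernel_eq (u : ℝ) :
    ∫ v : ℝ, Complex.exp (u * v * I) * Real.exp (-(2 * |v|)) = (weight u : ℂ) := by
  have hi := kernel_integrable u
  have h1 : ∫ v in Ioi (0 : ℝ), Complex.exp (u * v * I) * Real.exp (-(2 * |v|)) =
      1 / (2 - u * I) := by
    have h2 : ∀ v ∈ Ioi (0 : ℝ), Complex.exp (u * v * I) * Real.exp (-(2 * |v|)) =
        Complex.exp ((u * I - 2) * v) := by
      intro v hv
      have hv' : 0 < v := hv
      rw [abs_of_pos hv', Complex.ofReal_exp, ← Complex.exp_add]
      congr 1
      push_cast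
      ring
    rw [setIntegral_congr_fun measurableSet_Ioi h2, integral_exp_mul_complex_Ioi (by simp)]
    have hne : (u * I - 2 : ℂ) ≠ 0 := by
      intro h
      have := congrArg Complex.re h
      simp at this
    have hne2 : (2 - u * I : ℂ) ≠ 0 := by
      intro h; apply hne; linear_combination -h
    simp only [Complex.ofReal_zero, mul_zero, Complex.exp_zero]
    rw [← neg_sub, div_neg, neg_div, neg_neg]
  have h3 : ∫ v in Iic (0 : ℝ), Complex.exp (u * v * I) * Real.exp (-(2 * |v|)) =
      1 / (2 + u * I) := by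
    have h2 : ∀ v ∈ Iic (0 : ℝ), Complex.exp (u * v * I) * Real.exp (-(2 * |v|)) =
        Complex.exp ((u * I + 2) * v) := by
      intro v hv
      have hv' : v ≤ 0 := hv
      rw [abs_of_nonpos hv', Complex.ofReal_exp, ← Complex.exp_add]
      congr 1
      push_cast
      ring
    rw [setIntegral_congr_fun measurableSet_Iic h2, integral_exp_mul_complex_Iic (by simp)]
    simp
    rw [add_comm]
  rw [← intervalIntegral.integral_Iic_add_Ioi hi.integrableOn hi.integrableOn (b := 0), h1, h3]
  have hne1 : (2 - u * I : ℂ) ≠ 0 := by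
    intro h
    have := congrArg Complex.re h
    simp at this
  have hne2 : (2 + u * I : ℂ) ≠ 0 := by
    intro h
    have := congrArg Complex.re h
    simp at this
  have hne3 : (4 + (u : ℂ) ^ 2) ≠ 0 := by
    have : (4 + (u : ℂ) ^ 2) = (2 - u * I) * (2 + u * I) := by
      ring_nf
      rw [Complex.I_sq]
      ring
    rw [this]
    exact mul_ne_zero hne1 hne2
  unfold weight
  push_cast
  field_simp
  ring_nf
  rw [Complex.I_sq]
  ring

/-- The double sum as an integral. -/
lemma double_sum (T y : ℝ) :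
    ∑ γ ∈ ordinates T, ∑ γ' ∈ ordinates T,
      (mult γ : ℂ) * (mult γ' : ℂ) * Complex.exp (y * (γ - γ') * I) * (weight (γ - γ') : ℂ) =
    ((∫ v : ℝ, ‖SS T (y + v)‖ ^ 2 * Real.exp (-(2 * |v|)) : ℝ) : ℂ) := by
  have h1 : ∀ v : ℝ, ((‖SS T (y + v)‖ ^ 2 * Real.exp (-(2 * |v|)) : ℝ) : ℂ) =
      ∑ γ ∈ ordinates T, ∑ γ' ∈ ordinates T, ((mult γ : ℂ) * (mult γ' : ℂ) *
        Complex.exp (y * (γ - γ') * I)) *
        (Complex.exp (((γ - γ' : ℝ) : ℂ) * v * I) * Real.exp (-(2 * |v|))) := by
    intro v
    push_cast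
    rw [← Complex.mul_conj', SS, map_sum, Finset.sum_mul_sum, Finset.sum_mul]
    apply Finset.sum_congr rfl
    intro γ _
    rw [Finset.sum_mul]
    apply Finset.sum_congr rfl
    intro γ' _
    rw [map_mul, Complex.conj_natCast, ← Complex.exp_conj]
    have e1 : (starRingEnd ℂ) (γ' * ((y + v : ℝ) : ℂ) * I) = -(γ' * ((y + v : ℝ) : ℂ) * I) := by
      rw [map_mul, map_mul, Complex.conj_ofReal, Complex.conj_ofReal, Complex.conj_I]
      ring
    rw [e1]
    have e2 : Complex.exp (γ * ((y + v : ℝ) : ℂ) * I) * Complex.exp (-(γ' * ((y + v : ℝ) : ℂ) * I)) =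
        Complex.exp (y * (γ - γ') * I) * Complex.exp ((γ - γ') * v * I) := by
      rw [← Complex.exp_add, ← Complex.exp_add]
      congr 1
      push_cast
      ring
    linear_combination ((mult γ : ℂ) * (mult γ' : ℂ) * Complex.exp (-(2 * (|v| : ℝ)))) * e2
  rw [← integral_complex_ofReal]
  simp_rw [h1]
  rw [integral_finsetSum]
  · apply Finset.sum_congr rfl
    intro γ _
    rw [integral_finsetSum]
    · apply Finset.sum_congr rfl
      intro γ' _
      rw [integral_const_mul, kernel_eq]
      
    · intro γ' _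
      exact (kernel_integrable _).const_mul _
  · intro γ _
    apply integrable_finsetSum
    intro γ' _
    exact (kernel_integrable _).const_mul _

end Pool.Agent.Lib.MP_00e05b_nt
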