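import Mathlib
import Pool.Agent.Lib.MP_00e05b_nt.Defs
import Pool.Agent.Lib.MP_00e05b_nt.Star

/-!
# Zeros of `xi` under the Riemann hypothesis
-/

open Complex Set Filter Topology

namespace Pool.Agent.Lib.MP_00e05b_nt

lemma mx_eq_order {a : ℂ} (h0 : 0 < a.re) (h1 : a ≠ 1) : mx a = analyticOrderNatAt riemannZeta a := by
  have ha0 : a ≠ 0 := by rintro rfl; simp at h0
  have hG : AnalyticAt ℂ Gammaℝ a := by
    have h2 : AnalyticAt ℂ (fun s => (Gammaℝ s)⁻¹) a := differentiable_Gammaℝ_inv.analyticAt a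
    have h3 := h2.inv (inv_ne_zero (Gammaℝ_ne_zero_of_re_pos h0))
    refine h3.congr ?_
    filter_upwards with s
    simp
  have hz : AnalyticAt ℂ riemannZeta a := analyticOn_riemannZeta a h1
  have hP : AnalyticAt ℂ (fun s => s * (1 - s) * Gammaℝ s) a :=
    (analyticAt_id.mul (analyticAt_const.sub analyticAt_id)).mul hG
  have hPa : a * (1 - a) * Gammaℝ a ≠ 0 :=
    mul_ne_zero (mul_ne_zero ha0 (sub_ne_zero.2 h1.symm)) (Gammaℝ_ne_zero_of_re_pos h0)
  have hev : xi =ᶠ[𝓝 a] (fun s => s * (1 - s) * Gammaℝ s) * riemannZeta := by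
    have ho : IsOpen {s : ℂ | 0 < s.re} := isOpen_lt continuous_const continuous_re
    filter_upwards [ho.mem_nhds h0, isOpen_ne.mem_nhds h1] with s hs hs1
    rw [xi_eq_zeta hs hs1]
    rfl
  have h4 : analyticOrderAt xi a = analyticOrderAt riemannZeta a := by
    rw [analyticOrderAt_congr hev, analyticOrderAt_mul hP hz, hP.analyticOrderAt_eq_zero.2 hPa,
      zero_add]
  rw [mx, analyticOrderNatAt, h4, analyticOrderNatAt]

lemma half_re (γ : ℝ) : ((1 / 2 : ℂ) + γ * I).re = 1 / 2 := by simp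

lemma half_im (γ : ℝ) : ((1 / 2 : ℂ) + γ * I).im = γ := by simp

lemma half_ne_one (γ : ℝ) : (1 / 2 : ℂ) + γ * I ≠ 1 := by
  intro h
  have := congrArg Complex.re h
  rw [half_re] at this
  norm_num at this

lemma mx_half (γ : ℝ) : mx (1 / 2 + γ * I) = mult γ :=
  mx_eq_order (by rw [half_re]; norm_num) (half_ne_one γ)

lemma xi_half_iff (γ : ℝ) : xi (1 / 2 + γ * I) = 0 ↔ riemannZeta (1 / 2 + γ * I) = 0 := by
  have h0 : 0 < ((1 / 2 : ℂ) + γ * I).re := by rw [half_re]; norm_num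
  have hne : (1 / 2 : ℂ) + γ * I ≠ 0 := by
    intro h
    have := congrArg Complex.re h
    rw [half_re] at this
    norm_num at this
  rw [xi_eq_zeta h0 (half_ne_one γ)]
  constructor
  · intro h
    rcases mul_eq_zero.1 h with h | h
    · exfalso
      exact mul_ne_zero (mul_ne_zero hne (sub_ne_zero.2 (half_ne_one γ).symm))
        (Gammaℝ_ne_zero_of_re_pos h0) h
    · exact h
  · intro h
    rw [h, mul_zero]

lemma re_of_RH (hRH : RiemannHypothesis) {a : ℂ} (ha : xi a = 0) : a = 1 / 2 + a.im * I := by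
  obtain ⟨h0, h1⟩ := xi_zero_re ha
  have hne1 : a ≠ 1 := by rintro rfl; simp at h1
  have hne0 : a ≠ 0 := by rintro rfl; simp at h0
  have hz : riemannZeta a = 0 := by
    rw [xi_eq_zeta h0 hne1] at ha
    rcases mul_eq_zero.1 ha with h | h
    · exfalso
      exact mul_ne_zero (mul_ne_zero hne0 (sub_ne_zero.2 hne1.symm))
        (Gammaℝ_ne_zero_of_re_pos h0) h
    · exact h
  have hre : a.re = 1 / 2 := by
    apply hRH a hz _ hne1
    rintro ⟨n, hn⟩
    rw [hn] at h0
    simp at h0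
    have : (0 : ℝ) ≤ n := Nat.cast_nonneg n
    linarith
  apply Complex.ext
  · rw [half_re]; exact hre
  · rw [half_im]

lemma mem_ordinates {T γ : ℝ} :
    γ ∈ ordinates T ↔ 0 < γ ∧ γ ≤ T ∧ riemannZeta (1 / 2 + γ * I) = 0 := by
  unfold ordinates
  rw [Set.Finite.mem_toFinset]
  rfl

end Pool.Agent.Lib.MP_00e05b_nt
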