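import Mathlib
import Pool.Agent.Lib.MP_00e05b_nt.PosInt
import Pool.Agent.Lib.MP_00e05b_nt.Zeros
import Pool.Agent.Lib.MP_00e05b_nt.BumpF
import Pool.Agent.Lib.MP_00e05b_nt.Explicit2

/-!
# Twisted prime sums and the sum over zeros
-/

open Complex Set Filter Topology MeasureTheory
open scoped ContDiff

namespace Pool.Agent.Lib.MP_00e05b_nt

lemma exp_half_smooth (c : ℝ) : ContDiff ℝ ∞ (fun t : ℝ => Real.exp (c * t)) := by
  fun_prop

lemma integral_local {W : ℝ → ℝ} (hs : ∀ u, 3 / 4 ≤ |u| → W u = 0) (y : ℝ) (F : ℝ → ℂ) :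
    ∫ u : ℝ, (W (u - y) : ℂ) * F u = ∫ u in (y - 1)..(y + 1), (W (u - y) : ℂ) * F u := by
  rw [intervalIntegral.integral_of_le (by linarith)]
  symm
  apply setIntegral_eq_integral_of_forall_compl_eq_zero
  intro u hu
  rw [hs (u - y), Complex.ofReal_zero, zero_mul]
  rw [mem_Ioc, not_and_or, not_lt, not_le] at hu
  rcases hu with h | h
  · rw [abs_of_neg (by linarith)]; linarith
  · rw [abs_of_pos (by linarith)]; linarith

lemma test_g {W : ℝ → ℝ} (hW : ContDiff ℝ ∞ W) (hs : ∀ u, 3 / 4 ≤ |u| → W u = 0) {y : ℝ}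
    (hy : 2 ≤ y) (θ : ℝ) : Test (fun u => (W (u - y) : ℂ) * ph 0 θ u) := by
  have hsub : tsupport (fun u => (W (u - y) : ℂ) * ph 0 θ u) ⊆ Icc (y - 3 / 4) (y + 3 / 4) := by
    apply closure_minimal _ isClosed_Icc
    intro u hu
    rw [Function.mem_support] at hu
    by_contra h
    apply hu
    rw [hs (u - y), Complex.ofReal_zero, zero_mul]
    rw [mem_Icc, not_and_or, not_le, not_le] at h
    rcases h with h | h
    · rw [abs_of_neg (by linarith)]; linarith
    · rw [abs_of_pos (by linarith)]; linarith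
  refine ⟨?_, ?_, ?_⟩
  · have h1 : ContDiff ℝ ∞ (fun u => (W (u - y) : ℂ)) :=
      Complex.ofRealCLM.contDiff.comp (hW.comp (contDiff_id.sub contDiff_const))
    have h2 : ContDiff ℝ ∞ (ph 0 θ) := by
      unfold ph
      have : ContDiff ℝ ∞ (fun u : ℝ => ((0 * u - θ * Real.exp u : ℝ) : ℂ)) :=
        Complex.ofRealCLM.contDiff.comp
          ((contDiff_const.mul contDiff_id).sub (contDiff_const.mul Real.contDiff_exp))
      exact (this.mul contDiff_const).cexp
    exact h1.mul h2
  · exact isCompact_Icc.of_isClosed_subset (isClosed_tsupport _) hsub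
  · refine hsub.trans ?_
    intro u hu
    rw [mem_Icc] at hu
    rw [mem_Ioi]
    linarith [hu.1]

/-- The zero side: mean of `SS` against the twisted bump. -/
noncomputable def ZZ (W : ℝ → ℝ) (T y θ : ℝ) : ℂ :=
  ∫ u in (y - 1)..(y + 1), ((W (u - y) * Real.exp (1 / 2 * (u - y)) : ℝ) : ℂ) * (SS T u * ph 0 θ u)

lemma ph_mul_exp (θ y γ u : ℝ) : ph 0 θ u * Complex.exp ((1 / 2 + γ * I) * u) =
    Real.exp (y / 2) * (Real.exp (1 / 2 * (u - y)) * ph γ θ u) := by
  unfold ph
  push_cast
  rw [← Complex.exp_add, ← Complex.exp_add, ← Complex.exp_add]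
  congr 1
  ring

theorem approx (hRH : RiemannHypothesis) {W : ℝ → ℝ} (hW : ContDiff ℝ ∞ W) (h0 : ∀ u, 0 ≤ W u)
    (h1 : ∀ u, W u ≤ 1) (hs : ∀ u, 3 / 4 ≤ |u| → W u = 0) :
    ∃ C : ℝ, 0 ≤ C ∧ ∀ T y θ : ℝ, 1 ≤ T → 2 ≤ y → 0 < θ → θ * Real.exp (y + 1) ≤ T / 2 →
      Real.exp (y / 2) ≤ (θ * Real.exp (y - 1)) ^ 3 →
      ‖ZZ W T y θ + ∑' n : ℕ, ((ArithmeticFunction.vonMangoldt n : ℝ) : ℂ) *
        (((Real.exp (-(y / 2)) * W (Real.log n - y) : ℝ) : ℂ) * ph 0 θ (Real.log n))‖ ≤ C := by
  set Wt : ℝ → ℝ := fun t => W t * Real.exp (1 / 2 * t) with hWt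
  set Wh : ℝ → ℝ := fun t => W t * Real.exp (1 * t) with hWh
  have sWt : ContDiff ℝ ∞ Wt := hW.mul (exp_half_smooth _)
  have sWh : ContDiff ℝ ∞ Wh := hW.mul (exp_half_smooth _)
  have zWt : ∀ u, 3 / 4 ≤ |u| → Wt u = 0 := fun u hu => by simp only [hWt, hs u hu, zero_mul]
  have zWh : ∀ u, 3 / 4 ≤ |u| → Wh u = 0 := fun u hu => by simp only [hWh, hs u hu, zero_mul]
  obtain ⟨Kt, bt⟩ := bump_of_smooth sWt zWt
  obtain ⟨Kh, bh⟩ := bump_of_smooth sWh zWh
  have hKt : 0 ≤ Kt := (abs_nonneg _).trans (bt.b0 0)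
  have hKh : 0 ≤ Kh := (abs_nonneg _).trans (bh.b0 0)
  obtain ⟨Cx, hCx⟩ := xi_growth
  have hsum := summable_order hCx
  set S0 : ℝ := ∑' a : ℂ, (analyticOrderNatAt xi a : ℝ) / (1 + ‖a‖) ^ 3 with hS0
  have hS0' : 0 ≤ S0 := tsum_nonneg fun a => by positivity
  refine ⟨104 * Kh + 2 + 13000 * Kt * S0, by positivity, ?_⟩
  intro T y θ hT hy hθ hθT hθy
  have ey : (0 : ℝ) < Real.exp (y / 2) := Real.exp_pos _
  have hθ1 : 1 ≤ θ * Real.exp (y - 1) := by
    by_contra hc
    push Not at hc
    have hp : 0 ≤ θ * Real.exp (y - 1) := by positivity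
    have : (θ * Real.exp (y - 1)) ^ 3 < 1 := pow_lt_one₀ hp hc (by norm_num)
    have h2 : 1 ≤ Real.exp (y / 2) := Real.one_le_exp (by linarith)
    linarith
  -- test function
  set g : ℝ → ℂ := fun u => (W (u - y) : ℂ) * ph 0 θ u with hg
  have hgT : Test g := test_g hW hs hy θ
  have hEF := explicit_formula hgT
  set f : ℂ → ℂ := fun a => (mx a : ℂ) * ∫ u, g u * Complex.exp (a * u) with hf
  set tot : ℂ := ((∫ u, g u * Complex.exp u) - (∫ u, g u * (rt u : ℂ)) -
        ∑' n : ℕ, ((ArithmeticFunction.vonMangoldt n : ℝ) : ℂ) * g (Real.log n)) with htot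
  -- value at zeros
  have hval : ∀ γ : ℝ, ∫ u, g u * Complex.exp ((1 / 2 + γ * I) * u) =
      Real.exp (y / 2) * ∫ u in (y - 1)..(y + 1), (Wt (u - y) : ℂ) * ph γ θ u := by
    intro γ
    rw [← intervalIntegral.integral_const_mul]
    have e1 : ∀ u : ℝ, g u * Complex.exp ((1 / 2 + γ * I) * u) =
        (W (u - y) : ℂ) * (Real.exp (y / 2) * (Real.exp (1 / 2 * (u - y)) * ph γ θ u)) := by
      intro u
      simp only [hg]
      rw [mul_assoc, ph_mul_exp θ y γ u]
    simp_rw [e1]
    rw [integral_local hs y]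
    apply intervalIntegral.integral_congr
    intro u _
    simp only [hWt]
    push_cast
    ring
  classical
  set S : Finset ℂ := (ordinates T).image (fun γ : ℝ => (1 / 2 + γ * I : ℂ)) with hS
  have hinj : Function.Injective (fun γ : ℝ => (1 / 2 + γ * I : ℂ)) := by
    intro a b h
    have := congrArg Complex.im h
    simpa using this
  -- the sum over S
  have hSsum : ∑ a ∈ S, f a = Real.exp (y / 2) * ZZ W T y θ := by
    rw [hS, Finset.sum_image (fun _ _ _ _ h => hinj h)]
    have e1 : ∀ γ ∈ ordinates T, f (1 / 2 + γ * I) = ∫ u in (y - 1)..(y + 1),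
        Real.exp (y / 2) * ((Wt (u - y) : ℂ) * (((mult γ : ℂ) * Complex.exp (γ * u * I)) * ph 0 θ u)) := by
      intro γ _
      simp only [hf]
      rw [mx_half, hval γ, ← mul_assoc, ← intervalIntegral.integral_const_mul]
      apply intervalIntegral.integral_congr
      intro u _
      have e2 : ph γ θ u = Complex.exp (γ * u * I) * ph 0 θ u := by
        unfold ph
        rw [← Complex.exp_add]
        congr 1
        push_cast
        ring
      simp only [e2]
      ring
    rw [Finset.sum_congr rfl e1, ← intervalIntegral.integral_finsetSum]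
    · unfold ZZ
      rw [← intervalIntegral.integral_const_mul]
      apply intervalIntegral.integral_congr
      intro u _
      simp only [hWt, SS]
      rw [← Finset.mul_sum, ← Finset.mul_sum, ← Finset.sum_mul]
    · intro γ _
      apply Continuous.intervalIntegrable
      have k0 : Continuous Wt := sWt.continuous
      have kp := continuous_ph 0 θ
      fun_prop
  -- the remaining zeros
  have hrest : HasSum (fun a => f a - if a ∈ S then f a else 0) (tot - ∑ a ∈ S, f a) := by
    apply hEF.sub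
    have h3 : HasSum (fun a => if a ∈ S then f a else 0) (∑ a ∈ S, if a ∈ S then f a else 0) :=
      hasSum_sum_of_ne_finset_zero (fun a ha => by simp [ha])
    rwa [Finset.sum_congr rfl (fun a ha => if_pos ha)] at h3
  have hbd : ∀ a : ℂ, ‖f a - if a ∈ S then f a else 0‖ ≤
      Real.exp (y / 2) * (13000 * Kt) * ((analyticOrderNatAt xi a : ℝ) / (1 + ‖a‖) ^ 3) := by
    intro a
    by_cases haS : a ∈ S
    · rw [if_pos haS, sub_self, norm_zero]; positivity
    rw [if_neg haS, sub_zero]
    by_cases hxa : xi a = 0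
    swap
    · simp only [hf]
      rw [mx_eq_zero hxa]
      simp only [Nat.cast_zero, zero_mul, norm_zero]
      positivity
    have haeq := re_of_RH hRH hxa
    set γ : ℝ := a.im with hγ
    have hfa : f a = (mx a : ℂ) * (Real.exp (y / 2) *
        ∫ u in (y - 1)..(y + 1), (Wt (u - y) : ℂ) * ph γ θ u) := by
      simp only [hf]
      congr 1
      rw [← hval γ]
      congr 1
      ext u
      rw [← haeq]
    have hna : 1 + ‖a‖ ≤ 3 / 2 + |γ| := by
      have : ‖a‖ ≤ 1 / 2 + |γ| := by
        rw [haeq]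
        calc ‖(1 / 2 + γ * I : ℂ)‖ ≤ ‖(1 / 2 : ℂ)‖ + ‖(γ : ℂ) * I‖ := norm_add_le _ _
          _ = 1 / 2 + |γ| := by
            rw [norm_mul, Complex.norm_I, mul_one, Complex.norm_real, Real.norm_eq_abs]
            norm_num
      linarith
    have hosc : ‖∫ u in (y - 1)..(y + 1), (Wt (u - y) : ℂ) * ph γ θ u‖ ≤
        104 * Kt / ((1 + ‖a‖) / 5) ^ 3 := by
      apply osc_bound bt y γ θ ((1 + ‖a‖) / 5) (by positivity)
      intro u hu
      have hu1 : θ * Real.exp (y - 1) ≤ θ * Real.exp u := by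
        gcongr; exact hu.1
      have hu2 : θ * Real.exp u ≤ θ * Real.exp (y + 1) := by
        gcongr; exact hu.2
      have hpos : 0 < θ * Real.exp u := by positivity
      rw [abs_of_pos hpos]
      rcases le_or_gt γ 0 with hγ0 | hγ0
      · rw [abs_of_neg (by linarith : γ - θ * Real.exp u < 0)]
        rw [abs_of_nonpos hγ0] at hna
        constructor <;> linarith
      · have hγT : T < γ := by
          by_contra hc
          push Not at hc
          apply haS
          rw [hS, Finset.mem_image]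
          refine ⟨γ, mem_ordinates.2 ⟨hγ0, hc, ?_⟩, haeq.symm⟩
          rw [← xi_half_iff, ← haeq]
          exact hxa
        rw [abs_of_pos (by linarith : 0 < γ - θ * Real.exp u)]
        rw [abs_of_pos hγ0] at hna
        constructor <;> linarith
    rw [hfa, norm_mul, norm_mul, Complex.norm_natCast, Complex.norm_real, Real.norm_eq_abs,
      abs_of_pos ey]
    calc (mx a : ℝ) * (Real.exp (y / 2) * ‖∫ u in (y - 1)..(y + 1), (Wt (u - y) : ℂ) * ph γ θ u‖) ≤
        (mx a : ℝ) * (Real.exp (y / 2) * (104 * Kt / ((1 + ‖a‖) / 5) ^ 3)) := by gcongr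
      _ = Real.exp (y / 2) * (13000 * Kt) * ((analyticOrderNatAt xi a : ℝ) / (1 + ‖a‖) ^ 3) := by
        rw [mx]
        have : (1 + ‖a‖) ≠ 0 := by positivity
        field_simp
        ring
  have hrest2 : ‖tot - ∑ a ∈ S, f a‖ ≤ Real.exp (y / 2) * (13000 * Kt) * S0 :=
    hrest.norm_le_of_bounded (hsum.hasSum.mul_left _) hbd
  -- main terms
  have hexp : ‖∫ u, g u * Complex.exp u‖ ≤ Real.exp (y / 2) * (104 * Kh) := by
    have e1 : ∀ u : ℝ, g u * Complex.exp u =
        (W (u - y) : ℂ) * (Real.exp y * (Real.exp (1 * (u - y)) * ph 0 θ u)) := by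
      intro u
      simp only [hg]
      have : Complex.exp u = Real.exp y * Real.exp (1 * (u - y)) := by
        push_cast
        rw [← Complex.exp_add]
        congr 1
        ring
      rw [this]
      ring
    simp_rw [e1]
    rw [integral_local hs y]
    have e2 : ∫ u in (y - 1)..(y + 1),
        (W (u - y) : ℂ) * (Real.exp y * (Real.exp (1 * (u - y)) * ph 0 θ u)) =
        Real.exp y * ∫ u in (y - 1)..(y + 1), (Wh (u - y) : ℂ) * ph 0 θ u := by
      rw [← intervalIntegral.integral_const_mul]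
      apply intervalIntegral.integral_congr
      intro u _
      simp only [hWh]
      push_cast
      ring
    rw [e2, norm_mul, Complex.norm_real, Real.norm_eq_abs, abs_of_pos (Real.exp_pos y)]
    have hosc : ‖∫ u in (y - 1)..(y + 1), (Wh (u - y) : ℂ) * ph 0 θ u‖ ≤
        104 * Kh / (θ * Real.exp (y - 1)) ^ 3 := by
      apply osc_bound bh y 0 θ _ (by positivity)
      intro u hu
      have hu1 : θ * Real.exp (y - 1) ≤ θ * Real.exp u := by
        gcongr; exact hu.1
      have hpos : 0 < θ * Real.exp u := by positivity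
      rw [zero_sub, abs_neg, abs_of_pos hpos]
      exact ⟨hu1, le_rfl⟩
    calc Real.exp y * ‖∫ u in (y - 1)..(y + 1), (Wh (u - y) : ℂ) * ph 0 θ u‖ ≤
        Real.exp y * (104 * Kh / Real.exp (y / 2)) := by
          gcongr
          refine hosc.trans ?_
          gcongr
      _ = Real.exp (y / 2) * (104 * Kh) := by
          have : Real.exp y = Real.exp (y / 2) * Real.exp (y / 2) := by
            rw [← Real.exp_add]; congr 1; ring
          rw [this]
          field_simp
  have hrt : ‖∫ u, g u * (rt u : ℂ)‖ ≤ 2 * Real.exp (y / 2) := by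
    have e1 : ∀ u : ℝ, g u * (rt u : ℂ) = (W (u - y) : ℂ) * (ph 0 θ u * rt u) := by
      intro u; simp only [hg]; ring
    simp_rw [e1]
    rw [integral_local hs y]
    have hb : ∀ u ∈ uIoc (y - 1) (y + 1), ‖(W (u - y) : ℂ) * (ph 0 θ u * rt u)‖ ≤ 1 := by
      intro u hu
      rw [uIoc_of_le (by linarith)] at hu
      rw [norm_mul, norm_mul, norm_ph, one_mul, Complex.norm_real, Complex.norm_real,
        Real.norm_eq_abs, Real.norm_eq_abs, abs_of_nonneg (h0 _)]
      have hu1 : 1 ≤ u := by linarith [hu.1]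
      have hex : Real.exp (-(2 * u)) ≤ 1 / 2 := by
        have : Real.exp (-(2 * u)) ≤ Real.exp (-1) := Real.exp_le_exp.2 (by linarith)
        have h3 : Real.exp (-1) ≤ 1 / 2 := by
          rw [Real.exp_neg, ← one_div]
          apply one_div_le_one_div_of_le (by norm_num)
          have := Real.add_one_le_exp (1 : ℝ)
          linarith
        linarith
      have hexp0 : 0 < Real.exp (-(2 * u)) := Real.exp_pos _
      have hrt1 : |rt u| ≤ 1 := by
        unfold rt
        rw [abs_of_nonneg (div_nonneg hexp0.le (by linarith)), div_le_one (by linarith)]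
        linarith
      calc W (u - y) * |rt u| ≤ 1 * 1 := by
            gcongr
            · exact h1 _
        _ = 1 := one_mul _
    have := intervalIntegral.norm_integral_le_of_norm_le_const hb
    rw [show y + 1 - (y - 1) = 2 by ring, abs_of_pos (by norm_num : (0 : ℝ) < 2), one_mul] at this
    have h2 : 1 ≤ Real.exp (y / 2) := Real.one_le_exp (by linarith)
    linarith
  -- assemble
  set Pr : ℂ := ∑' n : ℕ, ((ArithmeticFunction.vonMangoldt n : ℝ) : ℂ) *
        (((Real.exp (-(y / 2)) * W (Real.log n - y) : ℝ) : ℂ) * ph 0 θ (Real.log n)) with hPr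
  have hPrg : ∑' n : ℕ, ((ArithmeticFunction.vonMangoldt n : ℝ) : ℂ) * g (Real.log n) =
      Real.exp (y / 2) * Pr := by
    rw [hPr, ← tsum_mul_left]
    congr 1
    ext n
    simp only [hg]
    have : Real.exp (y / 2) * Real.exp (-(y / 2)) = 1 := by rw [← Real.exp_add]; simp
    have h2 : ((Real.exp (y / 2) : ℝ) : ℂ) * ((Real.exp (-(y / 2)) : ℝ) : ℂ) = 1 := by
      rw [← Complex.ofReal_mul, this, Complex.ofReal_one]
    rw [Complex.ofReal_mul]
    linear_combination (-((ArithmeticFunction.vonMangoldt n : ℝ) : ℂ) * (W (Real.log n - y) : ℂ) *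
      ph 0 θ (Real.log n)) * h2
  have hkey : Real.exp (y / 2) * (ZZ W T y θ + Pr) =
      (∫ u, g u * Complex.exp u) - (∫ u, g u * (rt u : ℂ)) - (tot - ∑ a ∈ S, f a) := by
    rw [hSsum, htot, hPrg]
    ring
  have hfin : Real.exp (y / 2) * ‖ZZ W T y θ + Pr‖ ≤
      Real.exp (y / 2) * (104 * Kh + 2 + 13000 * Kt * S0) := by
    have e1 : Real.exp (y / 2) * ‖ZZ W T y θ + Pr‖ = ‖(Real.exp (y / 2) : ℂ) * (ZZ W T y θ + Pr)‖ := by
      rw [norm_mul]
      congr 1
      rw [Complex.norm_real, Real.norm_eq_abs, abs_of_pos ey]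
    rw [e1, hkey]
    refine (norm_sub_le _ _).trans ?_
    refine (add_le_add (norm_sub_le _ _) le_rfl).trans ?_
    have e2 : Real.exp (y / 2) * (104 * Kh + 2 + 13000 * Kt * S0) =
        Real.exp (y / 2) * (104 * Kh) + 2 * Real.exp (y / 2) +
          Real.exp (y / 2) * (13000 * Kt) * S0 := by ring
    rw [e2]
    exact add_le_add (add_le_add hexp hrt) hrest2
  exact le_of_mul_le_mul_left hfin ey

end Pool.Agent.Lib.MP_00e05b_nt
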