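import Mathlib
import Pool.Agent.Lib.MP_00e05b_nt.Osc

/-!
# The oscillatory integral bound near the stationary point
-/

open Complex Set Filter Topology MeasureTheory intervalIntegral

namespace Pool.Agent.Lib.MP_00e05b_nt

lemma poly_aux1B {X D B : ℝ} (hB : 1 ≤ B) (h : |X| ≤ B * |D|) :
    |4 * X * D ^ 2 + 15 * X ^ 2 * D| ≤ 19 * B ^ 3 * |D| ^ 3 := by
  have hx0 : 0 ≤ |X| := abs_nonneg _
  have hd0 : 0 ≤ |D| := abs_nonneg _
  have hB0 : 0 ≤ B := by linarith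
  have b1 : B ≤ B ^ 3 := by
    calc B = B ^ 1 := (pow_one B).symm
      _ ≤ B ^ 3 := pow_le_pow_right₀ hB (by norm_num)
  have b2 : B ^ 2 ≤ B ^ 3 := pow_le_pow_right₀ hB (by norm_num)
  have hD3 : 0 ≤ |D| ^ 3 := by positivity
  have x1 : |X| * |D| ^ 2 ≤ B ^ 3 * |D| ^ 3 := by
    calc |X| * |D| ^ 2 ≤ (B * |D|) * |D| ^ 2 := by gcongr
      _ = B * |D| ^ 3 := by ring
      _ ≤ _ := by gcongr
  have x2 : |X| ^ 2 * |D| ≤ B ^ 3 * |D| ^ 3 := by
    calc |X| ^ 2 * |D| ≤ (B * |D|) ^ 2 * |D| := by gcongr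
      _ = B ^ 2 * |D| ^ 3 := by ring
      _ ≤ _ := by gcongr
  refine (abs_add_le _ _).trans ?_
  rw [abs_mul, abs_mul, abs_mul, abs_mul, abs_pow, abs_pow,
    abs_of_pos (by norm_num : (0 : ℝ) < 4), abs_of_pos (by norm_num : (0 : ℝ) < 15)]
  linarith

lemma poly_aux2B {X D B : ℝ} (hB : 1 ≤ B) (h : |X| ≤ B * |D|) :
    |X * D ^ 2 + 10 * X ^ 2 * D + 15 * X ^ 3| ≤ 26 * B ^ 3 * |D| ^ 3 := by
  have hx0 : 0 ≤ |X| := abs_nonneg _
  have hd0 : 0 ≤ |D| := abs_nonneg _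
  have hB0 : 0 ≤ B := by linarith
  have b1 : B ≤ B ^ 3 := by
    calc B = B ^ 1 := (pow_one B).symm
      _ ≤ B ^ 3 := pow_le_pow_right₀ hB (by norm_num)
  have b2 : B ^ 2 ≤ B ^ 3 := pow_le_pow_right₀ hB (by norm_num)
  have hD3 : 0 ≤ |D| ^ 3 := by positivity
  have x1 : |X| * |D| ^ 2 ≤ B ^ 3 * |D| ^ 3 := by
    calc |X| * |D| ^ 2 ≤ (B * |D|) * |D| ^ 2 := by gcongr
      _ = B * |D| ^ 3 := by ring
      _ ≤ _ := by gcongr
  have x2 : |X| ^ 2 * |D| ≤ B ^ 3 * |D| ^ 3 := by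
    calc |X| ^ 2 * |D| ≤ (B * |D|) ^ 2 * |D| := by gcongr
      _ = B ^ 2 * |D| ^ 3 := by ring
      _ ≤ _ := by gcongr
  have x3 : |X| ^ 3 ≤ B ^ 3 * |D| ^ 3 := by
    calc |X| ^ 3 ≤ (B * |D|) ^ 3 := by gcongr
      _ = _ := by ring
  refine (abs_add_le _ _).trans ?_
  refine (add_le_add (abs_add_le _ _) le_rfl).trans ?_
  rw [abs_mul, abs_mul, abs_mul, abs_mul, abs_pow, abs_pow, abs_pow,
    abs_of_pos (by norm_num : (0 : ℝ) < 10), abs_of_pos (by norm_num : (0 : ℝ) < 15)]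
  linarith

theorem osc_boundB {W W1 W2 W3 : ℝ → ℝ} {K : ℝ} (hW : Bump W W1 W2 W3 K) (y γ θ m B ρ : ℝ)
    (hρ0 : 0 < ρ) (hρ1 : ρ ≤ 1) (hsupp : ∀ u, ρ ≤ |u| → W u = 0 ∧ W1 u = 0 ∧ W2 u = 0)
    (hB : 1 ≤ B) (hm : 0 < m) (hD : ∀ u ∈ Icc (y - ρ) (y + ρ), m ≤ |γ - θ * Real.exp u| ∧
      |θ * Real.exp u| ≤ B * |γ - θ * Real.exp u|) :
    ‖∫ u in (y - ρ)..(y + ρ), (W (u - y) : ℂ) * ph γ θ u‖ ≤ 104 * K * B ^ 3 / m ^ 3 := by
  set D : ℝ → ℝ := fun u => γ - θ * Real.exp u with hDdef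
  set x : ℝ → ℝ := fun u => θ * Real.exp u with hxdef
  have hle : y - ρ ≤ y + ρ := by linarith
  have hK : 0 ≤ K := (abs_nonneg _).trans (hW.b0 0)
  have hdx : ∀ u, HasDerivAt x (x u) u := fun u => (Real.hasDerivAt_exp u).const_mul θ
  have hdD : ∀ u, HasDerivAt D (-(x u)) u := by
    intro u
    have := (hdx u).const_sub γ
    exact this
  set N1 : ℝ → ℝ := fun u => W1 (u - y) * D u + x u * W (u - y) with hN1
  set N2 : ℝ → ℝ := fun u => W2 (u - y) * D u ^ 2 + 3 * x u * D u * W1 (u - y) +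
    (x u * D u + 3 * x u ^ 2) * W (u - y) with hN2
  set N3 : ℝ → ℝ := fun u => W3 (u - y) * D u ^ 3 + 6 * x u * D u ^ 2 * W2 (u - y) +
    (4 * x u * D u ^ 2 + 15 * x u ^ 2 * D u) * W1 (u - y) +
    (x u * D u ^ 2 + 10 * x u ^ 2 * D u + 15 * x u ^ 3) * W (u - y) with hN3
  have e0 : ∀ u, HasDerivAt (fun u => W (u - y)) (W1 (u - y)) u := fun u =>
    (hW.d0 (u - y)).comp_sub_const u y
  have e1 : ∀ u, HasDerivAt (fun u => W1 (u - y)) (W2 (u - y)) u := fun u =>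
    (hW.d1 (u - y)).comp_sub_const u y
  have e2 : ∀ u, HasDerivAt (fun u => W2 (u - y)) (W3 (u - y)) u := fun u =>
    (hW.d2 (u - y)).comp_sub_const u y
  have hN1d : ∀ u, HasDerivAt N1 (W2 (u - y) * D u + x u * W (u - y)) u := by
    intro u
    have := ((e1 u).mul (hdD u)).add ((hdx u).mul (e0 u))
    refine this.congr_deriv ?_
    ring
  have hN2d : ∀ u, HasDerivAt N2 (W3 (u - y) * D u ^ 2 + (x u * D u) * W2 (u - y) +
      (4 * x u * D u) * W1 (u - y) + (x u * D u + 5 * x u ^ 2) * W (u - y)) u := by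
    intro u
    have a1 := (e2 u).mul ((hdD u).pow 2)
    have a2 := (((hdx u).const_mul 3).mul (hdD u)).mul (e1 u)
    have a3 := (((hdx u).mul (hdD u)).add (((hdx u).pow 2).const_mul 3)).mul (e0 u)
    have := (a1.add a2).add a3
    refine this.congr_deriv ?_
    simp only [Pi.mul_apply, Pi.pow_apply, Pi.add_apply]
    ring
  set Ψ : ℝ → ℂ := fun u => ph γ θ u * (-I * ((W (u - y) / D u : ℝ) : ℂ) +
    ((N1 u / D u ^ 3 : ℝ) : ℂ) + I * ((N2 u / D u ^ 5 : ℝ) : ℂ)) with hΨ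
  have hDne : ∀ u ∈ Icc (y - ρ) (y + ρ), D u ≠ 0 := by
    intro u hu h
    have := (hD u hu).1
    change m ≤ |D u| at this
    rw [h, abs_zero] at this
    linarith
  have hder : ∀ u ∈ Icc (y - ρ) (y + ρ),
      HasDerivAt Ψ ((W (u - y) : ℂ) * ph γ θ u + I * ((N3 u / D u ^ 6 : ℝ) : ℂ) * ph γ θ u) u := by
    intro u hu
    have hd := hDne u hu
    have b1 : HasDerivAt (fun u => W (u - y) / D u)
        ((W1 (u - y) * D u - W (u - y) * (-(x u))) / D u ^ 2) u := (e0 u).div (hdD u) hd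
    have b2 : HasDerivAt (fun u => N1 u / D u ^ 3)
        (((W2 (u - y) * D u + x u * W (u - y)) * D u ^ 3 - N1 u * (3 * D u ^ 2 * (-(x u)))) /
          (D u ^ 3) ^ 2) u := by
      have := (hN1d u).div ((hdD u).pow 3) (pow_ne_zero 3 hd)
      refine this.congr_deriv ?_
      simp only [Pi.pow_apply]
      norm_num
    have b3 : HasDerivAt (fun u => N2 u / D u ^ 5)
        (((W3 (u - y) * D u ^ 2 + (x u * D u) * W2 (u - y) +
      (4 * x u * D u) * W1 (u - y) + (x u * D u + 5 * x u ^ 2) * W (u - y)) * D u ^ 5 -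
        N2 u * (5 * D u ^ 4 * (-(x u)))) / (D u ^ 5) ^ 2) u := by
      have := (hN2d u).div ((hdD u).pow 5) (pow_ne_zero 5 hd)
      refine this.congr_deriv ?_
      simp only [Pi.pow_apply]
      norm_num
    have c1 := (b1.ofReal_comp).const_mul (-I)
    have c2 := b2.ofReal_comp
    have c3 := (b3.ofReal_comp).const_mul I
    have := (hasDerivAt_ph γ θ u).mul ((c1.add c2).add c3)
    refine this.congr_deriv ?_
    simp only [Pi.add_apply]
    have hdc : (D u : ℂ) ≠ 0 := by exact_mod_cast hd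
    have hDu : ((γ - θ * Real.exp u : ℝ) : ℂ) = (D u : ℂ) := rfl
    rw [hDu]
    simp only [hN1, hN2, hN3]
    push_cast
    have hI : I * I = -1 := Complex.I_mul_I
    field_simp
    ring_nf
    simp only [Complex.I_sq]
    ring
  have hcont : ∀ u ∈ Icc (y - ρ) (y + ρ), ContinuousAt
      (fun u => (W (u - y) : ℂ) * ph γ θ u + I * ((N3 u / D u ^ 6 : ℝ) : ℂ) * ph γ θ u) u := by
    intro u hu
    have k0 : Continuous W := continuous_iff_continuousAt.2 fun u => (hW.d0 u).continuousAt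
    have k1 : Continuous W1 := continuous_iff_continuousAt.2 fun u => (hW.d1 u).continuousAt
    have k2 : Continuous W2 := continuous_iff_continuousAt.2 fun u => (hW.d2 u).continuousAt
    have k3 := hW.cont
    have kp := continuous_ph γ θ
    have kx : Continuous x := by rw [hxdef]; fun_prop
    have kD : Continuous D := by rw [hDdef]; fun_prop
    have kN3 : Continuous N3 := by rw [hN3]; fun_prop
    have hq : ContinuousAt (fun u => N3 u / D u ^ 6) u :=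
      kN3.continuousAt.div (kD.pow 6).continuousAt (pow_ne_zero 6 (hDne u hu))
    have hq' : ContinuousAt (fun u => ((N3 u / D u ^ 6 : ℝ) : ℂ)) u :=
      Complex.continuous_ofReal.continuousAt.comp hq
    exact ((by fun_prop : ContinuousAt (fun u => (W (u - y) : ℂ) * ph γ θ u) u)).add
      ((continuousAt_const.mul hq').mul kp.continuousAt)
  have huIcc : uIcc (y - ρ) (y + ρ) = Icc (y - ρ) (y + ρ) := uIcc_of_le hle
  have hFTC := integral_eq_sub_of_hasDerivAt (a := y - ρ) (b := y + ρ) (f := Ψ)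
    (fun u hu => hder u (by rwa [huIcc] at hu))
    (ContinuousOn.intervalIntegrable (fun u hu => (hcont u (by rwa [huIcc] at hu)).continuousWithinAt))
  have hz : ∀ u, ρ ≤ |u - y| → Ψ u = 0 := by
    intro u hu
    obtain ⟨z0, z1, z2⟩ := hsupp (u - y) hu
    simp only [hΨ, hN1, hN2, z0, z1, z2]
    simp
  rw [hz (y + ρ) (by rw [add_sub_cancel_left, abs_of_pos hρ0]),
    hz (y - ρ) (by rw [sub_sub_cancel_left, abs_neg, abs_of_pos hρ0]), sub_zero] at hFTC
  have hi1 : IntervalIntegrable (fun u => (W (u - y) : ℂ) * ph γ θ u) volume (y - ρ) (y + ρ) := by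
    apply Continuous.intervalIntegrable
    have k0 : Continuous W := continuous_iff_continuousAt.2 fun u => (hW.d0 u).continuousAt
    have kp := continuous_ph γ θ
    fun_prop
  have hi2 : IntervalIntegrable (fun u => I * ((N3 u / D u ^ 6 : ℝ) : ℂ) * ph γ θ u) volume
      (y - ρ) (y + ρ) := by
    have : IntervalIntegrable (fun u => ((W (u - y) : ℂ) * ph γ θ u +
      I * ((N3 u / D u ^ 6 : ℝ) : ℂ) * ph γ θ u) - (W (u - y) : ℂ) * ph γ θ u) volume
      (y - ρ) (y + ρ) :=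
      (ContinuousOn.intervalIntegrable
        (fun u hu => (hcont u (by rwa [huIcc] at hu)).continuousWithinAt)).sub hi1
    refine this.congr ?_
    intro u _
    simp only
    ring
  rw [intervalIntegral.integral_add hi1 hi2] at hFTC
  have hEq : ∫ u in (y - ρ)..(y + ρ), (W (u - y) : ℂ) * ph γ θ u =
      -∫ u in (y - ρ)..(y + ρ), I * ((N3 u / D u ^ 6 : ℝ) : ℂ) * ph γ θ u := by
    linear_combination hFTC
  rw [hEq, norm_neg]
  have hbd : ∀ u ∈ uIoc (y - ρ) (y + ρ), ‖I * ((N3 u / D u ^ 6 : ℝ) : ℂ) * ph γ θ u‖ ≤ 52 * K * B ^ 3 / m ^ 3 := by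
    intro u hu
    rw [uIoc_of_le hle] at hu
    have hu' : u ∈ Icc (y - ρ) (y + ρ) := ⟨hu.1.le, hu.2⟩
    obtain ⟨h1, h2⟩ := hD u hu'
    change m ≤ |D u| at h1
    change |x u| ≤ B * |D u| at h2
    rw [norm_mul, norm_mul, norm_ph, Complex.norm_I, one_mul, mul_one, Complex.norm_real,
      Real.norm_eq_abs, abs_div, abs_pow]
    have hd0 : 0 < |D u| := hm.trans_le h1
    have hB0 : 0 ≤ B := by linarith
    have b1 : B ≤ B ^ 3 := by
      calc B = B ^ 1 := (pow_one B).symm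
        _ ≤ B ^ 3 := pow_le_pow_right₀ hB (by norm_num)
    have b0 : 1 ≤ B ^ 3 := one_le_pow₀ hB
    have hN : |N3 u| ≤ 52 * K * B ^ 3 * |D u| ^ 3 := by
      have t0 := hW.b0 (u - y)
      have t1 := hW.b1 (u - y)
      have t2 := hW.b2 (u - y)
      have t3 := hW.b3 (u - y)
      have hx0 : 0 ≤ |x u| := abs_nonneg _
      have x1 : |x u| * |D u| ^ 2 ≤ B ^ 3 * |D u| ^ 3 := by
        calc |x u| * |D u| ^ 2 ≤ (B * |D u|) * |D u| ^ 2 := by gcongr
          _ = B * |D u| ^ 3 := by ring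
          _ ≤ _ := by gcongr
      have hDp : 0 ≤ |D u| ^ 3 := by positivity
      have f3 : |W3 (u - y) * D u ^ 3| ≤ K * B ^ 3 * |D u| ^ 3 := by
        rw [abs_mul, abs_pow]
        calc |W3 (u - y)| * |D u| ^ 3 ≤ K * |D u| ^ 3 := by gcongr
          _ = K * 1 * |D u| ^ 3 := by ring
          _ ≤ K * B ^ 3 * |D u| ^ 3 := by gcongr
      have f2 : |6 * x u * D u ^ 2 * W2 (u - y)| ≤ 6 * K * B ^ 3 * |D u| ^ 3 := by
        rw [abs_mul, abs_mul, abs_mul, abs_pow, abs_of_pos (by norm_num : (0 : ℝ) < 6)]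
        calc 6 * |x u| * |D u| ^ 2 * |W2 (u - y)| = 6 * (|x u| * |D u| ^ 2) * |W2 (u - y)| := by ring
          _ ≤ 6 * (B ^ 3 * |D u| ^ 3) * K := by gcongr
          _ = _ := by ring
      have f1 : |(4 * x u * D u ^ 2 + 15 * x u ^ 2 * D u) * W1 (u - y)| ≤ 19 * K * B ^ 3 * |D u| ^ 3 := by
        rw [abs_mul]
        have : |4 * x u * D u ^ 2 + 15 * x u ^ 2 * D u| ≤ 19 * B ^ 3 * |D u| ^ 3 := poly_aux1B hB h2
        calc _ ≤ 19 * B ^ 3 * |D u| ^ 3 * K := by gcongr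
          _ = _ := by ring
      have f0 : |(x u * D u ^ 2 + 10 * x u ^ 2 * D u + 15 * x u ^ 3) * W (u - y)| ≤
          26 * K * B ^ 3 * |D u| ^ 3 := by
        rw [abs_mul]
        have : |x u * D u ^ 2 + 10 * x u ^ 2 * D u + 15 * x u ^ 3| ≤ 26 * B ^ 3 * |D u| ^ 3 :=
          poly_aux2B hB h2
        calc _ ≤ 26 * B ^ 3 * |D u| ^ 3 * K := by gcongr
          _ = _ := by ring
      calc |N3 u| ≤ |W3 (u - y) * D u ^ 3| + |6 * x u * D u ^ 2 * W2 (u - y)| +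
            |(4 * x u * D u ^ 2 + 15 * x u ^ 2 * D u) * W1 (u - y)| +
            |(x u * D u ^ 2 + 10 * x u ^ 2 * D u + 15 * x u ^ 3) * W (u - y)| := by
            simp only [hN3]
            refine (abs_add_le _ _).trans (add_le_add ?_ le_rfl)
            refine (abs_add_le _ _).trans (add_le_add ?_ le_rfl)
            exact abs_add_le _ _
        _ ≤ K * B ^ 3 * |D u| ^ 3 + 6 * K * B ^ 3 * |D u| ^ 3 + 19 * K * B ^ 3 * |D u| ^ 3 +
            26 * K * B ^ 3 * |D u| ^ 3 := by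
            linarith
        _ = _ := by ring
    calc |N3 u| / |D u| ^ 6 ≤ 52 * K * B ^ 3 * |D u| ^ 3 / |D u| ^ 6 := by gcongr
      _ = 52 * K * B ^ 3 / |D u| ^ 3 := by field_simp
      _ ≤ 52 * K * B ^ 3 / m ^ 3 := by gcongr
  have h9 := intervalIntegral.norm_integral_le_of_norm_le_const hbd
  rw [show y + ρ - (y - ρ) = 2 * ρ by ring, abs_of_pos (by linarith : (0 : ℝ) < 2 * ρ)] at h9
  have h10 : 0 ≤ 52 * K * B ^ 3 / m ^ 3 := by
    have : 0 ≤ B := by linarith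
    positivity
  calc _ ≤ 52 * K * B ^ 3 / m ^ 3 * (2 * ρ) := h9
    _ ≤ 52 * K * B ^ 3 / m ^ 3 * 2 := by gcongr; linarith
    _ = _ := by ring

end Pool.Agent.Lib.MP_00e05b_nt
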