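import Mathlib
import Pool.Agent.Lib.MP_00e05b_nt.Approx
import Pool.Agent.Lib.MP_00e05b_nt.OscB
import Pool.Agent.Lib.MP_00e05b_nt.Zeros

/-!
# Twisted prime sums and the sum over zeros, sharp range of frequencies
-/

open Complex Set Filter Topology MeasureTheory
open scoped ContDiff

namespace Pool.Agent.Lib.MP_00e05b_nt

lemma bump_of_smoothR {f : ℝ → ℝ} (hf : ContDiff ℝ ∞ f) {ρ' ρ : ℝ} (hρ' : ρ' < ρ) (hρ : ρ' ≤ 3 / 4)
    (hs : ∀ u, ρ' ≤ |u| → f u = 0) :
    ∃ K : ℝ, Bump f (deriv f) (deriv (deriv f)) (deriv (deriv (deriv f))) K ∧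
      ∀ u, ρ ≤ |u| → f u = 0 ∧ deriv f u = 0 ∧ deriv (deriv f) u = 0 := by
  obtain ⟨K, hK⟩ := bump_of_smooth hf (fun u hu => hs u (hρ.trans hu))
  refine ⟨K, hK, ?_⟩
  intro u hu
  have e0 : f =ᶠ[𝓝 u] fun _ => 0 := by
    have ho : IsOpen {x : ℝ | ρ' < |x|} := isOpen_lt continuous_const continuous_abs
    filter_upwards [ho.mem_nhds (show ρ' < |u| by linarith)] with x hx
    exact hs x (le_of_lt hx)
  have e1 : deriv f =ᶠ[𝓝 u] fun _ => 0 := by
    have := e0.deriv
    simpa using this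
  have e2 : deriv (deriv f) =ᶠ[𝓝 u] fun _ => 0 := by
    have := e1.deriv
    simpa using this
  exact ⟨e0.self_of_nhds, e1.self_of_nhds, e2.self_of_nhds⟩

lemma integral_localR {W : ℝ → ℝ} {ρ : ℝ} (hρ : 0 < ρ) (hs : ∀ u, ρ ≤ |u| → W u = 0) (y : ℝ)
    (F : ℝ → ℂ) :
    ∫ u : ℝ, (W (u - y) : ℂ) * F u = ∫ u in (y - ρ)..(y + ρ), (W (u - y) : ℂ) * F u := by
  rw [intervalIntegral.integral_of_le (by linarith)]
  symm
  apply setIntegral_eq_integral_of_forall_compl_eq_zero
  intro u hu
  rw [hs (u - y), Complex.ofReal_zero, zero_mul]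
  rw [mem_Ioc, not_and_or, not_lt, not_le] at hu
  rcases hu with h | h
  · rw [abs_of_nonpos (by linarith)]; linarith
  · rw [abs_of_pos (by linarith)]; linarith

/-- The zero side: mean of `SS` against the twisted bump, window of half-width `ρ`. -/
noncomputable def ZR (W : ℝ → ℝ) (ρ T y θ : ℝ) : ℂ :=
  ∫ u in (y - ρ)..(y + ρ), ((W (u - y) * Real.exp (1 / 2 * (u - y)) : ℝ) : ℂ) * (SS T u * ph 0 θ u)

theorem approxB (hRH : RiemannHypothesis) {W : ℝ → ℝ} (hW : ContDiff ℝ ∞ W) (h0 : ∀ u, 0 ≤ W u)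
    (h1 : ∀ u, W u ≤ 1) {ρ' ρ κ : ℝ} (hρ0 : 0 < ρ) (hρ' : ρ' < ρ) (hρ3 : ρ ≤ 3 / 4)
    (hs' : ∀ u, ρ' ≤ |u| → W u = 0) (hκ0 : 0 < κ) (hκ1 : κ < 1) :
    ∃ C : ℝ, 0 ≤ C ∧ ∀ T y θ : ℝ, 1 ≤ T → 2 ≤ y → 0 < θ → θ * Real.exp (y + ρ) ≤ (1 - κ) * T →
      Real.exp (y / 2) ≤ (θ * Real.exp (y - 1)) ^ 3 →
      ‖ZR W ρ T y θ + ∑' n : ℕ, ((ArithmeticFunction.vonMangoldt n : ℝ) : ℂ) *
        (((Real.exp (-(y / 2)) * W (Real.log n - y) : ℝ) : ℂ) * ph 0 θ (Real.log n))‖ ≤ C := by
  set Wt : ℝ → ℝ := fun t => W t * Real.exp (1 / 2 * t) with hWt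
  set Wh : ℝ → ℝ := fun t => W t * Real.exp (1 * t) with hWh
  have sWt : ContDiff ℝ ∞ Wt := hW.mul (exp_half_smooth _)
  have sWh : ContDiff ℝ ∞ Wh := hW.mul (exp_half_smooth _)
  have hsR : ∀ u, ρ ≤ |u| → W u = 0 := fun u hu => hs' u (hρ'.le.trans hu)
  have hs : ∀ u, 3 / 4 ≤ |u| → W u = 0 := fun u hu => hsR u (hρ3.trans hu)
  have zWt : ∀ u, ρ' ≤ |u| → Wt u = 0 := fun u hu => by simp only [hWt, hs' u hu, zero_mul]
  have zWh : ∀ u, ρ' ≤ |u| → Wh u = 0 := fun u hu => by simp only [hWh, hs' u hu, zero_mul]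
  obtain ⟨Kt, bt, st⟩ := bump_of_smoothR sWt hρ' (hρ'.le.trans hρ3) zWt
  obtain ⟨Kh, bh, sh⟩ := bump_of_smoothR sWh hρ' (hρ'.le.trans hρ3) zWh
  have hκi : 1 ≤ 1 / κ := by rw [le_div_iff₀ hκ0]; linarith
  have hKt : 0 ≤ Kt := (abs_nonneg _).trans (bt.b0 0)
  have hKh : 0 ≤ Kh := (abs_nonneg _).trans (bh.b0 0)
  obtain ⟨Cx, hCx⟩ := xi_growth
  have hsum := summable_order hCx
  set S0 : ℝ := ∑' a : ℂ, (analyticOrderNatAt xi a : ℝ) / (1 + ‖a‖) ^ 3 with hS0
  have hS0' : 0 ≤ S0 := tsum_nonneg fun a => by positivity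
  refine ⟨104 * Kh + 2 + 13000 * Kt / κ ^ 6 * S0, by positivity, ?_⟩
  intro T y θ hT hy hθ hθT hθy
  have ey : (0 : ℝ) < Real.exp (y / 2) := Real.exp_pos _
  have hθ1 : 1 ≤ θ * Real.exp (y - 1) := by
    by_contra hc
    push Not at hc
    have hp : 0 ≤ θ * Real.exp (y - 1) := by positivity
    have : (θ * Real.exp (y - 1)) ^ 3 < 1 := pow_lt_one₀ hp hc (by norm_num)
    have h2 : 1 ≤ Real.exp (y / 2) := Real.one_le_exp (by linarith)
    linarith
  -- test function
  set g : ℝ → ℂ := fun u => (W (u - y) : ℂ) * ph 0 θ u with hg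
  have hgT : Test g := test_g hW hs hy θ
  have hEF := explicit_formula hgT
  set f : ℂ → ℂ := fun a => (mx a : ℂ) * ∫ u, g u * Complex.exp (a * u) with hf
  set tot : ℂ := ((∫ u, g u * Complex.exp u) - (∫ u, g u * (rt u : ℂ)) -
        ∑' n : ℕ, ((ArithmeticFunction.vonMangoldt n : ℝ) : ℂ) * g (Real.log n)) with htot
  -- value at zeros
  have hval : ∀ γ : ℝ, ∫ u, g u * Complex.exp ((1 / 2 + γ * I) * u) =
      Real.exp (y / 2) * ∫ u in (y - ρ)..(y + ρ), (Wt (u - y) : ℂ) * ph γ θ u := by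
    intro γ
    rw [← intervalIntegral.integral_const_mul]
    have e1 : ∀ u : ℝ, g u * Complex.exp ((1 / 2 + γ * I) * u) =
        (W (u - y) : ℂ) * (Real.exp (y / 2) * (Real.exp (1 / 2 * (u - y)) * ph γ θ u)) := by
      intro u
      simp only [hg]
      rw [mul_assoc, ph_mul_exp θ y γ u]
    simp_rw [e1]
    rw [integral_localR hρ0 hsR y]
    apply intervalIntegral.integral_congr
    intro u _
    simp only [hWt]
    push_cast
    ring
  classical
  set S : Finset ℂ := (ordinates T).image (fun γ : ℝ => (1 / 2 + γ * I : ℂ)) with hS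
  have hinj : Function.Injective (fun γ : ℝ => (1 / 2 + γ * I : ℂ)) := by
    intro a b h
    have := congrArg Complex.im h
    simpa using this
  -- the sum over S
  have hSsum : ∑ a ∈ S, f a = Real.exp (y / 2) * ZR W ρ T y θ := by
    rw [hS, Finset.sum_image (fun _ _ _ _ h => hinj h)]
    have e1 : ∀ γ ∈ ordinates T, f (1 / 2 + γ * I) = ∫ u in (y - ρ)..(y + ρ),
        Real.exp (y / 2) * ((Wt (u - y) : ℂ) * (((mult γ : ℂ) * Complex.exp (γ * u * I)) * ph 0 θ u)) := by
      intro γ _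
      simp only [hf]
      rw [mx_half, hval γ, ← mul_assoc, ← intervalIntegral.integral_const_mul]
      apply intervalIntegral.integral_congr
      intro u _
      have e2 : ph γ θ u = Complex.exp (γ * u * I) * ph 0 θ u := by
        unfold ph
        rw [← Complex.exp_add]
        congr 1
        push_cast
        ring
      simp only [e2]
      ring
    rw [Finset.sum_congr rfl e1, ← intervalIntegral.integral_finsetSum]
    · unfold ZR
      rw [← intervalIntegral.integral_const_mul]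
      apply intervalIntegral.integral_congr
      intro u _
      simp only [hWt, SS]
      rw [← Finset.mul_sum, ← Finset.mul_sum, ← Finset.sum_mul]
    · intro γ _
      apply Continuous.intervalIntegrable
      have k0 : Continuous Wt := sWt.continuous
      have kp := continuous_ph 0 θ
      fun_prop
  -- the remaining zeros
  have hrest : HasSum (fun a => f a - if a ∈ S then f a else 0) (tot - ∑ a ∈ S, f a) := by
    apply hEF.sub
    have h3 : HasSum (fun a => if a ∈ S then f a else 0) (∑ a ∈ S, if a ∈ S then f a else 0) :=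
      hasSum_sum_of_ne_finset_zero (fun a ha => by simp [ha])
    rwa [Finset.sum_congr rfl (fun a ha => if_pos ha)] at h3
  have hbd : ∀ a : ℂ, ‖f a - if a ∈ S then f a else 0‖ ≤
      Real.exp (y / 2) * (13000 * Kt / κ ^ 6) * ((analyticOrderNatAt xi a : ℝ) / (1 + ‖a‖) ^ 3) := by
    intro a
    by_cases haS : a ∈ S
    · rw [if_pos haS, sub_self, norm_zero]; positivity
    rw [if_neg haS, sub_zero]
    by_cases hxa : xi a = 0
    swap
    · simp only [hf]
      rw [mx_eq_zero hxa]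
      simp only [Nat.cast_zero, zero_mul, norm_zero]
      positivity
    have haeq := re_of_RH hRH hxa
    set γ : ℝ := a.im with hγ
    have hfa : f a = (mx a : ℂ) * (Real.exp (y / 2) *
        ∫ u in (y - ρ)..(y + ρ), (Wt (u - y) : ℂ) * ph γ θ u) := by
      simp only [hf]
      congr 1
      rw [← hval γ]
      congr 1
      ext u
      rw [← haeq]
    have hna : 1 + ‖a‖ ≤ 3 / 2 + |γ| := by
      have : ‖a‖ ≤ 1 / 2 + |γ| := by
        rw [haeq]
        calc ‖(1 / 2 + γ * I : ℂ)‖ ≤ ‖(1 / 2 : ℂ)‖ + ‖(γ : ℂ) * I‖ := norm_add_le _ _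
          _ = 1 / 2 + |γ| := by
            rw [norm_mul, Complex.norm_I, mul_one, Complex.norm_real, Real.norm_eq_abs]
            norm_num
      linarith
    have hosc : ‖∫ u in (y - ρ)..(y + ρ), (Wt (u - y) : ℂ) * ph γ θ u‖ ≤
        104 * Kt * (1 / κ) ^ 3 / (κ * ((1 + ‖a‖) / 5)) ^ 3 := by
      apply osc_boundB bt y γ θ (κ * ((1 + ‖a‖) / 5)) (1 / κ) ρ hρ0 (by linarith) st hκi (by positivity)
      intro u hu
      have hu1 : θ * Real.exp (y - 1) ≤ θ * Real.exp u := by
        gcongr; linarith [hu.1]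
      have hu2 : θ * Real.exp u ≤ θ * Real.exp (y + ρ) := by
        gcongr; exact hu.2
      have hpos : 0 < θ * Real.exp u := by positivity
      have hna0 : 0 ≤ 1 + ‖a‖ := by positivity
      rw [abs_of_pos hpos]
      rcases le_or_gt γ 0 with hγ0 | hγ0
      · rw [abs_of_neg (by linarith : γ - θ * Real.exp u < 0)]
        rw [abs_of_nonpos hγ0] at hna
        constructor
        · calc κ * ((1 + ‖a‖) / 5) ≤ 1 * ((1 + ‖a‖) / 5) := by gcongr
            _ ≤ _ := by linarith
        · calc θ * Real.exp u ≤ 1 * -(γ - θ * Real.exp u) := by linarith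
            _ ≤ 1 / κ * -(γ - θ * Real.exp u) := by
                apply mul_le_mul_of_nonneg_right hκi
                linarith
      · have hγT : T < γ := by
          by_contra hc
          push Not at hc
          apply haS
          rw [hS, Finset.mem_image]
          refine ⟨γ, mem_ordinates.2 ⟨hγ0, hc, ?_⟩, haeq.symm⟩
          rw [← xi_half_iff, ← haeq]
          exact hxa
        have hκγ : κ * γ ≤ γ - θ * Real.exp u := by
          have : (1 - κ) * T ≤ (1 - κ) * γ := by
            apply mul_le_mul_of_nonneg_left hγT.le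
            linarith
          linarith
        rw [abs_of_pos (by
          have : 0 < κ * γ := by positivity
          linarith : 0 < γ - θ * Real.exp u)]
        rw [abs_of_pos hγ0] at hna
        constructor
        · calc κ * ((1 + ‖a‖) / 5) ≤ κ * γ := by
                gcongr
                linarith
            _ ≤ _ := hκγ
        · calc θ * Real.exp u ≤ γ := by
                have : 0 ≤ κ * T := by positivity
                linarith
            _ = 1 / κ * (κ * γ) := by field_simp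
            _ ≤ 1 / κ * (γ - θ * Real.exp u) := by gcongr
    rw [hfa, norm_mul, norm_mul, Complex.norm_natCast, Complex.norm_real, Real.norm_eq_abs,
      abs_of_pos ey]
    calc (mx a : ℝ) * (Real.exp (y / 2) * ‖∫ u in (y - ρ)..(y + ρ), (Wt (u - y) : ℂ) * ph γ θ u‖) ≤
        (mx a : ℝ) * (Real.exp (y / 2) *
          (104 * Kt * (1 / κ) ^ 3 / (κ * ((1 + ‖a‖) / 5)) ^ 3)) := by gcongr
      _ = Real.exp (y / 2) * (13000 * Kt / κ ^ 6) * ((analyticOrderNatAt xi a : ℝ) / (1 + ‖a‖) ^ 3) := by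
        rw [mx]
        have : (1 + ‖a‖) ≠ 0 := by positivity
        field_simp
        ring
  have hrest2 : ‖tot - ∑ a ∈ S, f a‖ ≤ Real.exp (y / 2) * (13000 * Kt / κ ^ 6) * S0 :=
    hrest.norm_le_of_bounded (hsum.hasSum.mul_left _) hbd
  -- main terms
  have hexp : ‖∫ u, g u * Complex.exp u‖ ≤ Real.exp (y / 2) * (104 * Kh) := by
    have e1 : ∀ u : ℝ, g u * Complex.exp u =
        (W (u - y) : ℂ) * (Real.exp y * (Real.exp (1 * (u - y)) * ph 0 θ u)) := by
      intro u
      simp only [hg]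
      have : Complex.exp u = Real.exp y * Real.exp (1 * (u - y)) := by
        push_cast
        rw [← Complex.exp_add]
        congr 1
        ring
      rw [this]
      ring
    simp_rw [e1]
    rw [integral_localR hρ0 hsR y]
    have e2 : ∫ u in (y - ρ)..(y + ρ),
        (W (u - y) : ℂ) * (Real.exp y * (Real.exp (1 * (u - y)) * ph 0 θ u)) =
        Real.exp y * ∫ u in (y - ρ)..(y + ρ), (Wh (u - y) : ℂ) * ph 0 θ u := by
      rw [← intervalIntegral.integral_const_mul]
      apply intervalIntegral.integral_congr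
      intro u _
      simp only [hWh]
      push_cast
      ring
    rw [e2, norm_mul, Complex.norm_real, Real.norm_eq_abs, abs_of_pos (Real.exp_pos y)]
    have hosc : ‖∫ u in (y - ρ)..(y + ρ), (Wh (u - y) : ℂ) * ph 0 θ u‖ ≤
        104 * Kh * 1 ^ 3 / (θ * Real.exp (y - 1)) ^ 3 := by
      apply osc_boundB bh y 0 θ _ 1 ρ hρ0 (by linarith) sh le_rfl (by positivity)
      intro u hu
      have hu1 : θ * Real.exp (y - 1) ≤ θ * Real.exp u := by
        gcongr; linarith [hu.1]
      have hpos : 0 < θ * Real.exp u := by positivity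
      rw [zero_sub, abs_neg, abs_of_pos hpos, one_mul]
      exact ⟨hu1, le_rfl⟩
    rw [one_pow, mul_one] at hosc
    calc Real.exp y * ‖∫ u in (y - ρ)..(y + ρ), (Wh (u - y) : ℂ) * ph 0 θ u‖ ≤
        Real.exp y * (104 * Kh / Real.exp (y / 2)) := by
          gcongr
          refine hosc.trans ?_
          gcongr
      _ = Real.exp (y / 2) * (104 * Kh) := by
          have : Real.exp y = Real.exp (y / 2) * Real.exp (y / 2) := by
            rw [← Real.exp_add]; congr 1; ring
          rw [this]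
          field_simp
  have hrt : ‖∫ u, g u * (rt u : ℂ)‖ ≤ 2 * Real.exp (y / 2) := by
    have e1 : ∀ u : ℝ, g u * (rt u : ℂ) = (W (u - y) : ℂ) * (ph 0 θ u * rt u) := by
      intro u; simp only [hg]; ring
    simp_rw [e1]
    rw [integral_localR hρ0 hsR y]
    have hb : ∀ u ∈ uIoc (y - ρ) (y + ρ), ‖(W (u - y) : ℂ) * (ph 0 θ u * rt u)‖ ≤ 1 := by
      intro u hu
      rw [uIoc_of_le (by linarith)] at hu
      rw [norm_mul, norm_mul, norm_ph, one_mul, Complex.norm_real, Complex.norm_real,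
        Real.norm_eq_abs, Real.norm_eq_abs, abs_of_nonneg (h0 _)]
      have hu1 : 1 / 2 < u := by linarith [hu.1]
      have hex : Real.exp (-(2 * u)) ≤ 1 / 2 := by
        have : Real.exp (-(2 * u)) ≤ Real.exp (-1) := Real.exp_le_exp.2 (by linarith)
        have h3 : Real.exp (-1) ≤ 1 / 2 := by
          rw [Real.exp_neg, ← one_div]
          apply one_div_le_one_div_of_le (by norm_num)
          have := Real.add_one_le_exp (1 : ℝ)
          linarith
        linarith
      have hexp0 : 0 < Real.exp (-(2 * u)) := Real.exp_pos _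
      have hrt1 : |rt u| ≤ 1 := by
        unfold rt
        rw [abs_of_nonneg (div_nonneg hexp0.le (by linarith)), div_le_one (by linarith)]
        linarith
      calc W (u - y) * |rt u| ≤ 1 * 1 := by
            gcongr
            · exact h1 _
        _ = 1 := one_mul _
    have := intervalIntegral.norm_integral_le_of_norm_le_const hb
    rw [show y + ρ - (y - ρ) = 2 * ρ by ring, abs_of_pos (by linarith : (0 : ℝ) < 2 * ρ), one_mul] at this
    have h2 : 1 ≤ Real.exp (y / 2) := Real.one_le_exp (by linarith)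
    linarith
  -- assemble
  set Pr : ℂ := ∑' n : ℕ, ((ArithmeticFunction.vonMangoldt n : ℝ) : ℂ) *
        (((Real.exp (-(y / 2)) * W (Real.log n - y) : ℝ) : ℂ) * ph 0 θ (Real.log n)) with hPr
  have hPrg : ∑' n : ℕ, ((ArithmeticFunction.vonMangoldt n : ℝ) : ℂ) * g (Real.log n) =
      Real.exp (y / 2) * Pr := by
    rw [hPr, ← tsum_mul_left]
    congr 1
    ext n
    simp only [hg]
    have : Real.exp (y / 2) * Real.exp (-(y / 2)) = 1 := by rw [← Real.exp_add]; simp
    have h2 : ((Real.exp (y / 2) : ℝ) : ℂ) * ((Real.exp (-(y / 2)) : ℝ) : ℂ) = 1 := by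
      rw [← Complex.ofReal_mul, this, Complex.ofReal_one]
    rw [Complex.ofReal_mul]
    linear_combination (-((ArithmeticFunction.vonMangoldt n : ℝ) : ℂ) * (W (Real.log n - y) : ℂ) *
      ph 0 θ (Real.log n)) * h2
  have hkey : Real.exp (y / 2) * (ZR W ρ T y θ + Pr) =
      (∫ u, g u * Complex.exp u) - (∫ u, g u * (rt u : ℂ)) - (tot - ∑ a ∈ S, f a) := by
    rw [hSsum, htot, hPrg]
    ring
  have hfin : Real.exp (y / 2) * ‖ZR W ρ T y θ + Pr‖ ≤
      Real.exp (y / 2) * (104 * Kh + 2 + 13000 * Kt / κ ^ 6 * S0) := by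
    have e1 : Real.exp (y / 2) * ‖ZR W ρ T y θ + Pr‖ = ‖(Real.exp (y / 2) : ℂ) * (ZR W ρ T y θ + Pr)‖ := by
      rw [norm_mul]
      congr 1
      rw [Complex.norm_real, Real.norm_eq_abs, abs_of_pos ey]
    rw [e1, hkey]
    refine (norm_sub_le _ _).trans ?_
    refine (add_le_add (norm_sub_le _ _) le_rfl).trans ?_
    have e2 : Real.exp (y / 2) * (104 * Kh + 2 + 13000 * Kt / κ ^ 6 * S0) =
        Real.exp (y / 2) * (104 * Kh) + 2 * Real.exp (y / 2) +
          Real.exp (y / 2) * (13000 * Kt / κ ^ 6) * S0 := by ring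
    rw [e2]
    exact add_le_add (add_le_add hexp hrt) hrest2
  exact le_of_mul_le_mul_left hfin ey

end Pool.Agent.Lib.MP_00e05b_nt
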