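import Mathlib
import Pool.Agent.Lib.MP_00e05b_nt.PosInt

/-!
# The pair correlation function as a mean square
-/

open Complex Set Filter Topology MeasureTheory

namespace Pool.Agent.Lib.MP_00e05b_nt

lemma SS_bound (T v : ℝ) : ‖SS T v‖ ≤ ∑ γ ∈ ordinates T, (mult γ : ℝ) := by
  unfold SS
  refine (norm_sum_le _ _).trans (le_of_eq ?_)
  apply Finset.sum_congr rfl
  intro γ _
  have : (γ * v * I : ℂ) = ((γ * v : ℝ) : ℂ) * I := by push_cast; ring
  rw [norm_mul, this, Complex.norm_exp_ofReal_mul_I, mul_one, Complex.norm_natCast]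

lemma exp_abs_integrable : Integrable (fun v : ℝ => Real.exp (-(2 * |v|))) := by
  have h := (kernel_integrable 0).norm
  refine h.congr (Eventually.of_forall fun v => ?_)
  simp only [Complex.ofReal_zero, zero_mul, Complex.exp_zero, one_mul]
  rw [Complex.norm_real, Real.norm_eq_abs, Real.abs_exp]

lemma ms_integrable (T y : ℝ) :
    Integrable (fun v : ℝ => ‖SS T (y + v)‖ ^ 2 * Real.exp (-(2 * |v|))) := by
  refine Integrable.bdd_mul (c := (∑ γ ∈ ordinates T, (mult γ : ℝ)) ^ 2) exp_abs_integrable ?_ ?_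
  · apply Continuous.aestronglyMeasurable
    have := continuous_SS T
    fun_prop
  · refine Eventually.of_forall fun v => ?_
    rw [Real.norm_eq_abs, abs_of_nonneg (by positivity)]
    gcongr
    exact SS_bound T (y + v)

lemma pairF_eq {T : ℝ} (hT : 0 < T) (α : ℝ) :
    pairF α T = (((T / (2 * Real.pi) * Real.log T)⁻¹ *
      ∫ v : ℝ, ‖SS T (α * Real.log T + v)‖ ^ 2 * Real.exp (-(2 * |v|)) : ℝ) : ℂ) := by
  unfold pairF
  have h1 : ∀ γ ∈ ordinates T, ∀ γ' ∈ ordinates T,
      (mult γ : ℂ) * (mult γ' : ℂ) * (T : ℂ) ^ (I * α * (γ - γ')) * (weight (γ - γ') : ℂ) =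
      (mult γ : ℂ) * (mult γ' : ℂ) * Complex.exp (((α * Real.log T : ℝ) : ℂ) * (γ - γ') * I) *
        (weight (γ - γ') : ℂ) := by
    intro γ _ γ' _
    have hT' : (T : ℂ) ≠ 0 := by exact_mod_cast hT.ne'
    rw [Complex.cpow_def_of_ne_zero hT', ← Complex.ofReal_log hT.le]
    have : (Real.log T : ℂ) * (I * α * (γ - γ')) = ((α * Real.log T : ℝ) : ℂ) * (γ - γ') * I := by
      push_cast; ring
    rw [this]
  rw [Finset.sum_congr rfl (fun γ hγ => Finset.sum_congr rfl (fun γ' hγ' => h1 γ hγ γ' hγ')),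
    double_sum]
  push_cast
  rfl

end Pool.Agent.Lib.MP_00e05b_nt
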