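import Mathlib
import Pool.Agent.Lib.MP_00e05b_nt.MainBase

/-!
# From short windows to `F(α, T)`
-/

open Complex Set Filter Topology MeasureTheory

namespace Pool.Agent.Lib.MP_00e05b_nt

lemma window_sum (T y ρ : ℝ) (hρ : 0 < ρ) (m : ℕ) :
    ∑ i ∈ Finset.range (2 * m + 1), Real.exp (-(2 * (|2 * ρ * ((i : ℝ) - m)| + ρ))) *
      (∫ u in (y + 2 * ρ * ((i : ℝ) - m) - ρ)..(y + 2 * ρ * ((i : ℝ) - m) + ρ), ‖SS T u‖ ^ 2) ≤
    ∫ v : ℝ, ‖SS T (y + v)‖ ^ 2 * Real.exp (-(2 * |v|)) := by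
  set f : ℝ → ℝ := fun v => ‖SS T (y + v)‖ ^ 2 * Real.exp (-(2 * |v|)) with hf
  have hfc : Continuous f := by
    have := continuous_SS T
    rw [hf]
    fun_prop
  set a : ℕ → ℝ := fun i => 2 * ρ * ((i : ℝ) - m) - ρ with ha
  have hadj := intervalIntegral.sum_integral_adjacent_intervals (f := f) (a := a)
    (n := 2 * m + 1) (μ := volume) (fun k _ => hfc.intervalIntegrable _ _)
  have ha0 : a 0 ≤ a (2 * m + 1) := by
    simp only [ha]
    push_cast
    have : 0 ≤ 2 * ρ * (2 * m + 1) := by positivity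
    nlinarith
  have h1 : ∫ v in (a 0)..(a (2 * m + 1)), f v ≤ ∫ v : ℝ, f v := by
    rw [intervalIntegral.integral_of_le ha0]
    exact setIntegral_le_integral (ms_integrable T y) (Eventually.of_forall fun v => by
      simp only [Pi.zero_apply, hf]; positivity)
  rw [← hadj] at h1
  refine le_trans (Finset.sum_le_sum ?_) h1
  intro i _
  have hai : a (i + 1) = a i + 2 * ρ := by simp only [ha]; push_cast; ring
  have e1 : y + 2 * ρ * ((i : ℝ) - m) - ρ = y + a i := by simp only [ha]; ring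
  have e2 : y + 2 * ρ * ((i : ℝ) - m) + ρ = y + a (i + 1) := by rw [hai]; simp only [ha]; ring
  rw [e1, e2]
  have h2 : ∫ u in (y + a i)..(y + a (i + 1)), ‖SS T u‖ ^ 2 =
      ∫ v in (a i)..(a (i + 1)), ‖SS T (y + v)‖ ^ 2 := by
    rw [intervalIntegral.integral_comp_add_left (fun u => ‖SS T u‖ ^ 2) y]
  rw [h2, ← intervalIntegral.integral_const_mul]
  have hSc : Continuous fun v => ‖SS T (y + v)‖ ^ 2 := by
    have := continuous_SS T
    fun_prop
  apply intervalIntegral.integral_mono_on (by rw [hai]; linarith)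
  · exact (continuous_const.mul hSc).intervalIntegrable _ _
  · exact hfc.intervalIntegrable _ _
  · intro v hv
    simp only [hf]
    rw [mul_comm]
    have h3 : |v| ≤ |2 * ρ * ((i : ℝ) - m)| + ρ := by
      have h4 : |v - 2 * ρ * ((i : ℝ) - m)| ≤ ρ := by
        rw [abs_le]
        rw [hai] at hv
        simp only [ha] at hv
        constructor <;> linarith [hv.1, hv.2]
      have := abs_add_le (2 * ρ * ((i : ℝ) - m)) (v - 2 * ρ * ((i : ℝ) - m))
      rw [add_sub_cancel] at this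
      linarith
    have h5 : Real.exp (-(2 * (|2 * ρ * ((i : ℝ) - m)| + ρ))) ≤ Real.exp (-(2 * |v|)) :=
      Real.exp_le_exp.2 (by linarith)
    gcongr

lemma geom_lower (ρ : ℝ) (hρ : 0 < ρ) (m : ℕ) :
    (1 - Real.exp (-(4 * ρ * (m + 1)))) - 2 * ρ ≤
      ∑ i ∈ Finset.range (2 * m + 1), 2 * ρ * Real.exp (-(2 * |2 * ρ * ((i : ℝ) - m)|)) := by
  set x : ℝ := Real.exp (-(4 * ρ)) with hx
  have hx1 : x < 1 := by rw [hx, Real.exp_lt_one_iff]; linarith
  have hx0 : 0 < x := Real.exp_pos _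
  have h1 : 2 * ρ / (1 - x) ≥ 1 / 2 := by
    rw [ge_iff_le, le_div_iff₀ (by linarith)]
    have := Real.add_one_le_exp (-(4 * ρ))
    rw [← hx] at this
    linarith
  have hgeo : ∑ i ∈ Finset.range (m + 1), x ^ i = (1 - x ^ (m + 1)) / (1 - x) := by
    rw [geom_sum_eq hx1.ne]
    rw [← neg_div_neg_eq]
    congr 1 <;> ring
  have hxm : x ^ (m + 1) = Real.exp (-(4 * ρ * (m + 1))) := by
    rw [hx, ← Real.exp_nat_mul]; congr 1; push_cast; ring
  have hA : (1 - Real.exp (-(4 * ρ * (m + 1)))) / 2 ≤ 2 * ρ * ∑ i ∈ Finset.range (m + 1), x ^ i := by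
    rw [hgeo, hxm]
    have h0 : 0 ≤ 1 - Real.exp (-(4 * ρ * (m + 1))) := by
      have : Real.exp (-(4 * ρ * (m + 1))) ≤ 1 := Real.exp_le_one_iff.2 (by
        have : 0 ≤ 4 * ρ * (m + 1) := by positivity
        linarith)
      linarith
    calc (1 - Real.exp (-(4 * ρ * (m + 1)))) / 2 = (1 / 2) * (1 - Real.exp (-(4 * ρ * (m + 1)))) := by ring
      _ ≤ (2 * ρ / (1 - x)) * (1 - Real.exp (-(4 * ρ * (m + 1)))) := by gcongr
      _ = _ := by ring
  -- split the sum
  have hsplit : ∑ i ∈ Finset.range (2 * m + 1), Real.exp (-(2 * |2 * ρ * ((i : ℝ) - m)|)) =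
      ∑ i ∈ Finset.range m, x ^ (m - i) + ∑ i ∈ Finset.range (m + 1), x ^ i := by
    rw [show 2 * m + 1 = m + (m + 1) by ring, Finset.sum_range_add]
    congr 1
    · apply Finset.sum_congr rfl
      intro i hi
      rw [Finset.mem_range] at hi
      have him : (i : ℝ) ≤ m := by exact_mod_cast hi.le
      rw [hx, ← Real.exp_nat_mul, abs_of_nonpos (by nlinarith), Nat.cast_sub hi.le]
      congr 1
      ring
    · apply Finset.sum_congr rfl
      intro i _
      have : (0 : ℝ) ≤ i := Nat.cast_nonneg i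
      rw [hx, ← Real.exp_nat_mul]
      push_cast
      rw [abs_of_nonneg (by nlinarith)]
      congr 1
      ring
  have hrefl : ∑ i ∈ Finset.range m, x ^ (m - i) = ∑ i ∈ Finset.range (m + 1), x ^ i - 1 := by
    rw [Finset.sum_range_succ', pow_zero, add_sub_cancel_right]
    rw [← Finset.sum_range_reflect]
    apply Finset.sum_congr rfl
    intro i hi
    rw [Finset.mem_range] at hi
    congr 1
    omega
  rw [← Finset.mul_sum, hsplit, hrefl]
  linarith

/-- Local lower bounds on windows give a lower bound for `F`. -/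
theorem F_of_windows {T α : ℝ} (hT : 1 < T) (ρ : ℝ) (hρ : 0 < ρ) (m : ℕ) (g : ℝ) (hg : 0 ≤ g)
    (hloc : ∀ i ∈ Finset.range (2 * m + 1), 2 * ρ * (T / (2 * Real.pi)) * g ≤
      ∫ u in (α * Real.log T + 2 * ρ * ((i : ℝ) - m) - ρ)..(α * Real.log T +
        2 * ρ * ((i : ℝ) - m) + ρ), ‖SS T u‖ ^ 2) :
    ∃ r : ℝ, pairF α T = r ∧
      Real.exp (-(2 * ρ)) * ((1 - Real.exp (-(4 * ρ * (m + 1)))) - 2 * ρ) * g / Real.log T ≤ r := by
  have hT0 : 0 < T := by linarith
  have hlog : 0 < Real.log T := Real.log_pos hT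
  refine ⟨_, pairF_eq hT0 α, ?_⟩
  have h1 := window_sum T (α * Real.log T) ρ hρ m
  have h2 : Real.exp (-(2 * ρ)) * (T / (2 * Real.pi)) * g *
      ∑ i ∈ Finset.range (2 * m + 1), 2 * ρ * Real.exp (-(2 * |2 * ρ * ((i : ℝ) - m)|)) ≤
      ∫ v : ℝ, ‖SS T (α * Real.log T + v)‖ ^ 2 * Real.exp (-(2 * |v|)) := by
    refine le_trans ?_ h1
    rw [Finset.mul_sum]
    apply Finset.sum_le_sum
    intro i hi
    have h3 := hloc i hi
    have e1 : Real.exp (-(2 * (|2 * ρ * ((i : ℝ) - m)| + ρ))) =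
        Real.exp (-(2 * ρ)) * Real.exp (-(2 * |2 * ρ * ((i : ℝ) - m)|)) := by
      rw [← Real.exp_add]; congr 1; ring
    rw [e1]
    calc Real.exp (-(2 * ρ)) * (T / (2 * Real.pi)) * g *
        (2 * ρ * Real.exp (-(2 * |2 * ρ * ((i : ℝ) - m)|))) =
        Real.exp (-(2 * ρ)) * Real.exp (-(2 * |2 * ρ * ((i : ℝ) - m)|)) *
          (2 * ρ * (T / (2 * Real.pi)) * g) := by ring
      _ ≤ _ := by gcongr
  have h4 := geom_lower ρ hρ m
  have h5 : Real.exp (-(2 * ρ)) * (T / (2 * Real.pi)) * g *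
      ((1 - Real.exp (-(4 * ρ * (m + 1)))) - 2 * ρ) ≤
      ∫ v : ℝ, ‖SS T (α * Real.log T + v)‖ ^ 2 * Real.exp (-(2 * |v|)) := by
    refine le_trans ?_ h2
    have : 0 ≤ Real.exp (-(2 * ρ)) * (T / (2 * Real.pi)) * g := by positivity
    gcongr
  rw [inv_mul_eq_div, div_le_div_iff₀ hlog (by positivity)]
  calc Real.exp (-(2 * ρ)) * ((1 - Real.exp (-(4 * ρ * (m + 1)))) - 2 * ρ) * g *
      (T / (2 * Real.pi) * Real.log T) = (Real.exp (-(2 * ρ)) * (T / (2 * Real.pi)) * g *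
      ((1 - Real.exp (-(4 * ρ * (m + 1)))) - 2 * ρ)) * Real.log T := by ring
    _ ≤ _ := by gcongr

end Pool.Agent.Lib.MP_00e05b_nt
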