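import Mathlib
import Pool.Agent.Lib.MP_00e05b_nt.Windows

/-!
# From windows to the pair correlation function
-/

open Finset Filter
open scoped ContDiff

namespace Pool.Agent.Lib.MP_00e05b_nt

/-- a bump with prescribed radii, and its mass -/
lemma exists_bumpR {r1 r2 : ℝ} (h1 : 0 < r1) (h2 : r1 < r2) (h3 : r2 ≤ 3 / 4) :
    ∃ W : ℝ → ℝ, ContDiff ℝ ∞ W ∧ (∀ u, 0 ≤ W u) ∧ (∀ u, W u ≤ 1) ∧
    (∀ u, r2 ≤ |u| → W u = 0) ∧ 2 * r1 ≤ ∫ v in (-1 : ℝ)..1, W v * Real.exp v := by
  let f : ContDiffBump (0 : ℝ) := ⟨r1, r2, h1, h2⟩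
  have hf0 : ∀ u, 0 ≤ f u := fun u => f.nonneg
  have hfc : Continuous (fun v => f v * Real.exp v) := f.continuous.mul Real.continuous_exp
  refine ⟨f, f.contDiff, hf0, fun u => f.le_one, ?_, ?_⟩
  · intro u hu
    apply f.zero_of_le_dist
    rw [dist_zero_right, Real.norm_eq_abs]
    exact hu
  · have hsub : ∫ v in (-r1)..r1, f v * Real.exp v ≤ ∫ v in (-1 : ℝ)..1, f v * Real.exp v := by
      apply intervalIntegral.integral_mono_interval (by linarith) (by linarith) (by linarith)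
      · exact Filter.Eventually.of_forall fun v => mul_nonneg (hf0 v) (Real.exp_pos v).le
      · exact hfc.intervalIntegrable _ _
    refine le_trans ?_ hsub
    have h4 : ∫ v in (-r1)..r1, (1 + v) ≤ ∫ v in (-r1)..r1, f v * Real.exp v := by
      apply intervalIntegral.integral_mono_on (by linarith)
      · exact (continuous_const.add continuous_id).intervalIntegrable _ _
      · exact hfc.intervalIntegrable _ _
      · intro v hv
        have : f v = 1 := by
          apply f.one_of_mem_closedBall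
          rw [Metric.mem_closedBall, dist_zero_right, Real.norm_eq_abs]
          exact abs_le.2 hv
        rw [this, one_mul]
        have := Real.add_one_le_exp v
        linarith
    refine le_trans (le_of_eq ?_) h4
    rw [intervalIntegral.integral_add (by simp) (by simp)]
    simp
    ring

/-- the arithmetic of the constants -/
lemma conv_aux {t T P0 η G g I θy : ℝ} (ht0 : 0 < t) (ht1 : t ≤ 1 / 100) (hT : 0 < T)
    (hP0 : P0 = 2 * t * (1 - 2 * t)) (hη0 : 0 < η) (hη1 : η ≤ 2 * t * t) (hg : 0 ≤ g)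
    (hθy : 2 * Real.pi * η ≤ 2 * t ^ 2 * θy) (hI : 0 ≤ I)
    (hG : g + θy ≤ G)
    (h : (1 - t) * (1 - 2 * t) * (1 - t) * (T / (2 * Real.pi)) * Real.exp (-t) * P0 ^ 2 * G - η * T ≤
      (2 * t * Real.exp t + η) * I) :
    2 * t * (T / (2 * Real.pi)) * ((1 - 12 * t) * g) ≤ I := by
  have hpi := Real.pi_pos
  have e1 : 1 - t ≤ Real.exp (-t) := by
    have := Real.add_one_le_exp (-t)
    linarith
  have e2 : Real.exp t ≤ 1 + 2 * t := by
    have h1 := Real.exp_bound' (x := t) ht0.le (by linarith) (n := 1) (by norm_num)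
    simp at h1
    nlinarith
  have hθ0 : 0 ≤ θy := by
    have h2 : 0 < 2 * Real.pi * η := by positivity
    have h3 : 0 < 2 * t ^ 2 := by positivity
    by_contra hc
    push Not at hc
    nlinarith
  have hc1 : 1 - 9 * t ≤ (1 - t) * (1 - 2 * t) * (1 - t) * Real.exp (-t) * (1 - 2 * t) ^ 2 := by
    have a1 : 0 ≤ (1 - t) * (1 - 2 * t) * (1 - t) * (1 - 2 * t) ^ 2 := by
      have : 0 ≤ 1 - t := by linarith
      have : 0 ≤ 1 - 2 * t := by linarith
      positivity
    calc 1 - 9 * t ≤ (1 - t) * (1 - 2 * t) * (1 - t) * (1 - 2 * t) ^ 2 * (1 - t) := by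
          have b1 : 1 - 3 * t ≤ (1 - t) * (1 - 2 * t) := by nlinarith
          have b2 : 1 - 4 * t ≤ (1 - 2 * t) ^ 2 := by nlinarith
          have b3 : 1 - 2 * t ≤ (1 - t) * (1 - t) := by nlinarith
          have c1 : 0 ≤ 1 - 3 * t := by linarith
          have c2 : 0 ≤ 1 - 4 * t := by linarith
          have c3 : 0 ≤ 1 - 2 * t := by linarith
          have c4 : 0 ≤ 1 - t := by linarith
          have b4 : (1 - 3 * t) * (1 - 4 * t) * (1 - 2 * t) ≤
              ((1 - t) * (1 - 2 * t)) * (1 - 2 * t) ^ 2 * ((1 - t) * (1 - t)) := by gcongr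
          have b5 : 1 - 9 * t ≤ (1 - 3 * t) * (1 - 4 * t) * (1 - 2 * t) := by nlinarith
          calc 1 - 9 * t ≤ _ := b5.trans b4
            _ = _ := by ring
      _ ≤ (1 - t) * (1 - 2 * t) * (1 - t) * (1 - 2 * t) ^ 2 * Real.exp (-t) := by gcongr
      _ = _ := by ring
  have hG0 : 0 ≤ G := by linarith
  -- main
  have h2 : (T / (2 * Real.pi)) * (2 * t) ^ 2 * (1 - 9 * t) * G - η * T ≤
      (2 * t * (1 + 3 * t)) * I := by
    have h3 : (T / (2 * Real.pi)) * (2 * t) ^ 2 * (1 - 9 * t) * G ≤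
        (1 - t) * (1 - 2 * t) * (1 - t) * (T / (2 * Real.pi)) * Real.exp (-t) * P0 ^ 2 * G := by
      rw [hP0]
      calc (T / (2 * Real.pi)) * (2 * t) ^ 2 * (1 - 9 * t) * G ≤
          (T / (2 * Real.pi)) * (2 * t) ^ 2 *
            ((1 - t) * (1 - 2 * t) * (1 - t) * Real.exp (-t) * (1 - 2 * t) ^ 2) * G := by gcongr
        _ = _ := by ring
    have h4 : (2 * t * Real.exp t + η) * I ≤ (2 * t * (1 + 3 * t)) * I := by
      apply mul_le_mul_of_nonneg_right _ hI
      nlinarith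
    linarith
  have h5 : η * T ≤ (T / (2 * Real.pi)) * (2 * t) ^ 2 * (1 - 9 * t) * θy := by
    have h6 : 2 * t ^ 2 * θy ≤ (2 * t) ^ 2 * (1 - 9 * t) * θy := by
      apply mul_le_mul_of_nonneg_right _ hθ0
      nlinarith [sq_nonneg t]
    calc η * T = (T / (2 * Real.pi)) * (2 * Real.pi * η) := by field_simp
      _ ≤ (T / (2 * Real.pi)) * ((2 * t) ^ 2 * (1 - 9 * t) * θy) := by
          apply mul_le_mul_of_nonneg_left (hθy.trans h6) (by positivity)
      _ = _ := by ring
  have h7 : (T / (2 * Real.pi)) * (2 * t) ^ 2 * (1 - 9 * t) * g ≤ (2 * t * (1 + 3 * t)) * I := by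
    have h8 : (T / (2 * Real.pi)) * (2 * t) ^ 2 * (1 - 9 * t) * (g + θy) ≤
        (T / (2 * Real.pi)) * (2 * t) ^ 2 * (1 - 9 * t) * G := by
      apply mul_le_mul_of_nonneg_left hG
      have : 0 ≤ 1 - 9 * t := by linarith
      positivity
    rw [mul_add] at h8
    linarith
  have h9 : (2 * t * (1 + 3 * t)) * (2 * t * (T / (2 * Real.pi)) * ((1 - 12 * t) * g)) ≤
      (2 * t * (1 + 3 * t)) * I := by
    refine le_trans ?_ h7
    have h10 : (1 + 3 * t) * (1 - 12 * t) ≤ 1 - 9 * t := by nlinarith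
    calc (2 * t * (1 + 3 * t)) * (2 * t * (T / (2 * Real.pi)) * ((1 - 12 * t) * g)) =
        (T / (2 * Real.pi)) * (2 * t) ^ 2 * ((1 + 3 * t) * (1 - 12 * t)) * g := by ring
      _ ≤ _ := by gcongr
  exact le_of_mul_le_mul_left h9 (by positivity)

/-- From window bounds to `F`. -/
theorem F_of_window_bound {t θ cy a b A1 : ℝ} (ht0 : 0 < t) (ht1 : t ≤ 1 / 100) (hθ0 : 0 < θ)
    (hcy0 : 0 ≤ cy) (hb0 : 0 ≤ b) (hab : a - b ≤ 1) (hcA : cy * A1 < 1)
    (hw : ∀ C0 : ℝ, ∀ᶠ y : ℝ in atTop, ∀ T g : ℝ, Real.exp (cy * y) ≤ T →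
      T ≤ Real.exp (y + C0) → 0 ≤ g → g ≤ a * Real.log T - b * y - θ * y →
      2 * t * (T / (2 * Real.pi)) * ((1 - 12 * t) * g) ≤ ∫ u in (y - t)..(y + t), ‖SS T u‖ ^ 2) :
    ∃ T₀ : ℝ, ∀ T : ℝ, T₀ ≤ T → ∀ α : ℝ, 1 ≤ α → α ≤ A1 →
      ∃ r : ℝ, pairF α T = r ∧ 0 ≤ r ∧ a - b * α - (19 * t + θ * A1) ≤ r := by
  obtain ⟨m, hm⟩ : ∃ m : ℕ, m = ⌈1 / t ^ 2⌉₊ := ⟨_, rfl⟩
  have hm1 : 1 / t ^ 2 ≤ m := by rw [hm]; exact Nat.le_ceil _
  obtain ⟨C0, hC0⟩ : ∃ C0 : ℝ, C0 = 2 * t * m := ⟨_, rfl⟩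
  have hC00 : 0 ≤ C0 := by rw [hC0]; positivity
  obtain ⟨Y0, hY0⟩ := eventually_atTop.1 (hw C0)
  set Λ : ℝ := max (max (Y0 + C0) (cy * C0 / (1 - cy * A1))) (max ((b + θ) * C0 / t) 1) with hΛ
  refine ⟨Real.exp Λ, ?_⟩
  intro T hT α hα1 hαA
  have hT0 : 0 < T := (Real.exp_pos _).trans_le hT
  obtain ⟨l, hl⟩ : ∃ l : ℝ, l = Real.log T := ⟨_, rfl⟩
  have hlΛ : Λ ≤ l := by rw [hl, Real.le_log_iff_exp_le hT0]; exact hT
  have l1 : Y0 + C0 ≤ l := ((le_max_left _ _).trans (le_max_left _ _)).trans hlΛ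
  have l2 : cy * C0 / (1 - cy * A1) ≤ l := ((le_max_right _ _).trans (le_max_left _ _)).trans hlΛ
  have l3 : (b + θ) * C0 / t ≤ l := ((le_max_left _ _).trans (le_max_right _ _)).trans hlΛ
  have l4 : 1 ≤ l := ((le_max_right _ _).trans (le_max_right _ _)).trans hlΛ
  have hl0 : 0 < l := by linarith
  have hTe : T = Real.exp l := by rw [hl, Real.exp_log hT0]
  have hT1 : 1 < T := by rw [hTe]; exact Real.one_lt_exp_iff.2 hl0
  rw [div_le_iff₀ (by linarith)] at l2
  rw [div_le_iff₀ ht0] at l3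
  set g : ℝ := l * (a - b * α - θ * α) - (b + θ) * C0 with hg
  have hnn : 0 ≤ (T / (2 * Real.pi) * Real.log T)⁻¹ *
      ∫ v : ℝ, ‖SS T (α * Real.log T + v)‖ ^ 2 * Real.exp (-(2 * |v|)) := by
    rw [← hl]
    apply mul_nonneg
    · have := Real.pi_pos
      positivity
    · apply MeasureTheory.integral_nonneg
      intro v
      simp only [Pi.zero_apply]
      positivity
  rcases lt_or_ge g 0 with hg0 | hg0
  · refine ⟨_, pairF_eq hT0 α, hnn, ?_⟩
    refine le_trans ?_ hnn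
    have h1 : l * (a - b * α - θ * α) < l * t := by nlinarith
    have h2 : a - b * α - θ * α < t := lt_of_mul_lt_mul_left h1 hl0.le
    have h3 : θ * α ≤ θ * A1 := by gcongr
    linarith
  · -- windows
    have hwin : ∀ i ∈ Finset.range (2 * m + 1), 2 * t * (T / (2 * Real.pi)) * ((1 - 12 * t) * g) ≤
        ∫ u in (α * Real.log T + 2 * t * ((i : ℝ) - m) - t)..(α * Real.log T +
          2 * t * ((i : ℝ) - m) + t), ‖SS T u‖ ^ 2 := by
      intro i hi
      rw [Finset.mem_range] at hi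
      rw [← hl]
      have hi' : (i : ℝ) ≤ 2 * m := by exact_mod_cast (by omega : i ≤ 2 * m)
      have hi0 : (0 : ℝ) ≤ i := Nat.cast_nonneg i
      set y : ℝ := α * l + 2 * t * ((i : ℝ) - m) with hy
      have y1 : y ≤ α * l + C0 := by
        rw [hy, hC0]
        have : 2 * t * ((i : ℝ) - m) ≤ 2 * t * m := by
          apply mul_le_mul_of_nonneg_left _ (by positivity)
          linarith
        linarith
      have y2 : α * l - C0 ≤ y := by
        rw [hy, hC0]
        have : 2 * t * (-(m : ℝ)) ≤ 2 * t * ((i : ℝ) - m) := by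
          apply mul_le_mul_of_nonneg_left _ (by positivity)
          linarith
        linarith
      have hαl : l ≤ α * l := by nlinarith
      apply hY0 y (by linarith) T g
      · rw [hTe]
        apply Real.exp_le_exp.2
        have h3 : cy * α ≤ cy * A1 := by gcongr
        have h4 : cy * y ≤ cy * (α * l + C0) := by gcongr
        nlinarith
      · rw [hTe]
        apply Real.exp_le_exp.2
        linarith
      · exact hg0
      · rw [← hl, hg]
        have h5 : (b + θ) * y ≤ (b + θ) * (α * l + C0) := by gcongr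
        linarith
    have hg12 : 0 ≤ (1 - 12 * t) * g := mul_nonneg (by linarith) hg0
    obtain ⟨r, hr1, hr2⟩ := F_of_windows hT1 t ht0 m ((1 - 12 * t) * g) hg12 hwin
    have hrnn : 0 ≤ r := by
      have h6 : (r : ℂ) = (((T / (2 * Real.pi) * Real.log T)⁻¹ *
        ∫ v : ℝ, ‖SS T (α * Real.log T + v)‖ ^ 2 * Real.exp (-(2 * |v|)) : ℝ) : ℂ) := by
        rw [← hr1, pairF_eq hT0 α]
      have h7 := Complex.ofReal_injective h6
      rw [h7]; exact hnn
    refine ⟨r, hr1, hrnn, ?_⟩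
    refine le_trans ?_ hr2
    rw [← hl]
    have e1 : Real.exp (-(4 * t * (m + 1))) ≤ t := by
      have h8 : 4 / t ≤ 4 * t * (m + 1) := by
        have h9 : 4 / t = 4 * t * (1 / t ^ 2) := by field_simp
        rw [h9]
        gcongr
        linarith
      have h10 : 1 / t ≤ Real.exp (4 * t * (m + 1)) := by
        have h11 := Real.add_one_le_exp (4 * t * ((m : ℝ) + 1))
        have h12 : 1 / t ≤ 4 / t := by gcongr; norm_num
        linarith
      rw [Real.exp_neg]
      rw [inv_le_comm₀ (Real.exp_pos _) ht0, ← one_div]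
      exact h10
    have e2 : 1 - 2 * t ≤ Real.exp (-(2 * t)) := by
      have := Real.add_one_le_exp (-(2 * t))
      linarith
    have e3 : 1 - 17 * t ≤ Real.exp (-(2 * t)) * ((1 - Real.exp (-(4 * t * (m + 1)))) - 2 * t) *
        (1 - 12 * t) := by
      have c1 : 0 ≤ 1 - 3 * t := by linarith
      have c2 : 0 ≤ 1 - 12 * t := by linarith
      have c3 : 0 ≤ 1 - 2 * t := by linarith
      have c4 : 1 - 3 * t ≤ (1 - Real.exp (-(4 * t * (m + 1)))) - 2 * t := by linarith
      calc 1 - 17 * t ≤ (1 - 2 * t) * (1 - 3 * t) * (1 - 12 * t) := by nlinarith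
        _ ≤ Real.exp (-(2 * t)) * ((1 - Real.exp (-(4 * t * (m + 1)))) - 2 * t) * (1 - 12 * t) :=
            mul_le_mul_of_nonneg_right (mul_le_mul e2 c4 c1 (Real.exp_pos _).le) c2
    have hgl : g / l = a - b * α - θ * α - (b + θ) * C0 / l := by
      rw [hg]; field_simp
    have hgl0 : 0 ≤ g / l := by positivity
    have hgl1 : g / l ≤ 1 := by
      rw [hgl]
      have h13 : 0 ≤ (b + θ) * C0 / l := by positivity
      have h14 : b * 1 ≤ b * α := by gcongr
      have h15 : 0 ≤ θ * α := by positivity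
      linarith
    have hCl : (b + θ) * C0 / l ≤ t := by
      rw [div_le_iff₀ hl0]; linarith
    have hθα : θ * α ≤ θ * A1 := by gcongr
    calc a - b * α - (19 * t + θ * A1) ≤ (1 - 17 * t) * (g / l) := by nlinarith
      _ ≤ (Real.exp (-(2 * t)) * ((1 - Real.exp (-(4 * t * (m + 1)))) - 2 * t) * (1 - 12 * t)) *
          (g / l) := by gcongr
      _ = _ := by ring

end Pool.Agent.Lib.MP_00e05b_nt
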