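import Mathlib

/-!
# Counting the numerators
-/

open Finset

namespace Pool.Agent.Lib.MP_00e05b_nt

lemma count_mod (u v : ℝ) (hu : 0 ≤ u) (huv : u ≤ v) (m : ℕ) (hm : 0 < m) (t : ℕ) :
    (v - u) / m - 2 ≤ (((Finset.Ico ⌈u⌉₊ (⌊v⌋₊ + 1)).filter (fun a => a ≡ t [MOD m])).card : ℝ) ∧
    (((Finset.Ico ⌈u⌉₊ (⌊v⌋₊ + 1)).filter (fun a => a ≡ t [MOD m])).card : ℝ) ≤ (v - u) / m + 2 := by
  have hmr : (1 : ℝ) ≤ m := by exact_mod_cast hm
  have hm0 : (0 : ℝ) < m := by linarith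
  have hc := Nat.Ico_filter_modEq_card ⌈u⌉₊ (⌊v⌋₊ + 1) hm t
  set N : ℕ := ((Finset.Ico ⌈u⌉₊ (⌊v⌋₊ + 1)).filter (fun a => a ≡ t [MOD m])).card with hN
  set x : ℚ := (((⌊v⌋₊ + 1 : ℕ) : ℚ) - t) / m with hx
  set w : ℚ := ((⌈u⌉₊ : ℚ) - t) / m with hw
  have hcR : (N : ℝ) = max ((⌈x⌉ : ℝ) - ⌈w⌉) 0 := by
    have : ((N : ℤ) : ℝ) = ((max (⌈x⌉ - ⌈w⌉) 0 : ℤ) : ℝ) := by rw [hc]
    push_cast at this
    exact this
  have x1 : (x : ℝ) ≤ ⌈x⌉ := by exact_mod_cast Int.le_ceil x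
  have x2 : (⌈x⌉ : ℝ) < x + 1 := by exact_mod_cast Int.ceil_lt_add_one x
  have w1 : (w : ℝ) ≤ ⌈w⌉ := by exact_mod_cast Int.le_ceil w
  have w2 : (⌈w⌉ : ℝ) < w + 1 := by exact_mod_cast Int.ceil_lt_add_one w
  have ex : (x : ℝ) = ((⌊v⌋₊ : ℝ) + 1 - t) / m := by rw [hx]; push_cast; ring
  have ew : (w : ℝ) = ((⌈u⌉₊ : ℝ) - t) / m := by rw [hw]; push_cast; ring
  have hv : 0 ≤ v := hu.trans huv
  have f1 := Nat.floor_le hv
  have f2 := Nat.lt_floor_add_one v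
  have c1 := Nat.le_ceil u
  have c2 := Nat.ceil_lt_add_one hu
  have hdiff : (x : ℝ) - w = ((⌊v⌋₊ : ℝ) + 1 - ⌈u⌉₊) / m := by rw [ex, ew]; ring
  have hone : (1 : ℝ) / m ≤ 1 := by rw [div_le_one hm0]; exact hmr
  have hl : (v - u) / m - 1 / m ≤ (x : ℝ) - w := by
    rw [hdiff, ← sub_div]; apply div_le_div_of_nonneg_right _ hm0.le; linarith
  have hr : (x : ℝ) - w ≤ (v - u) / m + 1 / m := by
    rw [hdiff, ← add_div]; apply div_le_div_of_nonneg_right _ hm0.le; linarith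
  constructor
  · rw [hcR]
    refine le_trans ?_ (le_max_left _ _)
    linarith
  · rw [hcR]
    apply max_le
    · linarith
    · have : 0 ≤ (v - u) / m := div_nonneg (by linarith) hm0.le
      linarith

/-- numerators `a` with `a / (r s)` in `[c0, c1]` and prescribed class modulo `r`, prime to `s` -/
noncomputable def Ab (c0 c1 : ℝ) (r s b : ℕ) : Finset ℕ :=
  (Finset.Ico ⌈c0 * (r * s)⌉₊ (⌊c1 * (r * s)⌋₊ + 1)).filter
    (fun a => a.Coprime s ∧ a ≡ b * s [MOD r])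

lemma mem_Ab {c0 c1 : ℝ} {r s b a : ℕ} (hc1 : 0 ≤ c1) (hr : 0 < r) (hs : 0 < s) :
    a ∈ Ab c0 c1 r s b ↔ c0 ≤ (a : ℝ) / (r * s) ∧ (a : ℝ) / (r * s) ≤ c1 ∧ a.Coprime s ∧
      a ≡ b * s [MOD r] := by
  have hr' : (0 : ℝ) < r := by exact_mod_cast hr
  have hs' : (0 : ℝ) < s := by exact_mod_cast hs
  unfold Ab
  rw [mem_filter, mem_Ico, Nat.lt_succ_iff, Nat.le_floor_iff (by positivity), Nat.ceil_le,
    le_div_iff₀ (by positivity), div_le_iff₀ (by positivity)]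
  tauto

lemma card_Ab_upper (c0 c1 : ℝ) (h0 : 0 ≤ c0) (h01 : c0 ≤ c1) (r s b : ℕ) (hr : 0 < r) (hs : 0 < s) :
    ((Ab c0 c1 r s b).card : ℝ) ≤ (c1 - c0) * s + 2 := by
  have hr' : (0 : ℝ) < r := by exact_mod_cast hr
  have hs' : (0 : ℝ) < s := by exact_mod_cast hs
  have h := (count_mod (c0 * (r * s)) (c1 * (r * s)) (by positivity) (by gcongr) r hr (b * s)).2
  have e1 : (c1 * (r * s) - c0 * (r * s)) / r = (c1 - c0) * s := by field_simp
  rw [e1] at h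
  refine le_trans ?_ h
  have hsub : Ab c0 c1 r s b ⊆ (Finset.Ico ⌈c0 * (r * s)⌉₊ (⌊c1 * (r * s)⌋₊ + 1)).filter
      (fun a => a ≡ b * s [MOD r]) := by
    intro a ha
    unfold Ab at ha
    rw [mem_filter] at ha ⊢
    exact ⟨ha.1, ha.2.2⟩
  exact_mod_cast card_le_card hsub

lemma card_Ab_lower (c0 c1 : ℝ) (h0 : 0 ≤ c0) (h01 : c0 ≤ c1) (r s b k : ℕ) (z : ℝ) (hz : 0 < z)
    (hr : 0 < r) (hs : 0 < s) (hrs : r.Coprime s) (hk : s.primeFactors.card ≤ k)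
    (hrough : ∀ p ∈ s.primeFactors, z ≤ p) :
    (c1 - c0) * s * (1 - k / z) - 2 * (1 + k) ≤ ((Ab c0 c1 r s b).card : ℝ) := by
  classical
  have hr' : (0 : ℝ) < r := by exact_mod_cast hr
  have hs' : (0 : ℝ) < s := by exact_mod_cast hs
  set J : Finset ℕ := Finset.Ico ⌈c0 * (r * s)⌉₊ (⌊c1 * (r * s)⌋₊ + 1) with hJ
  have h := (count_mod (c0 * (r * s)) (c1 * (r * s)) (by positivity) (by gcongr) r hr (b * s)).1
  have e1 : (c1 * (r * s) - c0 * (r * s)) / r = (c1 - c0) * s := by field_simp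
  rw [e1] at h
  have hsub : J.filter (fun a => a ≡ b * s [MOD r]) ⊆ Ab c0 c1 r s b ∪
      s.primeFactors.biUnion (fun p => J.filter (fun a => a ≡ b * s [MOD r] ∧ p ∣ a)) := by
    intro a ha
    rw [mem_filter] at ha
    rw [mem_union, mem_biUnion]
    by_cases hc : a.Coprime s
    · left
      unfold Ab
      rw [mem_filter]
      exact ⟨ha.1, hc, ha.2⟩
    · right
      obtain ⟨p, hp, hpa, hps⟩ := Nat.Prime.not_coprime_iff_dvd.1 hc
      refine ⟨p, ?_, ?_⟩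
      · rw [Nat.mem_primeFactors]; exact ⟨hp, hps, hs.ne'⟩
      · rw [mem_filter]; exact ⟨ha.1, ha.2, hpa⟩
  have hcard : ((J.filter (fun a => a ≡ b * s [MOD r])).card : ℝ) ≤ ((Ab c0 c1 r s b).card : ℝ) +
      ∑ p ∈ s.primeFactors, ((J.filter (fun a => a ≡ b * s [MOD r] ∧ p ∣ a)).card : ℝ) := by
    have h1 := card_le_card hsub
    have h2 := h1.trans (card_union_le _ _)
    have h3 := h2.trans (Nat.add_le_add_left (card_biUnion_le) _)
    exact_mod_cast h3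
  have hp : ∀ p ∈ s.primeFactors, ((J.filter (fun a => a ≡ b * s [MOD r] ∧ p ∣ a)).card : ℝ) ≤
      (c1 - c0) * s / z + 2 := by
    intro p hp
    have hp' := hp
    rw [Nat.mem_primeFactors] at hp'
    have hp0 : (0 : ℝ) < p := by exact_mod_cast hp'.1.pos
    have hcop : r.Coprime p := Nat.Coprime.coprime_dvd_right hp'.2.1 hrs
    rcases (J.filter (fun a => a ≡ b * s [MOD r] ∧ p ∣ a)).eq_empty_or_nonempty with he | ⟨a0, ha0⟩
    · rw [he, card_empty, Nat.cast_zero]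
      have : 0 ≤ (c1 - c0) * s / z := by
        have := sub_nonneg.2 h01
        positivity
      linarith
    · rw [mem_filter] at ha0
      have hsub2 : J.filter (fun a => a ≡ b * s [MOD r] ∧ p ∣ a) ⊆
          J.filter (fun a => a ≡ a0 [MOD (r * p)]) := by
        intro a ha
        rw [mem_filter] at ha ⊢
        refine ⟨ha.1, ?_⟩
        rw [← Nat.modEq_and_modEq_iff_modEq_mul hcop]
        refine ⟨ha.2.1.trans ha0.2.1.symm, ?_⟩
        have h1 : a ≡ 0 [MOD p] := (Nat.modEq_zero_iff_dvd).2 ha.2.2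
        have h2 : a0 ≡ 0 [MOD p] := (Nat.modEq_zero_iff_dvd).2 ha0.2.2
        exact h1.trans h2.symm
      have h3 := (count_mod (c0 * (r * s)) (c1 * (r * s)) (by positivity) (by gcongr) (r * p)
        (Nat.mul_pos hr hp'.1.pos) a0).2
      have e2 : (c1 * (r * s) - c0 * (r * s)) / ((r * p : ℕ) : ℝ) = (c1 - c0) * s / p := by
        push_cast
        field_simp
      rw [e2] at h3
      have h4 : ((J.filter (fun a => a ≡ b * s [MOD r] ∧ p ∣ a)).card : ℝ) ≤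
          ((J.filter (fun a => a ≡ a0 [MOD (r * p)])).card : ℝ) := by
        exact_mod_cast card_le_card hsub2
      have h5 : (c1 - c0) * s / p ≤ (c1 - c0) * s / z := by
        have h6 := sub_nonneg.2 h01
        have h7 := hrough p hp
        gcongr
      linarith
  have hsum := sum_le_sum hp
  rw [sum_const, nsmul_eq_mul] at hsum
  have hx0 : 0 ≤ (c1 - c0) * s / z + 2 := by
    have := sub_nonneg.2 h01
    positivity
  have h8 : (s.primeFactors.card : ℝ) * ((c1 - c0) * s / z + 2) ≤ k * ((c1 - c0) * s / z + 2) := by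
    gcongr
  have e3 : (c1 - c0) * s * (1 - k / z) - 2 * (1 + k) =
      (c1 - c0) * s - 2 - k * ((c1 - c0) * s / z + 2) := by ring
  rw [e3]
  linarith

end Pool.Agent.Lib.MP_00e05b_nt
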