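import Mathlib
import Pool.Agent.Lib.MP_2a816b_nt.Basic0

/-!
# Sums of product functions with mean value zero over arithmetic progressions
-/

open Finset

namespace Pool.Agent.Lib.MP_00e05b_nt

open Pool.Agent.Lib.MP_2a816b_nt (sum_range_zmod sum_range_mul_eq periodic_sum_bound)

/-- product function -/
noncomputable def pf (f : (p : ℕ) → ZMod p → ℂ) (I : Finset ℕ) (a : ℕ) : ℂ := ∏ p ∈ I, f p (a : ZMod p)

lemma pf_complete (f : (p : ℕ) → ZMod p → ℂ) (d : ℕ) (hd : 1 < d) (hsq : Squarefree d)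
    (hf : ∀ p ∈ d.primeFactors, ∀ g : ZMod p ≃ ZMod p,
      ∑ x ∈ range p, f p (g (x : ZMod p)) = 0) (m t : ℕ) (hm : m.Coprime d) :
    ∑ j ∈ range d, pf f d.primeFactors (t + m * j) = 0 := by
  obtain ⟨p, hp, hpd⟩ := Nat.exists_prime_and_dvd (show d ≠ 1 by omega)
  have hfact : Fact p.Prime := ⟨hp⟩
  have hmem : p ∈ d.primeFactors := by
    rw [Nat.mem_primeFactors]; exact ⟨hp, hpd, by omega⟩
  obtain ⟨d', hd'⟩ := hpd
  have hd'0 : 0 < d' := Nat.pos_of_ne_zero (by rintro rfl; simp at hd'; omega)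
  have hpd' : ¬ p ∣ d' := by
    intro h
    obtain ⟨c, hc⟩ := h
    have h2 : p * p ∣ d := ⟨c, by rw [hd', hc]; ring⟩
    exact hp.one_lt.ne' (Nat.isUnit_iff.1 (hsq p h2))
  have hpm : ¬ p ∣ m := by
    intro h
    have h3 : p ∣ Nat.gcd m d := Nat.dvd_gcd h ⟨d', hd'⟩
    rw [hm] at h3
    exact hp.one_lt.ne' (Nat.dvd_one.1 h3)
  have e0 : d = d' * p := by rw [hd']; ring
  have e1 : ∑ j ∈ range d, pf f d.primeFactors (t + m * j) =
      ∑ j ∈ range (d' * p), pf f d.primeFactors (t + m * j) := by rw [← e0]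
  rw [e1, sum_range_mul_eq, sum_comm]
  apply sum_eq_zero; intro u _
  have h1 : ∀ v ∈ range p, pf f d.primeFactors (t + m * (d' * v + u)) =
      f p ((m : ZMod p) * d' * (v : ZMod p) + (t + m * u)) *
        ∏ q ∈ d.primeFactors.erase p, f q ((t + m * u : ℕ) : ZMod q) := by
    intro v _
    unfold pf
    rw [← mul_prod_erase _ _ hmem]
    congr 1
    · congr 1
      push_cast
      ring
    · apply prod_congr rfl; intro q hq
      rw [mem_erase, Nat.mem_primeFactors] at hq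
      congr 1
      have hqd' : q ∣ d' := by
        have h4 : q ∣ p * d' := by rw [← hd']; exact hq.2.2.1
        rcases (Nat.Prime.dvd_mul hq.2.1).1 h4 with h5 | h5
        · exact absurd ((Nat.prime_dvd_prime_iff_eq hq.2.1 hp).1 h5) hq.1
        · exact h5
      have h6 : ((d' : ℕ) : ZMod q) = 0 := (ZMod.natCast_eq_zero_iff _ _).2 hqd'
      push_cast
      rw [h6]
      ring
  rw [sum_congr rfl h1, ← sum_mul]
  have hmr : (m : ZMod p) * d' ≠ 0 := by
    apply mul_ne_zero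
    · rw [Ne, ZMod.natCast_eq_zero_iff]; exact hpm
    · rw [Ne, ZMod.natCast_eq_zero_iff]; exact hpd'
  have h2 := hf p hmem ((Equiv.mulLeft₀ ((m : ZMod p) * d') hmr).trans
    (Equiv.addRight ((t : ZMod p) + m * u)))
  have h3 : ∑ v ∈ range p, f p ((m : ZMod p) * d' * (v : ZMod p) + (t + m * u)) = 0 := h2
  rw [h3, zero_mul]

lemma pf_periodic (f : (p : ℕ) → ZMod p → ℂ) (d : ℕ) (m t j : ℕ) :
    pf f d.primeFactors (t + m * (d + j)) = pf f d.primeFactors (t + m * j) := by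
  unfold pf
  apply prod_congr rfl; intro q hq
  rw [Nat.mem_primeFactors] at hq
  congr 1
  have h6 : ((d : ℕ) : ZMod q) = 0 := (ZMod.natCast_eq_zero_iff _ _).2 hq.2.1
  push_cast
  rw [h6]
  ring

lemma ap_image (m t U : ℕ) (hm : 0 < m) :
    (range U).filter (fun a => a ≡ t [MOD m]) =
      (range ((U - t % m + m - 1) / m)).image (fun j => t % m + m * j) := by
  ext a
  rw [mem_filter, mem_range, mem_image]
  have htm : t % m < m := Nat.mod_lt _ hm
  constructor
  · rintro ⟨h1, h2⟩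
    have h3 : a % m = t % m := h2
    have h4 : a = t % m + m * (a / m) := by
      rw [← h3]; exact (Nat.mod_add_div a m).symm
    refine ⟨a / m, ?_, h4.symm⟩
    rw [mem_range, Nat.lt_iff_add_one_le, Nat.le_div_iff_mul_le hm]
    have h5 : m * (a / m) + 1 ≤ U - t % m := by omega
    calc (a / m + 1) * m = m * (a / m) + m := by ring
      _ ≤ U - t % m + m - 1 := by omega
  · rintro ⟨j, hj, rfl⟩
    rw [mem_range, Nat.lt_iff_add_one_le, Nat.le_div_iff_mul_le hm] at hj
    constructor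
    · have : (j + 1) * m = m * j + m := by ring
      omega
    · unfold Nat.ModEq
      rw [Nat.add_mul_mod_self_left, Nat.mod_mod]

lemma pf_range (f : (p : ℕ) → ZMod p → ℂ) (d : ℕ) (hd : 1 < d) (hsq : Squarefree d)
    (hf : ∀ p ∈ d.primeFactors, ∀ g : ZMod p ≃ ZMod p,
      ∑ x ∈ range p, f p (g (x : ZMod p)) = 0) (Bd : ℝ)
    (hB : ∀ a, ‖pf f d.primeFactors a‖ ≤ Bd) (m t : ℕ) (hm0 : 0 < m) (hm : m.Coprime d) (U : ℕ) :
    ‖∑ a ∈ (range U).filter (fun a => a ≡ t [MOD m]), pf f d.primeFactors a‖ ≤ Bd * d := by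
  rw [ap_image m t U hm0, sum_image]
  · exact periodic_sum_bound (fun j => pf f d.primeFactors (t % m + m * j)) d Bd (by omega)
      (fun j => pf_periodic f d m (t % m) j) (pf_complete f d hd hsq hf m (t % m) hm)
      (fun j => hB _) _
  · intro a _ b _ hab
    exact Nat.eq_of_mul_eq_mul_left hm0 (Nat.add_left_cancel hab)

lemma pf_Ico (f : (p : ℕ) → ZMod p → ℂ) (d : ℕ) (hd : 1 < d) (hsq : Squarefree d)
    (hf : ∀ p ∈ d.primeFactors, ∀ g : ZMod p ≃ ZMod p,
      ∑ x ∈ range p, f p (g (x : ZMod p)) = 0) (Bd : ℝ)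
    (hB : ∀ a, ‖pf f d.primeFactors a‖ ≤ Bd) (m t : ℕ) (hm0 : 0 < m) (hm : m.Coprime d) (L U : ℕ) :
    ‖∑ a ∈ (Ico L U).filter (fun a => a ≡ t [MOD m]), pf f d.primeFactors a‖ ≤ 2 * Bd * d := by
  have hB0 : 0 ≤ Bd := (norm_nonneg _).trans (hB 0)
  rcases Nat.lt_or_ge U L with h | h
  · rw [Ico_eq_empty_of_le h.le, filter_empty, sum_empty, norm_zero]
    positivity
  · have h1 := pf_range f d hd hsq hf Bd hB m t hm0 hm U
    have h2 := pf_range f d hd hsq hf Bd hB m t hm0 hm L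
    have h3 : ∑ a ∈ (Ico L U).filter (fun a => a ≡ t [MOD m]), pf f d.primeFactors a =
        ∑ a ∈ (range U).filter (fun a => a ≡ t [MOD m]), pf f d.primeFactors a -
        ∑ a ∈ (range L).filter (fun a => a ≡ t [MOD m]), pf f d.primeFactors a := by
      rw [sum_filter, sum_filter, sum_filter, sum_Ico_eq_sub _ h]
    rw [h3]
    refine (norm_sub_le _ _).trans ?_
    linarith

/-- with coprimality to further primes -/
lemma pf_Ico_cop (f : (p : ℕ) → ZMod p → ℂ) (d : ℕ) (hd : 1 < d) (hsq : Squarefree d)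
    (hf : ∀ p ∈ d.primeFactors, ∀ g : ZMod p ≃ ZMod p,
      ∑ x ∈ range p, f p (g (x : ZMod p)) = 0) (Bd : ℝ)
    (hB : ∀ a, ‖pf f d.primeFactors a‖ ≤ Bd) (L U : ℕ) (P : Finset ℕ)
    (hP : ∀ p ∈ P, p.Prime ∧ ¬ p ∣ d) :
    ∀ (m t : ℕ), 0 < m → m.Coprime d → (∀ p ∈ P, ¬ p ∣ m) →
    ‖∑ a ∈ (Ico L U).filter (fun a => a ≡ t [MOD m] ∧ ∀ p ∈ P, ¬ p ∣ a), pf f d.primeFactors a‖ ≤
      2 ^ P.card * (2 * Bd * d) := by
  classical
  induction P using Finset.induction_on with
  | empty =>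
    intro m t hm0 hm _
    simpa using pf_Ico f d hd hsq hf Bd hB m t hm0 hm L U
  | insert p P hpP ih =>
    intro m t hm0 hm hmP
    have hpp := hP p (mem_insert_self p P)
    have ih' := ih (fun q hq => hP q (mem_insert_of_mem hq))
    have h1 := ih' m t hm0 hm (fun q hq => hmP q (mem_insert_of_mem hq))
    -- the class modulo m * p
    have hmp : m.Coprime p := by
      rw [Nat.coprime_comm, Nat.Prime.coprime_iff_not_dvd hpp.1]
      exact hmP p (mem_insert_self p P)
    obtain ⟨t', ht'1, ht'2⟩ := Nat.chineseRemainder hmp t 0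
    have h2 := ih' (m * p) t' (Nat.mul_pos hm0 hpp.1.pos) (by
        apply Nat.Coprime.mul_left hm
        rw [Nat.Prime.coprime_iff_not_dvd hpp.1]
        exact hpp.2) (by
        intro q hq hqd
        have hq' := hP q (mem_insert_of_mem hq)
        rcases (Nat.Prime.dvd_mul hq'.1).1 hqd with h | h
        · exact hmP q (mem_insert_of_mem hq) h
        · have := (Nat.prime_dvd_prime_iff_eq hq'.1 hpp.1).1 h
          subst this
          exact hpP hq)
    have h3 : ∑ a ∈ (Ico L U).filter (fun a => a ≡ t [MOD m] ∧ ∀ q ∈ insert p P, ¬ q ∣ a),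
        pf f d.primeFactors a =
        ∑ a ∈ (Ico L U).filter (fun a => a ≡ t [MOD m] ∧ ∀ q ∈ P, ¬ q ∣ a), pf f d.primeFactors a -
        ∑ a ∈ (Ico L U).filter (fun a => a ≡ t' [MOD m * p] ∧ ∀ q ∈ P, ¬ q ∣ a),
          pf f d.primeFactors a := by
      rw [sum_filter, sum_filter, sum_filter, ← sum_sub_distrib]
      apply sum_congr rfl; intro a _
      have hiff : a ≡ t' [MOD m * p] ↔ (a ≡ t [MOD m] ∧ p ∣ a) := by
        rw [← Nat.modEq_and_modEq_iff_modEq_mul hmp]
        constructor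
        · rintro ⟨g1, g2⟩
          exact ⟨g1.trans ht'1, (Nat.modEq_zero_iff_dvd).1 (g2.trans ht'2)⟩
        · rintro ⟨g1, g2⟩
          exact ⟨g1.trans ht'1.symm, ((Nat.modEq_zero_iff_dvd).2 g2).trans ht'2.symm⟩
      simp only [hiff, forall_mem_insert]
      by_cases c1 : a ≡ t [MOD m]
      · by_cases c2 : p ∣ a
        · by_cases c3 : ∀ q ∈ P, ¬ q ∣ a
          · simp [c1, c2]
          · simp [c2, c3]
        · by_cases c3 : ∀ q ∈ P, ¬ q ∣ a
          · simp [c1, c2]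
          · simp [c3]
      · simp [c1]
    rw [h3, card_insert_of_notMem hpP, pow_succ]
    refine (norm_sub_le _ _).trans ?_
    linarith

end Pool.Agent.Lib.MP_00e05b_nt
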