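import Mathlib
import Pool.Agent.Lib.MP_2a816b_nt.Basic0
import Pool.Agent.Lib.MP_2a816b_nt.Ramanujan

/-!
# Weighted exponential sums over primes: basic facts
-/

open Finset Real

namespace Pool.Agent.Lib.MP_00e05b_nt

open Pool.Agent.Lib.MP_2a816b_nt

/-- weighted twisted sum over primes -/
noncomputable def wt (V : ℕ → ℝ) (N : ℕ) (κ : ℕ → ℂ) : ℂ :=
  ∑ n ∈ Ioc 0 N, ((V n : ℝ) : ℂ) * ((vM n : ℂ) * κ n)

/-- weighted exponential sum over primes -/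
noncomputable def SV (V : ℕ → ℝ) (N : ℕ) (x : ℝ) : ℂ := wt V N (fun n => e (n * x))

lemma abel (V : ℕ → ℝ) (x : ℕ → ℂ) (N : ℕ) :
    ∑ n ∈ Ioc 0 N, (V n : ℂ) * x n = (V (N + 1) : ℂ) * ∑ n ∈ Ioc 0 N, x n +
      ∑ M ∈ Ioc 0 N, ((V M - V (M + 1) : ℝ) : ℂ) * ∑ n ∈ Ioc 0 M, x n := by
  induction N with
  | zero => simp
  | succ N ih =>
    rw [Finset.sum_Ioc_succ_top (Nat.zero_le N), Finset.sum_Ioc_succ_top (Nat.zero_le N),
      Finset.sum_Ioc_succ_top (Nat.zero_le N) (fun M => ((V M - V (M + 1) : ℝ) : ℂ) * ∑ n ∈ Ioc 0 M, x n),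
      ih, Finset.sum_Ioc_succ_top (Nat.zero_le N)]
    push_cast
    ring

/-- weighted version of `sum_Sp_sq` -/
lemma sum_SV_sq (V : ℕ → ℝ) (B : ℝ) (hV0 : ∀ n, 0 ≤ V n) (hVB : ∀ n, V n ≤ B) (hB : 0 ≤ B)
    (r N : ℕ) (hr : 0 < r) (hsq : Squarefree r) (p : ℝ) (hp : 0 ≤ p)
    (hpos : p ≤ ∑ n ∈ Ioc 0 N, V n * vM n - 2 * (r : ℝ) ^ 2 * B * Real.log N) :
    p ^ 2 / r.totient ≤ ∑ b ∈ Cop r, ‖SV V N (b / r)‖ ^ 2 := by
  have hφ : (0 : ℝ) < r.totient := by exact_mod_cast Nat.totient_pos.2 hr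
  have hr1 : (1 : ℝ) ≤ r := by exact_mod_cast hr
  have hlog : 0 ≤ Real.log N := Real.log_natCast_nonneg N
  have h1 : ∑ b ∈ Cop r, SV V N (b / r) = ∑ n ∈ Ioc 0 N, (V n : ℂ) * ((vM n : ℂ) * cR r n) := by
    unfold SV wt cR
    rw [sum_comm]
    apply sum_congr rfl; intro n _
    rw [mul_sum, mul_sum]
  set m : ℂ := ((ArithmeticFunction.moebius r : ℤ) : ℂ) with hm
  have h2 : ∑ n ∈ Ioc 0 N, (V n : ℂ) * ((vM n : ℂ) * cR r n) =
      m * ((∑ n ∈ Ioc 0 N, V n * vM n : ℝ) : ℂ) +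
      ∑ n ∈ (Ioc 0 N).filter (fun n => ¬ n.Coprime r), (V n : ℂ) * ((vM n : ℂ) * (cR r n - m)) := by
    push_cast
    rw [sum_filter, mul_sum, ← sum_add_distrib]
    apply sum_congr rfl; intro n _
    by_cases hc : n.Coprime r
    · rw [if_neg (by simpa using hc), (cR_norm_one r n hr hsq hc).1, add_zero]; ring
    · rw [if_pos hc]; ring
  have hm1 : ‖m‖ = 1 := (cR_norm_one r 1 hr hsq (Nat.coprime_one_left r)).2
  have h3 : ‖∑ n ∈ (Ioc 0 N).filter (fun n => ¬ n.Coprime r),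
      (V n : ℂ) * ((vM n : ℂ) * (cR r n - m))‖ ≤ 2 * (r : ℝ) ^ 2 * B * Real.log N := by
    calc _ ≤ ∑ n ∈ (Ioc 0 N).filter (fun n => ¬ n.Coprime r),
          ‖(V n : ℂ) * ((vM n : ℂ) * (cR r n - m))‖ := norm_sum_le _ _
      _ ≤ ∑ n ∈ (Ioc 0 N).filter (fun n => ¬ n.Coprime r), (2 * r * B) * vM n := by
          apply sum_le_sum; intro n _
          rw [norm_mul, norm_mul, Complex.norm_real, norm_eq_abs, abs_of_nonneg (hV0 n),
            Complex.norm_real, norm_eq_abs, abs_of_nonneg (vM_nonneg n)]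
          have h4 : ‖cR r n - m‖ ≤ 2 * r := by
            refine (norm_sub_le _ _).trans ?_
            rw [hm1]
            have := cR_norm_le r n
            linarith
          have h6 := vM_nonneg n
          have h7 := hVB n
          calc V n * (vM n * ‖cR r n - m‖) ≤ B * (vM n * (2 * r)) := by gcongr
            _ = 2 * r * B * vM n := by ring
      _ = (2 * r * B) * ∑ n ∈ (Ioc 0 N).filter (fun n => ¬ n.Coprime r), vM n := by rw [mul_sum]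
      _ ≤ (2 * r * B) * (r * Real.log N) := by
          gcongr
          exact sum_vM_ncop r N hr
      _ = _ := by ring
  have hψ0 : 0 ≤ ∑ n ∈ Ioc 0 N, V n * vM n :=
    sum_nonneg (fun n _ => mul_nonneg (hV0 n) (vM_nonneg n))
  have h5 : p ≤ ‖∑ b ∈ Cop r, SV V N (b / r)‖ := by
    rw [h1, h2]
    have h6 : ‖m * ((∑ n ∈ Ioc 0 N, V n * vM n : ℝ) : ℂ)‖ = ∑ n ∈ Ioc 0 N, V n * vM n := by
      rw [norm_mul, hm1, one_mul, Complex.norm_real, norm_eq_abs, abs_of_nonneg hψ0]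
    have h7 := norm_sub_norm_le (m * ((∑ n ∈ Ioc 0 N, V n * vM n : ℝ) : ℂ))
      (-(∑ n ∈ (Ioc 0 N).filter (fun n => ¬ n.Coprime r), (V n : ℂ) * ((vM n : ℂ) * (cR r n - m))))
    rw [norm_neg, sub_neg_eq_add, h6] at h7
    linarith
  have h8 : ‖∑ b ∈ Cop r, SV V N (b / r)‖ ^ 2 ≤ r.totient * ∑ b ∈ Cop r, ‖SV V N (b / r)‖ ^ 2 := by
    calc ‖∑ b ∈ Cop r, SV V N (b / r)‖ ^ 2 ≤ (∑ b ∈ Cop r, 1 * ‖SV V N (b / r)‖) ^ 2 := by
          gcongr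
          simp only [one_mul]
          exact norm_sum_le _ _
      _ ≤ (∑ b ∈ Cop r, (1 : ℝ) ^ 2) * ∑ b ∈ Cop r, ‖SV V N (b / r)‖ ^ 2 := sum_mul_sq_le_sq_mul_sq _ _ _
      _ = _ := by rw [one_pow, sum_const, card_Cop, nsmul_eq_mul, mul_one]
  rw [div_le_iff₀ hφ]
  calc p ^ 2 ≤ ‖∑ b ∈ Cop r, SV V N (b / r)‖ ^ 2 := by gcongr
    _ ≤ _ := by rw [mul_comm]; exact h8

lemma SV_add_int (V : ℕ → ℝ) (N : ℕ) (x : ℝ) (m : ℤ) : SV V N (x + m) = SV V N x := by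
  unfold SV wt
  apply sum_congr rfl; intro n _
  congr 2
  have : (n : ℝ) * (x + m) = n * x + ((n * m : ℤ) : ℝ) := by push_cast; ring
  simp only [this, e_add_int]

end Pool.Agent.Lib.MP_00e05b_nt
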