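import Mathlib
import Pool.Agent.Lib.MP_00e05b_nt.WeightedBase
import Pool.Agent.Lib.MP_00e05b_nt.SmallD2
import Pool.Agent.Lib.MP_2a816b_nt.Fam

/-!
# Expansion of the exponential sum and the small moduli
-/

open Finset

namespace Pool.Agent.Lib.MP_00e05b_nt

open Pool.Agent.Lib.MP_2a816b_nt

/-- weighted expansion -/
lemma SV_expand (V : ℕ → ℝ) (Bv : ℝ) (hV0 : ∀ n, 0 ≤ V n) (hVB : ∀ n, V n ≤ Bv) (hB : 0 ≤ Bv)
    (c m b r N k : ℕ) (hsq : Squarefree m) (hk : m.primeFactors.card ≤ k) :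
    ‖SV V N ((b : ℝ) / r + (c : ℝ) / m) -
      ∑ d ∈ m.divisors, gq (m / d) * wt V N (kd (fam c m) d r b)‖ ≤
      (1 + 4 ^ k) * (Bv * (k * Real.log N)) := by
  have hm0 : 0 < m := Nat.pos_of_ne_zero hsq.ne_zero
  have h1 : SV V N ((b : ℝ) / r + (c : ℝ) / m) -
      ∑ d ∈ m.divisors, gq (m / d) * wt V N (kd (fam c m) d r b) =
      ∑ n ∈ (Ioc 0 N).filter (fun n => ¬ n.Coprime m), (V n : ℂ) * ((vM n : ℂ) *
        (e (n * ((b : ℝ) / r + (c : ℝ) / m)) -
          ∑ d ∈ m.divisors, gq (m / d) * kd (fam c m) d r b n)) := by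
    have e1 : ∑ d ∈ m.divisors, gq (m / d) * wt V N (kd (fam c m) d r b) =
        ∑ n ∈ Ioc 0 N, (V n : ℂ) * ((vM n : ℂ) *
          ∑ d ∈ m.divisors, gq (m / d) * kd (fam c m) d r b n) := by
      unfold wt
      simp only [mul_sum]
      rw [sum_comm]
      apply sum_congr rfl; intro n _
      apply sum_congr rfl; intro d _
      ring
    rw [e1]
    unfold SV wt
    rw [← sum_sub_distrib, sum_filter]
    apply sum_congr rfl; intro n _
    by_cases hn : n.Coprime m
    · rw [if_neg (by simpa using hn)]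
      have e2 : e (n * ((b : ℝ) / r + (c : ℝ) / m)) =
          e (n * ((c : ℝ) / m)) * e ((n * b : ℕ) / r) := by
        rw [← e_add]; congr 1; push_cast; ring
      simp only [e2, e_expand c m n hsq hn, sum_mul]
      unfold kd
      rw [← mul_sub, ← mul_sub, sub_eq_zero.2, mul_zero, mul_zero]
      apply sum_congr rfl; intro d _
      ring
    · rw [if_pos hn]; ring
  rw [h1]
  have hpt : ∀ n : ℕ, ‖e (n * ((b : ℝ) / r + (c : ℝ) / m)) -
      ∑ d ∈ m.divisors, gq (m / d) * kd (fam c m) d r b n‖ ≤ 1 + 4 ^ k := by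
    intro n
    refine (norm_sub_le _ _).trans ?_
    rw [norm_e]
    gcongr
    calc _ ≤ ∑ d ∈ m.divisors, ‖gq (m / d) * kd (fam c m) d r b n‖ := norm_sum_le _ _
      _ ≤ ∑ d ∈ m.divisors, (2 : ℝ) ^ k := by
          apply sum_le_sum; intro d hd
          rw [Nat.mem_divisors] at hd
          have hdm : m / d ∣ m := Nat.div_dvd_of_dvd hd.1
          have hsq' : Squarefree (m / d) := hsq.squarefree_of_dvd hdm
          rw [norm_mul, norm_gq _ hsq']
          have h2 : (1 : ℝ) ≤ (m / d).totient := by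
            exact_mod_cast Nat.totient_pos.2 (Nat.pos_of_ne_zero hsq'.ne_zero)
          have h3 : (1 : ℝ) / (m / d).totient ≤ 1 := by
            rw [div_le_one (by linarith)]; exact h2
          have h4 : d.primeFactors.card ≤ k :=
            (card_le_card (Nat.primeFactors_mono hd.1 hd.2)).trans hk
          calc _ ≤ 1 * (2 : ℝ) ^ k := by
                gcongr
                exact kd_norm_le (fam c m) d r b n k h4
            _ = _ := one_mul _
      _ = m.divisors.card * (2 : ℝ) ^ k := by rw [sum_const, nsmul_eq_mul]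
      _ ≤ (2 : ℝ) ^ k * (2 : ℝ) ^ k := by
          gcongr
          exact_mod_cast card_divisors_le_two_pow m k hsq hk
      _ = 4 ^ k := by rw [← mul_pow]; norm_num
  calc _ ≤ ∑ n ∈ (Ioc 0 N).filter (fun n => ¬ n.Coprime m), Bv * (vM n * (1 + 4 ^ k)) := by
        refine (norm_sum_le _ _).trans ?_
        apply sum_le_sum; intro n _
        rw [norm_mul, norm_mul, Complex.norm_real, Complex.norm_real, Real.norm_eq_abs,
          Real.norm_eq_abs, abs_of_nonneg (hV0 n), abs_of_nonneg (vM_nonneg n)]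
        have g1 := hV0 n
        have g2 := hVB n
        have g3 := vM_nonneg n
        have g4 := hpt n
        gcongr
    _ = (∑ n ∈ (Ioc 0 N).filter (fun n => ¬ n.Coprime m), vM n) * (Bv * (1 + 4 ^ k)) := by
        rw [sum_mul]
        apply sum_congr rfl; intro n _
        ring
    _ ≤ (k * Real.log N) * (Bv * (1 + 4 ^ k)) := by
        gcongr
        exact sum_vM_ncop' m N k hm0 hk
    _ = _ := by ring

lemma wt_sum_Ab (V : ℕ → ℝ) (hV0 : ∀ n, 0 ≤ V n) (N : ℕ) (c0 c1 : ℝ) (r s b d k : ℕ)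
    (hr : 0 < r) (hs : 0 < s) (hsq : Squarefree s)
    (hrs : r.Coprime s) (hk : s.primeFactors.card ≤ k) (hd : 1 < d) (hds : d ∣ s) :
    ‖∑ a ∈ Ab c0 c1 r s b, wt V N (kd (fam (numc r s a) s) d r b)‖ ≤
      (∑ n ∈ Ioc 0 N, V n * vM n) * (2 ^ k * (2 * 2 ^ k * d)) := by
  have h1 : ∑ a ∈ Ab c0 c1 r s b, wt V N (kd (fam (numc r s a) s) d r b) =
      ∑ n ∈ Ioc 0 N, (V n : ℂ) * ((vM n : ℂ) * e ((n * b : ℕ) / r) *
        ∑ a ∈ Ab c0 c1 r s b, kapF (fam (numc r s a) s) d.primeFactors n) := by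
    unfold wt kd
    rw [sum_comm]
    apply sum_congr rfl; intro n _
    rw [mul_sum, mul_sum]
    apply sum_congr rfl; intro a _
    ring
  rw [h1, sum_mul]
  refine (norm_sum_le _ _).trans ?_
  apply sum_le_sum; intro n _
  rw [norm_mul, norm_mul, norm_mul, norm_e, mul_one, Complex.norm_real, Complex.norm_real,
    Real.norm_eq_abs, Real.norm_eq_abs, abs_of_nonneg (hV0 n), abs_of_nonneg (vM_nonneg n)]
  have g1 := hV0 n
  have g3 := vM_nonneg n
  have g4 := sum_kapF_Ab c0 c1 r s b d n k hr hs hsq hrs hk hd hds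
  calc V n * (vM n * ‖∑ a ∈ Ab c0 c1 r s b, kapF (fam (numc r s a) s) d.primeFactors n‖) ≤
      V n * (vM n * (2 ^ k * (2 * 2 ^ k * d))) := by gcongr
    _ = _ := by ring

end Pool.Agent.Lib.MP_00e05b_nt
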