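import Mathlib

/-!
# Definitions for the bilinear bound with step weights
-/

open Finset

namespace Pool.Agent.Lib.MP_00e05b_nt

/-- the bound for one block -/
noncomputable def BG (k L r U : ℕ) (cI τ0 S Am D0 N : ℝ) : ℝ :=
  4 ^ k * (1 + L) / S * (16 * 2 ^ k * L * r * U * cI * S ^ 2 +
    18 * 2 ^ k * L ^ 4 * √r * √(τ0 * cI) * √(2 * N) / √S *
      (2 * √(Am * N) * √(2 * S / D0) + S * √(8 * Am * √N) + 4 * S * √(N / U) + 4 * S ^ 2))

/-- the uniform bound for the blocks -/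
noncomputable def GB (k L U0 U : ℕ) (τ0 c1 B D0 N : ℝ) : ℝ :=
  4 ^ k * (1 + L) * (32 * 2 ^ k * L * U0 * U * c1 * B ^ 2 + 144 * 2 ^ k * L ^ 4 * U0 * √τ0 *
    √(c1 * N) * (√(c1 * N) / √D0 + √(c1 * B * √N) + √(N / U) + B))

/-- the block of `s` -/
noncomputable def jb (lam : ℝ) (s : ℕ) : ℕ := ⌊Real.log s / lam⌋₊

/-- the weights -/
noncomputable def wB (lam c0 c1 : ℝ) (r s a : ℕ) : ℝ :=
  if c0 * (r * Real.exp ((jb lam s + 1) * lam)) ≤ a ∧
    (a : ℝ) ≤ c1 * (r * Real.exp (jb lam s * lam)) then 1 else 0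

end Pool.Agent.Lib.MP_00e05b_nt
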