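import Mathlib

/-! # A lower bound for a sum of `1/(φ(r)φ(s))` over a smooth part `r` and a rough part `s` -/

namespace Pool.Agent.Lib.MP_00e05b_nt

open Finset ArithmeticFunction

/-- Mertens' upper bound. -/
theorem mertens_ub (z : ℕ) (hz : 1 ≤ z) :
    ∑ p ∈ (Finset.Ioc 0 z).filter Nat.Prime, Real.log p / p ≤ Real.log z + Real.log 4 := by
  have h1 : ∑ n ∈ Finset.Ioc 0 z, Real.log n = ∑ n ∈ Finset.Ioc 0 z, vonMangoldt n * ((z / n : ℕ) : ℝ) := by
    have := ArithmeticFunction.sum_Ioc_mul_zeta_eq_sum vonMangoldt z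
    rw [← this]
    apply Finset.sum_congr rfl
    intro n hn
    rw [ArithmeticFunction.vonMangoldt_mul_zeta, ArithmeticFunction.log_apply]
  have h2 : ∑ n ∈ Finset.Ioc 0 z, Real.log n ≤ z * Real.log z := by
    calc ∑ n ∈ Finset.Ioc 0 z, Real.log n ≤ ∑ n ∈ Finset.Ioc 0 z, Real.log z := by
          apply Finset.sum_le_sum
          intro n hn
          rw [Finset.mem_Ioc] at hn
          exact Real.log_le_log (by exact_mod_cast hn.1) (by exact_mod_cast hn.2)
      _ = z * Real.log z := by simp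
  have h3 : ∑ p ∈ (Finset.Ioc 0 z).filter Nat.Prime, Real.log p * ((z / p : ℕ) : ℝ)
      ≤ ∑ n ∈ Finset.Ioc 0 z, vonMangoldt n * ((z / n : ℕ) : ℝ) := by
    calc ∑ p ∈ (Finset.Ioc 0 z).filter Nat.Prime, Real.log p * ((z / p : ℕ) : ℝ)
        = ∑ p ∈ (Finset.Ioc 0 z).filter Nat.Prime, vonMangoldt p * ((z / p : ℕ) : ℝ) := by
          apply Finset.sum_congr rfl
          intro p hp
          rw [Finset.mem_filter] at hp
          rw [ArithmeticFunction.vonMangoldt_apply_prime hp.2]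
      _ ≤ _ := by
          apply Finset.sum_le_sum_of_subset_of_nonneg (Finset.filter_subset _ _)
          intro n _ _
          exact mul_nonneg ArithmeticFunction.vonMangoldt_nonneg (Nat.cast_nonneg _)
  have h4 : ∑ p ∈ (Finset.Ioc 0 z).filter Nat.Prime, Real.log p ≤ Real.log 4 * z := by
    have := Chebyshev.theta_le_log4_mul_x (x := (z : ℝ)) (Nat.cast_nonneg _)
    rw [Chebyshev.theta, Nat.floor_natCast] at this
    exact this
  have h5 : ∑ p ∈ (Finset.Ioc 0 z).filter Nat.Prime, (z * (Real.log p / p) - Real.log p)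
      ≤ ∑ p ∈ (Finset.Ioc 0 z).filter Nat.Prime, Real.log p * ((z / p : ℕ) : ℝ) := by
    apply Finset.sum_le_sum
    intro p hp
    rw [Finset.mem_filter, Finset.mem_Ioc] at hp
    have hp0 : (0:ℝ) < p := by exact_mod_cast hp.1.1
    have hlog : 0 ≤ Real.log p := Real.log_natCast_nonneg p
    have hfl : (z:ℝ) / p - 1 ≤ ((z / p : ℕ) : ℝ) := by
      have : (z:ℝ) / p < ((z / p : ℕ) : ℝ) + 1 := by
        rw [div_lt_iff₀ hp0]
        have := Nat.lt_div_mul_add (a := z) (b := p) hp.1.1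
        have h' : (z:ℝ) < ((z / p : ℕ) : ℝ) * p + p := by exact_mod_cast this
        linarith
      linarith
    calc (z:ℝ) * (Real.log p / p) - Real.log p = Real.log p * ((z:ℝ) / p - 1) := by ring
      _ ≤ Real.log p * ((z / p : ℕ) : ℝ) := mul_le_mul_of_nonneg_left hfl hlog
  rw [Finset.sum_sub_distrib, ← Finset.mul_sum] at h5
  have hz0 : (0:ℝ) < z := by exact_mod_cast hz
  have h6 : (z:ℝ) * ∑ p ∈ (Finset.Ioc 0 z).filter Nat.Prime, Real.log p / p
      ≤ z * (Real.log z + Real.log 4) := by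
    linarith
  exact le_of_mul_le_mul_left h6 hz0

theorem mertens_ub' (z : ℕ) (hz : 1 ≤ z) :
    ∑ p ∈ (Finset.Ioc 0 z).filter Nat.Prime, Real.log p / (p - 1) ≤ 2 * Real.log z + 4 := by
  have h1 := mertens_ub z hz
  have h2 : ∑ p ∈ (Finset.Ioc 0 z).filter Nat.Prime, Real.log p / ((p:ℝ) - 1)
      ≤ 2 * ∑ p ∈ (Finset.Ioc 0 z).filter Nat.Prime, Real.log p / p := by
    rw [Finset.mul_sum]
    apply Finset.sum_le_sum
    intro p hp
    rw [Finset.mem_filter, Finset.mem_Ioc] at hp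
    have hp2 : (2:ℝ) ≤ p := by exact_mod_cast hp.2.two_le
    have hlog : 0 ≤ Real.log p := Real.log_natCast_nonneg p
    rw [mul_div_assoc', div_le_div_iff₀ (by linarith) (by linarith)]
    nlinarith
  have h4 : Real.log 4 ≤ 2 := by
    have : Real.log 4 = 2 * Real.log 2 := by
      rw [show (4:ℝ) = 2 ^ 2 by norm_num, Real.log_pow]; norm_num
    rw [this]
    have := Real.log_two_lt_d9
    linarith
  linarith

/-- multiples of `d` in the harmonic sum -/
theorem sum_inv_dvd (B d : ℕ) (hd : 0 < d) :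
    ∑ n ∈ (Finset.Ioc 0 B).filter (fun n => d ∣ n), (1:ℝ) / n ≤ (1 / d) * ∑ n ∈ Finset.Ioc 0 B, (1:ℝ) / n := by
  rw [Finset.mul_sum]
  calc ∑ n ∈ (Finset.Ioc 0 B).filter (fun n => d ∣ n), (1:ℝ) / n
      = ∑ n ∈ (Finset.Ioc 0 B).filter (fun n => d ∣ n), (1:ℝ) / d * (1 / ((n / d : ℕ) : ℝ)) := by
        apply Finset.sum_congr rfl
        intro n hn
        rw [Finset.mem_filter, Finset.mem_Ioc] at hn
        obtain ⟨k, hk⟩ := hn.2
        have hd0 : (d:ℝ) ≠ 0 := by exact_mod_cast hd.ne'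
        rw [hk, Nat.mul_div_cancel_left _ hd]
        push_cast
        rw [div_mul_div_comm, one_mul]
    _ = ∑ m ∈ ((Finset.Ioc 0 B).filter (fun n => d ∣ n)).image (fun n => n / d), (1:ℝ) / d * (1 / (m : ℝ)) := by
        rw [Finset.sum_image]
        intro a ha b hb hab
        rw [Finset.mem_coe, Finset.mem_filter] at ha hb
        have := Nat.eq_mul_of_div_eq_right ha.2 hab
        rw [this, Nat.mul_div_cancel' hb.2]
    _ ≤ ∑ n ∈ Finset.Ioc 0 B, (1:ℝ) / d * (1 / (n : ℝ)) := by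
        apply Finset.sum_le_sum_of_subset_of_nonneg
        · intro m hm
          rw [Finset.mem_image] at hm
          obtain ⟨n, hn, rfl⟩ := hm
          rw [Finset.mem_filter, Finset.mem_Ioc] at hn
          rw [Finset.mem_Ioc]
          exact ⟨Nat.div_pos (Nat.le_of_dvd hn.1.1 hn.2) hd, (Nat.div_le_self _ _).trans hn.1.2⟩
        · intro n _ _
          positivity

theorem harm_ub (B : ℕ) : ∑ n ∈ Finset.Ioc 0 B, (1:ℝ) / n ≤ Real.log B + 1 := by
  have h := harmonic_le_one_add_log B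
  rw [harmonic_eq_sum_Icc] at h
  push_cast at h
  have : Finset.Ioc 0 B = Finset.Icc 1 B := by ext; simp [Nat.succ_le_iff, Nat.pos_iff_ne_zero]
  rw [this]
  simp only [one_div]
  linarith

theorem harm_lb (M B : ℕ) (hM : 1 ≤ M) (hMB : M ≤ B) :
    Real.log B - Real.log M - 1 ≤ ∑ n ∈ Finset.Ioc M B, (1:ℝ) / n := by
  have h1 := log_add_one_le_harmonic B
  have h2 := harmonic_le_one_add_log M
  rw [harmonic_eq_sum_Icc] at h1 h2
  push_cast at h1 h2
  have e : ∀ K : ℕ, Finset.Ioc 0 K = Finset.Icc 1 K := by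
    intro K; ext; simp [Nat.succ_le_iff, Nat.pos_iff_ne_zero]
  rw [← e] at h1 h2
  have h3 : ∑ n ∈ Finset.Ioc 0 M, ((n:ℝ))⁻¹ + ∑ n ∈ Finset.Ioc M B, ((n:ℝ))⁻¹ = ∑ n ∈ Finset.Ioc 0 B, ((n:ℝ))⁻¹ :=
    Finset.sum_Ioc_consecutive _ (Nat.zero_le _) hMB
  have h4 : Real.log B ≤ Real.log (B + 1) := by
    apply Real.log_le_log
    · exact_mod_cast lt_of_lt_of_le hM hMB
    · linarith
  simp only [one_div]
  linarith

/-- `z`-smooth part -/
noncomputable def sp (z n : ℕ) : ℕ := ∏ p ∈ n.primeFactors.filter (fun p => p ≤ z), p ^ n.factorization p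
/-- `z`-rough part -/
noncomputable def rp (z n : ℕ) : ℕ := ∏ p ∈ n.primeFactors.filter (fun p => ¬ p ≤ z), p ^ n.factorization p

theorem sp_mul_rp (z n : ℕ) (hn : n ≠ 0) : sp z n * rp z n = n := by
  unfold sp rp
  rw [Finset.prod_filter_mul_prod_filter_not]
  have := Nat.prod_factorization_pow_eq_self hn
  rw [Finsupp.prod, Nat.support_factorization] at this
  exact this

theorem prime_dvd_sp {z n p : ℕ} (hp : p.Prime) (h : p ∣ sp z n) : p ∣ n ∧ p ≤ z := by
  unfold sp at h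
  rw [hp.prime.dvd_finsetProd_iff] at h
  obtain ⟨q, hq, hpq⟩ := h
  rw [Finset.mem_filter, Nat.mem_primeFactors] at hq
  have := hp.dvd_of_dvd_pow hpq
  rw [Nat.prime_dvd_prime_iff_eq hp hq.1.1] at this
  subst this
  exact ⟨hq.1.2.1, hq.2⟩

theorem prime_dvd_rp {z n p : ℕ} (hp : p.Prime) (h : p ∣ rp z n) : p ∣ n ∧ z < p := by
  unfold rp at h
  rw [hp.prime.dvd_finsetProd_iff] at h
  obtain ⟨q, hq, hpq⟩ := h
  rw [Finset.mem_filter, Nat.mem_primeFactors] at hq
  have := hp.dvd_of_dvd_pow hpq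
  rw [Nat.prime_dvd_prime_iff_eq hp hq.1.1] at this
  subst this
  exact ⟨hq.1.2.1, not_le.mp hq.2⟩

theorem log_sp_le (z n : ℕ) :
    Real.log (sp z n) ≤ ∑ p ∈ (Finset.Ioc 0 z).filter Nat.Prime, (n.factorization p : ℝ) * Real.log p := by
  unfold sp
  push_cast
  rw [Real.log_prod (fun p hp => by
    rw [Finset.mem_filter, Nat.mem_primeFactors] at hp
    have := hp.1.1.pos
    positivity)]
  simp only [Real.log_pow]
  apply Finset.sum_le_sum_of_subset_of_nonneg
  · intro p hp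
    rw [Finset.mem_filter, Nat.mem_primeFactors] at hp
    rw [Finset.mem_filter, Finset.mem_Ioc]
    exact ⟨⟨hp.1.1.pos, hp.2⟩, hp.1.1⟩
  · intro p _ _
    exact mul_nonneg (Nat.cast_nonneg _) (Real.log_natCast_nonneg p)

theorem sum_factorization_le (B p : ℕ) (hp : p.Prime) :
    ∑ n ∈ Finset.Ioc 0 B, (n.factorization p : ℝ) / n ≤ (Real.log B + 1) / (p - 1) := by
  have hp1 : (1:ℝ) < p := by exact_mod_cast hp.one_lt
  have h1 : ∀ n ∈ Finset.Ioc 0 B, (n.factorization p : ℝ) / n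
      ≤ ∑ i ∈ Finset.Ico 1 B, if p ^ i ∣ n then (1:ℝ) / n else 0 := by
    intro n hn
    rw [Finset.mem_Ioc] at hn
    rw [← Finset.sum_filter, Finset.sum_const, nsmul_eq_mul, Nat.factorization_eq_card_pow_dvd n hp, mul_one_div]
    gcongr
    exact hn.2
  calc ∑ n ∈ Finset.Ioc 0 B, (n.factorization p : ℝ) / n
      ≤ ∑ n ∈ Finset.Ioc 0 B, ∑ i ∈ Finset.Ico 1 B, (if p ^ i ∣ n then (1:ℝ) / n else 0) := Finset.sum_le_sum h1
    _ = ∑ i ∈ Finset.Ico 1 B, ∑ n ∈ Finset.Ioc 0 B, (if p ^ i ∣ n then (1:ℝ) / n else 0) := Finset.sum_comm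
    _ ≤ ∑ i ∈ Finset.Ico 1 B, (1 / (p:ℝ)) ^ i * (Real.log B + 1) := by
        apply Finset.sum_le_sum
        intro i _
        rw [← Finset.sum_filter]
        refine (sum_inv_dvd B (p ^ i) (pow_pos hp.pos _)).trans ?_
        push_cast
        rw [one_div_pow]
        exact mul_le_mul_of_nonneg_left (harm_ub B) (by positivity)
    _ = (∑ i ∈ Finset.Ico 1 B, (1 / (p:ℝ)) ^ i) * (Real.log B + 1) := by rw [Finset.sum_mul]
    _ ≤ (1 / ((p:ℝ) - 1)) * (Real.log B + 1) := by
        have hB : 0 ≤ Real.log B + 1 := by have := Real.log_natCast_nonneg B; linarith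
        refine mul_le_mul_of_nonneg_right ?_ hB
        have hx0 : (0:ℝ) ≤ 1 / p := by positivity
        have hx1 : (1:ℝ) / p < 1 := by rw [div_lt_one (by linarith)]; exact hp1
        have hs := (hasSum_geometric_of_lt_one hx0 hx1)
        have hle := sum_le_hasSum (Finset.range B) (fun i _ => by positivity) hs
        have hsub : ∑ i ∈ Finset.Ico 1 B, (1 / (p:ℝ)) ^ i + 1 ≤ (1 - 1 / (p:ℝ))⁻¹ := by
          rcases Nat.eq_zero_or_pos B with hB0 | hB0
          · subst hB0
            simp only [Finset.Ico_eq_empty_of_le (Nat.zero_le 1), Finset.sum_empty, zero_add]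
            rw [one_le_inv₀ (by linarith)]
            linarith
          · rw [Finset.range_eq_Ico, Finset.sum_eq_sum_Ico_succ_bot hB0] at hle
            simp only [pow_zero, zero_add] at hle
            linarith
        have he : (1 - 1 / (p:ℝ))⁻¹ = 1 / ((p:ℝ) - 1) + 1 := by
          have : (p:ℝ) - 1 ≠ 0 := by linarith
          have h0 : (p:ℝ) ≠ 0 := by linarith
          rw [show (1:ℝ) - 1 / p = ((p:ℝ) - 1) / p by field_simp, inv_div]
          field_simp
          ring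
        linarith
    _ = (Real.log B + 1) / (p - 1) := by ring

theorem sum_log_sp (z B : ℕ) (hz : 1 ≤ z) :
    ∑ n ∈ Finset.Ioc 0 B, Real.log (sp z n) / n ≤ (2 * Real.log z + 4) * (Real.log B + 1) := by
  have hB : 0 ≤ Real.log B + 1 := by have := Real.log_natCast_nonneg B; linarith
  calc ∑ n ∈ Finset.Ioc 0 B, Real.log (sp z n) / n
      ≤ ∑ n ∈ Finset.Ioc 0 B, ∑ p ∈ (Finset.Ioc 0 z).filter Nat.Prime,
          Real.log p * ((n.factorization p : ℝ) / n) := by
        apply Finset.sum_le_sum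
        intro n hn
        calc Real.log (sp z n) / n
            ≤ (∑ p ∈ (Finset.Ioc 0 z).filter Nat.Prime, (n.factorization p : ℝ) * Real.log p) / n := by
              gcongr
              exact log_sp_le z n
          _ = _ := by
              rw [Finset.sum_div]
              apply Finset.sum_congr rfl
              intro p _
              ring
    _ = ∑ p ∈ (Finset.Ioc 0 z).filter Nat.Prime, Real.log p *
          ∑ n ∈ Finset.Ioc 0 B, ((n.factorization p : ℝ) / n) := by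
        rw [Finset.sum_comm]
        apply Finset.sum_congr rfl
        intro p _
        rw [Finset.mul_sum]
    _ ≤ ∑ p ∈ (Finset.Ioc 0 z).filter Nat.Prime, Real.log p * ((Real.log B + 1) / (p - 1)) := by
        apply Finset.sum_le_sum
        intro p hp
        rw [Finset.mem_filter] at hp
        exact mul_le_mul_of_nonneg_left (sum_factorization_le B p hp.2) (Real.log_natCast_nonneg p)
    _ = (∑ p ∈ (Finset.Ioc 0 z).filter Nat.Prime, Real.log p / (p - 1)) * (Real.log B + 1) := by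
        rw [Finset.sum_mul]
        apply Finset.sum_congr rfl
        intro p _
        ring
    _ ≤ _ := mul_le_mul_of_nonneg_right (mertens_ub' z hz) hB

/-- numbers with a given radical -/
theorem sum_inv_ker (r : ℕ) (hr : Squarefree r) (F : Finset ℕ)
    (hF : ∀ u ∈ F, u ≠ 0 ∧ u.primeFactors = r.primeFactors) :
    ∑ u ∈ F, (1:ℝ) / u ≤ 1 / (r.totient : ℝ) := by
  have hr0 : r ≠ 0 := hr.ne_zero
  have hrpos : 0 < r := Nat.pos_of_ne_zero hr0
  let f : ℕ →* ℝ := ⟨⟨fun n => ((n:ℝ))⁻¹, by simp⟩, by intro a b; simp [mul_comm]⟩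
  have hf : ∀ n : ℕ, f n = ((n:ℝ))⁻¹ := fun n => rfl
  have hlt : ∀ {p : ℕ}, p.Prime → ‖f p‖ < 1 := by
    intro p hp
    rw [hf, norm_inv, Real.norm_natCast]
    exact inv_lt_one_of_one_lt₀ (by exact_mod_cast hp.one_lt)
  obtain ⟨hsum, hhas⟩ := EulerProduct.summable_and_hasSum_factoredNumbers_prod_filter_prime_geometric (f := f) hlt
    r.primeFactors
  have hfil : r.primeFactors.filter Nat.Prime = r.primeFactors := by
    apply Finset.filter_true_of_mem
    intro p hp
    exact Nat.prime_of_mem_primeFactors hp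
  rw [hfil] at hhas
  -- every u in F is r * v
  have hdvd : ∀ u ∈ F, r ∣ u := by
    intro u hu
    obtain ⟨hu0, hup⟩ := hF u hu
    have h1 : ∏ p ∈ u.primeFactors, p ∣ u := Nat.prod_primeFactors_dvd u
    rw [hup, Nat.prod_primeFactors_of_squarefree hr] at h1
    exact h1
  have hmem : ∀ u ∈ F, u / r ∈ Nat.factoredNumbers r.primeFactors := by
    intro u hu
    obtain ⟨hu0, hup⟩ := hF u hu
    rw [Nat.mem_factoredNumbers]
    have hq : u / r ≠ 0 := by
      have := Nat.div_pos (Nat.le_of_dvd (Nat.pos_of_ne_zero hu0) (hdvd u hu)) hrpos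
      omega
    refine ⟨hq, ?_⟩
    intro p hp
    rw [← hup, Nat.mem_primeFactors]
    rw [Nat.mem_primeFactorsList hq] at hp
    exact ⟨hp.1, hp.2.trans (Nat.div_dvd_of_dvd (hdvd u hu)), hu0⟩
  -- sum over the subtype
  let F' : Finset (Nat.factoredNumbers r.primeFactors) :=
    F.attach.image (fun u => ⟨u.1 / r, hmem u.1 u.2⟩)
  have hle := sum_le_hasSum F' (fun v _ => by rw [hf]; positivity) hhas
  have hinj : Set.InjOn (fun u : {x // x ∈ F} => (⟨u.1 / r, hmem u.1 u.2⟩ : Nat.factoredNumbers r.primeFactors)) (F.attach : Set {x // x ∈ F}) := by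
    intro a _ b _ hab
    have h1 : a.1 / r = b.1 / r := congrArg Subtype.val hab
    apply Subtype.ext
    have h2 := Nat.div_mul_cancel (hdvd a.1 a.2)
    have h3 := Nat.div_mul_cancel (hdvd b.1 b.2)
    rw [← h2, h1, h3]
  have hsumF : ∑ v ∈ F', f (v : ℕ) = ∑ u ∈ F, (((u / r : ℕ) : ℝ))⁻¹ := by
    rw [Finset.sum_image hinj, ← Finset.sum_attach F]
    rfl
  rw [hsumF] at hle
  have hphi : (r.totient : ℝ) = r * ∏ p ∈ r.primeFactors, (1 - ((p:ℝ))⁻¹) := by
    have := Nat.totient_eq_mul_prod_factors r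
    have h2 := congrArg (fun x : ℚ => (x : ℝ)) this
    push_cast at h2
    exact h2
  have hprod : ∏ p ∈ r.primeFactors, (1 - f p)⁻¹ = r / (r.totient : ℝ) := by
    rw [hphi, Finset.prod_inv_distrib]
    have hrr : (r:ℝ) ≠ 0 := by exact_mod_cast hr0
    have hpp : ∏ p ∈ r.primeFactors, (1 - ((p:ℝ))⁻¹) ≠ 0 := by
      rw [Finset.prod_ne_zero_iff]
      intro p hp
      have hp1 : (1:ℝ) < p := by exact_mod_cast (Nat.prime_of_mem_primeFactors hp).one_lt
      have : ((p:ℝ))⁻¹ < 1 := inv_lt_one_of_one_lt₀ hp1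
      linarith
    simp only [hf]
    field_simp
  rw [hprod] at hle
  have hrr : (0:ℝ) < r := by exact_mod_cast hrpos
  calc ∑ u ∈ F, (1:ℝ) / u = (1 / r) * ∑ u ∈ F, (((u / r : ℕ) : ℝ))⁻¹ := by
        rw [Finset.mul_sum]
        apply Finset.sum_congr rfl
        intro u hu
        have h2 := Nat.mul_div_cancel' (hdvd u hu)
        have h3 : (u:ℝ) = r * ((u / r : ℕ) : ℝ) := by exact_mod_cast h2.symm
        rw [h3, one_div, one_div, mul_inv]
    _ ≤ (1 / r) * (r / (r.totient : ℝ)) := mul_le_mul_of_nonneg_left hle (by positivity)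
    _ = 1 / (r.totient : ℝ) := by field_simp

/-- The set of pairs (smooth part, rough part). -/
noncomputable def DD (z U0 A B : ℕ) : Finset (ℕ × ℕ) := by
  classical
  exact ((Finset.Ioc 0 U0) ×ˢ (Finset.Ioc 0 B)).filter (fun p =>
    Squarefree p.1 ∧ Squarefree p.2 ∧ (∀ q, q.Prime → q ∣ p.1 → q ≤ z) ∧ (∀ q, q.Prime → q ∣ p.2 → z < q) ∧
      A < p.2 ∧ p.1 * p.2 ≤ B)

theorem mem_DD {z U0 A B : ℕ} {p : ℕ × ℕ} : p ∈ DD z U0 A B ↔
    0 < p.1 ∧ p.1 ≤ U0 ∧ 0 < p.2 ∧ p.2 ≤ B ∧ Squarefree p.1 ∧ Squarefree p.2 ∧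
    (∀ q, q.Prime → q ∣ p.1 → q ≤ z) ∧ (∀ q, q.Prime → q ∣ p.2 → z < q) ∧
      A < p.2 ∧ p.1 * p.2 ≤ B := by
  classical
  unfold DD
  rw [Finset.mem_filter, Finset.mem_product, Finset.mem_Ioc, Finset.mem_Ioc]
  tauto

/-- the radical -/
noncomputable def rad (n : ℕ) : ℕ := ∏ p ∈ n.primeFactors, p

theorem rad_primeFactors (n : ℕ) : (rad n).primeFactors = n.primeFactors :=
  Nat.primeFactors_prod (fun _ hp => Nat.prime_of_mem_primeFactors hp)

theorem rad_dvd (n : ℕ) : rad n ∣ n := Nat.prod_primeFactors_dvd n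

theorem rad_squarefree (n : ℕ) : Squarefree (rad n) := by
  unfold rad
  apply Finset.squarefree_prod_of_pairwise_isCoprime
  · intro p hp q hq hpq
    have hp' := Nat.prime_of_mem_primeFactors hp
    have hq' := Nat.prime_of_mem_primeFactors hq
    exact Nat.coprime_iff_isRelPrime.mp ((Nat.coprime_primes hp' hq').mpr hpq)
  · intro p hp
    exact (Nat.prime_of_mem_primeFactors hp).squarefree

theorem sp_pos (z n : ℕ) : 0 < sp z n := by
  unfold sp
  apply Finset.prod_pos
  intro p hp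
  rw [Finset.mem_filter, Nat.mem_primeFactors] at hp
  exact pow_pos hp.1.1.pos _

theorem rp_pos (z n : ℕ) : 0 < rp z n := by
  unfold rp
  apply Finset.prod_pos
  intro p hp
  rw [Finset.mem_filter, Nat.mem_primeFactors] at hp
  exact pow_pos hp.1.1.pos _

/-- good integers -/
noncomputable def GG (z U0 A B : ℕ) : Finset ℕ := by
  classical
  exact (Finset.Ioc (A * U0) B).filter (fun n => sp z n ≤ U0 ∧ Squarefree (rp z n))

theorem sum_GG_le (z U0 A B : ℕ) :
    ∑ n ∈ GG z U0 A B, (1:ℝ) / n ≤ ∑ p ∈ DD z U0 A B, (1:ℝ) / ((p.1.totient : ℝ) * p.2.totient) := by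
  classical
  let g : ℕ → ℕ × ℕ := fun n => (rad (sp z n), rp z n)
  have hG : ∀ n ∈ GG z U0 A B, A * U0 < n ∧ n ≤ B ∧ sp z n ≤ U0 ∧ Squarefree (rp z n) := by
    intro n hn
    unfold GG at hn
    rw [Finset.mem_filter, Finset.mem_Ioc] at hn
    exact ⟨hn.1.1, hn.1.2, hn.2.1, hn.2.2⟩
  have hmaps : ∀ n ∈ GG z U0 A B, g n ∈ DD z U0 A B := by
    intro n hn
    obtain ⟨h1, h2, h3, h4⟩ := hG n hn
    have hn0 : n ≠ 0 := by omega
    have hmul := sp_mul_rp z n hn0
    have hsp := sp_pos z n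
    have hrp := rp_pos z n
    have hradle : rad (sp z n) ≤ sp z n := Nat.le_of_dvd hsp (rad_dvd _)
    have hradpos : 0 < rad (sp z n) := Nat.pos_of_ne_zero (rad_squarefree _).ne_zero
    rw [mem_DD]
    refine ⟨hradpos, hradle.trans h3, hrp, ?_, rad_squarefree _, h4, ?_, ?_, ?_, ?_⟩
    · calc rp z n ≤ sp z n * rp z n := Nat.le_mul_of_pos_left _ hsp
        _ = n := hmul
        _ ≤ B := h2
    · intro q hq hqd
      exact (prime_dvd_sp hq (hqd.trans (rad_dvd _))).2
    · intro q hq hqd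
      exact (prime_dvd_rp hq hqd).2
    · show A < rp z n
      by_contra hcon
      push Not at hcon
      have : sp z n * rp z n ≤ U0 * A := Nat.mul_le_mul h3 hcon
      rw [hmul, mul_comm] at this
      omega
    · calc rad (sp z n) * rp z n ≤ sp z n * rp z n := Nat.mul_le_mul_right _ hradle
        _ = n := hmul
        _ ≤ B := h2
  rw [← Finset.sum_fiberwise_of_maps_to hmaps]
  apply Finset.sum_le_sum
  intro p hp
  rw [mem_DD] at hp
  obtain ⟨p1, p2, p3, p4, p5, p6, p7, p8, p9, p10⟩ := hp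
  have hinj : Set.InjOn (sp z) (((GG z U0 A B).filter (fun n => g n = p) : Finset ℕ) : Set ℕ) := by
    intro a ha b hb hab
    rw [Finset.mem_coe, Finset.mem_filter] at ha hb
    have ha0 : a ≠ 0 := by have := (hG a ha.1).1; omega
    have hb0 : b ≠ 0 := by have := (hG b hb.1).1; omega
    have e1 := sp_mul_rp z a ha0
    have e2 := sp_mul_rp z b hb0
    have e3 : rp z a = p.2 := congrArg Prod.snd ha.2
    have e4 : rp z b = p.2 := congrArg Prod.snd hb.2
    rw [← e1, ← e2, hab, e3, e4]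
  have hs0 : (0:ℝ) < p.2 := by exact_mod_cast p3
  calc ∑ n ∈ (GG z U0 A B).filter (fun n => g n = p), (1:ℝ) / n
      = ∑ n ∈ (GG z U0 A B).filter (fun n => g n = p), (1 / (p.2:ℝ)) * ((1:ℝ) / (sp z n : ℕ)) := by
        apply Finset.sum_congr rfl
        intro n hn
        rw [Finset.mem_filter] at hn
        have hn0 : n ≠ 0 := by have := (hG n hn.1).1; omega
        have e1 := sp_mul_rp z n hn0
        have e3 : rp z n = p.2 := congrArg Prod.snd hn.2
        rw [e3] at e1
        have e4 : (n:ℝ) = (sp z n : ℝ) * p.2 := by exact_mod_cast e1.symm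
        rw [e4, one_div, one_div, one_div, mul_inv, mul_comm]
    _ = (1 / (p.2:ℝ)) * ∑ u ∈ ((GG z U0 A B).filter (fun n => g n = p)).image (sp z), (1:ℝ) / u := by
        rw [← Finset.mul_sum, Finset.sum_image hinj]
    _ ≤ (1 / (p.2:ℝ)) * (1 / (p.1.totient : ℝ)) := by
        apply mul_le_mul_of_nonneg_left _ (by positivity)
        apply sum_inv_ker p.1 p5
        intro u hu
        rw [Finset.mem_image] at hu
        obtain ⟨n, hn, rfl⟩ := hu
        rw [Finset.mem_filter] at hn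
        have e3 : rad (sp z n) = p.1 := congrArg Prod.fst hn.2
        refine ⟨(sp_pos z n).ne', ?_⟩
        rw [← e3, rad_primeFactors]
    _ ≤ 1 / ((p.1.totient : ℝ) * p.2.totient) := by
        have ht1 : (0:ℝ) < p.1.totient := by exact_mod_cast Nat.totient_pos.mpr p1
        have ht2 : (0:ℝ) < p.2.totient := by exact_mod_cast Nat.totient_pos.mpr p3
        have hle : (p.2.totient : ℝ) ≤ p.2 := by exact_mod_cast Nat.totient_le p.2
        rw [div_mul_div_comm, one_mul, mul_comm (p.1.totient : ℝ)]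
        gcongr

theorem sum_bad1 (z U0 A B : ℕ) (hz : 1 ≤ z) (hU : 2 ≤ U0) :
    ∑ n ∈ (Finset.Ioc (A * U0) B).filter (fun n => U0 < sp z n), (1:ℝ) / n
      ≤ (2 * Real.log z + 4) / Real.log U0 * (Real.log B + 1) := by
  have hlU : 0 < Real.log U0 := Real.log_pos (by exact_mod_cast hU)
  have h := sum_log_sp z B hz
  calc ∑ n ∈ (Finset.Ioc (A * U0) B).filter (fun n => U0 < sp z n), (1:ℝ) / n
      ≤ ∑ n ∈ (Finset.Ioc (A * U0) B).filter (fun n => U0 < sp z n), Real.log (sp z n) / n / Real.log U0 := by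
        apply Finset.sum_le_sum
        intro n hn
        rw [Finset.mem_filter] at hn
        have h1 : Real.log U0 ≤ Real.log (sp z n) :=
          Real.log_le_log (by positivity) (by exact_mod_cast hn.2.le)
        rw [le_div_iff₀ hlU, div_mul_eq_mul_div, one_mul]
        gcongr
    _ ≤ ∑ n ∈ Finset.Ioc 0 B, Real.log (sp z n) / n / Real.log U0 := by
        apply Finset.sum_le_sum_of_subset_of_nonneg
        · intro n hn
          rw [Finset.mem_filter, Finset.mem_Ioc] at hn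
          rw [Finset.mem_Ioc]
          exact ⟨by omega, hn.1.2⟩
        · intro n _ _
          have := Real.log_natCast_nonneg (sp z n)
          positivity
    _ = (∑ n ∈ Finset.Ioc 0 B, Real.log (sp z n) / n) / Real.log U0 := by rw [Finset.sum_div]
    _ ≤ (2 * Real.log z + 4) * (Real.log B + 1) / Real.log U0 := by gcongr
    _ = _ := by ring

theorem sum_bad2 (z U0 A B : ℕ) :
    ∑ n ∈ (Finset.Ioc (A * U0) B).filter (fun n => ¬ Squarefree (rp z n)), (1:ℝ) / n
      ≤ 2 / ((z:ℝ) + 1) * (Real.log B + 1) := by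
  have hB : 0 ≤ Real.log B + 1 := by have := Real.log_natCast_nonneg B; linarith
  have key : ∀ n ∈ (Finset.Ioc (A * U0) B).filter (fun n => ¬ Squarefree (rp z n)),
      (1:ℝ) / n ≤ ∑ p ∈ Finset.Ioo z (B + 1), if p ^ 2 ∣ n then (1:ℝ) / n else 0 := by
    intro n hn
    rw [Finset.mem_filter, Finset.mem_Ioc] at hn
    obtain ⟨⟨h1, h2⟩, h3⟩ := hn
    have hn0 : n ≠ 0 := by omega
    rw [Nat.squarefree_iff_prime_squarefree] at h3
    push Not at h3
    obtain ⟨p, hp, hpp⟩ := h3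
    have hdr : p ∣ rp z n := (dvd_mul_right p p).trans hpp
    have hzp := (prime_dvd_rp hp hdr).2
    have hdn : p ^ 2 ∣ n := by
      rw [sq]
      have := sp_mul_rp z n hn0
      rw [← this]
      exact hpp.trans (dvd_mul_left _ _)
    have hpB : p < B + 1 := by
      have hpn : p ≤ n := Nat.le_of_dvd (Nat.pos_of_ne_zero hn0) ((dvd_pow_self p two_ne_zero).trans hdn)
      omega
    have hmem : p ∈ Finset.Ioo z (B + 1) := Finset.mem_Ioo.mpr ⟨hzp, hpB⟩
    have := Finset.single_le_sum (f := fun p => if p ^ 2 ∣ n then (1:ℝ) / n else 0)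
      (fun q _ => by split_ifs <;> positivity) hmem
    simp only [hdn, if_true] at this
    exact this
  calc ∑ n ∈ (Finset.Ioc (A * U0) B).filter (fun n => ¬ Squarefree (rp z n)), (1:ℝ) / n
      ≤ ∑ n ∈ (Finset.Ioc (A * U0) B).filter (fun n => ¬ Squarefree (rp z n)),
          ∑ p ∈ Finset.Ioo z (B + 1), (if p ^ 2 ∣ n then (1:ℝ) / n else 0) := Finset.sum_le_sum key
    _ ≤ ∑ n ∈ Finset.Ioc 0 B, ∑ p ∈ Finset.Ioo z (B + 1), (if p ^ 2 ∣ n then (1:ℝ) / n else 0) := by
        apply Finset.sum_le_sum_of_subset_of_nonneg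
        · intro n hn
          rw [Finset.mem_filter, Finset.mem_Ioc] at hn
          rw [Finset.mem_Ioc]
          exact ⟨by omega, hn.1.2⟩
        · intro n _ _
          apply Finset.sum_nonneg
          intro p _
          split_ifs <;> positivity
    _ = ∑ p ∈ Finset.Ioo z (B + 1), ∑ n ∈ Finset.Ioc 0 B, (if p ^ 2 ∣ n then (1:ℝ) / n else 0) := Finset.sum_comm
    _ ≤ ∑ p ∈ Finset.Ioo z (B + 1), (((p:ℝ)) ^ 2)⁻¹ * (Real.log B + 1) := by
        apply Finset.sum_le_sum
        intro p hp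
        rw [Finset.mem_Ioo] at hp
        rw [← Finset.sum_filter]
        refine (sum_inv_dvd B (p ^ 2) (pow_pos (by omega) _)).trans ?_
        push_cast
        rw [one_div]
        exact mul_le_mul_of_nonneg_left (harm_ub B) (by positivity)
    _ = (∑ p ∈ Finset.Ioo z (B + 1), (((p:ℝ)) ^ 2)⁻¹) * (Real.log B + 1) := by rw [Finset.sum_mul]
    _ ≤ _ := mul_le_mul_of_nonneg_right (sum_Ioo_inv_sq_le z (B + 1)) hB

/-- **The sum over pairs (smooth part, rough part).** -/
theorem sum_DD (z U0 A B : ℕ) (hz : 1 ≤ z) (hU : 2 ≤ U0) (hA : 1 ≤ A) (hAB : A * U0 ≤ B) :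
    Real.log B - Real.log (A * U0) - 1 - (2 * Real.log z + 4) / Real.log U0 * (Real.log B + 1)
        - 2 / ((z:ℝ) + 1) * (Real.log B + 1)
      ≤ ∑ p ∈ DD z U0 A B, (1:ℝ) / ((p.1.totient : ℝ) * p.2.totient) := by
  classical
  have h1 := sum_GG_le z U0 A B
  have h2 := sum_bad1 z U0 A B hz hU
  have h3 := sum_bad2 z U0 A B
  have h4 := harm_lb (A * U0) B (Nat.mul_pos hA (by omega)) hAB
  have h5 : ∑ n ∈ Finset.Ioc (A * U0) B, (1:ℝ) / n ≤ ∑ n ∈ GG z U0 A B, (1:ℝ) / n
      + ∑ n ∈ (Finset.Ioc (A * U0) B).filter (fun n => U0 < sp z n), (1:ℝ) / n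
      + ∑ n ∈ (Finset.Ioc (A * U0) B).filter (fun n => ¬ Squarefree (rp z n)), (1:ℝ) / n := by
    unfold GG
    rw [Finset.sum_filter, Finset.sum_filter, Finset.sum_filter, ← Finset.sum_add_distrib, ← Finset.sum_add_distrib]
    apply Finset.sum_le_sum
    intro n _
    have hn0 : (0:ℝ) ≤ 1 / n := by positivity
    by_cases c1 : sp z n ≤ U0
    · by_cases c2 : Squarefree (rp z n)
      · simp [c1, c2, not_lt.mpr c1]
      · simp [c1, c2, not_lt.mpr c1]
    · by_cases c2 : Squarefree (rp z n)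
      · simp [c1, c2, not_le.mp c1]
      · simp [c1, c2, not_le.mp c1]
  push_cast at h4
  linarith

end Pool.Agent.Lib.MP_00e05b_nt
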