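import Mathlib
import Pool.Agent.Lib.MP_00e05b_nt.QSum

/-!
# The moduli
-/

open Finset

namespace Pool.Agent.Lib.MP_00e05b_nt

/-- the rough parts attached to `r` -/
noncomputable def MS (z U0 A B r : ℕ) : Finset ℕ := by
  classical
  exact (Finset.Ioc 0 B).filter (fun s => (r, s) ∈ DD z U0 A B)

lemma mem_MS {z U0 A B r s : ℕ} : s ∈ MS z U0 A B r ↔ (r, s) ∈ DD z U0 A B := by
  classical
  unfold MS
  rw [mem_filter, mem_Ioc]
  constructor
  · exact fun h => h.2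
  · intro h
    have h' := h
    rw [mem_DD] at h'
    exact ⟨⟨h'.2.2.1, h'.2.2.2.1⟩, h⟩

lemma DD_coprime {z U0 A B : ℕ} {r s : ℕ} (h : (r, s) ∈ DD z U0 A B) : r.Coprime s := by
  rw [mem_DD] at h
  obtain ⟨_, _, _, _, _, _, h7, h8, _, _⟩ := h
  by_contra hc
  obtain ⟨p, hp, h1, h2⟩ := Nat.Prime.not_coprime_iff_dvd.1 hc
  have := h7 p hp h1
  have := h8 p hp h2
  omega

end Pool.Agent.Lib.MP_00e05b_nt
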