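import Mathlib
import Pool.Agent.Lib.MP_00e05b_nt.Approx
import Pool.Agent.Lib.MP_00e05b_nt.Zeros

/-!
# Smoothed prime number theorem under the Riemann hypothesis
-/

open Complex Set Filter Topology MeasureTheory
open scoped ContDiff

namespace Pool.Agent.Lib.MP_00e05b_nt

theorem psi_RH (hRH : RiemannHypothesis) {W : ℝ → ℝ} (hW : ContDiff ℝ ∞ W) (h0 : ∀ u, 0 ≤ W u)
    (h1 : ∀ u, W u ≤ 1) (hs : ∀ u, 3 / 4 ≤ |u| → W u = 0) :
    ∃ C : ℝ, 0 ≤ C ∧ ∀ y : ℝ, 2 ≤ y →
      ‖(∑' n : ℕ, ((ArithmeticFunction.vonMangoldt n : ℝ) : ℂ) *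
        ((Real.exp (-(y / 2)) * W (Real.log n - y) : ℝ) : ℂ)) -
        ((Real.exp (y / 2) * ∫ v in (-1 : ℝ)..1, W v * Real.exp v : ℝ) : ℂ)‖ ≤ C := by
  set Wt : ℝ → ℝ := fun t => W t * Real.exp (1 / 2 * t) with hWt
  have sWt : ContDiff ℝ ∞ Wt := hW.mul (exp_half_smooth _)
  have zWt : ∀ u, 3 / 4 ≤ |u| → Wt u = 0 := fun u hu => by simp only [hWt, hs u hu, zero_mul]
  obtain ⟨Kt, bt⟩ := bump_of_smooth sWt zWt
  have hKt : 0 ≤ Kt := (abs_nonneg _).trans (bt.b0 0)
  obtain ⟨Cx, hCx⟩ := xi_growth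
  have hsum := summable_order hCx
  set S0 : ℝ := ∑' a : ℂ, (analyticOrderNatAt xi a : ℝ) / (1 + ‖a‖) ^ 3 with hS0
  have hS0' : 0 ≤ S0 := tsum_nonneg fun a => by positivity
  refine ⟨6656 * Kt * S0 + 2, by positivity, ?_⟩
  intro y hy
  have ey : (0 : ℝ) < Real.exp (y / 2) := Real.exp_pos _
  set g : ℝ → ℂ := fun u => (W (u - y) : ℂ) * ph 0 0 u with hg
  have hgT : Test g := test_g hW hs hy 0
  have hEF := explicit_formula hgT
  have hval : ∀ γ : ℝ, ∫ u, g u * Complex.exp ((1 / 2 + γ * I) * u) =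
      Real.exp (y / 2) * ∫ u in (y - 1)..(y + 1), (Wt (u - y) : ℂ) * ph γ 0 u := by
    intro γ
    rw [← intervalIntegral.integral_const_mul]
    have e1 : ∀ u : ℝ, g u * Complex.exp ((1 / 2 + γ * I) * u) =
        (W (u - y) : ℂ) * (Real.exp (y / 2) * (Real.exp (1 / 2 * (u - y)) * ph γ 0 u)) := by
      intro u
      simp only [hg]
      rw [mul_assoc, ph_mul_exp 0 y γ u]
    simp_rw [e1]
    rw [integral_local hs y]
    apply intervalIntegral.integral_congr
    intro u _
    simp only [hWt]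
    push_cast
    ring
  have hbd : ∀ a : ℂ, ‖(mx a : ℂ) * ∫ u, g u * Complex.exp (a * u)‖ ≤
      Real.exp (y / 2) * (6656 * Kt) * ((analyticOrderNatAt xi a : ℝ) / (1 + ‖a‖) ^ 3) := by
    intro a
    by_cases hxa : xi a = 0
    swap
    · rw [mx_eq_zero hxa]
      simp only [Nat.cast_zero, zero_mul, norm_zero]
      positivity
    have haeq := re_of_RH hRH hxa
    set γ : ℝ := a.im with hγ
    have hfa : ∫ u, g u * Complex.exp (a * u) = Real.exp (y / 2) *
        ∫ u in (y - 1)..(y + 1), (Wt (u - y) : ℂ) * ph γ 0 u := by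
      rw [← hval γ]
      congr 1
      ext u
      rw [← haeq]
    have hna : 1 + ‖a‖ ≤ 3 / 2 + |γ| := by
      have : ‖a‖ ≤ 1 / 2 + |γ| := by
        rw [haeq]
        calc ‖(1 / 2 + γ * I : ℂ)‖ ≤ ‖(1 / 2 : ℂ)‖ + ‖(γ : ℂ) * I‖ := norm_add_le _ _
          _ = 1 / 2 + |γ| := by
            rw [norm_mul, Complex.norm_I, mul_one, Complex.norm_real, Real.norm_eq_abs]
            norm_num
      linarith
    have hosc : ‖∫ u in (y - 1)..(y + 1), (Wt (u - y) : ℂ) * ph γ 0 u‖ ≤
        6656 * Kt / (1 + ‖a‖) ^ 3 := by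
      by_cases hγ2 : 1 / 2 ≤ |γ|
      · have h2 := osc_bound bt y γ 0 ((1 + ‖a‖) / 4) (by positivity) (by
          intro u _
          rw [zero_mul, sub_zero, abs_zero]
          constructor
          · linarith
          · positivity)
        refine h2.trans (le_of_eq ?_)
        have : (1 + ‖a‖) ≠ 0 := by positivity
        field_simp
        ring
      · push Not at hγ2
        have hb : ∀ u ∈ uIoc (y - 1) (y + 1), ‖(Wt (u - y) : ℂ) * ph γ 0 u‖ ≤ Kt := by
          intro u _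
          rw [norm_mul, norm_ph, mul_one, Complex.norm_real]
          exact bt.b0 _
        have h2 := intervalIntegral.norm_integral_le_of_norm_le_const hb
        rw [show y + 1 - (y - 1) = 2 by ring, abs_of_pos (by norm_num : (0 : ℝ) < 2)] at h2
        refine h2.trans ?_
        rw [le_div_iff₀ (by positivity)]
        have h3 : (1 + ‖a‖) ^ 3 ≤ 2 ^ 3 := by
          gcongr
          linarith
        nlinarith
    rw [hfa, norm_mul, norm_mul, Complex.norm_natCast, Complex.norm_real, Real.norm_eq_abs,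
      abs_of_pos ey]
    calc (mx a : ℝ) * (Real.exp (y / 2) * ‖∫ u in (y - 1)..(y + 1), (Wt (u - y) : ℂ) * ph γ 0 u‖) ≤
        (mx a : ℝ) * (Real.exp (y / 2) * (6656 * Kt / (1 + ‖a‖) ^ 3)) := by gcongr
      _ = Real.exp (y / 2) * (6656 * Kt) * ((analyticOrderNatAt xi a : ℝ) / (1 + ‖a‖) ^ 3) := by
        rw [mx]
        ring
  have htot := hEF.norm_le_of_bounded (hsum.hasSum.mul_left _) hbd
  rw [← hS0] at htot
  -- the main term
  have hmain : ∫ u, g u * Complex.exp u =
      ((Real.exp y * ∫ v in (-1 : ℝ)..1, W v * Real.exp v : ℝ) : ℂ) := by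
    have e1 : ∀ u : ℝ, g u * Complex.exp u = (W (u - y) : ℂ) * (Real.exp y * Real.exp (u - y)) := by
      intro u
      simp only [hg]
      have e2 : ph 0 0 u = 1 := by unfold ph; simp
      rw [e2, mul_one]
      push_cast
      rw [← Complex.exp_add]
      congr 2
      ring
    simp_rw [e1]
    rw [integral_local hs y]
    have e2 : ∫ u in (y - 1)..(y + 1), (W (u - y) : ℂ) * (Real.exp y * Real.exp (u - y)) =
        ∫ v in (-1 : ℝ)..1, (W v : ℂ) * (Real.exp y * Real.exp v) := by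
      have := intervalIntegral.integral_comp_sub_right (a := y - 1) (b := y + 1)
        (fun v : ℝ => (W v : ℂ) * (Real.exp y * Real.exp v)) y
      rw [show y - 1 - y = -1 by ring, show y + 1 - y = 1 by ring] at this
      rw [← this]
    rw [e2, Complex.ofReal_mul, ← intervalIntegral.integral_ofReal, ← intervalIntegral.integral_const_mul]
    apply intervalIntegral.integral_congr
    intro v _
    simp only
    push_cast
    ring
  have hrt : ‖∫ u, g u * (rt u : ℂ)‖ ≤ 2 * Real.exp (y / 2) := by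
    have e1 : ∀ u : ℝ, g u * (rt u : ℂ) = (W (u - y) : ℂ) * (ph 0 0 u * rt u) := by
      intro u; simp only [hg]; ring
    simp_rw [e1]
    rw [integral_local hs y]
    have hb : ∀ u ∈ uIoc (y - 1) (y + 1), ‖(W (u - y) : ℂ) * (ph 0 0 u * rt u)‖ ≤ 1 := by
      intro u hu
      rw [uIoc_of_le (by linarith)] at hu
      rw [norm_mul, norm_mul, norm_ph, one_mul, Complex.norm_real, Complex.norm_real,
        Real.norm_eq_abs, Real.norm_eq_abs, abs_of_nonneg (h0 _)]
      have hu1 : 1 ≤ u := by linarith [hu.1]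
      have hex : Real.exp (-(2 * u)) ≤ 1 / 2 := by
        have : Real.exp (-(2 * u)) ≤ Real.exp (-1) := Real.exp_le_exp.2 (by linarith)
        have h3 : Real.exp (-1) ≤ 1 / 2 := by
          rw [Real.exp_neg, ← one_div]
          apply one_div_le_one_div_of_le (by norm_num)
          have := Real.add_one_le_exp (1 : ℝ)
          linarith
        linarith
      have hexp0 : 0 < Real.exp (-(2 * u)) := Real.exp_pos _
      have hrt1 : |rt u| ≤ 1 := by
        unfold rt
        rw [abs_of_nonneg (div_nonneg hexp0.le (by linarith)), div_le_one (by linarith)]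
        linarith
      calc W (u - y) * |rt u| ≤ 1 * 1 := by
            gcongr
            · exact h1 _
        _ = 1 := one_mul _
    have := intervalIntegral.norm_integral_le_of_norm_le_const hb
    rw [show y + 1 - (y - 1) = 2 by ring, abs_of_pos (by norm_num : (0 : ℝ) < 2), one_mul] at this
    have h2 : 1 ≤ Real.exp (y / 2) := Real.one_le_exp (by linarith)
    linarith
  set Pr : ℂ := ∑' n : ℕ, ((ArithmeticFunction.vonMangoldt n : ℝ) : ℂ) *
        ((Real.exp (-(y / 2)) * W (Real.log n - y) : ℝ) : ℂ) with hPr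
  have hPrg : ∑' n : ℕ, ((ArithmeticFunction.vonMangoldt n : ℝ) : ℂ) * g (Real.log n) =
      Real.exp (y / 2) * Pr := by
    rw [hPr, ← tsum_mul_left]
    congr 1
    ext n
    simp only [hg]
    have e2 : ph 0 0 (Real.log n) = 1 := by unfold ph; simp
    have : Real.exp (y / 2) * Real.exp (-(y / 2)) = 1 := by rw [← Real.exp_add]; simp
    have h2 : ((Real.exp (y / 2) : ℝ) : ℂ) * ((Real.exp (-(y / 2)) : ℝ) : ℂ) = 1 := by
      rw [← Complex.ofReal_mul, this, Complex.ofReal_one]
    rw [e2, Complex.ofReal_mul]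
    linear_combination (-((ArithmeticFunction.vonMangoldt n : ℝ) : ℂ) * (W (Real.log n - y) : ℂ)) * h2
  rw [hmain, hPrg] at htot
  set Mn : ℝ := ∫ v in (-1 : ℝ)..1, W v * Real.exp v with hMn
  have hEy : Real.exp y = Real.exp (y / 2) * Real.exp (y / 2) := by
    rw [← Real.exp_add]; congr 1; ring
  have hkey : (Real.exp (y / 2) : ℂ) * (Pr - ((Real.exp (y / 2) * Mn : ℝ) : ℂ)) =
      -(((Real.exp y * Mn : ℝ) : ℂ) - (∫ u, g u * (rt u : ℂ)) - Real.exp (y / 2) * Pr) -
        ∫ u, g u * (rt u : ℂ) := by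
    rw [hEy]
    push_cast
    ring
  have hfin : Real.exp (y / 2) * ‖Pr - ((Real.exp (y / 2) * Mn : ℝ) : ℂ)‖ ≤
      Real.exp (y / 2) * (6656 * Kt * S0 + 2) := by
    have e1 : Real.exp (y / 2) * ‖Pr - ((Real.exp (y / 2) * Mn : ℝ) : ℂ)‖ =
        ‖(Real.exp (y / 2) : ℂ) * (Pr - ((Real.exp (y / 2) * Mn : ℝ) : ℂ))‖ := by
      rw [norm_mul]
      congr 1
      rw [Complex.norm_real, Real.norm_eq_abs, abs_of_pos ey]
    rw [e1, hkey]
    refine (norm_sub_le _ _).trans ?_
    rw [norm_neg]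
    linarith
  exact le_of_mul_le_mul_left hfin ey

end Pool.Agent.Lib.MP_00e05b_nt
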