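import Mathlib
import Pool.Agent.Lib.MP_00e05b_nt.BumpF
import Pool.Agent.Lib.MP_2a816b_nt.Sums

/-!
# The weight `V(n) = e^{-y/2} W(log n - y)`
-/

open Finset Real Filter
open scoped ContDiff

namespace Pool.Agent.Lib.MP_00e05b_nt

open Pool.Agent.Lib.MP_2a816b_nt

lemma ev_exp (n : ℕ) (C a b : ℝ) (hab : a < b) :
    ∀ᶠ y : ℝ in atTop, C * y ^ n * Real.exp (a * y) ≤ Real.exp (b * y) := by
  have h1 := isLittleO_pow_exp_pos_mul_atTop (k := n) (b := b - a) (by linarith)
  have h2 := h1.bound (c := 1 / (|C| + 1)) (by positivity)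
  filter_upwards [h2, eventually_ge_atTop 0] with y hy hy0
  rw [norm_eq_abs, norm_eq_abs, abs_of_nonneg (by positivity : (0 : ℝ) ≤ y ^ n), Real.abs_exp] at hy
  have h3 : C * y ^ n ≤ Real.exp ((b - a) * y) := by
    have e1 : C * y ^ n ≤ (|C| + 1) * y ^ n := by
      gcongr
      linarith [le_abs_self C]
    have e2 : (|C| + 1) * y ^ n ≤ (|C| + 1) * (1 / (|C| + 1) * Real.exp ((b - a) * y)) := by gcongr
    have e3 : (|C| + 1) * (1 / (|C| + 1) * Real.exp ((b - a) * y)) = Real.exp ((b - a) * y) := by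
      field_simp
    linarith
  calc C * y ^ n * Real.exp (a * y) ≤ Real.exp ((b - a) * y) * Real.exp (a * y) := by gcongr
    _ = Real.exp (b * y) := by rw [← Real.exp_add]; congr 1; ring

lemma W_lip {W : ℝ → ℝ} {K : ℝ} (hd : ∀ u, HasDerivAt W (deriv W u) u) (hK : ∀ u, |deriv W u| ≤ K)
    (a b : ℝ) : |W a - W b| ≤ K * |a - b| := by
  have h := Convex.norm_image_sub_le_of_norm_hasDerivWithin_le (f := W) (f' := deriv W) (C := K)
    (s := Set.univ) (x := b) (y := a) (fun x _ => (hd x).hasDerivWithinAt) (fun x _ => hK x)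
    convex_univ (Set.mem_univ _) (Set.mem_univ _)
  exact h

/-- the weight -/
noncomputable def Vw (W : ℝ → ℝ) (y : ℝ) (n : ℕ) : ℝ := Real.exp (-(y / 2)) * W (Real.log n - y)

section
variable {W : ℝ → ℝ} (h0 : ∀ u, 0 ≤ W u) (h1 : ∀ u, W u ≤ 1)
  (hh : ∀ u, |u| ≤ 1 / 2 → W u = 1) (hs : ∀ u, 3 / 4 ≤ |u| → W u = 0)

include h0 in
lemma Vw_nonneg (y : ℝ) (n : ℕ) : 0 ≤ Vw W y n := mul_nonneg (Real.exp_pos _).le (h0 _)

include h1 in
lemma Vw_le (y : ℝ) (n : ℕ) : Vw W y n ≤ Real.exp (-(y / 2)) := by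
  unfold Vw
  have := h1 (Real.log n - y)
  have h2 := Real.exp_pos (-(y / 2))
  nlinarith

include hs in
lemma Vw_large (y : ℝ) (n : ℕ) (hn : ⌊Real.exp (y + 1)⌋₊ < n) : Vw W y n = 0 := by
  unfold Vw
  have h3 : Real.exp (y + 1) < n := (Nat.floor_lt (Real.exp_pos _).le).1 hn
  have h4 : y + 1 < Real.log n := by
    rw [Real.lt_log_iff_exp_lt ((Real.exp_pos _).trans h3)]
    exact h3
  rw [hs _ (by rw [abs_of_pos (by linarith)]; linarith), mul_zero]

include hs in
lemma Vw_small (y : ℝ) (n : ℕ) (hn0 : 0 < n) (hn : n ≤ ⌊Real.exp (y - 1)⌋₊) : Vw W y n = 0 := by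
  unfold Vw
  have hn' : (0 : ℝ) < n := by exact_mod_cast hn0
  have h3 : (n : ℝ) ≤ Real.exp (y - 1) := (Nat.le_floor_iff (Real.exp_pos _).le).1 hn
  have h4 : Real.log n ≤ y - 1 := by
    rw [Real.log_le_iff_le_exp hn']
    exact h3
  rw [hs _ (by rw [abs_of_neg (by linarith)]; linarith), mul_zero]

include hs in
lemma Vw_diff {K : ℝ} (hd : ∀ u, HasDerivAt W (deriv W u) u) (hK : ∀ u, |deriv W u| ≤ K)
    (y : ℝ) (hy : 2 ≤ y) (M : ℕ) (hM : 0 < M) :
    |Vw W y M - Vw W y (M + 1)| ≤ 6 * K * Real.exp (-(y / 2)) * Real.exp (-y) := by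
  have hK0 : 0 ≤ K := (abs_nonneg _).trans (hK 0)
  by_cases hM0 : M + 1 ≤ ⌊Real.exp (y - 1)⌋₊
  · rw [Vw_small hs y M hM (by omega), Vw_small hs y (M + 1) (by omega) hM0, sub_zero, abs_zero]
    positivity
  · push Not at hM0
    have hM' : (0 : ℝ) < M := by exact_mod_cast hM
    have h3 : Real.exp (y - 1) < (M : ℝ) + 1 := by
      have := (Nat.floor_lt (Real.exp_pos _).le).1 hM0
      exact_mod_cast this
    have h2 : 2 ≤ Real.exp (y - 1) := by
      have := Real.add_one_le_exp (y - 1)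
      linarith
    have h4 : Real.exp (y - 1) / 2 ≤ M := by linarith
    unfold Vw
    have e1 : Real.exp (-(y / 2)) * W (Real.log M - y) -
        Real.exp (-(y / 2)) * W (Real.log ((M + 1 : ℕ) : ℝ) - y) =
        Real.exp (-(y / 2)) * (W (Real.log M - y) - W (Real.log ((M + 1 : ℕ) : ℝ) - y)) := by ring
    rw [e1, abs_mul, Real.abs_exp]
    have h5 := W_lip hd hK (Real.log M - y) (Real.log ((M + 1 : ℕ) : ℝ) - y)
    have h6 : |Real.log M - y - (Real.log ((M + 1 : ℕ) : ℝ) - y)| ≤ 1 / M := by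
      rw [show Real.log M - y - (Real.log ((M + 1 : ℕ) : ℝ) - y) =
        -(Real.log ((M + 1 : ℕ) : ℝ) - Real.log M) by ring, abs_neg]
      have h7 : Real.log ((M + 1 : ℕ) : ℝ) - Real.log M = Real.log (1 + 1 / M) := by
        rw [← Real.log_div (by positivity) (by positivity)]
        congr 1
        push_cast
        field_simp
      rw [h7, abs_of_nonneg (Real.log_nonneg (by
        have : (0 : ℝ) < 1 / M := by positivity
        linarith))]
      have := Real.log_le_sub_one_of_pos (x := 1 + 1 / (M : ℝ)) (by positivity)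
      linarith
    have h8 : 1 / (M : ℝ) ≤ 6 * Real.exp (-y) := by
      have h9 : 1 / (M : ℝ) ≤ 1 / (Real.exp (y - 1) / 2) :=
        one_div_le_one_div_of_le (by positivity) h4
      have h10 : 1 / (Real.exp (y - 1) / 2) = 2 * Real.exp 1 * Real.exp (-y) := by
        rw [Real.exp_sub, Real.exp_neg]
        field_simp
      have h11 := Real.exp_one_lt_d9
      have h12 := Real.exp_pos (-y)
      rw [h10] at h9
      nlinarith
    calc Real.exp (-(y / 2)) * |W (Real.log M - y) - W (Real.log ((M + 1 : ℕ) : ℝ) - y)| ≤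
        Real.exp (-(y / 2)) * (K * (6 * Real.exp (-y))) := by
          gcongr
          refine h5.trans ?_
          gcongr
          exact h6.trans h8
      _ = _ := by ring

include h0 hh in
lemma Vw_sum : ∀ᶠ y : ℝ in atTop,
    Real.exp (y / 2) / 10 ≤ ∑ n ∈ Ioc 0 ⌊Real.exp (y + 1)⌋₊, Vw W y n * vM n := by
  classical
  filter_upwards [ev_exp 1 100 (1 / 2) 1 (by norm_num), eventually_ge_atTop 20] with y hye hy
  have hexp : ∀ t : ℝ, 0 < Real.exp t := Real.exp_pos
  have hfl : ⌊Real.exp (y - 1 / 2)⌋₊ ≤ ⌊Real.exp (y + 1 / 2)⌋₊ :=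
    Nat.floor_le_floor (Real.exp_le_exp.2 (by linarith))
  have hsub : Ioc ⌊Real.exp (y - 1 / 2)⌋₊ ⌊Real.exp (y + 1 / 2)⌋₊ ⊆ Ioc 0 ⌊Real.exp (y + 1)⌋₊ := by
    intro n hn
    rw [mem_Ioc] at hn ⊢
    refine ⟨by omega, hn.2.trans (Nat.floor_le_floor (Real.exp_le_exp.2 (by linarith)))⟩
  have h3 : ∑ n ∈ Ioc ⌊Real.exp (y - 1 / 2)⌋₊ ⌊Real.exp (y + 1 / 2)⌋₊, Real.exp (-(y / 2)) * vM n ≤
      ∑ n ∈ Ioc 0 ⌊Real.exp (y + 1)⌋₊, Vw W y n * vM n := by
    calc _ = ∑ n ∈ Ioc ⌊Real.exp (y - 1 / 2)⌋₊ ⌊Real.exp (y + 1 / 2)⌋₊, Vw W y n * vM n := by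
          apply sum_congr rfl; intro n hn
          rw [mem_Ioc] at hn
          have hn0 : 0 < n := by omega
          have hn' : (0 : ℝ) < n := by exact_mod_cast hn0
          have h4 : Real.exp (y - 1 / 2) < n := (Nat.floor_lt (hexp _).le).1 hn.1
          have h5 : (n : ℝ) ≤ Real.exp (y + 1 / 2) := (Nat.le_floor_iff (hexp _).le).1 hn.2
          have h6 : y - 1 / 2 < Real.log n := by rw [Real.lt_log_iff_exp_lt hn']; exact h4
          have h7 : Real.log n ≤ y + 1 / 2 := by rw [Real.log_le_iff_le_exp hn']; exact h5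
          unfold Vw
          rw [hh (Real.log n - y) (by rw [abs_le]; constructor <;> linarith), mul_one]
      _ ≤ _ := sum_le_sum_of_subset_of_nonneg hsub
          (fun n _ _ => mul_nonneg (Vw_nonneg h0 y n) (vM_nonneg n))
  refine le_trans ?_ h3
  rw [← mul_sum]
  have h4 : ∑ n ∈ Ioc ⌊Real.exp (y - 1 / 2)⌋₊ ⌊Real.exp (y + 1 / 2)⌋₊, vM n =
      Chebyshev.psi (Real.exp (y + 1 / 2)) - Chebyshev.psi (Real.exp (y - 1 / 2)) := by
    unfold Chebyshev.psi
    rw [← Finset.sum_Ioc_consecutive (fun n => ArithmeticFunction.vonMangoldt n) (Nat.zero_le _) hfl]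
    simp only [add_sub_cancel_left]
    rfl
  rw [h4]
  have h5 := Chebyshev.psi_ge' (x := Real.exp (y + 1 / 2)) (hexp _).le
  have h6 := Chebyshev.psi_le (x := Real.exp (y - 1 / 2)) (Real.one_le_exp (by linarith))
  rw [← Real.exp_half, Real.log_exp] at h6
  set E : ℝ := Real.exp y with hE
  set s : ℝ := Real.exp (1 / 2) with hs
  have hE0 : 0 < E := hexp _
  have hs0 : 0 < s := hexp _
  have hs2 : s * s = Real.exp 1 := by rw [hs, ← Real.exp_add]; norm_num
  have hs1 : 1.648 < s := by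
    have := Real.exp_one_gt_d9
    by_contra hc
    push Not at hc
    nlinarith
  have hs3 : s < 1.65 := by
    have := Real.exp_one_lt_d9
    by_contra hc
    push Not at hc
    nlinarith
  have e1 : Real.exp (y + 1 / 2) = E * s := by rw [hE, hs, ← Real.exp_add]
  have e2 : Real.exp (y - 1 / 2) = E / s := by rw [hE, hs, ← Real.exp_sub]
  have e3 : E / s ≤ 0.607 * E := by
    rw [div_le_iff₀ hs0]
    nlinarith
  rw [pow_one, one_mul, ← hE] at hye
  have e4 : Real.exp ((y - 1 / 2) / 2) ≤ Real.exp (y / 2) := Real.exp_le_exp.2 (by linarith)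
  have e5 : Real.exp (1 / 2 * y) = Real.exp (y / 2) := by congr 1; ring
  rw [e5] at hye
  have hy2 : 1 ≤ Real.exp (y / 2) := Real.one_le_exp (by linarith)
  have h7 : 2 * Real.exp ((y - 1 / 2) / 2) * (y - 1 / 2) ≤ E / 50 := by
    have : 2 * Real.exp ((y - 1 / 2) / 2) * (y - 1 / 2) ≤ 2 * Real.exp (y / 2) * y := by
      gcongr
      · linarith
      · linarith
    nlinarith
  have h8 : Real.log (Real.exp (y + 1 / 2) + 2) ≤ E / 50 := by
    have e6 : Real.exp (y + 1 / 2) + 2 ≤ Real.exp (y + 1) := by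
      have e7 : Real.exp (y + 1) = E * (s * s) := by rw [hs2, hE, ← Real.exp_add]
      rw [e1, e7]
      have h14 : 20 ≤ E := by
        have := Real.add_one_le_exp y
        linarith
      have h15 : 20 * 0.6 ≤ E * (s * (s - 1)) := by
        have h16 : 0.6 ≤ s * (s - 1) := by nlinarith
        exact mul_le_mul h14 h16 (by norm_num) hE0.le
      linarith
    have e8 : Real.log (Real.exp (y + 1 / 2) + 2) ≤ y + 1 := by
      rw [Real.log_le_iff_le_exp (by positivity)]
      exact e6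
    nlinarith
  have hl2 := Real.log_two_gt_d9
  have hl2' := Real.log_two_lt_d9
  have hl4 : Real.log 4 = 2 * Real.log 2 := by
    rw [show (4 : ℝ) = 2 ^ 2 by norm_num, Real.log_pow]; norm_num
  rw [hl4] at h6
  rw [e1] at h5 h8
  rw [e2] at h6
  have h9 : 2 * Real.log 2 * (E / s) ≤ 0.8416 * E := by
    have : 2 * Real.log 2 * (E / s) ≤ 2 * 0.6931471808 * (0.607 * E) := by
      gcongr
    nlinarith
  have h10 : 1.12 * E ≤ (E * s - 1) * Real.log 2 := by
    have hEs : 1.64 * E ≤ E * s - 1 := by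
      have h12 : 125 ≤ E := by nlinarith
      have h13 : E * 1.648 ≤ E * s := by gcongr
      linarith
    have hEs0 : 0 ≤ E * s - 1 := by linarith
    calc 1.12 * E ≤ (1.64 * E) * 0.6931471803 := by linarith
      _ ≤ (E * s - 1) * Real.log 2 := mul_le_mul hEs hl2.le (by norm_num) hEs0
  have h11 : E / 10 ≤ Chebyshev.psi (Real.exp (y + 1 / 2)) - Chebyshev.psi (Real.exp (y - 1 / 2)) := by
    rw [e1, e2]
    linarith
  have e9 : Real.exp (y / 2) / 10 = Real.exp (-(y / 2)) * (E / 10) := by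
    rw [hE, ← mul_div_assoc, ← Real.exp_add]
    congr 2
    ring
  rw [e9]
  exact mul_le_mul_of_nonneg_left h11 (hexp _).le

end

end Pool.Agent.Lib.MP_00e05b_nt
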