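import Mathlib
import Pool.Agent.Lib.MP_00e05b_nt.SharpDefs
import Pool.Agent.Lib.MP_00e05b_nt.SharpCount
import Pool.Agent.Lib.MP_2a816b_nt.Ramanujan

/-!
# The points
-/

open Finset

namespace Pool.Agent.Lib.MP_00e05b_nt

open Pool.Agent.Lib.MP_2a816b_nt (Cop card_Cop)

lemma sum_DD_eq {E : Type} [AddCommMonoid E] (z U0 A B : ℕ) (f : ℕ → ℕ → E) :
    ∑ p ∈ DD z U0 A B, f p.1 p.2 = ∑ r ∈ Finset.Ioc 0 U0, ∑ s ∈ MS z U0 A B r, f r s := by
  classical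
  rw [sum_sigma']
  refine sum_bij' (fun (p : ℕ × ℕ) _ => (⟨p.1, p.2⟩ : Σ _ : ℕ, ℕ))
    (fun (x : Σ _ : ℕ, ℕ) _ => (x.1, x.2)) ?_ ?_ ?_ ?_ ?_
  · intro p hp
    have hp' := hp
    rw [mem_DD] at hp'
    rw [mem_sigma, mem_Ioc]
    exact ⟨⟨hp'.1, hp'.2.1⟩, mem_MS.2 hp⟩
  · intro x hx
    rw [mem_sigma] at hx
    exact mem_MS.1 hx.2
  · intro p _; rfl
  · intro x _; rfl
  · intro p _; rfl

lemma DD_inj {z U0 A B : ℕ} {r s r' s' : ℕ} (h : (r, s) ∈ DD z U0 A B)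
    (h' : (r', s') ∈ DD z U0 A B) (hq : r * s = r' * s') : r = r' ∧ s = s' := by
  have key : ∀ {r s r' s' : ℕ}, (r, s) ∈ DD z U0 A B → (r', s') ∈ DD z U0 A B →
      r * s = r' * s' → r ∣ r' := by
    intro r s r' s' h h' hq
    rw [mem_DD] at h h'
    have hcop : r.Coprime s' := by
      by_contra hc
      obtain ⟨p, hp, h1, h2⟩ := Nat.Prime.not_coprime_iff_dvd.1 hc
      have := h.2.2.2.2.2.2.1 p hp h1
      have := h'.2.2.2.2.2.2.2.1 p hp h2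
      omega
    exact hcop.dvd_of_dvd_mul_right (hq ▸ dvd_mul_right r s)
  have h1 := key h h' hq
  have h2 := key h' h hq.symm
  have hr : r = r' := Nat.dvd_antisymm h1 h2
  subst hr
  rw [mem_DD] at h
  exact ⟨rfl, Nat.eq_of_mul_eq_mul_left h.1 hq⟩

/-- the index type -/
abbrev Ix := Σ _ : ℕ × ℕ, Σ _ : ℕ, ℕ

/-- the points -/
noncomputable def PP (z U0 A B : ℕ) (c0 c1 : ℝ) : Finset Ix :=
  (DD z U0 A B).sigma (fun p => (Cop p.1).sigma (fun b => Ab c0 c1 p.1 p.2 b))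

/-- the frequency of a point -/
noncomputable def xP (i : Ix) : ℝ := (i.2.2 : ℝ) / ((i.1.1 : ℝ) * i.1.2)

lemma mem_PP {z U0 A B : ℕ} {c0 c1 : ℝ} {i : Ix} : i ∈ PP z U0 A B c0 c1 ↔
    i.1 ∈ DD z U0 A B ∧ i.2.1 ∈ Cop i.1.1 ∧ i.2.2 ∈ Ab c0 c1 i.1.1 i.1.2 i.2.1 := by
  unfold PP
  rw [mem_sigma, mem_sigma]

lemma sum_PP {E : Type} [AddCommMonoid E] (z U0 A B : ℕ) (c0 c1 : ℝ) (f : ℕ → ℕ → ℕ → ℕ → E) :
    ∑ i ∈ PP z U0 A B c0 c1, f i.1.1 i.1.2 i.2.1 i.2.2 =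
      ∑ p ∈ DD z U0 A B, ∑ b ∈ Cop p.1, ∑ a ∈ Ab c0 c1 p.1 p.2 b, f p.1 p.2 b a := by
  unfold PP
  rw [sum_sigma]
  apply sum_congr rfl; intro p _
  rw [sum_sigma]

lemma PP_sep {z U0 A B : ℕ} {c0 c1 : ℝ} (hc1 : 0 ≤ c1) (i j : Ix)
    (hi : i ∈ PP z U0 A B c0 c1) (hj : j ∈ PP z U0 A B c0 c1) (hij : i ≠ j) :
    1 / (B : ℝ) ^ 2 ≤ |xP i - xP j| := by
  rw [mem_PP] at hi hj
  obtain ⟨⟨r, s⟩, b, a⟩ := i
  obtain ⟨⟨r', s'⟩, b', a'⟩ := j
  simp only at hi hj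
  obtain ⟨hi1, hi2, hi3⟩ := hi
  obtain ⟨hj1, hj2, hj3⟩ := hj
  have di := mem_DD.1 hi1
  have dj := mem_DD.1 hj1
  simp only at di dj
  have hr0 : 0 < r := di.1
  have hs0 : 0 < s := di.2.2.1
  have hr0' : 0 < r' := dj.1
  have hs0' : 0 < s' := dj.2.2.1
  rw [mem_Ab hc1 hr0 hs0] at hi3
  rw [mem_Ab hc1 hr0' hs0'] at hj3
  have hcop := DD_coprime hi1
  have hcop' := DD_coprime hj1
  -- numerators are prime to the denominators
  have key : ∀ {r s b a : ℕ}, r.Coprime s → b ∈ Cop r → a.Coprime s → a ≡ b * s [MOD r] →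
      a.Coprime (r * s) := by
    intro r s b a hc hb ha hm
    apply Nat.Coprime.mul_right _ ha
    have h1 : (b * s).Coprime r := by
      apply Nat.Coprime.mul_left
      · unfold Cop at hb; exact (mem_filter.1 hb).2
      · exact hc.symm
    have h2 : Nat.gcd a r = Nat.gcd (b * s) r := hm.gcd_eq
    unfold Nat.Coprime at h1 ⊢
    rw [h2, h1]
  have ha := key hcop hi2 hi3.2.2.1 hi3.2.2.2
  have ha' := key hcop' hj2 hj3.2.2.1 hj3.2.2.2
  have hr : (0 : ℝ) < r := by exact_mod_cast hr0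
  have hs : (0 : ℝ) < s := by exact_mod_cast hs0
  have hr' : (0 : ℝ) < r' := by exact_mod_cast hr0'
  have hs' : (0 : ℝ) < s' := by exact_mod_cast hs0'
  have hne : (a : ℤ) * (r' * s') - a' * (r * s) ≠ 0 := by
    intro h0
    have h1 : a * (r' * s') = a' * (r * s) := by
      have : (a : ℤ) * (r' * s') = a' * (r * s) := by linarith
      exact_mod_cast this
    have hd1 : r * s ∣ r' * s' := by
      have : r * s ∣ a * (r' * s') := by rw [h1]; exact dvd_mul_left _ _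
      exact ha.symm.dvd_of_dvd_mul_left this
    have hd2 : r' * s' ∣ r * s := by
      have : r' * s' ∣ a' * (r * s) := by rw [← h1]; exact dvd_mul_left _ _
      exact ha'.symm.dvd_of_dvd_mul_left this
    have hq := Nat.dvd_antisymm hd1 hd2
    obtain ⟨rfl, rfl⟩ := DD_inj hi1 hj1 hq
    have haa : a = a' := by
      exact Nat.eq_of_mul_eq_mul_right (Nat.mul_pos hr0 hs0) h1
    subst haa
    have hbb : b * s ≡ b' * s [MOD r] := hi3.2.2.2.symm.trans hj3.2.2.2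
    have hbb' : b ≡ b' [MOD r] := Nat.ModEq.cancel_right_of_coprime hcop hbb
    have hb1 : b < r := by unfold Cop at hi2; exact mem_range.1 (mem_filter.1 hi2).1
    have hb2 : b' < r := by unfold Cop at hj2; exact mem_range.1 (mem_filter.1 hj2).1
    have : b = b' := Nat.ModEq.eq_of_lt_of_lt hbb' hb1 hb2
    subst this
    exact hij rfl
  have h1 : (1 : ℝ) ≤ |((a : ℤ) * (r' * s') - a' * (r * s) : ℤ)| := by
    have := Int.one_le_abs hne
    exact_mod_cast this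
  have hx : xP ⟨(r, s), b, a⟩ - xP ⟨(r', s'), b', a'⟩ =
      (((a : ℤ) * (r' * s') - a' * (r * s) : ℤ) : ℝ) / ((r * s) * (r' * s')) := by
    unfold xP
    push_cast
    field_simp
  rw [hx, abs_div, abs_of_pos (by positivity : (0 : ℝ) < (r * s) * (r' * s'))]
  have hB1 : ((r : ℝ) * s) ≤ B := by exact_mod_cast di.2.2.2.2.2.2.2.2.2
  have hB2 : ((r' : ℝ) * s') ≤ B := by exact_mod_cast dj.2.2.2.2.2.2.2.2.2
  have hB3 : ((r : ℝ) * s) * (r' * s') ≤ (B : ℝ) ^ 2 := by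
    rw [sq]
    gcongr
  have hpos : (0 : ℝ) < ((r : ℝ) * s) * (r' * s') := by positivity
  have habs : (|(((a : ℤ) * (r' * s') - a' * (r * s) : ℤ) : ℝ)|) =
      ((|((a : ℤ) * (r' * s') - a' * (r * s) : ℤ)| : ℤ) : ℝ) := by push_cast; rfl
  rw [habs]
  gcongr

end Pool.Agent.Lib.MP_00e05b_nt
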