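import Mathlib
import Pool.Agent.Lib.MP_00e05b_nt.WeightedBase
import Pool.Agent.Lib.MP_00e05b_nt.Osc

/-!
# The prime side
-/

open Finset Real

namespace Pool.Agent.Lib.MP_00e05b_nt

open Pool.Agent.Lib.MP_2a816b_nt

lemma prime_side (V : ℕ → ℝ) (N : ℕ) (hV : ∀ n, N < n → V n = 0) (x : ℝ) :
    ∑' n : ℕ, ((ArithmeticFunction.vonMangoldt n : ℝ) : ℂ) *
      (((V n : ℝ) : ℂ) * ph 0 (2 * π * Int.fract x) (Real.log n)) =
      (starRingEnd ℂ) (SV V N x) := by
  rw [tsum_eq_sum (s := Ioc 0 N)]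
  · unfold SV wt
    rw [map_sum]
    apply sum_congr rfl
    intro n hn
    rw [mem_Ioc] at hn
    have hn0 : (0 : ℝ) < n := by exact_mod_cast hn.1
    rw [map_mul, map_mul, Complex.conj_ofReal, Complex.conj_ofReal, conj_e]
    have e1 : ph 0 (2 * π * Int.fract x) (Real.log n) = e (-(n * x)) := by
      have e2 : e (-(n * x)) = e (-(n * x) + ((n * ⌊x⌋ : ℤ) : ℝ)) := (e_add_int _ _).symm
      rw [e2]
      unfold ph e
      congr 1
      rw [Real.exp_log hn0]
      unfold Int.fract
      push_cast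
      ring
    rw [e1]
    have e3 : (vM n : ℝ) = ArithmeticFunction.vonMangoldt n := rfl
    rw [e3]
    ring
  · intro n hn
    rw [mem_Ioc, not_and_or, not_lt, not_le] at hn
    rcases hn with h | h
    · have : n = 0 := by omega
      subst this
      simp
    · rw [hV n h]
      simp

end Pool.Agent.Lib.MP_00e05b_nt
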