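import Mathlib
import Pool.Agent.Lib.MP_00e05b_nt.ApproxB
import Pool.Agent.Lib.MP_00e05b_nt.Abs0
import Pool.Agent.Lib.MP_00e05b_nt.Abs1
import Pool.Agent.Lib.MP_00e05b_nt.PrimeSide
import Pool.Agent.Lib.MP_2a816b_nt.LargeSieve

/-!
# A continuous large sieve with sharp constant, points separated on the real line
-/

open Complex Set Filter Topology MeasureTheory
open scoped ContDiff
open Pool.Agent.Lib.MP_2a816b_nt (sum_inv_sq_pos vM e e_add_int e_int conj_e)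

namespace Pool.Agent.Lib.MP_00e05b_nt

lemma sum_abs_sq {ι : Type*} [DecidableEq ι] (s : Finset ι) (β : ι → ℝ) (δ : ℝ) (hδ : 0 < δ)
    (hsep : ∀ i ∈ s, ∀ j ∈ s, i ≠ j → δ ≤ |β i - β j|) (i : ι) (hi : i ∈ s) :
    ∑ j ∈ s.erase i, (|β i - β j| ^ 2)⁻¹ ≤ 4 / δ ^ 2 := by
  classical
  rw [← Finset.sum_filter_add_sum_filter_not (s.erase i) (fun j => β i ≤ β j)]
  have h1 : ∑ j ∈ (s.erase i).filter (fun j => β i ≤ β j), (|β i - β j| ^ 2)⁻¹ ≤ 2 / δ ^ 2 := by
    have := sum_inv_sq_pos ((s.erase i).filter (fun j => β i ≤ β j)) (fun j => |β i - β j|) δ hδ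
      (fun j hj => by
        rw [Finset.mem_filter, Finset.mem_erase] at hj
        exact hsep i hi j hj.1.2 (Ne.symm hj.1.1))
      (fun j hj k hk hjk => by
        rw [Finset.mem_filter, Finset.mem_erase] at hj hk
        have := hsep j hj.1.2 k hk.1.2 hjk
        rw [abs_of_nonpos (by linarith [hj.2] : β i - β j ≤ 0),
          abs_of_nonpos (by linarith [hk.2] : β i - β k ≤ 0)]
        rw [show -(β i - β j) - -(β i - β k) = β j - β k by ring]
        exact this)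
    exact this
  have h2 : ∑ j ∈ (s.erase i).filter (fun j => ¬ β i ≤ β j), (|β i - β j| ^ 2)⁻¹ ≤ 2 / δ ^ 2 := by
    have := sum_inv_sq_pos ((s.erase i).filter (fun j => ¬ β i ≤ β j)) (fun j => |β i - β j|) δ hδ
      (fun j hj => by
        rw [Finset.mem_filter, Finset.mem_erase] at hj
        exact hsep i hi j hj.1.2 (Ne.symm hj.1.1))
      (fun j hj k hk hjk => by
        rw [Finset.mem_filter, Finset.mem_erase] at hj hk
        have := hsep j hj.1.2 k hk.1.2 hjk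
        rw [abs_of_nonneg (by linarith [not_le.1 hj.2] : 0 ≤ β i - β j),
          abs_of_nonneg (by linarith [not_le.1 hk.2] : 0 ≤ β i - β k)]
        rw [show (β i - β j) - (β i - β k) = -(β j - β k) by ring, abs_neg]
        exact this)
    exact this
  have e1 : 4 / δ ^ 2 = 2 / δ ^ 2 + 2 / δ ^ 2 := by ring
  rw [e1]
  exact add_le_add h1 h2

theorem cont_sieveR {W : ℝ → ℝ} (hW : ContDiff ℝ ∞ W) (h0 : ∀ u, 0 ≤ W u) (h1 : ∀ u, W u ≤ 1)
    {ρ' ρ : ℝ} (hρ0 : 0 < ρ) (hρ' : ρ' < ρ) (hρ3 : ρ ≤ 3 / 4) (hs' : ∀ u, ρ' ≤ |u| → W u = 0) :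
    ∃ K : ℝ, 0 ≤ K ∧ ∀ (ι : Type) (s : Finset ι) (β : ι → ℝ) (δ y : ℝ), 0 < δ →
      1 ≤ δ * Real.exp y → (∀ i ∈ s, ∀ j ∈ s, i ≠ j → δ ≤ |β i - β j|) → ∀ T : ℝ,
      ∑ i ∈ s, ‖ZR W ρ T y (2 * Real.pi * β i)‖ ^ 2 ≤
        (2 * ρ * Real.exp ρ + K / (δ * Real.exp y)) * ∫ u in (y - ρ)..(y + ρ), ‖SS T u‖ ^ 2 := by
  set W2 : ℝ → ℝ := fun t => (W t * Real.exp (1 / 2 * t)) ^ 2 with hW2
  have sW2 : ContDiff ℝ ∞ W2 := (hW.mul (exp_half_smooth _)).pow 2
  have zW2 : ∀ u, ρ' ≤ |u| → W2 u = 0 := fun u hu => by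
    simp only [hW2, hs' u hu, zero_mul]; norm_num
  obtain ⟨K, bK, sK⟩ := bump_of_smoothR sW2 hρ' (hρ'.le.trans hρ3) zW2
  have hK : 0 ≤ K := (abs_nonneg _).trans (bK.b0 0)
  refine ⟨416 * K, by positivity, ?_⟩
  intro ι s β δ y hδ hδy hsep T
  classical
  set φ : ι → ℝ → ℂ := fun i u => ((W (u - y) * Real.exp (1 / 2 * (u - y)) : ℝ) : ℂ) *
    ph 0 (2 * Real.pi * β i) u with hφ
  have hφc : ∀ i, Continuous (φ i) := by
    intro i
    have k0 : Continuous fun t => W t * Real.exp (1 / 2 * t) := (hW.mul (exp_half_smooth _)).continuous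
    have k1 : Continuous fun u : ℝ => ((W (u - y) * Real.exp (1 / 2 * (u - y)) : ℝ) : ℂ) :=
      Complex.continuous_ofReal.comp (k0.comp (continuous_id.sub continuous_const))
    exact k1.mul (continuous_ph _ _)
  set H : ι → ι → ℝ := fun i j => if i = j then 2 * ρ * Real.exp ρ else
    104 * K / (δ * Real.exp y) * ((Real.exp y) ^ 2)⁻¹ * (|β i - β j| ^ 2)⁻¹ with hH
  have hEq : ∀ i, ZR W ρ T y (2 * Real.pi * β i) = ∫ u in (y - ρ)..(y + ρ), SS T u * φ i u := by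
    intro i
    unfold ZR
    apply intervalIntegral.integral_congr
    intro u _
    simp only [hφ]
    ring
  simp_rw [hEq]
  apply dual_abstract s (y - ρ) (y + ρ) (by linarith) (SS T) (continuous_SS T) φ hφc H _ (by positivity)
  · intro i j
    simp only [hH]
    by_cases h : i = j
    · rw [if_pos h, if_pos h.symm]
    · rw [if_neg h, if_neg (Ne.symm h), abs_sub_comm]
  · intro i hi j hj
    have e1 : ∫ u in (y - ρ)..(y + ρ), (starRingEnd ℂ) (φ i u) * φ j u =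
        ∫ u in (y - ρ)..(y + ρ), (W2 (u - y) : ℂ) * ph 0 (2 * Real.pi * (β j - β i)) u := by
      apply intervalIntegral.integral_congr
      intro u _
      simp only [hφ, hW2]
      rw [map_mul, Complex.conj_ofReal]
      have e2 : (starRingEnd ℂ) (ph 0 (2 * Real.pi * β i) u) * ph 0 (2 * Real.pi * β j) u =
          ph 0 (2 * Real.pi * (β j - β i)) u := by
        unfold ph
        rw [← Complex.exp_conj, ← Complex.exp_add]
        congr 1
        rw [map_mul, Complex.conj_I, Complex.conj_ofReal]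
        push_cast
        ring
      rw [← e2]
      push_cast
      ring
    rw [e1]
    simp only [hH]
    by_cases h : i = j
    · rw [if_pos h]
      have hb : ∀ u ∈ uIoc (y - ρ) (y + ρ),
          ‖(W2 (u - y) : ℂ) * ph 0 (2 * Real.pi * (β j - β i)) u‖ ≤ Real.exp ρ := by
        intro u hu
        rw [uIoc_of_le (by linarith), mem_Ioc] at hu
        rw [norm_mul, norm_ph, mul_one, Complex.norm_real]
        simp only [hW2]
        rw [Real.norm_eq_abs, abs_of_nonneg (by positivity), mul_pow, ← Real.exp_nat_mul]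
        have a1 : W (u - y) ^ 2 ≤ 1 := pow_le_one₀ (h0 _) (h1 _)
        have a2 : Real.exp (((2 : ℕ) : ℝ) * (1 / 2 * (u - y))) ≤ Real.exp ρ := by
          apply Real.exp_le_exp.2
          push_cast
          linarith [hu.2]
        calc W (u - y) ^ 2 * Real.exp (((2 : ℕ) : ℝ) * (1 / 2 * (u - y))) ≤ 1 * Real.exp ρ := by
              gcongr
          _ = _ := one_mul _
      have := intervalIntegral.norm_integral_le_of_norm_le_const hb
      rw [show y + ρ - (y - ρ) = 2 * ρ by ring, abs_of_pos (by linarith : (0 : ℝ) < 2 * ρ)] at this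
      linarith
    · rw [if_neg h]
      have hd : δ ≤ |β i - β j| := hsep i hi j hj h
      set x : ℝ := |β i - β j| with hx
      have hx0 : 0 < x := hδ.trans_le hd
      have hxe : 1 ≤ x * Real.exp y := hδy.trans (by gcongr)
      set m : ℝ := x * Real.exp y with hm
      have hm0 : 0 < m := by positivity
      have hosc : ‖∫ u in (y - ρ)..(y + ρ), (W2 (u - y) : ℂ) * ph 0 (2 * Real.pi * (β j - β i)) u‖ ≤
          104 * K * 1 ^ 3 / m ^ 3 := by
        apply osc_boundB bK y 0 _ m 1 ρ hρ0 (by linarith) sK le_rfl hm0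
        intro u hu
        rw [zero_sub, abs_neg, one_mul]
        refine ⟨?_, le_rfl⟩
        rw [abs_mul, abs_mul, abs_of_pos (by positivity : (0 : ℝ) < 2 * Real.pi),
          abs_of_pos (Real.exp_pos u), abs_sub_comm (β j), ← hx]
        have h1 : Real.exp (y - 1) ≤ Real.exp u := Real.exp_le_exp.2 (by linarith [hu.1])
        have h2 : Real.exp y ≤ 2 * Real.pi * Real.exp (y - 1) := by
          have e2 : Real.exp y = Real.exp 1 * Real.exp (y - 1) := by
            rw [← Real.exp_add]; congr 1; ring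
          rw [e2]
          have h3 := Real.exp_one_lt_d9
          have h4 := Real.pi_gt_three
          gcongr
          linarith
        calc m = x * Real.exp y := hm
          _ ≤ x * (2 * Real.pi * Real.exp u) := by
              gcongr
              exact h2.trans (by gcongr)
          _ = 2 * Real.pi * x * Real.exp u := by ring
      refine hosc.trans ?_
      have hδe : 0 < δ * Real.exp y := by positivity
      have hmδ : δ * Real.exp y ≤ m := by rw [hm]; gcongr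
      have h5 : 104 * K * 1 ^ 3 / m ^ 3 ≤ 104 * K / (δ * Real.exp y) * ((Real.exp y) ^ 2)⁻¹ * (x ^ 2)⁻¹ := by
        have e3 : 104 * K / (δ * Real.exp y) * ((Real.exp y) ^ 2)⁻¹ * (x ^ 2)⁻¹ =
            104 * K / ((δ * Real.exp y) * m ^ 2) := by
          rw [hm]; field_simp
        rw [e3, one_pow, mul_one]
        apply div_le_div_of_nonneg_left (by positivity) (by positivity)
        calc δ * Real.exp y * m ^ 2 ≤ m * m ^ 2 := by gcongr
          _ = m ^ 3 := by ring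
      exact h5
  · intro i hi
    rw [← Finset.add_sum_erase s _ hi]
    have e1 : ∑ j ∈ s.erase i, H i j = 104 * K / (δ * Real.exp y) * ((Real.exp y) ^ 2)⁻¹ *
        ∑ j ∈ s.erase i, (|β i - β j| ^ 2)⁻¹ := by
      rw [Finset.mul_sum]
      apply Finset.sum_congr rfl
      intro j hj
      rw [Finset.mem_erase] at hj
      simp only [hH]
      rw [if_neg (Ne.symm hj.1)]
    rw [e1]
    have e2 : H i i = 2 * ρ * Real.exp ρ := by simp [hH]
    rw [e2]
    have h1 := sum_abs_sq s β δ hδ hsep i hi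
    have h2 : ((Real.exp y) ^ 2)⁻¹ * (4 / δ ^ 2) ≤ 4 := by
      have : ((Real.exp y) ^ 2)⁻¹ * (4 / δ ^ 2) = 4 / (δ * Real.exp y) ^ 2 := by
        field_simp
      rw [this, div_le_iff₀ (by positivity)]
      nlinarith
    have h3 : 104 * K / (δ * Real.exp y) * ((Real.exp y) ^ 2)⁻¹ *
        ∑ j ∈ s.erase i, (|β i - β j| ^ 2)⁻¹ ≤ 416 * K / (δ * Real.exp y) := by
      calc _ ≤ 104 * K / (δ * Real.exp y) * ((Real.exp y) ^ 2)⁻¹ * (4 / δ ^ 2) := by gcongr
        _ = 104 * K / (δ * Real.exp y) * (((Real.exp y) ^ 2)⁻¹ * (4 / δ ^ 2)) := by ring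
        _ ≤ 104 * K / (δ * Real.exp y) * 4 := by gcongr
        _ = _ := by ring
    linarith


/-- the prime side at a real frequency -/
lemma prime_sideR (V : ℕ → ℝ) (N : ℕ) (hV : ∀ n, N < n → V n = 0) (x : ℝ) :
    ∑' n : ℕ, ((ArithmeticFunction.vonMangoldt n : ℝ) : ℂ) *
      (((V n : ℝ) : ℂ) * ph 0 (2 * Real.pi * x) (Real.log n)) =
      (starRingEnd ℂ) (SV V N x) := by
  rw [← prime_side V N hV x]
  apply tsum_congr
  intro n
  rcases Nat.eq_zero_or_pos n with h0 | h0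
  · subst h0
    simp
  · have hn0 : (0 : ℝ) < n := by exact_mod_cast h0
    congr 2
    unfold ph
    rw [Real.exp_log hn0]
    have e1 : Complex.exp (((0 * Real.log n - 2 * Real.pi * x * n : ℝ) : ℂ) * I) = e (-(n * x)) := by
      unfold Pool.Agent.Lib.MP_2a816b_nt.e
      congr 1
      push_cast
      ring
    have e2 : Complex.exp (((0 * Real.log n - 2 * Real.pi * Int.fract x * n : ℝ) : ℂ) * I) =
        e (-(n * x) + ((n * ⌊x⌋ : ℤ) : ℝ)) := by
      unfold Pool.Agent.Lib.MP_2a816b_nt.e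
      congr 1
      unfold Int.fract
      push_cast
      ring
    rw [e1, e2, e_add_int]

theorem sharp_localR {W : ℝ → ℝ} {ρ κ C1 K : ℝ}
    (happ : ∀ T y θ : ℝ, 1 ≤ T → 2 ≤ y → 0 < θ → θ * Real.exp (y + ρ) ≤ (1 - κ) * T →
      Real.exp (y / 2) ≤ (θ * Real.exp (y - 1)) ^ 3 →
      ‖ZR W ρ T y θ + ∑' n : ℕ, ((ArithmeticFunction.vonMangoldt n : ℝ) : ℂ) *
        (((Real.exp (-(y / 2)) * W (Real.log n - y) : ℝ) : ℂ) * ph 0 θ (Real.log n))‖ ≤ C1)
    (hcls : ∀ (ι : Type) (s : Finset ι) (β : ι → ℝ) (δ y : ℝ), 0 < δ →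
      1 ≤ δ * Real.exp y → (∀ i ∈ s, ∀ j ∈ s, i ≠ j → δ ≤ |β i - β j|) → ∀ T : ℝ,
      ∑ i ∈ s, ‖ZR W ρ T y (2 * Real.pi * β i)‖ ^ 2 ≤
        (2 * ρ * Real.exp ρ + K / (δ * Real.exp y)) * ∫ u in (y - ρ)..(y + ρ), ‖SS T u‖ ^ 2)
    (T y δ : ℝ) (hT : 1 ≤ T) (hy : 2 ≤ y) (hδ : 0 < δ) (hδy : 1 ≤ δ * Real.exp y)
    (V : ℕ → ℝ) (hV : ∀ n : ℕ, V n = Real.exp (-(y / 2)) * W (Real.log n - y))
    (N : ℕ) (hVN : ∀ n, N < n → V n = 0)
    (ι : Type) (s : Finset ι) (x : ι → ℝ) (hx0 : ∀ i ∈ s, 0 < x i)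
    (hup : ∀ i ∈ s, 2 * Real.pi * x i * Real.exp (y + ρ) ≤ (1 - κ) * T)
    (hlow : ∀ i ∈ s, Real.exp (y / 2) ≤ (2 * Real.pi * x i * Real.exp (y - 1)) ^ 3)
    (hsep : ∀ i ∈ s, ∀ j ∈ s, i ≠ j → δ ≤ |x i - x j|) (τ : ι → ℂ) (w : ι → ℝ)
    (hw0 : ∀ i ∈ s, 0 ≤ w i) (hw1 : ∀ i ∈ s, w i ≤ 1) :
    ∑ i ∈ s, w i * ‖τ i‖ ^ 2 +
      2 * (∑ i ∈ s, (w i : ℂ) * ((SV V N (x i) - τ i) * (starRingEnd ℂ) (τ i))).re -
        2 * C1 * ∑ i ∈ s, w i * ‖τ i‖ ≤
      (2 * ρ * Real.exp ρ + K / (δ * Real.exp y)) * ∫ u in (y - ρ)..(y + ρ), ‖SS T u‖ ^ 2 := by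
  refine le_trans ?_ (hcls ι s x δ y hδ hδy hsep T)
  rw [Complex.re_sum, Finset.mul_sum, Finset.mul_sum, ← Finset.sum_add_distrib, ← Finset.sum_sub_distrib]
  apply Finset.sum_le_sum
  intro i hi
  have h1 := happ T y (2 * Real.pi * x i) hT hy (by have := hx0 i hi; positivity) (hup i hi)
    (hlow i hi)
  have h3 := prime_sideR V N hVN (x i)
  simp_rw [hV] at h3
  rw [h3] at h1
  have h4 := sq_lower _ _ (τ i) _ h1
  rw [Complex.re_ofReal_mul]
  have h5 := hw0 i hi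
  have h6 := hw1 i hi
  calc w i * ‖τ i‖ ^ 2 + 2 * (w i * ((SV V N (x i) - τ i) * (starRingEnd ℂ) (τ i)).re) -
        2 * C1 * (w i * ‖τ i‖) = w i * (‖τ i‖ ^ 2 +
        2 * ((SV V N (x i) - τ i) * (starRingEnd ℂ) (τ i)).re - 2 * C1 * ‖τ i‖) := by ring
    _ ≤ w i * ‖ZR W ρ T y (2 * Real.pi * x i)‖ ^ 2 := by gcongr
    _ ≤ 1 * ‖ZR W ρ T y (2 * Real.pi * x i)‖ ^ 2 := by gcongr
    _ = _ := one_mul _

end Pool.Agent.Lib.MP_00e05b_nt
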