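import Mathlib
import Pool.Agent.Lib.MP_00e05b_nt.SharpR
import Pool.Agent.Lib.MP_00e05b_nt.Points0
import Pool.Agent.Lib.MP_2a816b_nt.FunctA

/-!
# The main inequality with sharp constants for the zeta side
-/

open Finset

namespace Pool.Agent.Lib.MP_00e05b_nt

open Pool.Agent.Lib.MP_2a816b_nt (Cop card_Cop vM vM_nonneg e norm_e gq norm_gq totient_ge)


lemma norm_SV_le (V : ℕ → ℝ) (hV0 : ∀ n, 0 ≤ V n) (N : ℕ) (x : ℝ) :
    ‖SV V N x‖ ≤ ∑ n ∈ Ioc 0 N, V n * vM n := by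
  unfold SV wt
  refine (norm_sum_le _ _).trans (le_of_eq ?_)
  apply sum_congr rfl; intro n _
  rw [norm_mul, norm_mul, norm_e, mul_one, Complex.norm_real, Complex.norm_real,
    Real.norm_eq_abs, Real.norm_eq_abs, abs_of_nonneg (hV0 n), abs_of_nonneg (vM_nonneg n)]

lemma conj_gq' (m : ℕ) : (starRingEnd ℂ) (gq m) = gq m := by
  unfold Pool.Agent.Lib.MP_2a816b_nt.gq
  rw [map_prod]
  apply prod_congr rfl; intro p _
  rw [map_div₀, map_sub, map_neg, map_one, Complex.conj_natCast]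

/-- The main inequality on the zeta side. -/
theorem sharp_main {W : ℝ → ℝ} {ρ κ C1 K : ℝ} (hC1 : 0 ≤ C1)
    (happ : ∀ T y θ : ℝ, 1 ≤ T → 2 ≤ y → 0 < θ → θ * Real.exp (y + ρ) ≤ (1 - κ) * T →
      Real.exp (y / 2) ≤ (θ * Real.exp (y - 1)) ^ 3 →
      ‖ZR W ρ T y θ + ∑' n : ℕ, ((ArithmeticFunction.vonMangoldt n : ℝ) : ℂ) *
        (((Real.exp (-(y / 2)) * W (Real.log n - y) : ℝ) : ℂ) * ph 0 θ (Real.log n))‖ ≤ C1)
    (hcls : ∀ (ι : Type) (s : Finset ι) (β : ι → ℝ) (δ y : ℝ), 0 < δ →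
      1 ≤ δ * Real.exp y → (∀ i ∈ s, ∀ j ∈ s, i ≠ j → δ ≤ |β i - β j|) → ∀ T : ℝ,
      ∑ i ∈ s, ‖ZR W ρ T y (2 * Real.pi * β i)‖ ^ 2 ≤
        (2 * ρ * Real.exp ρ + K / (δ * Real.exp y)) * ∫ u in (y - ρ)..(y + ρ), ‖SS T u‖ ^ 2)
    (T y : ℝ) (hT : 1 ≤ T) (hy : 2 ≤ y)
    (V : ℕ → ℝ) (hV : ∀ n : ℕ, V n = Real.exp (-(y / 2)) * W (Real.log n - y))
    (N : ℕ) (hVN : ∀ n, N < n → V n = 0) (Bv : ℝ) (hBv : 0 ≤ Bv) (hV0 : ∀ n, 0 ≤ V n)
    (hVB : ∀ n, V n ≤ Bv)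
    (z U0 A B k : ℕ) (hA : 1 ≤ A) (hz : 1 ≤ z) (hB : 1 ≤ B) (hBy : (B : ℝ) ^ 2 ≤ Real.exp y)
    (hk : ∀ p ∈ DD z U0 A B, p.2.primeFactors.card ≤ k)
    (c0 c1 c0' c1' : ℝ) (hc0 : 0 < c0) (hc00 : c0 ≤ c0') (hc01' : c0' ≤ c1') (hc11 : c1' ≤ c1)
    (hup : 2 * Real.pi * c1 * Real.exp (y + ρ) ≤ (1 - κ) * T)
    (hlow : Real.exp (y / 2) ≤ (2 * Real.pi * c0 * Real.exp (y - 1)) ^ 3)
    (w : ℕ → ℕ → ℕ → ℝ) (hw0 : ∀ r s a, 0 ≤ w r s a) (hw1 : ∀ r s a, w r s a ≤ 1)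
    (hw : ∀ r s a : ℕ, c0' ≤ (a : ℝ) / ((r : ℝ) * s) → (a : ℝ) / ((r : ℝ) * s) ≤ c1' → w r s a = 1)
    (p : ℝ) (hp : 0 ≤ p)
    (hψ : ∀ r ∈ Finset.Ioc 0 U0, p ≤ ∑ n ∈ Ioc 0 N, V n * vM n - 2 * (r : ℝ) ^ 2 * Bv * Real.log N)
    (FA : ℝ) (hFA0 : 0 ≤ FA)
    (hFA : ∀ r ∈ Finset.Ioc 0 U0, ∀ b ∈ Cop r, ‖∑ s ∈ MS z U0 A B r, gq s *
      ∑ a ∈ Ab c0 c1 r s b, (w r s a : ℂ) *
        (SV V N ((a : ℝ) / (r * s)) - gq s * SV V N ((b : ℝ) / r))‖ ≤ FA)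
    (κ' : ℝ) (hκ' : ∀ s : ℕ, A < s → (c1' - c0') * s * (k / z) + 2 * (1 + k) ≤ κ' * ((c1' - c0') * s))
    (hκ1 : κ' ≤ 1) :
    (1 - κ') * (c1' - c0') * p ^ 2 * (∑ q ∈ DD z U0 A B, (1 : ℝ) / ((q.1.totient : ℝ) * q.2.totient)) -
      2 * (U0 ^ 2 * (∑ n ∈ Ioc 0 N, V n * vM n) * FA) -
      2 * C1 * (2 ^ k * U0 ^ 2 * B * (c1 + 2 / A) * ∑ n ∈ Ioc 0 N, V n * vM n) ≤
      (2 * ρ * Real.exp ρ + K * B ^ 2 / Real.exp y) * ∫ u in (y - ρ)..(y + ρ), ‖SS T u‖ ^ 2 := by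
  classical
  set Ψ : ℝ := ∑ n ∈ Ioc 0 N, V n * vM n with hΨ
  have hΨ0 : 0 ≤ Ψ := sum_nonneg (fun n _ => mul_nonneg (hV0 n) (vM_nonneg n))
  have hc1 : 0 ≤ c1 := by linarith
  have hBr : (1 : ℝ) ≤ B := by exact_mod_cast hB
  have hAr : (1 : ℝ) ≤ A := by exact_mod_cast hA
  have hSV : ∀ x, ‖SV V N x‖ ≤ Ψ := norm_SV_le V hV0 N
  have hδ : (0 : ℝ) < 1 / (B : ℝ) ^ 2 := by positivity
  -- facts on DD
  have hD : ∀ r s : ℕ, (r, s) ∈ DD z U0 A B → 0 < r ∧ r ≤ U0 ∧ 0 < s ∧ s ≤ B ∧ Squarefree s ∧ A < s ∧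
      r.Coprime s ∧ s.primeFactors.card ≤ k ∧ (∀ q ∈ s.primeFactors, (z : ℝ) ≤ q) ∧ Squarefree r := by
    intro r s h
    have hd := mem_DD.1 h
    simp only at hd
    refine ⟨hd.1, hd.2.1, hd.2.2.1, hd.2.2.2.1, hd.2.2.2.2.2.1, hd.2.2.2.2.2.2.2.2.1,
      DD_coprime h, hk _ h, ?_, hd.2.2.2.2.1⟩
    intro q hq
    rw [Nat.mem_primeFactors] at hq
    have := hd.2.2.2.2.2.2.2.1 q hq.1 hq.2.1
    exact_mod_cast this.le
  set S := PP z U0 A B c0 c1 with hS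
  have hxmem : ∀ i ∈ S, c0 ≤ xP i ∧ xP i ≤ c1 := by
    intro i hi
    rw [hS, mem_PP] at hi
    have hd := hD _ _ hi.1
    have := (mem_Ab hc1 hd.1 hd.2.2.1).1 hi.2.2
    exact ⟨this.1, this.2.1⟩
  have hloc := sharp_localR happ hcls T y (1 / (B : ℝ) ^ 2) hT hy hδ (by
      rw [div_mul_eq_mul_div, one_mul, le_div_iff₀ (by positivity), one_mul]
      exact hBy) V hV N hVN Ix S xP (fun i hi => hc0.trans_le (hxmem i hi).1)
    (fun i hi => by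
      refine le_trans ?_ hup
      have := (hxmem i hi).2
      gcongr)
    (fun i hi => by
      refine hlow.trans ?_
      have := (hxmem i hi).1
      gcongr)
    (fun i hi j hj hij => PP_sep hc1 i j hi hj hij)
    (fun i => gq i.1.2 * SV V N ((i.2.1 : ℝ) / i.1.1)) (fun i => w i.1.1 i.1.2 i.2.2)
    (fun i _ => hw0 _ _ _) (fun i _ => hw1 _ _ _)
  have eK : K / (1 / (B : ℝ) ^ 2 * Real.exp y) = K * B ^ 2 / Real.exp y := by
    field_simp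
  rw [eK] at hloc
  refine le_trans ?_ hloc
  -- main term
  have hmain : (1 - κ') * (c1' - c0') * p ^ 2 *
      (∑ q ∈ DD z U0 A B, (1 : ℝ) / ((q.1.totient : ℝ) * q.2.totient)) ≤
      ∑ i ∈ S, w i.1.1 i.1.2 i.2.2 * ‖gq i.1.2 * SV V N ((i.2.1 : ℝ) / i.1.1)‖ ^ 2 := by
    have e1 := sum_PP (E := ℝ) z U0 A B c0 c1 (fun r s b a => w r s a *
      ‖gq s * SV V N ((b : ℝ) / r)‖ ^ 2)
    have e2 : ∑ i ∈ S, w i.1.1 i.1.2 i.2.2 * ‖gq i.1.2 * SV V N ((i.2.1 : ℝ) / i.1.1)‖ ^ 2 =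
        ∑ p ∈ DD z U0 A B, ∑ b ∈ Cop p.1, ∑ a ∈ Ab c0 c1 p.1 p.2 b,
          w p.1 p.2 a * ‖gq p.2 * SV V N ((b : ℝ) / p.1)‖ ^ 2 := by
      rw [← e1]
    rw [e2, mul_sum]
    apply sum_le_sum
    rintro ⟨r, s⟩ hrs
    obtain ⟨hr0, hrU, hs0, hsB, hsq, hAs, hcop, hks, hrough, hrsq⟩ := hD r s hrs
    simp only
    have hsr : (0 : ℝ) < s := by exact_mod_cast hs0
    have hφs : (0 : ℝ) < s.totient := by exact_mod_cast Nat.totient_pos.2 hs0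
    have hφr : (0 : ℝ) < r.totient := by exact_mod_cast Nat.totient_pos.2 hr0
    have hφs' : (s.totient : ℝ) ≤ s := by exact_mod_cast Nat.totient_le s
    have hzr : (0 : ℝ) < z := by exact_mod_cast (by omega : 0 < z)
    have hsumSV := sum_SV_sq V Bv hV0 hVB hBv r N hr0 hrsq p hp (hψ r (mem_Ioc.2 ⟨hr0, hrU⟩))
    have hin : ∀ b ∈ Cop r, (1 - κ') * (c1' - c0') / s.totient * ‖SV V N ((b : ℝ) / r)‖ ^ 2 ≤
        ∑ a ∈ Ab c0 c1 r s b, w r s a * ‖gq s * SV V N ((b : ℝ) / r)‖ ^ 2 := by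
      intro b _
      rw [← sum_mul]
      have hcount : (1 - κ') * (c1' - c0') * s ≤ ∑ a ∈ Ab c0 c1 r s b, w r s a := by
        have h1 := card_Ab_lower c0' c1' (by linarith) hc01' r s b k z hzr hr0 hs0 hcop hks hrough
        have h2 := hκ' s hAs
        have h3 : (((Ab c0' c1' r s b).card : ℝ)) ≤ ∑ a ∈ Ab c0 c1 r s b, w r s a := by
          have h4 : (((Ab c0' c1' r s b).card : ℝ)) =
              ∑ a ∈ Ab c0' c1' r s b, w r s a := by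
            rw [card_eq_sum_ones]
            push_cast
            apply sum_congr rfl; intro a ha
            rw [mem_Ab (by linarith) hr0 hs0] at ha
            rw [hw _ _ _ ha.1 ha.2.1]
          rw [h4]
          apply sum_le_sum_of_subset_of_nonneg
          · intro a ha
            rw [mem_Ab (by linarith) hr0 hs0] at ha
            rw [mem_Ab hc1 hr0 hs0]
            exact ⟨by linarith [ha.1], by linarith [ha.2.1], ha.2.2⟩
          · intro a _ _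
            exact hw0 _ _ _
        refine le_trans ?_ h3
        refine le_trans ?_ h1
        nlinarith
      have hgq : 1 / ((s : ℝ) * s.totient) ≤ ‖gq s‖ ^ 2 := by
        rw [norm_gq s hsq, div_pow, one_pow]
        apply one_div_le_one_div_of_le (by positivity)
        rw [sq]
        gcongr
      rw [norm_mul, mul_pow]
      have hκ'0 : 0 ≤ (1 - κ') * (c1' - c0') := mul_nonneg (by linarith) (by linarith)
      calc (1 - κ') * (c1' - c0') / s.totient * ‖SV V N ((b : ℝ) / r)‖ ^ 2 =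
          ((1 - κ') * (c1' - c0') * s) * (1 / ((s : ℝ) * s.totient) * ‖SV V N ((b : ℝ) / r)‖ ^ 2) := by
            field_simp
        _ ≤ _ := by
            apply mul_le_mul hcount
            · gcongr
            · positivity
            · exact sum_nonneg (fun a _ => hw0 _ _ _)
    have hκ'0 : 0 ≤ (1 - κ') * (c1' - c0') := mul_nonneg (by linarith) (by linarith)
    calc (1 - κ') * (c1' - c0') * p ^ 2 * (1 / ((r.totient : ℝ) * s.totient)) =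
        (1 - κ') * (c1' - c0') / s.totient * (p ^ 2 / r.totient) := by field_simp
      _ ≤ (1 - κ') * (c1' - c0') / s.totient * ∑ b ∈ Cop r, ‖SV V N ((b : ℝ) / r)‖ ^ 2 := by gcongr
      _ = ∑ b ∈ Cop r, (1 - κ') * (c1' - c0') / s.totient * ‖SV V N ((b : ℝ) / r)‖ ^ 2 := by
          rw [mul_sum]
      _ ≤ _ := sum_le_sum hin
  -- cardinality of Cop
  have hCopcard : ∀ r : ℕ, ((Cop r).card : ℝ) ≤ r := by
    intro r
    rw [card_Cop]
    exact_mod_cast Nat.totient_le r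
  -- error term
  have herr : ‖∑ i ∈ S, (w i.1.1 i.1.2 i.2.2 : ℂ) * ((SV V N (xP i) - gq i.1.2 * SV V N ((i.2.1 : ℝ) / i.1.1)) *
      (starRingEnd ℂ) (gq i.1.2 * SV V N ((i.2.1 : ℝ) / i.1.1)))‖ ≤ U0 ^ 2 * Ψ * FA := by
    have e1 := sum_PP (E := ℂ) z U0 A B c0 c1 (fun r s b a => (w r s a : ℂ) *
      ((SV V N ((a : ℝ) / ((r : ℝ) * s)) - gq s * SV V N ((b : ℝ) / r)) *
      (starRingEnd ℂ) (gq s * SV V N ((b : ℝ) / r))))
    have e2 : ∑ i ∈ S, (w i.1.1 i.1.2 i.2.2 : ℂ) * ((SV V N (xP i) - gq i.1.2 * SV V N ((i.2.1 : ℝ) / i.1.1)) *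
      (starRingEnd ℂ) (gq i.1.2 * SV V N ((i.2.1 : ℝ) / i.1.1))) =
        ∑ r ∈ Finset.Ioc 0 U0, ∑ b ∈ Cop r, (starRingEnd ℂ) (SV V N ((b : ℝ) / r)) *
          ∑ s ∈ MS z U0 A B r, gq s * ∑ a ∈ Ab c0 c1 r s b, (w r s a : ℂ) *
        (SV V N ((a : ℝ) / (r * s)) - gq s * SV V N ((b : ℝ) / r)) := by
      refine e1.trans ?_
      rw [sum_DD_eq z U0 A B (fun r s => ∑ b ∈ Cop r, ∑ a ∈ Ab c0 c1 r s b,
        (w r s a : ℂ) *
      ((SV V N ((a : ℝ) / ((r : ℝ) * s)) - gq s * SV V N ((b : ℝ) / r)) *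
      (starRingEnd ℂ) (gq s * SV V N ((b : ℝ) / r))))]
      apply sum_congr rfl; intro r _
      rw [sum_comm]
      apply sum_congr rfl; intro b _
      rw [mul_sum]
      apply sum_congr rfl; intro s _
      rw [mul_sum, mul_sum]
      apply sum_congr rfl; intro a _
      rw [map_mul, conj_gq']
      ring
    rw [e2]
    calc _ ≤ ∑ r ∈ Finset.Ioc 0 U0, ∑ b ∈ Cop r, Ψ * FA := by
          refine (norm_sum_le _ _).trans ?_
          apply sum_le_sum; intro r hr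
          refine (norm_sum_le _ _).trans ?_
          apply sum_le_sum; intro b hb
          rw [norm_mul, RCLike.norm_conj]
          exact mul_le_mul (hSV _) (hFA r hr b hb) (norm_nonneg _) hΨ0
      _ ≤ ∑ r ∈ Finset.Ioc 0 U0, (U0 : ℝ) * (Ψ * FA) := by
          apply sum_le_sum; intro r hr
          rw [mem_Ioc] at hr
          rw [sum_const, nsmul_eq_mul]
          have h1 := hCopcard r
          have h2 : (r : ℝ) ≤ U0 := by exact_mod_cast hr.2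
          exact mul_le_mul_of_nonneg_right (h1.trans h2) (by positivity)
      _ = U0 ^ 2 * Ψ * FA := by
          rw [sum_const, Nat.card_Ioc, nsmul_eq_mul, Nat.sub_zero]
          ring
  -- the third term
  have hthird : ∑ i ∈ S, w i.1.1 i.1.2 i.2.2 * ‖gq i.1.2 * SV V N ((i.2.1 : ℝ) / i.1.1)‖ ≤
      2 ^ k * U0 ^ 2 * B * (c1 + 2 / A) * Ψ := by
    have e1 := sum_PP (E := ℝ) z U0 A B c0 c1 (fun r s b a => w r s a *
      ‖gq s * SV V N ((b : ℝ) / r)‖)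
    have e2 : ∑ i ∈ S, w i.1.1 i.1.2 i.2.2 * ‖gq i.1.2 * SV V N ((i.2.1 : ℝ) / i.1.1)‖ =
        ∑ p ∈ DD z U0 A B, ∑ b ∈ Cop p.1, ∑ a ∈ Ab c0 c1 p.1 p.2 b,
          w p.1 p.2 a * ‖gq p.2 * SV V N ((b : ℝ) / p.1)‖ := by
      rw [← e1]
    rw [e2]
    have h1 : ∀ q ∈ DD z U0 A B, ∑ b ∈ Cop q.1, ∑ a ∈ Ab c0 c1 q.1 q.2 b,
          w q.1 q.2 a * ‖gq q.2 * SV V N ((b : ℝ) / q.1)‖ ≤
          U0 * (2 ^ k * (c1 + 2 / A) * Ψ) := by
      rintro ⟨r, s⟩ hrs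
      obtain ⟨hr0, hrU, hs0, hsB, hsq, hAs, hcop, hks, hrough, hrsq⟩ := hD r s hrs
      simp only
      have hsr : (0 : ℝ) < s := by exact_mod_cast hs0
      have hφs : (0 : ℝ) < s.totient := by exact_mod_cast Nat.totient_pos.2 hs0
      have hφ2 := totient_ge s k hsq hks
      have hAs' : (A : ℝ) ≤ s := by exact_mod_cast hAs.le
      have h2 : ∀ b ∈ Cop r, ∑ a ∈ Ab c0 c1 r s b, w r s a *
          ‖gq s * SV V N ((b : ℝ) / r)‖ ≤ 2 ^ k * (c1 + 2 / A) * Ψ := by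
        intro b _
        have hcu := card_Ab_upper c0 c1 hc0.le (by linarith) r s b hr0 hs0
        have hg : ‖gq s‖ ≤ 2 ^ k / s := by
          rw [norm_gq s hsq, div_le_div_iff₀ hφs hsr]
          rw [div_le_iff₀ (by positivity)] at hφ2
          linarith
        calc _ ≤ ∑ a ∈ Ab c0 c1 r s b, 1 * (2 ^ k / s * Ψ) := by
              apply sum_le_sum; intro a _
              rw [norm_mul]
              have := hw0 r s a
              have := hw1 r s a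
              have := hSV ((b : ℝ) / r)
              gcongr
          _ = (Ab c0 c1 r s b).card * (2 ^ k / s * Ψ) := by
              rw [sum_const, nsmul_eq_mul, one_mul]
          _ ≤ (c1 * s + 2) * (2 ^ k / s * Ψ) := by
              gcongr
              nlinarith
          _ = 2 ^ k * (c1 + 2 / s) * Ψ := by field_simp
          _ ≤ 2 ^ k * (c1 + 2 / A) * Ψ := by gcongr
      calc _ ≤ ∑ b ∈ Cop r, 2 ^ k * (c1 + 2 / A) * Ψ := sum_le_sum h2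
        _ = (Cop r).card * (2 ^ k * (c1 + 2 / A) * Ψ) := by rw [sum_const, nsmul_eq_mul]
        _ ≤ U0 * (2 ^ k * (c1 + 2 / A) * Ψ) := by
            have a1 := hCopcard r
            have a2 : (r : ℝ) ≤ U0 := by exact_mod_cast hrU
            exact mul_le_mul_of_nonneg_right (a1.trans a2) (by positivity)
    refine (sum_le_sum h1).trans ?_
    rw [sum_const, nsmul_eq_mul]
    have hcard : ((DD z U0 A B).card : ℝ) ≤ U0 * B := by
      have hsub : DD z U0 A B ⊆ (Finset.Ioc 0 U0) ×ˢ (Finset.Ioc 0 B) := by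
        intro q hq
        rw [mem_DD] at hq
        rw [mem_product, mem_Ioc, mem_Ioc]
        exact ⟨⟨hq.1, hq.2.1⟩, ⟨hq.2.2.1, hq.2.2.2.1⟩⟩
      have := card_le_card hsub
      rw [card_product, Nat.card_Ioc, Nat.card_Ioc, Nat.sub_zero, Nat.sub_zero] at this
      exact_mod_cast this
    calc _ ≤ (U0 * B) * (U0 * (2 ^ k * (c1 + 2 / A) * Ψ)) := by gcongr
      _ = _ := by ring
  -- conclusion
  have hre : -(U0 ^ 2 * Ψ * FA) ≤ (∑ i ∈ S, (w i.1.1 i.1.2 i.2.2 : ℂ) * ((SV V N (xP i) -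
      gq i.1.2 * SV V N ((i.2.1 : ℝ) / i.1.1)) *
      (starRingEnd ℂ) (gq i.1.2 * SV V N ((i.2.1 : ℝ) / i.1.1)))).re := by
    have h1 := (abs_le.1 ((Complex.abs_re_le_norm _).trans herr)).1
    exact h1
  have h4 : 2 * C1 * ∑ i ∈ S, w i.1.1 i.1.2 i.2.2 * ‖gq i.1.2 * SV V N ((i.2.1 : ℝ) / i.1.1)‖ ≤
      2 * C1 * (2 ^ k * U0 ^ 2 * B * (c1 + 2 / A) * Ψ) := by gcongr
  linarith

end Pool.Agent.Lib.MP_00e05b_nt
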