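import Mathlib
import Pool.Agent.Lib.MP_00e05b_nt.QSum
import Pool.Agent.Lib.MP_00e05b_nt.PsiRH
import Pool.Agent.Lib.MP_00e05b_nt.VProps

/-!
# Parameters for the sharp bound: general lemmas
-/

open Finset Filter
open scoped ContDiff

namespace Pool.Agent.Lib.MP_00e05b_nt

open Pool.Agent.Lib.MP_2a816b_nt

lemma rough_card (y δ : ℝ) (hy : 0 < y) (hδ : 0 < δ) (s : ℕ) (hs : 0 < s)
    (hsy : (s : ℝ) ≤ Real.exp (y / 2)) (hp : ∀ q, q.Prime → q ∣ s → ⌊Real.exp (δ * y)⌋₊ < q) :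
    s.primeFactors.card ≤ ⌈1 / (2 * δ)⌉₊ := by
  have h1 : (Real.exp (δ * y)) ^ s.primeFactors.card ≤ Real.exp (y / 2) := by
    calc (Real.exp (δ * y)) ^ s.primeFactors.card = ∏ p ∈ s.primeFactors, Real.exp (δ * y) := by
          rw [prod_const]
      _ ≤ ∏ p ∈ s.primeFactors, (p : ℝ) := by
          apply Finset.prod_le_prod
          · intro p _; exact (Real.exp_pos _).le
          · intro p hpm
            rw [Nat.mem_primeFactors] at hpm
            exact ((Nat.floor_lt (Real.exp_pos _).le).1 (hp p hpm.1 hpm.2.1)).le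
      _ = ((∏ p ∈ s.primeFactors, p : ℕ) : ℝ) := by push_cast; rfl
      _ ≤ s := by
          exact_mod_cast Nat.le_of_dvd hs (Nat.prod_primeFactors_dvd s)
      _ ≤ _ := hsy
  rw [← Real.exp_nat_mul] at h1
  have h2 := Real.exp_le_exp.1 h1
  have h3 : (s.primeFactors.card : ℝ) ≤ 1 / (2 * δ) := by
    rw [le_div_iff₀ (by positivity)]
    have h4 : (s.primeFactors.card : ℝ) * (2 * δ) * y ≤ 1 * y := by linarith
    exact le_of_mul_le_mul_right h4 hy
  exact_mod_cast h3.trans (Nat.le_ceil _)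

/-- the mass of the weight -/
lemma psi_bounds (hRH : RiemannHypothesis) {W : ℝ → ℝ} (hW : ContDiff ℝ ∞ W) (h0 : ∀ u, 0 ≤ W u)
    (h1 : ∀ u, W u ≤ 1) (hs : ∀ u, 3 / 4 ≤ |u| → W u = 0) {P0 δ : ℝ} (hδ : δ < 1 / 4)
    (hP : P0 < ∫ v in (-1 : ℝ)..1, W v * Real.exp v) :
    ∀ᶠ y : ℝ in atTop, P0 * Real.exp (y / 2) +
      2 * Real.exp (2 * δ * y) * Real.exp (-(y / 2)) * (y + 1) ≤
        ∑ n ∈ Ioc 0 ⌊Real.exp (y + 1)⌋₊, Vw W y n * vM n ∧
      ∑ n ∈ Ioc 0 ⌊Real.exp (y + 1)⌋₊, Vw W y n * vM n ≤ 4 * Real.exp (y / 2) := by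
  obtain ⟨C, hC, hpsi⟩ := psi_RH hRH hW h0 h1 hs
  set I : ℝ := ∫ v in (-1 : ℝ)..1, W v * Real.exp v with hI
  have hI3 : I ≤ 3 := by
    have hb : ∀ v ∈ Set.uIoc (-1 : ℝ) 1, ‖W v * Real.exp v‖ ≤ Real.exp v := by
      intro v _
      rw [Real.norm_eq_abs, abs_of_nonneg (mul_nonneg (h0 v) (Real.exp_pos v).le)]
      have := Real.exp_pos v
      nlinarith [h1 v]
    have h2 := intervalIntegral.norm_integral_le_of_norm_le (a := (-1 : ℝ)) (b := 1)
      (f := fun v => W v * Real.exp v) (g := Real.exp) (μ := MeasureTheory.volume) (by norm_num)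
      (Filter.Eventually.of_forall fun v hv => hb v (by
        rw [Set.uIoc_of_le (by norm_num)]; exact hv)) (by
        exact Real.continuous_exp.intervalIntegrable _ _)
    rw [integral_exp, ← hI, Real.norm_eq_abs] at h2
    have h3 := Real.exp_one_lt_d9
    have h4 := Real.exp_pos (-1)
    have h5 := le_abs_self I
    linarith
  have E1 := ev_exp 1 8 (2 * δ) (1 / 2) (by linarith)
  have E2 := ev_exp 0 (C / (I - P0) * 2) 0 (1 / 2) (by norm_num)
  have E3 := ev_exp 0 C 0 (1 / 2) (by norm_num)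
  have E4 := ev_exp 0 (2 / (I - P0)) 0 (1 / 2) (by norm_num)
  filter_upwards [E1, E2, E3, E4, eventually_ge_atTop 2] with y e1 e2 e3 e4 hy
  simp only [pow_zero, mul_one, pow_one, zero_mul, Real.exp_zero] at e1 e2 e3 e4
  have hIP : 0 < I - P0 := by linarith
  have ey : Real.exp (1 / 2 * y) = Real.exp (y / 2) := by congr 1; ring
  rw [ey] at e1 e2 e3 e4
  have hsum : (∑' n : ℕ, ((ArithmeticFunction.vonMangoldt n : ℝ) : ℂ) *
        ((Real.exp (-(y / 2)) * W (Real.log n - y) : ℝ) : ℂ)) =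
      ((∑ n ∈ Ioc 0 ⌊Real.exp (y + 1)⌋₊, Vw W y n * vM n : ℝ) : ℂ) := by
    rw [tsum_eq_sum (s := Ioc 0 ⌊Real.exp (y + 1)⌋₊)]
    · push_cast
      apply sum_congr rfl; intro n _
      have e5 : (vM n : ℝ) = ArithmeticFunction.vonMangoldt n := rfl
      rw [e5]
      unfold Vw
      push_cast
      ring
    · intro n hn
      rw [mem_Ioc, not_and_or, not_lt, not_le] at hn
      rcases hn with h | h
      · have : n = 0 := by omega
        subst this
        simp
      · have := Vw_large hs y n h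
        unfold Vw at this
        rw [this]
        simp
  have h2 := hpsi y hy
  rw [hsum, ← Complex.ofReal_sub, Complex.norm_real, Real.norm_eq_abs, abs_le] at h2
  set S : ℝ := ∑ n ∈ Ioc 0 ⌊Real.exp (y + 1)⌋₊, Vw W y n * vM n with hS
  have hey : 1 ≤ Real.exp (y / 2) := Real.one_le_exp (by linarith)
  have hEny : Real.exp (-(y / 2)) * Real.exp (y / 2) = 1 := by
    rw [← Real.exp_add]; simp
  have hen : 0 < Real.exp (-(y / 2)) := Real.exp_pos _
  constructor
  · -- the correction is at most 1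
    have h3 : 2 * Real.exp (2 * δ * y) * Real.exp (-(y / 2)) * (y + 1) ≤ 1 := by
      calc 2 * Real.exp (2 * δ * y) * Real.exp (-(y / 2)) * (y + 1) ≤
          2 * Real.exp (2 * δ * y) * Real.exp (-(y / 2)) * (2 * y) := by
            gcongr; linarith
        _ = Real.exp (-(y / 2)) * (8 * y * Real.exp (2 * δ * y)) / 2 := by ring
        _ ≤ Real.exp (-(y / 2)) * Real.exp (y / 2) / 2 := by gcongr
        _ ≤ 1 := by rw [hEny]; norm_num
    have h4 : C ≤ (I - P0) / 2 * Real.exp (y / 2) := by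
      have : C = (I - P0) / 2 * (C / (I - P0) * 2) := by field_simp
      rw [this]
      gcongr
    have h5 : 1 ≤ (I - P0) / 2 * Real.exp (y / 2) := by
      have : 1 = (I - P0) / 2 * (2 / (I - P0)) := by field_simp
      rw [this]
      gcongr
    have h6 : Real.exp (y / 2) * I - C ≤ S := by linarith [h2.1]
    nlinarith
  · have h6 : S ≤ Real.exp (y / 2) * I + C := by linarith [h2.2]
    nlinarith

/-- the sum over the pairs -/
lemma qsum_ev (δ2 δ3 δ4 C0 η : ℝ) (h2 : 0 < δ2) (h3 : 0 < δ3) (h4 : 0 < δ4) (hη : 0 < η) :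
    ∀ᶠ y : ℝ in atTop, ∀ T β : ℝ, 0 < T → T ≤ Real.exp (y + C0) → β ≤ y / 2 →
      0 ≤ β + Real.log T - y - (δ4 + δ2 + 2 * δ3 / δ2 + η) * y →
      β + Real.log T - y - (δ4 + δ2 + 2 * δ3 / δ2 + η) * y ≤
        ∑ q ∈ DD ⌊Real.exp (δ3 * y)⌋₊ ⌊Real.exp (δ2 * y)⌋₊ ⌈Real.exp (δ4 * y) * (Real.exp y / T)⌉₊
          ⌊Real.exp β⌋₊, (1 : ℝ) / ((q.1.totient : ℝ) * q.2.totient) := by
  have E1 := ev_exp 0 2 0 δ2 h2
  have E3 := ev_exp 1 (16 / η) 0 δ3 h3
  filter_upwards [E1, E3, eventually_ge_atTop 4, eventually_ge_atTop (C0 / δ4),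
    eventually_ge_atTop (32 / η), eventually_ge_atTop (12 * (δ3 + 2) / (δ2 * η)),
    eventually_ge_atTop (3 / δ2)] with y e1 e3 hy4 hyC hyη hyδ hy2
  intro T β hT hTy hβ hG
  simp only [pow_zero, mul_one, pow_one, zero_mul, Real.exp_zero] at e1 e3
  have hexp : ∀ t : ℝ, 0 < Real.exp t := Real.exp_pos
  have hy0 : 0 < y := by linarith
  have hC : C0 ≤ δ4 * y := by rw [div_le_iff₀ h4] at hyC; linarith
  have hη' : 32 ≤ η * y := by rw [div_le_iff₀ hη] at hyη; linarith
  have hδ' : 12 * (δ3 + 2) ≤ δ2 * η * y := by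
    rw [div_le_iff₀ (by positivity)] at hyδ; linarith
  have hδ2' : 3 ≤ δ2 * y := by rw [div_le_iff₀ h2] at hy2; linarith
  have hlogT : Real.log T ≤ y + C0 := by
    rw [Real.log_le_iff_le_exp hT]; exact hTy
  have hδ32 : 0 < δ3 / δ2 := by positivity
  have hl2 : Real.log 2 ≤ 1 := by
    have := Real.log_two_lt_d9
    linarith
  -- the exponent of `A`
  set α : ℝ := δ4 * y + (y - Real.log T) with hα
  have hα0 : 0 ≤ α := by rw [hα]; linarith
  have hAe : Real.exp (δ4 * y) * (Real.exp y / T) = Real.exp α := by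
    rw [hα, Real.exp_add, Real.exp_sub, Real.exp_log hT]
  rw [hAe]
  set A : ℕ := ⌈Real.exp α⌉₊ with hA
  set U0 : ℕ := ⌊Real.exp (δ2 * y)⌋₊ with hU0
  set z : ℕ := ⌊Real.exp (δ3 * y)⌋₊ with hz
  set B : ℕ := ⌊Real.exp β⌋₊ with hB
  have hβη : α + δ2 * y + η * y ≤ β := by
    have h5 : 0 ≤ 2 * (δ3 / δ2) * y := by positivity
    have h6 : 2 * δ3 / δ2 = 2 * (δ3 / δ2) := by ring
    rw [h6] at hG
    rw [hα]
    nlinarith
  have hβ0 : 0 ≤ β := by
    have h5 : 0 ≤ δ2 * y := by positivity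
    have h6 : 0 ≤ η * y := by positivity
    linarith
  have hz1 : 1 ≤ z := Nat.le_floor (by
    rw [Nat.cast_one]; exact Real.one_le_exp (by positivity))
  have hU2 : 2 ≤ U0 := Nat.le_floor (by push_cast; exact e1)
  have hA1 : 1 ≤ A := Nat.one_le_ceil_iff.2 (hexp _)
  have hA2 : (A : ℝ) ≤ 2 * Real.exp α := by
    have h5 := Nat.ceil_lt_add_one (a := Real.exp α) (hexp _).le
    have h6 : 1 ≤ Real.exp α := Real.one_le_exp hα0
    linarith
  have hUle : (U0 : ℝ) ≤ Real.exp (δ2 * y) := Nat.floor_le (hexp _).le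
  have hzle : (z : ℝ) ≤ Real.exp (δ3 * y) := Nat.floor_le (hexp _).le
  have hBle : (B : ℝ) ≤ Real.exp β := Nat.floor_le (hexp _).le
  have hAr : (1 : ℝ) ≤ A := by exact_mod_cast hA1
  have hUr : (2 : ℝ) ≤ U0 := by exact_mod_cast hU2
  have hzr : (1 : ℝ) ≤ z := by exact_mod_cast hz1
  have hAUB : A * U0 ≤ B := by
    apply Nat.le_floor
    push_cast
    have h7 : 4 ≤ Real.exp (η * y) := by
      have := Real.add_one_le_exp (η * y)
      linarith
    calc (A : ℝ) * U0 ≤ (2 * Real.exp α) * Real.exp (δ2 * y) := by gcongr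
      _ ≤ (Real.exp (η * y) * Real.exp α) * Real.exp (δ2 * y) := by
          gcongr
          linarith
      _ = Real.exp (α + δ2 * y + η * y) := by
          rw [← Real.exp_add, ← Real.exp_add]; congr 1; ring
      _ ≤ Real.exp β := Real.exp_le_exp.2 hβη
  have hB1 : 1 ≤ B := le_trans (Nat.mul_pos hA1 (by omega)) hAUB
  have hBr : (1 : ℝ) ≤ B := by exact_mod_cast hB1
  have hmain := sum_DD z U0 A B hz1 hU2 hA1 hAUB
  refine le_trans ?_ hmain
  -- estimates
  have f1 : β - 1 ≤ Real.log B := by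
    have h8 : Real.exp β ≤ 2 * B := by
      have := Nat.lt_floor_add_one (Real.exp β)
      rw [← hB] at this
      linarith
    have h9 : β ≤ Real.log (2 * B) := by
      rw [Real.le_log_iff_exp_le (by positivity)]; exact h8
    rw [Real.log_mul (by norm_num) (by positivity)] at h9
    linarith
  have f2 : Real.log B ≤ y / 2 := by
    refine le_trans ?_ hβ
    rw [Real.log_le_iff_le_exp (by positivity)]
    exact hBle
  have f3 : Real.log (A * U0) ≤ 1 + α + δ2 * y := by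
    rw [Real.log_le_iff_le_exp (by positivity)]
    have h10 : 2 ≤ Real.exp 1 := by
      have := Real.exp_one_gt_d9
      linarith
    calc (A : ℝ) * U0 ≤ (2 * Real.exp α) * Real.exp (δ2 * y) := by gcongr
      _ ≤ (Real.exp 1 * Real.exp α) * Real.exp (δ2 * y) := by gcongr
      _ = _ := by rw [← Real.exp_add, ← Real.exp_add]
  have f4 : Real.log z ≤ δ3 * y := by
    rw [Real.log_le_iff_le_exp (by positivity)]
    exact hzle
  have f5 : 2 / 3 * (δ2 * y) ≤ Real.log U0 := by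
    have h8 : Real.exp (δ2 * y) ≤ 2 * U0 := by
      have := Nat.lt_floor_add_one (Real.exp (δ2 * y))
      rw [← hU0] at this
      linarith
    have h9 : δ2 * y ≤ Real.log (2 * U0) := by
      rw [Real.le_log_iff_exp_le (by positivity)]; exact h8
    rw [Real.log_mul (by norm_num) (by positivity)] at h9
    linarith
  have f6 : (2 * Real.log z + 4) / Real.log U0 * (Real.log B + 1) ≤
      2 * δ3 / δ2 * y + η / 4 * y := by
    have hlU : 0 < Real.log U0 := by
      have : 0 < δ2 * y := by positivity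
      linarith
    have hlB : 0 ≤ Real.log B := Real.log_natCast_nonneg B
    have hlz : 0 ≤ Real.log z := Real.log_natCast_nonneg z
    calc (2 * Real.log z + 4) / Real.log U0 * (Real.log B + 1) ≤
        (2 * (δ3 * y) + 4) / (2 / 3 * (δ2 * y)) * (y / 2 + 1) := by gcongr
      _ = (3 / 2) * (δ3 / δ2) * y + 3 * (δ3 + 1 + 2 / y) / δ2 := by
          field_simp
          ring
      _ ≤ 2 * δ3 / δ2 * y + η / 4 * y := by
          have g1 : 2 / y ≤ 1 := by rw [div_le_one hy0]; linarith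
          have g2 : 3 * (δ3 + 1 + 2 / y) / δ2 ≤ η / 4 * y := by
            rw [div_le_iff₀ h2]
            nlinarith
          have g3 : 2 * δ3 / δ2 * y = 2 * (δ3 / δ2) * y := by ring
          rw [g3]
          have g4 : 0 ≤ (δ3 / δ2) * y := by positivity
          linarith
  have f7 : 2 / ((z : ℝ) + 1) * (Real.log B + 1) ≤ η / 4 * y := by
    have h11 : Real.exp (δ3 * y) ≤ (z : ℝ) + 1 := by
      have := Nat.lt_floor_add_one (Real.exp (δ3 * y))
      rw [← hz] at this
      linarith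
    have h12 : 16 / η * y ≤ (z : ℝ) + 1 := e3.trans h11
    have hlB : 0 ≤ Real.log B := Real.log_natCast_nonneg B
    rw [div_mul_eq_mul_div, div_le_iff₀ (by positivity)]
    calc 2 * (Real.log B + 1) ≤ 2 * (y / 2 + 1) := by gcongr
      _ ≤ 4 * y * y := by nlinarith
      _ = η / 4 * y * (16 / η * y) := by field_simp; ring
      _ ≤ _ := by gcongr
  rw [hα] at f3
  have e9 : (δ4 + δ2 + 2 * δ3 / δ2 + η) * y = δ4 * y + δ2 * y + 2 * δ3 / δ2 * y + η * y := by ring
  rw [e9]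
  linarith

end Pool.Agent.Lib.MP_00e05b_nt
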