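import Mathlib
import Pool.Agent.Lib.MP_00e05b_nt.SharpMain
import Pool.Agent.Lib.MP_00e05b_nt.SharpParam

/-!
# The window bound from a bound for the error functional
-/

open Finset Filter
open scoped ContDiff

namespace Pool.Agent.Lib.MP_00e05b_nt

open Pool.Agent.Lib.MP_2a816b_nt

/-- right end of the frequency interval -/
noncomputable def cc (κ ρ T y : ℝ) : ℝ := (1 - κ) * T / (2 * Real.pi * Real.exp (y + ρ))

lemma cc_exp (κ ρ T y : ℝ) :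
    cc κ ρ T y * Real.exp y = (1 - κ) * (T / (2 * Real.pi)) * Real.exp (-ρ) := by
  unfold cc
  rw [Real.exp_add, Real.exp_neg]
  have := Real.exp_pos y
  have := Real.exp_pos ρ
  have := Real.pi_pos
  field_simp

lemma cc_pos {κ ρ T y : ℝ} (hκ : κ < 1) (hT : 0 < T) : 0 < cc κ ρ T y := by
  have h1 : 0 < 1 - κ := by linarith
  unfold cc
  positivity

lemma cc_le {κ ρ T y : ℝ} (hκ0 : 0 ≤ κ) (hκ : κ < 1) (hρ : 0 ≤ ρ) (hT : 0 < T) :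
    cc κ ρ T y ≤ T * Real.exp (-y) := by
  have h5 : cc κ ρ T y = ((1 - κ) * (T / (2 * Real.pi)) * Real.exp (-ρ)) * Real.exp (-y) := by
    rw [← cc_exp κ ρ T y, mul_assoc, ← Real.exp_add]; simp
  rw [h5]
  have hpi := Real.pi_gt_three
  have h6 : (1 - κ) * (T / (2 * Real.pi)) * Real.exp (-ρ) ≤ 1 * (T / 1) * 1 := by
    have h7 : Real.exp (-ρ) ≤ 1 := Real.exp_le_one_iff.2 (by linarith)
    have h8 : 0 < 1 - κ := by linarith
    gcongr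
    · linarith
    · linarith
  rw [one_mul, div_one, mul_one] at h6
  gcongr

lemma low_aux {κ ρ T y : ℝ} (hκ0 : 0 < κ) (hκ : κ < 1) (hT : Real.exp (2 / 3 * y) ≤ T)
    (he : 1 / (κ * (1 - κ) * Real.exp (-(ρ + 1))) ^ 3 * Real.exp (1 / 2 * y) ≤ Real.exp (2 * y)) :
    Real.exp (y / 2) ≤ (2 * Real.pi * (κ * cc κ ρ T y) * Real.exp (y - 1)) ^ 3 := by
  have hκ2 : 0 < 1 - κ := by linarith
  have hpi := Real.pi_pos
  set cs : ℝ := κ * (1 - κ) * Real.exp (-(ρ + 1)) with hcs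
  have hcs0 : 0 < cs := by positivity
  have h5 : 2 * Real.pi * (κ * cc κ ρ T y) * Real.exp (y - 1) = cs * T := by
    have e9 : Real.exp (y - 1) = Real.exp y * Real.exp (-1) := by
      rw [← Real.exp_add]; congr 1
    have e10 : Real.exp (-(ρ + 1)) = Real.exp (-ρ) * Real.exp (-1) := by
      rw [← Real.exp_add]; congr 1; ring
    rw [e9, hcs, e10]
    calc 2 * Real.pi * (κ * cc κ ρ T y) * (Real.exp y * Real.exp (-1)) =
        2 * Real.pi * κ * (cc κ ρ T y * Real.exp y) * Real.exp (-1) := by ring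
      _ = _ := by rw [cc_exp]; field_simp
  rw [h5, mul_pow]
  have h6 : Real.exp (1 / 2 * y) = Real.exp (y / 2) := by congr 1; ring
  rw [h6] at he
  have h7 : Real.exp (2 * y) ≤ T ^ 3 := by
    calc Real.exp (2 * y) = Real.exp (2 / 3 * y) ^ 3 := by
          rw [← Real.exp_nat_mul]; congr 1; push_cast; ring
      _ ≤ T ^ 3 := by gcongr
  calc Real.exp (y / 2) = cs ^ 3 * (1 / cs ^ 3 * Real.exp (y / 2)) := by field_simp
    _ ≤ cs ^ 3 * T ^ 3 := by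
        apply mul_le_mul_of_nonneg_left (he.trans h7) (by positivity)

lemma kappa_aux {κ ρ T y Δ κ' kr z s δ3 δ4 A : ℝ} (hκ : κ < 1 / 2) (hT : 0 < T)
    (hκ' : 0 < κ') (hk0 : 0 ≤ kr) (hz0 : 0 < z) (hzr : Real.exp (δ3 * y) / 2 ≤ z) (hΔ0 : 0 < Δ)
    (hΔ : (1 - 2 * κ) * cc κ ρ T y ≤ Δ) (hA : Real.exp (δ4 * y) * (Real.exp y / T) ≤ A)
    (hAs : A ≤ s) (e2 : 4 * kr / κ' ≤ Real.exp (δ3 * y))
    (e3 : 8 * (1 + kr) * Real.pi * Real.exp ρ / (κ' * (1 - 2 * κ) * (1 - κ)) ≤ Real.exp (δ4 * y)) :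
    Δ * s * (kr / z) + 2 * (1 + kr) ≤ κ' * (Δ * s) := by
  have hκ2 : 0 < 1 - κ := by linarith
  have hκ3 : 0 < 1 - 2 * κ := by linarith
  have hpi := Real.pi_pos
  have hey := Real.exp_pos y
  have hs0 : 0 < s := lt_of_lt_of_le (by positivity) (hA.trans hAs)
  have h5 : kr / z ≤ κ' / 2 := by
    rw [div_le_iff₀ hz0]
    rw [div_le_iff₀ hκ'] at e2
    nlinarith
  have h6 : 2 * (1 + kr) ≤ κ' / 2 * (Δ * s) := by
    have h7 : (1 - 2 * κ) * cc κ ρ T y * (Real.exp (δ4 * y) * (Real.exp y / T)) ≤ Δ * s :=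
      mul_le_mul hΔ (hA.trans hAs) (by positivity) hΔ0.le
    have h8 : (1 - 2 * κ) * cc κ ρ T y * (Real.exp (δ4 * y) * (Real.exp y / T)) =
        (1 - 2 * κ) * (1 - κ) / (2 * Real.pi * Real.exp ρ) * Real.exp (δ4 * y) := by
      calc _ = (1 - 2 * κ) * (cc κ ρ T y * Real.exp y) / T * Real.exp (δ4 * y) := by ring
        _ = _ := by
            rw [cc_exp, Real.exp_neg]
            field_simp
    rw [h8] at h7
    have h10 : 2 * (1 + kr) = κ' / 2 * ((1 - 2 * κ) * (1 - κ) / (2 * Real.pi * Real.exp ρ) *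
        (8 * (1 + kr) * Real.pi * Real.exp ρ / (κ' * (1 - 2 * κ) * (1 - κ)))) := by
      field_simp
      ring
    rw [h10]
    apply mul_le_mul_of_nonneg_left _ (by positivity)
    refine le_trans ?_ h7
    exact mul_le_mul_of_nonneg_left e3 (by positivity)
  have h7 : Δ * s * (kr / z) ≤ Δ * s * (κ' / 2) :=
    mul_le_mul_of_nonneg_left h5 (by positivity)
  linarith

lemma exp_neg_aux {C δ y : ℝ} (h : C ≤ Real.exp (δ * y)) : C * Real.exp (-(δ * y)) ≤ 1 := by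
  calc C * Real.exp (-(δ * y)) ≤ Real.exp (δ * y) * Real.exp (-(δ * y)) :=
        mul_le_mul_of_nonneg_right h (Real.exp_pos _).le
    _ = 1 := by rw [← Real.exp_add]; simp

lemma err1_aux {η T δ2 y U0 Ψ : ℝ} (hη : 0 < η) (hT : 0 < T) (hU0 : 0 ≤ U0)
    (hUle : U0 ≤ Real.exp (δ2 * y)) (hΨ0 : 0 ≤ Ψ)
    (hψ2 : Ψ ≤ 4 * Real.exp (y / 2)) (e4 : 16 / η ≤ Real.exp (δ2 * y)) :
    2 * (U0 ^ 2 * Ψ * (T * Real.exp (-(1 / 2 + 3 * δ2) * y))) ≤ η / 2 * T := by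
  have hU2 : U0 ^ 2 ≤ Real.exp (2 * δ2 * y) := by
    calc U0 ^ 2 ≤ Real.exp (δ2 * y) ^ 2 := by gcongr
      _ = _ := by rw [← Real.exp_nat_mul]; congr 1; push_cast; ring
  calc 2 * (U0 ^ 2 * Ψ * (T * Real.exp (-(1 / 2 + 3 * δ2) * y))) ≤
      2 * (Real.exp (2 * δ2 * y) * (4 * Real.exp (y / 2)) *
        (T * Real.exp (-(1 / 2 + 3 * δ2) * y))) := by gcongr
    _ = 8 * T * Real.exp (-(δ2 * y)) := by
        have : Real.exp (-(δ2 * y)) = Real.exp (2 * δ2 * y) * Real.exp (y / 2) *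
            Real.exp (-(1 / 2 + 3 * δ2) * y) := by
          rw [← Real.exp_add, ← Real.exp_add]; congr 1; ring
        rw [this]; ring
    _ ≤ η / 2 * T := by
        have h5 := exp_neg_aux e4
        have h6 : 8 * T * Real.exp (-(δ2 * y)) = η / 2 * T * (16 / η * Real.exp (-(δ2 * y))) := by
          field_simp; ring
        rw [h6]
        calc η / 2 * T * (16 / η * Real.exp (-(δ2 * y))) ≤ η / 2 * T * 1 :=
              mul_le_mul_of_nonneg_left h5 (by positivity)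
          _ = _ := mul_one _

lemma A_aux {T y A δ4 : ℝ} (hT : 0 < T) (hδ4y : 0 ≤ δ4 * y)
    (hAge : Real.exp (δ4 * y) * (Real.exp y / T) ≤ A) : 2 / A ≤ 2 * (T * Real.exp (-y)) := by
  have hey := Real.exp_pos y
  have h5 : Real.exp y / T ≤ A := by
    refine le_trans ?_ hAge
    have h7 : 1 ≤ Real.exp (δ4 * y) := Real.one_le_exp hδ4y
    have h6 : 0 ≤ Real.exp y / T := by positivity
    calc Real.exp y / T = 1 * (Real.exp y / T) := (one_mul _).symm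
      _ ≤ _ := mul_le_mul_of_nonneg_right h7 h6
  have hA0 : 0 < A := lt_of_lt_of_le (by positivity) h5
  rw [div_le_iff₀ hA0, Real.exp_neg]
  calc (2 : ℝ) = 2 * (T * (Real.exp y)⁻¹) * (Real.exp y / T) := by field_simp
    _ ≤ _ := mul_le_mul_of_nonneg_left h5 (by positivity)

lemma err2_aux {η T δ2 y U0 Ψ C1 K2 B c1 A2 β : ℝ} (hη : 0 < η) (hT : 0 < T) (hU0 : 0 ≤ U0)
    (hUle : U0 ≤ Real.exp (δ2 * y)) (hΨ0 : 0 ≤ Ψ) (hC1 : 0 ≤ C1) (hK2 : 0 ≤ K2) (hB : 0 ≤ B)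
    (hc10 : 0 ≤ c1) (hA20 : 0 ≤ A2) (hBle : B ≤ Real.exp β) (hβ : β ≤ (1 / 2 - 3 * δ2) * y)
    (hc1 : c1 ≤ T * Real.exp (-y)) (hA2 : A2 ≤ 2 * (T * Real.exp (-y)))
    (hψ2 : Ψ ≤ 4 * Real.exp (y / 2)) (e5 : 48 * C1 * K2 / η ≤ Real.exp (δ2 * y)) :
    2 * C1 * (K2 * U0 ^ 2 * B * (c1 + A2) * Ψ) ≤ η / 2 * T := by
  have hU2 : U0 ^ 2 ≤ Real.exp (2 * δ2 * y) := by
    calc U0 ^ 2 ≤ Real.exp (δ2 * y) ^ 2 := by gcongr
      _ = _ := by rw [← Real.exp_nat_mul]; congr 1; push_cast; ring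
  have hB5 : B ≤ Real.exp ((1 / 2 - 3 * δ2) * y) := hBle.trans (Real.exp_le_exp.2 hβ)
  calc 2 * C1 * (K2 * U0 ^ 2 * B * (c1 + A2) * Ψ) ≤
      2 * C1 * (K2 * Real.exp (2 * δ2 * y) * Real.exp ((1 / 2 - 3 * δ2) * y) *
        (T * Real.exp (-y) + 2 * (T * Real.exp (-y))) * (4 * Real.exp (y / 2))) := by gcongr
    _ = 24 * C1 * K2 * T * Real.exp (-(δ2 * y)) := by
        have : Real.exp (-(δ2 * y)) = Real.exp (2 * δ2 * y) * Real.exp ((1 / 2 - 3 * δ2) * y) *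
            Real.exp (-y) * Real.exp (y / 2) := by
          rw [← Real.exp_add, ← Real.exp_add, ← Real.exp_add]; congr 1; ring
        rw [this]; ring
    _ ≤ η / 2 * T := by
        have h5 := exp_neg_aux e5
        have h6 : 24 * C1 * K2 * T * Real.exp (-(δ2 * y)) =
            η / 2 * T * (48 * C1 * K2 / η * Real.exp (-(δ2 * y))) := by
          field_simp; ring
        rw [h6]
        calc η / 2 * T * (48 * C1 * K2 / η * Real.exp (-(δ2 * y))) ≤ η / 2 * T * 1 :=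
              mul_le_mul_of_nonneg_left h5 (by positivity)
          _ = _ := mul_one _

lemma K_aux {η K B β δ2 y : ℝ} (hη : 0 < η) (hB : 0 ≤ B) (hBle : B ≤ Real.exp β)
    (hβ : β ≤ (1 / 2 - 3 * δ2) * y) (e6 : K / η ≤ Real.exp (6 * δ2 * y)) :
    K * B ^ 2 / Real.exp y ≤ η := by
  rw [div_le_iff₀ (Real.exp_pos y)]
  have h5 : B ^ 2 ≤ Real.exp ((1 - 6 * δ2) * y) := by
    calc B ^ 2 ≤ Real.exp β ^ 2 := by gcongr
      _ ≤ Real.exp ((1 / 2 - 3 * δ2) * y) ^ 2 := by gcongr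
      _ = _ := by rw [← Real.exp_nat_mul]; congr 1; push_cast; ring
  rw [div_le_iff₀ hη] at e6
  calc K * B ^ 2 ≤ (Real.exp (6 * δ2 * y) * η) * Real.exp ((1 - 6 * δ2) * y) := by gcongr
    _ = η * Real.exp y := by
        have : Real.exp y = Real.exp (6 * δ2 * y) * Real.exp ((1 - 6 * δ2) * y) := by
          rw [← Real.exp_add]; congr 1; ring
        rw [this]; ring

lemma main_aux {κ κ' ρ T y Δ P0 G S : ℝ} (hκ'1 : κ' ≤ 1) (hG : 0 ≤ G) (hΔ0 : 0 < Δ)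
    (hΔ : (1 - 2 * κ) * cc κ ρ T y ≤ Δ) (hGS : G ≤ S) :
    (1 - κ') * (1 - 2 * κ) * (1 - κ) * (T / (2 * Real.pi)) * Real.exp (-ρ) * P0 ^ 2 * G ≤
      (1 - κ') * Δ * (P0 * Real.exp (y / 2)) ^ 2 * S := by
  have hey : Real.exp (y / 2) * Real.exp (y / 2) = Real.exp y := by
    rw [← Real.exp_add]; congr 1; ring
  have h5 : 0 ≤ 1 - κ' := by linarith
  calc (1 - κ') * (1 - 2 * κ) * (1 - κ) * (T / (2 * Real.pi)) * Real.exp (-ρ) * P0 ^ 2 * G =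
      (1 - κ') * ((1 - 2 * κ) * (cc κ ρ T y * Real.exp y)) * P0 ^ 2 * G := by rw [cc_exp]; ring
    _ = (1 - κ') * ((1 - 2 * κ) * cc κ ρ T y) * (P0 * Real.exp (y / 2)) ^ 2 * G := by
        rw [mul_pow, sq (Real.exp (y / 2)), hey]; ring
    _ ≤ _ := by gcongr

theorem window_general (hRH : RiemannHypothesis) {W : ℝ → ℝ} (hW : ContDiff ℝ ∞ W)
    (h0 : ∀ u, 0 ≤ W u) (h1 : ∀ u, W u ≤ 1) {ρ' ρ κ : ℝ} (hρ0 : 0 < ρ) (hρ' : ρ' < ρ)
    (hρ3 : ρ ≤ 3 / 4) (hs' : ∀ u, ρ' ≤ |u| → W u = 0) (hκ0 : 0 < κ) (hκ1 : κ < 1 / 2)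
    {P0 κ' η δ2 δ3 δ4 C0 : ℝ} (hP00 : 0 ≤ P0) (hP : P0 < ∫ v in (-1 : ℝ)..1, W v * Real.exp v)
    (hκ'0 : 0 < κ') (hκ'1 : κ' ≤ 1) (hη : 0 < η) (hδ2 : 0 < δ2) (hδ28 : δ2 < 1 / 8) (hδ3 : 0 < δ3)
    (hδ4 : 0 < δ4) :
    ∀ᶠ y : ℝ in atTop, ∀ (T β c0' c1' : ℝ) (w : ℕ → ℕ → ℕ → ℝ), Real.exp (2 / 3 * y) ≤ T →
      T ≤ Real.exp (y + C0) → β ≤ (1 / 2 - 3 * δ2) * y →
      κ * cc κ ρ T y ≤ c0' → c0' ≤ c1' → c1' ≤ cc κ ρ T y → (1 - 2 * κ) * cc κ ρ T y ≤ c1' - c0' →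
      (∀ r s a, 0 ≤ w r s a) → (∀ r s a, w r s a ≤ 1) → (∀ r s a : ℕ, c0' ≤ (a : ℝ) / ((r : ℝ) * s) →
        (a : ℝ) / ((r : ℝ) * s) ≤ c1' → w r s a = 1) →
      (∀ r ∈ Finset.Ioc 0 ⌊Real.exp (δ2 * y)⌋₊, ∀ b ∈ Cop r,
        ‖∑ s ∈ MS ⌊Real.exp (δ3 * y)⌋₊ ⌊Real.exp (δ2 * y)⌋₊
          ⌈Real.exp (δ4 * y) * (Real.exp y / T)⌉₊ ⌊Real.exp β⌋₊ r, gq s *
        ∑ a ∈ Ab (κ * cc κ ρ T y) (cc κ ρ T y) r s b, (w r s a : ℂ) *
        (SV (Vw W y) ⌊Real.exp (y + 1)⌋₊ ((a : ℝ) / (r * s)) -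
          gq s * SV (Vw W y) ⌊Real.exp (y + 1)⌋₊ ((b : ℝ) / r))‖ ≤
        T * Real.exp (-(1 / 2 + 3 * δ2) * y)) →
      (1 - κ') * (1 - 2 * κ) * (1 - κ) * (T / (2 * Real.pi)) * Real.exp (-ρ) * P0 ^ 2 *
        (β + Real.log T - y - (δ4 + δ2 + 2 * δ3 / δ2 + η) * y) - η * T ≤
      (2 * ρ * Real.exp ρ + η) * ∫ u in (y - ρ)..(y + ρ), ‖SS T u‖ ^ 2 := by
  have hs : ∀ u, 3 / 4 ≤ |u| → W u = 0 := fun u hu => hs' u (by linarith)
  obtain ⟨C1, hC1, happ⟩ := approxB hRH hW h0 h1 hρ0 hρ' hρ3 hs' hκ0 (by linarith : κ < 1)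
  obtain ⟨K, hK, hcls⟩ := cont_sieveR hW h0 h1 hρ0 hρ' hρ3 hs'
  have hexp : ∀ t : ℝ, 0 < Real.exp t := Real.exp_pos
  obtain ⟨k, hk⟩ : ∃ k : ℕ, k = ⌈1 / (2 * δ3)⌉₊ := ⟨_, rfl⟩
  have E1 := ev_exp 0 (1 / (κ * (1 - κ) * Real.exp (-(ρ + 1))) ^ 3) (1 / 2) 2 (by norm_num)
  have E2 := ev_exp 0 (4 * k / κ') 0 δ3 hδ3
  have E3 := ev_exp 0 (8 * (1 + k) * Real.pi * Real.exp ρ / (κ' * (1 - 2 * κ) * (1 - κ))) 0 δ4 hδ4
  have E4 := ev_exp 0 (16 / η) 0 δ2 hδ2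
  have E5 := ev_exp 0 (48 * C1 * 2 ^ k / η) 0 δ2 hδ2
  have E6 := ev_exp 0 (K / η) 0 (6 * δ2) (by linarith)
  have E7 := psi_bounds hRH hW h0 h1 hs (P0 := P0) (δ := δ2) (by linarith) hP
  have E8 := qsum_ev δ2 δ3 δ4 C0 η hδ2 hδ3 hδ4 hη
  filter_upwards [E1, E2, E3, E4, E5, E6, E7, E8, eventually_ge_atTop 20,
    eventually_ge_atTop (C0 / δ4)] with y e1 e2 e3 e4 e5 e6 e7 e8 hy20 hyC
  intro T β c0' c1' w hT1 hT2 hβ hc0' hc01' hc1' hc10 hw0 hw1 hw hFA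
  simp only [pow_zero, mul_one, zero_mul, Real.exp_zero] at e1 e2 e3 e4 e5 e6
  have hy0 : 0 < y := by linarith
  have hC : C0 ≤ δ4 * y := by rw [div_le_iff₀ hδ4] at hyC; linarith
  have hT0 : 0 < T := (hexp _).trans_le hT1
  have hT11 : 1 ≤ T := (Real.one_le_exp (by positivity)).trans hT1
  have hlogT : Real.log T ≤ y + C0 := by
    rw [Real.log_le_iff_le_exp hT0]; exact hT2
  have hκ2 : 0 < 1 - κ := by linarith
  have hκ3 : 0 < 1 - 2 * κ := by linarith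
  have hInt0 : 0 ≤ ∫ u in (y - ρ)..(y + ρ), ‖SS T u‖ ^ 2 :=
    intervalIntegral.integral_nonneg (by linarith) (fun u _ => by positivity)
  obtain ⟨G, hG⟩ : ∃ G : ℝ, G = β + Real.log T - y - (δ4 + δ2 + 2 * δ3 / δ2 + η) * y := ⟨_, rfl⟩
  rw [← hG]
  have hcoef : 0 ≤ (1 - κ') * (1 - 2 * κ) * (1 - κ) * (T / (2 * Real.pi)) * Real.exp (-ρ) * P0 ^ 2 := by
    have : 0 ≤ 1 - κ' := by linarith
    positivity
  have hRHS0 : 0 ≤ (2 * ρ * Real.exp ρ + η) * ∫ u in (y - ρ)..(y + ρ), ‖SS T u‖ ^ 2 := by positivity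
  rcases lt_or_ge G 0 with hG0 | hG0
  · have h2 : (1 - κ') * (1 - 2 * κ) * (1 - κ) * (T / (2 * Real.pi)) * Real.exp (-ρ) * P0 ^ 2 * G ≤ 0 :=
      mul_nonpos_of_nonneg_of_nonpos hcoef hG0.le
    have h3 : 0 ≤ η * T := by positivity
    linarith
  -- the main case
  have hβ2 : β ≤ y / 2 := by
    have : 0 ≤ δ2 * y := by positivity
    linarith
  have hβ0 : 0 ≤ β := by
    have h5 : 0 ≤ δ2 * y := by positivity
    have h6 : 0 ≤ η * y := by positivity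
    have h7 : 0 ≤ 2 * δ3 / δ2 * y := by positivity
    have e9 : (δ4 + δ2 + 2 * δ3 / δ2 + η) * y = δ4 * y + δ2 * y + 2 * δ3 / δ2 * y + η * y := by ring
    rw [hG, e9] at hG0
    linarith
  have hq := e8 T β hT0 hT2 hβ2 (by rw [← hG]; exact hG0)
  rw [← hG] at hq
  obtain ⟨hψ1, hψ2⟩ := e7
  have hVN : ∀ n, ⌊Real.exp (y + 1)⌋₊ < n → Vw W y n = 0 := fun n hn => Vw_large hs y n hn
  -- number of prime factors
  have hkk : ∀ p ∈ DD ⌊Real.exp (δ3 * y)⌋₊ ⌊Real.exp (δ2 * y)⌋₊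
          ⌈Real.exp (δ4 * y) * (Real.exp y / T)⌉₊ ⌊Real.exp β⌋₊, p.2.primeFactors.card ≤ k := by
    intro p hp
    rw [mem_DD] at hp
    obtain ⟨_, _, g3, g4, _, _, _, g8, _, _⟩ := hp
    rw [hk]
    refine rough_card y δ3 hy0 hδ3 p.2 g3 ?_ g8
    have g5 : (p.2 : ℝ) ≤ ⌊Real.exp β⌋₊ := by exact_mod_cast g4
    exact g5.trans ((Nat.floor_le (hexp _).le).trans (Real.exp_le_exp.2 hβ2))
  have hz1 : 1 ≤ ⌊Real.exp (δ3 * y)⌋₊ := Nat.le_floor (by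
    rw [Nat.cast_one]; exact Real.one_le_exp (by positivity))
  have hU1 : 1 ≤ ⌊Real.exp (δ2 * y)⌋₊ := Nat.le_floor (by
    rw [Nat.cast_one]; exact Real.one_le_exp (by positivity))
  have hB1 : 1 ≤ ⌊Real.exp β⌋₊ := Nat.le_floor (by
    rw [Nat.cast_one]; exact Real.one_le_exp hβ0)
  have hA1 : 1 ≤ ⌈Real.exp (δ4 * y) * (Real.exp y / T)⌉₊ := Nat.one_le_ceil_iff.2 (by positivity)
  have hUle : (⌊Real.exp (δ2 * y)⌋₊ : ℝ) ≤ Real.exp (δ2 * y) := Nat.floor_le (hexp _).le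
  have hBle : (⌊Real.exp β⌋₊ : ℝ) ≤ Real.exp β := Nat.floor_le (hexp _).le
  have hNle : (⌊Real.exp (y + 1)⌋₊ : ℝ) ≤ Real.exp (y + 1) := Nat.floor_le (hexp _).le
  have hN1 : 1 ≤ ⌊Real.exp (y + 1)⌋₊ := Nat.le_floor (by
        rw [Nat.cast_one]; exact Real.one_le_exp (by linarith))
  have hzr : Real.exp (δ3 * y) / 2 ≤ ⌊Real.exp (δ3 * y)⌋₊ := by
    have h5 := Nat.lt_floor_add_one (Real.exp (δ3 * y))
    have h6 : (1 : ℝ) ≤ ⌊Real.exp (δ3 * y)⌋₊ := by exact_mod_cast hz1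
    linarith
  have hAge : Real.exp (δ4 * y) * (Real.exp y / T) ≤ ⌈Real.exp (δ4 * y) * (Real.exp y / T)⌉₊ :=
    Nat.le_ceil _
  generalize ⌊Real.exp (δ3 * y)⌋₊ = z at *
  generalize ⌊Real.exp (δ2 * y)⌋₊ = U0 at *
  generalize ⌈Real.exp (δ4 * y) * (Real.exp y / T)⌉₊ = A at *
  generalize ⌊Real.exp β⌋₊ = B at *
  generalize ⌊Real.exp (y + 1)⌋₊ = N at *
  have hlogN : Real.log N ≤ y + 1 := by
    have hNpos : (0 : ℝ) < N := by exact_mod_cast hN1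
    rw [Real.log_le_iff_le_exp hNpos]
    exact hNle
  have hAr : (1 : ℝ) ≤ A := by exact_mod_cast hA1
  have hz0 : (0 : ℝ) < z := by have := hexp (δ3 * y); linarith
  have hlogN0 : 0 ≤ Real.log N := Real.log_natCast_nonneg N
  have hV0 : ∀ n, 0 ≤ Vw W y n := Vw_nonneg h0 y
  have hVB : ∀ n, Vw W y n ≤ Real.exp (-(y / 2)) := Vw_le h1 y
  have hΨ0 : 0 ≤ ∑ n ∈ Ioc 0 N, Vw W y n * vM n :=
    sum_nonneg (fun n _ => mul_nonneg (hV0 n) (vM_nonneg n))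
  have hc10' : 0 < cc κ ρ T y := cc_pos (by linarith) hT0
  have hBy : (B : ℝ) ^ 2 ≤ Real.exp y := by
    calc (B : ℝ) ^ 2 ≤ Real.exp β ^ 2 := by gcongr
      _ ≤ Real.exp (y / 2) ^ 2 := by gcongr
      _ = Real.exp y := by rw [← Real.exp_nat_mul]; congr 1; push_cast; ring
  have hup : 2 * Real.pi * cc κ ρ T y * Real.exp (y + ρ) ≤ (1 - κ) * T := by
    apply le_of_eq
    unfold cc
    field_simp
  have hlow := low_aux (ρ := ρ) hκ0 (by linarith : κ < 1) hT1 e1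
  have hΔ0 : 0 < c1' - c0' := by
    have : 0 < (1 - 2 * κ) * cc κ ρ T y := by positivity
    linarith
  have hκ'c : ∀ s : ℕ, A < s → (c1' - c0') * s * (k / z) + 2 * (1 + k) ≤
      κ' * ((c1' - c0') * s) := by
    intro s hs
    have hsA : (A : ℝ) ≤ s := by exact_mod_cast hs.le
    exact kappa_aux hκ1 hT0 hκ'0 (Nat.cast_nonneg k) hz0 hzr hΔ0 hc10 hAge hsA e2 e3
  -- the constant p
  have hψ : ∀ r ∈ Finset.Ioc 0 U0, P0 * Real.exp (y / 2) ≤ ∑ n ∈ Ioc 0 N, Vw W y n * vM n -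
      2 * (r : ℝ) ^ 2 * Real.exp (-(y / 2)) * Real.log N := by
    intro r hr
    rw [mem_Ioc] at hr
    have h5 : (r : ℝ) ^ 2 ≤ Real.exp (2 * δ2 * y) := by
      have h6 : (r : ℝ) ≤ Real.exp (δ2 * y) := le_trans (by exact_mod_cast hr.2) hUle
      calc (r : ℝ) ^ 2 ≤ Real.exp (δ2 * y) ^ 2 := by gcongr
        _ = _ := by rw [← Real.exp_nat_mul]; congr 1; push_cast; ring
    have h6 : 2 * (r : ℝ) ^ 2 * Real.exp (-(y / 2)) * Real.log N ≤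
        2 * Real.exp (2 * δ2 * y) * Real.exp (-(y / 2)) * (y + 1) := by gcongr
    linarith
  have hmain := sharp_main hC1 happ hcls T y hT11 (by linarith) (Vw W y) (fun n => rfl) N
    hVN (Real.exp (-(y / 2))) (hexp _).le hV0 hVB z U0 A B k hA1 hz1
    hB1 hBy hkk (κ * cc κ ρ T y) (cc κ ρ T y) c0' c1' (by positivity) hc0' hc01' hc1' hup hlow
    w hw0 hw1 hw
    (P0 * Real.exp (y / 2)) (by positivity) hψ (T * Real.exp (-(1 / 2 + 3 * δ2) * y)) (by positivity)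
    hFA κ' hκ'c hκ'1
  have hE1 := err1_aux hη hT0 (Nat.cast_nonneg U0) hUle hΨ0 hψ2 e4
  have hc1le : cc κ ρ T y ≤ T * Real.exp (-y) := cc_le hκ0.le (by linarith) hρ0.le hT0
  have hA2le : 2 / (A : ℝ) ≤ 2 * (T * Real.exp (-y)) := A_aux hT0 (by positivity) hAge
  have hE2 := err2_aux (K2 := 2 ^ k) hη hT0 (Nat.cast_nonneg U0) hUle hΨ0 hC1 (by positivity)
    (Nat.cast_nonneg B) hc10'.le (by positivity) hBle hβ hc1le hA2le hψ2 e5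
  have hK2 := K_aux hη (Nat.cast_nonneg B) hBle hβ e6
  have hmt := main_aux (P0 := P0) (y := y) hκ'1 hG0 hΔ0 hc10 hq
  have hfin : (2 * ρ * Real.exp ρ + K * B ^ 2 / Real.exp y) *
      (∫ u in (y - ρ)..(y + ρ), ‖SS T u‖ ^ 2) ≤
      (2 * ρ * Real.exp ρ + η) * ∫ u in (y - ρ)..(y + ρ), ‖SS T u‖ ^ 2 := by
    apply mul_le_mul_of_nonneg_right _ hInt0
    linarith
  linarith

end Pool.Agent.Lib.MP_00e05b_nt
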