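import Mathlib
import Pool.Agent.Lib.MP_00e05b_nt.GBDefs

/-!
# The bound for the error functional, moduli up to `T ^ (1/2)`
-/

open Finset Filter
open scoped ContDiff

namespace Pool.Agent.Lib.MP_00e05b_nt


lemma GB_bound {T y C0 δ1 δ2 δ5 c1 τ0 B D0 N : ℝ} (k L U0 U : ℕ) (hT : 0 < T) (hy : 1 ≤ y)
    (hTy : T ≤ Real.exp (y + C0)) (hδ1 : 0 < δ1) (hδ51 : δ5 ≤ δ1) (_hδ5 : 0 < δ5)
    (hU0 : (U0 : ℝ) ≤ Real.exp (δ2 * y)) (hU1 : Real.exp (δ1 * y) * (Real.exp y / T) ≤ U)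
    (hU2 : (U : ℝ) ≤ 2 * (Real.exp (δ1 * y) * (Real.exp y / T))) (hB0 : 0 ≤ B)
    (hB : B ≤ √T * Real.exp (-δ1 * y)) (hD0 : Real.exp (δ5 * y) ≤ D0)
    (hN0 : 0 ≤ N) (hN : N ≤ 3 * Real.exp y) (hL : (L : ℝ) ≤ 3 * y) (hc10 : 0 ≤ c1)
    (hc1 : c1 ≤ T * Real.exp (-y)) (hτ0 : 1 ≤ τ0) :
    GB k L U0 U τ0 c1 B D0 N ≤ 100000 * (5 + 2 * Real.exp (C0 / 4)) * 8 ^ k * y ^ 5 *
      Real.exp (δ2 * y) * √τ0 * T * Real.exp (-(δ5 / 2) * y) := by
  have hexp : ∀ t : ℝ, 0 < Real.exp t := Real.exp_pos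
  have hy0 : 0 < y := by linarith
  have hD0p : 0 < D0 := (hexp _).trans_le hD0
  have hsT : √T * √T = T := Real.mul_self_sqrt hT.le
  have hsT0 : 0 < √T := Real.sqrt_pos.2 hT
  have hs1 : 1 ≤ √τ0 := Real.one_le_sqrt.2 hτ0
  set C3 : ℝ := 5 + 2 * Real.exp (C0 / 4) with hC3
  have hC35 : 5 ≤ C3 := by rw [hC3]; have := hexp (C0 / 4); linarith
  set E : ℝ := Real.exp (-(δ5 / 2) * y) with hE
  have hE0 : 0 < E := hexp _
  have hee : Real.exp (-y) * Real.exp y = 1 := by rw [← Real.exp_add]; simp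
  have hUp : (0 : ℝ) < U := lt_of_lt_of_le (by positivity) hU1
  have hδ1E : Real.exp (-δ1 * y) ≤ E := by
    apply Real.exp_le_exp.2
    apply mul_le_mul_of_nonneg_right _ hy0.le
    linarith
  have hδ12 : Real.exp (-(δ1 / 2) * y) ≤ E := by
    apply Real.exp_le_exp.2
    apply mul_le_mul_of_nonneg_right _ hy0.le
    linarith
  have hsq1 : Real.exp (-(δ1 / 2) * y) ^ 2 = Real.exp (-δ1 * y) := by
    rw [← Real.exp_nat_mul]; congr 1; push_cast; ring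
  -- U c1
  have hUc : U * c1 ≤ 2 * Real.exp (δ1 * y) := by
    calc U * c1 ≤ (2 * (Real.exp (δ1 * y) * (Real.exp y / T))) * (T * Real.exp (-y)) := by gcongr
      _ = 2 * Real.exp (δ1 * y) * (Real.exp (-y) * Real.exp y) := by field_simp
      _ = _ := by rw [hee, mul_one]
  have hB2 : B ^ 2 ≤ T * Real.exp (-(2 * δ1) * y) := by
    calc B ^ 2 ≤ (√T * Real.exp (-δ1 * y)) ^ 2 := by gcongr
      _ = (√T * √T) * Real.exp (-(2 * δ1) * y) := by
          rw [mul_pow, sq (√T), ← Real.exp_nat_mul]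
          congr 2
          push_cast; ring
      _ = _ := by rw [hsT]
  have t1 : 32 * 2 ^ k * L * U0 * U * c1 * B ^ 2 ≤ 192 * 2 ^ k * y * Real.exp (δ2 * y) * T * E := by
    calc 32 * 2 ^ k * L * U0 * U * c1 * B ^ 2 = 32 * 2 ^ k * L * U0 * (U * c1) * B ^ 2 := by ring
      _ ≤ 32 * 2 ^ k * (3 * y) * Real.exp (δ2 * y) * (2 * Real.exp (δ1 * y)) *
          (T * Real.exp (-(2 * δ1) * y)) := by gcongr
      _ = 192 * 2 ^ k * y * Real.exp (δ2 * y) * T * Real.exp (-δ1 * y) := by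
          have : Real.exp (-δ1 * y) = Real.exp (δ1 * y) * Real.exp (-(2 * δ1) * y) := by
            rw [← Real.exp_add]; congr 1; ring
          rw [this]; ring
      _ ≤ _ := by gcongr
  -- c1 N
  have hcN : c1 * N ≤ 3 * T := by
    calc c1 * N ≤ (T * Real.exp (-y)) * (3 * Real.exp y) := by gcongr
      _ = 3 * T * (Real.exp (-y) * Real.exp y) := by ring
      _ = _ := by rw [hee, mul_one]
  have a0 : √(c1 * N) ≤ 2 * √T := by
    rw [Real.sqrt_le_left (by positivity), mul_pow, sq (√T), hsT]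
    linarith
  have a1 : √(c1 * N) / √D0 ≤ 2 * √T * E := by
    have h1 : Real.exp (δ5 / 2 * y) ≤ √D0 := by
      rw [Real.le_sqrt (hexp _).le hD0p.le]
      refine le_trans (le_of_eq ?_) hD0
      rw [← Real.exp_nat_mul]; congr 1; push_cast; ring
    have h2 : 1 / √D0 ≤ E := by
      rw [hE, show -(δ5 / 2) * y = -(δ5 / 2 * y) by ring, Real.exp_neg, one_div]
      exact inv_anti₀ (hexp _) h1
    calc √(c1 * N) / √D0 = √(c1 * N) * (1 / √D0) := by ring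
      _ ≤ 2 * √T * E := by gcongr
  have a2 : √(c1 * B * √N) ≤ 2 * Real.exp (C0 / 4) * √T * E := by
    have h1 : √N ≤ 2 * Real.exp (y / 2) := by
      rw [Real.sqrt_le_left (by positivity), mul_pow, ← Real.exp_nat_mul]
      have : ((2 : ℕ) : ℝ) * (y / 2) = y := by push_cast; ring
      rw [this]
      have := hexp y
      linarith
    have h2 : √T ≤ Real.exp (C0 / 2) * Real.exp (y / 2) := by
      rw [Real.sqrt_le_left (by positivity), ← Real.exp_add, ← Real.exp_nat_mul]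
      refine hTy.trans (le_of_eq ?_)
      congr 1; push_cast; ring
    have h3 : c1 * B * √N ≤ 2 * Real.exp (C0 / 2) * T * Real.exp (-δ1 * y) := by
      calc c1 * B * √N ≤ (T * Real.exp (-y)) * (√T * Real.exp (-δ1 * y)) *
            (2 * Real.exp (y / 2)) := by gcongr
        _ ≤ (T * Real.exp (-y)) * ((Real.exp (C0 / 2) * Real.exp (y / 2)) * Real.exp (-δ1 * y)) *
            (2 * Real.exp (y / 2)) := by gcongr
        _ = 2 * Real.exp (C0 / 2) * T * Real.exp (-δ1 * y) *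
            (Real.exp (-y) * (Real.exp (y / 2) * Real.exp (y / 2))) := by ring
        _ = _ := by
            have : Real.exp (y / 2) * Real.exp (y / 2) = Real.exp y := by
              rw [← Real.exp_add]; congr 1; ring
            rw [this, hee, mul_one]
    calc √(c1 * B * √N) ≤ √(2 * Real.exp (C0 / 2) * T * Real.exp (-δ1 * y)) := by gcongr
      _ ≤ 2 * Real.exp (C0 / 4) * √T * Real.exp (-(δ1 / 2) * y) := by
          rw [Real.sqrt_le_left (by positivity), mul_pow, mul_pow, mul_pow, hsq1, sq (√T), hsT,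
            ← Real.exp_nat_mul]
          have : ((2 : ℕ) : ℝ) * (C0 / 4) = C0 / 2 := by push_cast; ring
          rw [this]
          have h5 : 0 < Real.exp (C0 / 2) * T * Real.exp (-δ1 * y) := by positivity
          nlinarith
      _ ≤ _ := by gcongr
  have a3 : √(N / U) ≤ 2 * √T * E := by
    have h3 : N / U ≤ 3 * T * Real.exp (-δ1 * y) := by
      rw [div_le_iff₀ hUp]
      calc N ≤ 3 * Real.exp y := hN
        _ = 3 * T * Real.exp (-δ1 * y) * (Real.exp (δ1 * y) * (Real.exp y / T)) := by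
            have : Real.exp (-δ1 * y) * Real.exp (δ1 * y) = 1 := by
              rw [← Real.exp_add]; simp
            calc _ = 3 * Real.exp y * (Real.exp (-δ1 * y) * Real.exp (δ1 * y)) := by
                  rw [this, mul_one]
              _ = _ := by field_simp
        _ ≤ _ := by gcongr
    calc √(N / U) ≤ √(3 * T * Real.exp (-δ1 * y)) := by gcongr
      _ ≤ 2 * √T * Real.exp (-(δ1 / 2) * y) := by
          rw [Real.sqrt_le_left (by positivity), mul_pow, mul_pow, hsq1, sq (√T), hsT]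
          have h5 : 0 < T * Real.exp (-δ1 * y) := by positivity
          nlinarith
      _ ≤ _ := by gcongr
  have a4 : B ≤ √T * E := hB.trans (by gcongr)
  have t2 : 144 * 2 ^ k * L ^ 4 * U0 * √τ0 * √(c1 * N) *
      (√(c1 * N) / √D0 + √(c1 * B * √N) + √(N / U) + B) ≤
      23328 * 2 ^ k * y ^ 4 * Real.exp (δ2 * y) * √τ0 * T * (C3 * E) := by
    calc 144 * 2 ^ k * L ^ 4 * U0 * √τ0 * √(c1 * N) *
      (√(c1 * N) / √D0 + √(c1 * B * √N) + √(N / U) + B) ≤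
      144 * 2 ^ k * (3 * y) ^ 4 * Real.exp (δ2 * y) * √τ0 * (2 * √T) *
      (2 * √T * E + 2 * Real.exp (C0 / 4) * √T * E + 2 * √T * E + √T * E) := by gcongr
      _ = 23328 * 2 ^ k * y ^ 4 * Real.exp (δ2 * y) * √τ0 * (√T * √T) * (C3 * E) := by
          rw [hC3]; ring
      _ = _ := by rw [hsT]
  unfold GB
  have hL1 : 1 + (L : ℝ) ≤ 4 * y := by linarith
  have h84 : (4 : ℝ) ^ k * 2 ^ k = 8 ^ k := by rw [← mul_pow]; norm_num
  calc 4 ^ k * (1 + (L : ℝ)) * (32 * 2 ^ k * L * U0 * U * c1 * B ^ 2 +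
      144 * 2 ^ k * L ^ 4 * U0 * √τ0 * √(c1 * N) *
      (√(c1 * N) / √D0 + √(c1 * B * √N) + √(N / U) + B)) ≤
      4 ^ k * (4 * y) * (192 * 2 ^ k * y * Real.exp (δ2 * y) * T * E +
        23328 * 2 ^ k * y ^ 4 * Real.exp (δ2 * y) * √τ0 * T * (C3 * E)) := by gcongr
    _ ≤ 4 ^ k * (4 * y) * (192 * 2 ^ k * y ^ 4 * Real.exp (δ2 * y) * √τ0 * T * (C3 * E) +
        23328 * 2 ^ k * y ^ 4 * Real.exp (δ2 * y) * √τ0 * T * (C3 * E)) := by
        have h1 : 192 * 2 ^ k * y * Real.exp (δ2 * y) * T * E ≤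
            192 * 2 ^ k * y ^ 4 * Real.exp (δ2 * y) * √τ0 * T * (C3 * E) := by
          have h2 : y ≤ y ^ 4 := by
            calc y = y ^ 1 := (pow_one y).symm
              _ ≤ y ^ 4 := pow_le_pow_right₀ hy (by norm_num)
          have h3 : E ≤ C3 * E := by nlinarith
          calc 192 * 2 ^ k * y * Real.exp (δ2 * y) * T * E =
              192 * 2 ^ k * y * Real.exp (δ2 * y) * 1 * T * E := by ring
            _ ≤ _ := by gcongr
        gcongr
    _ = 94080 * (4 ^ k * 2 ^ k) * y ^ 5 * Real.exp (δ2 * y) * √τ0 * T * (C3 * E) := by ring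
    _ ≤ 100000 * C3 * 8 ^ k * y ^ 5 * Real.exp (δ2 * y) * √τ0 * T * E := by
        rw [h84]
        have h1 : 0 ≤ C3 * 8 ^ k * y ^ 5 * Real.exp (δ2 * y) * √τ0 * T * E := by positivity
        nlinarith

lemma FB_num {T y C0 K N GB0 B D Ψ A2 c1 lN lB lam U0 Ct δ2 δ4 δ5 : ℝ} (k : ℕ) (hT : 0 < T) (hy : 1 ≤ y)
    (hK : 0 ≤ K) (hN0 : 0 ≤ N) (hGB0 : 0 ≤ GB0) (hB0 : 0 ≤ B) (hD0 : 0 ≤ D) (hΨ0 : 0 ≤ Ψ)
    (hA20 : 0 ≤ A2) (_hc10 : 0 ≤ c1) (hlN0 : 0 ≤ lN) (_hlB0 : 0 ≤ lB) (hU00 : 0 ≤ U0) (hlam : 0 < lam)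
    (hCt : 1 ≤ Ct)
    (hN : N ≤ 3 * Real.exp y) (hGB : GB0 ≤ 100000 * (5 + 2 * Real.exp (C0 / 4)) * 8 ^ k * y ^ 5 *
      Real.exp (δ2 * y) * √(Ct * Real.exp (3 * δ2 * y)) * T * Real.exp (-(δ5 / 2) * y))
    (hU0 : U0 ≤ Real.exp (δ2 * y)) (hlB : lB ≤ y)
    (hB : B ≤ Real.exp (C0 / 2) * Real.exp (y / 2))
    (hD : D ≤ 2 * Real.exp (δ5 * y)) (hΨ : Ψ ≤ 4 * Real.exp (y / 2))
    (hA2 : A2 ≤ 2 * (T * Real.exp (-y)))
    (hA2' : A2 ≤ 2 * (T * Real.exp (-y) * Real.exp (-(δ4 * y)))) (hc1 : c1 ≤ T * Real.exp (-y))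
    (hlN : lN ≤ 2 * y)
    (e1 : 3 * ((1 / lam + 1) * (18 * K) * (100000 * (5 + 2 * Real.exp (C0 / 4)) * 8 ^ k) * √Ct) *
      y ^ 6 * Real.exp (-(1 / 2 + (δ5 / 2 - 7 * δ2 / 2)) * y) ≤ Real.exp (-(1 / 2 + 3 * δ2) * y))
    (e2 : 3 * (2 ^ k * 3 * ((1 + 4 ^ k) * (k * 2)) * Real.exp (C0 / 2)) * y * Real.exp (-1 * y) ≤
      Real.exp (-(1 / 2 + 3 * δ2) * y))
    (e3 : 3 * (2 ^ k * 2 ^ k * (2 ^ k * 2 * (4 * (2 ^ k * (2 * 2 ^ k * 2)))) * 2) *
      Real.exp ((2 * δ5 - 1 / 2 - δ4) * y) ≤ Real.exp (-(1 / 2 + 3 * δ2) * y)) :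
    (lB / lam + 1) * U0 * (N * (6 * K * Real.exp (-(y / 2)) * Real.exp (-y)) * GB0) +
      2 ^ k * (c1 + A2) * (B * ((1 + 4 ^ k) * (Real.exp (-(y / 2)) * (k * lN)))) +
      2 ^ k * 2 ^ k * (2 ^ k * D * (Ψ * (2 ^ k * (2 * 2 ^ k * D)))) * A2 ≤
      T * Real.exp (-(1 / 2 + 3 * δ2) * y) := by
  set X : ℝ := Real.exp (-(1 / 2 + 3 * δ2) * y) with hX
  have hexp : ∀ t : ℝ, 0 < Real.exp t := Real.exp_pos
  have hy0 : 0 < y := by linarith
  have hcA : c1 + A2 ≤ 3 * (T * Real.exp (-y)) := by linarith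
  have hsq : √(Ct * Real.exp (3 * δ2 * y)) = √Ct * Real.exp (3 / 2 * δ2 * y) := by
    rw [Real.sqrt_mul (by linarith)]
    congr 1
    rw [Real.sqrt_eq_iff_mul_self_eq (hexp _).le (hexp _).le, ← Real.exp_add]
    congr 1; ring
  rw [hsq] at hGB
  have hlB1 : lB / lam + 1 ≤ (1 / lam + 1) * y := by
    have : lB / lam ≤ y / lam := by gcongr
    have h2 : (1 / lam + 1) * y = y / lam + y := by ring
    linarith
  have p1 : (lB / lam + 1) * U0 * (N * (6 * K * Real.exp (-(y / 2)) * Real.exp (-y)) * GB0) ≤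
      T * X / 3 := by
    calc (lB / lam + 1) * U0 * (N * (6 * K * Real.exp (-(y / 2)) * Real.exp (-y)) * GB0) ≤
        ((1 / lam + 1) * y) * Real.exp (δ2 * y) * ((3 * Real.exp y) *
          (6 * K * Real.exp (-(y / 2)) * Real.exp (-y)) *
          (100000 * (5 + 2 * Real.exp (C0 / 4)) * 8 ^ k * y ^ 5 *
      Real.exp (δ2 * y) * (√Ct * Real.exp (3 / 2 * δ2 * y)) * T * Real.exp (-(δ5 / 2) * y))) := by
          gcongr
      _ = T * (3 * ((1 / lam + 1) * (18 * K) * (100000 * (5 + 2 * Real.exp (C0 / 4)) * 8 ^ k) * √Ct) *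
      y ^ 6 * Real.exp (-(1 / 2 + (δ5 / 2 - 7 * δ2 / 2)) * y)) / 3 := by
          have : Real.exp (-(1 / 2 + (δ5 / 2 - 7 * δ2 / 2)) * y) = Real.exp (δ2 * y) * Real.exp y *
              Real.exp (-(y / 2)) * Real.exp (-y) * Real.exp (δ2 * y) *
              Real.exp (3 / 2 * δ2 * y) * Real.exp (-(δ5 / 2) * y) := by
            rw [← Real.exp_add, ← Real.exp_add, ← Real.exp_add, ← Real.exp_add, ← Real.exp_add,
              ← Real.exp_add]
            congr 1; ring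
          rw [this]; ring
      _ ≤ T * X / 3 := by gcongr
  have p2 : 2 ^ k * (c1 + A2) * (B * ((1 + 4 ^ k) * (Real.exp (-(y / 2)) * (k * lN)))) ≤
      T * X / 3 := by
    calc 2 ^ k * (c1 + A2) * (B * ((1 + 4 ^ k) * (Real.exp (-(y / 2)) * (k * lN)))) ≤
        2 ^ k * (3 * (T * Real.exp (-y))) * ((Real.exp (C0 / 2) * Real.exp (y / 2)) *
          ((1 + 4 ^ k) * (Real.exp (-(y / 2)) * (k * (2 * y))))) := by gcongr
      _ = T * (3 * (2 ^ k * 3 * ((1 + 4 ^ k) * (k * 2)) * Real.exp (C0 / 2)) * y *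
          Real.exp (-1 * y)) / 3 := by
          have : Real.exp (-1 * y) = Real.exp (-y) * Real.exp (y / 2) *
              Real.exp (-(y / 2)) := by
            rw [← Real.exp_add, ← Real.exp_add]; congr 1; ring
          rw [this]; ring
      _ ≤ T * X / 3 := by gcongr
  have p3 : 2 ^ k * 2 ^ k * (2 ^ k * D * (Ψ * (2 ^ k * (2 * 2 ^ k * D)))) * A2 ≤ T * X / 3 := by
    calc 2 ^ k * 2 ^ k * (2 ^ k * D * (Ψ * (2 ^ k * (2 * 2 ^ k * D)))) * A2 ≤
        2 ^ k * 2 ^ k * (2 ^ k * (2 * Real.exp (δ5 * y)) * ((4 * Real.exp (y / 2)) *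
          (2 ^ k * (2 * 2 ^ k * (2 * Real.exp (δ5 * y)))))) *
          (2 * (T * Real.exp (-y) * Real.exp (-(δ4 * y)))) := by gcongr
      _ = T * (3 * (2 ^ k * 2 ^ k * (2 ^ k * 2 * (4 * (2 ^ k * (2 * 2 ^ k * 2)))) * 2) *
          Real.exp ((2 * δ5 - 1 / 2 - δ4) * y)) / 3 := by
          have : Real.exp ((2 * δ5 - 1 / 2 - δ4) * y) = Real.exp (δ5 * y) * Real.exp (y / 2) *
              Real.exp (δ5 * y) * Real.exp (-y) * Real.exp (-(δ4 * y)) := by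
            rw [← Real.exp_add, ← Real.exp_add, ← Real.exp_add, ← Real.exp_add]; congr 1; ring
          rw [this]; ring
      _ ≤ T * X / 3 := by gcongr
  linarith

end Pool.Agent.Lib.MP_00e05b_nt
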