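import Mathlib
import Pool.Agent.Lib.MP_00e05b_nt.SharpFB
import Pool.Agent.Lib.MP_00e05b_nt.FunctI
import Pool.Agent.Lib.MP_00e05b_nt.SharpWindow
import Pool.Agent.Lib.MP_2a816b_nt.Divisor

/-!
# The bound for the error functional, moduli up to `T ^ (1/2)`: the parameters
-/

open Finset Filter
open scoped ContDiff

namespace Pool.Agent.Lib.MP_00e05b_nt

open Pool.Agent.Lib.MP_2a816b_nt

theorem FB_ev {W : ℝ → ℝ} (h0 : ∀ u, 0 ≤ W u) (h1 : ∀ u, W u ≤ 1)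
    (hs : ∀ u, 3 / 4 ≤ |u| → W u = 0) {K : ℝ}
    (hd : ∀ u, HasDerivAt W (deriv W u) u) (hK : ∀ u, |deriv W u| ≤ K)
    {κ ρ C0 lam δ0 δ1 δ2 δ3 δ4 δ5 : ℝ} (hκ0 : 0 < κ) (hκ1 : κ < 1) (hρ0 : 0 < ρ)
    (hlam : 0 < lam) (hlam2 : Real.exp lam ≤ 2)
    (hψ : ∀ᶠ y : ℝ in atTop,
      ∑ n ∈ Ioc 0 ⌊Real.exp (y + 1)⌋₊, Vw W y n * vM n ≤ 4 * Real.exp (y / 2))
    (hδ0 : δ1 < δ0) (hδ1 : 0 < δ1) (hδ12 : δ1 < 1 / 2) (hδ15 : δ5 ≤ δ1) (hδ2 : 0 < δ2)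
    (hδ3 : 0 < δ3)
    (hδ5 : 0 < δ5) (hδ4 : 0 < δ4) (hδ25 : 13 * δ2 < δ5) (hδ245 : 2 * δ5 + 3 * δ2 < δ4)
    (hδ2s : δ2 < 1 / 8) :
    ∀ᶠ y : ℝ in atTop, ∀ T : ℝ, Real.exp ((2 / 3 + δ0) * y) ≤ T → T ≤ Real.exp (y + C0) →
      ∀ r ∈ Finset.Ioc 0 ⌊Real.exp (δ2 * y)⌋₊, ∀ b ∈ Cop r,
        ‖∑ s ∈ MS ⌊Real.exp (δ3 * y)⌋₊ ⌊Real.exp (δ2 * y)⌋₊
          ⌈Real.exp (δ4 * y) * (Real.exp y / T)⌉₊ ⌊Real.exp (Real.log T / 2 - δ1 * y)⌋₊ r, gq s *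
        ∑ a ∈ Ab (κ * cc κ ρ T y) (cc κ ρ T y) r s b,
          (wB lam (κ * cc κ ρ T y) (cc κ ρ T y) r s a : ℂ) *
        (SV (Vw W y) ⌊Real.exp (y + 1)⌋₊ ((a : ℝ) / (r * s)) -
          gq s * SV (Vw W y) ⌊Real.exp (y + 1)⌋₊ ((b : ℝ) / r))‖ ≤
        T * Real.exp (-(1 / 2 + 3 * δ2) * y) := by
  have hexp : ∀ t : ℝ, 0 < Real.exp t := Real.exp_pos
  have hK0 : 0 ≤ K := (abs_nonneg _).trans (hK 0)
  have hpi := Real.pi_pos
  have hκ2 : 0 < 1 - κ := by linarith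
  obtain ⟨k, hk⟩ : ∃ k : ℕ, k = ⌈1 / (2 * δ3)⌉₊ := ⟨_, rfl⟩
  obtain ⟨Ct, hCt1, hCt⟩ := divisor_bound δ2 hδ2
  have E1 := ev_exp 6 (3 * ((1 / lam + 1) * (18 * K) * (100000 * (5 + 2 * Real.exp (C0 / 4)) *
    8 ^ k) * √Ct)) (-(1 / 2 + (δ5 / 2 - 7 * δ2 / 2))) (-(1 / 2 + 3 * δ2)) (by linarith)
  have E2 := ev_exp 1 (3 * (2 ^ k * 3 * ((1 + 4 ^ k) * (k * 2)) * Real.exp (C0 / 2))) (-1)
    (-(1 / 2 + 3 * δ2)) (by linarith)
  have E3 := ev_exp 0 (3 * (2 ^ k * 2 ^ k * (2 ^ k * 2 * (4 * (2 ^ k * (2 * 2 ^ k * 2)))) * 2))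
    (2 * δ5 - 1 / 2 - δ4) (-(1 / 2 + 3 * δ2)) (by linarith)
  have E4 := ev_exp 0 (8 * Real.exp 1) (1 - 3 * (δ0 - δ1)) 1 (by linarith)
  have E5 := ev_exp 0 (Real.exp 1 * Real.exp (C0 / 2)) (1 / 2 - δ1) 1 (by linarith)
  have E6 := ev_exp 0 (4 * Real.pi * Real.exp ρ / (1 - κ)) 0 δ4 hδ4
  have E7 := ev_exp 0 (12 * Real.exp (3 / 2 * C0)) (5 / 2 + δ2) 3 (by linarith)
  filter_upwards [E1, E2, E3, E4, E5, E6, E7, hψ, eventually_ge_atTop 20,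
    eventually_ge_atTop (C0 / δ1), eventually_ge_atTop (C0 / (2 * δ1))] with y e1 e2 e3 e4 e5 e6 e7 e8
      hy20 hyC hyC2
  intro T hT1 hT2 r hr b _
  simp only [pow_zero, mul_one, pow_one, one_mul, zero_mul, Real.exp_zero] at e1 e2 e3 e4 e5 e6 e7
  have hy0 : 0 < y := by linarith
  have hC : C0 ≤ δ1 * y := by rw [div_le_iff₀ hδ1] at hyC; linarith
  have hT0 : 0 < T := (hexp _).trans_le hT1
  have hsT0 : 0 < √T := Real.sqrt_pos.2 hT0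
  have hlogT : Real.log T ≤ y + C0 := by
    rw [Real.log_le_iff_le_exp hT0]; exact hT2
  have hlogT2 : (2 / 3 + δ0) * y ≤ Real.log T := by
    rw [Real.le_log_iff_exp_le hT0]; exact hT1
  have hδ1y : 0 ≤ δ1 * y := by positivity
  have hβ2 : Real.log T / 2 - δ1 * y ≤ y / 2 := by linarith
  have hβ0 : 0 ≤ Real.log T / 2 - δ1 * y := by
    have : 0 ≤ (1 / 3 + δ0 / 2 - δ1) * y := by
      apply mul_nonneg _ hy0.le
      linarith
    linarith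
  have hβe : Real.exp (Real.log T / 2 - δ1 * y) = √T * Real.exp (-δ1 * y) := by
    have h5 : √T = Real.exp (Real.log T / 2) := by
      rw [Real.sqrt_eq_iff_mul_self_eq hT0.le (hexp _).le, ← Real.exp_add]
      rw [show Real.log T / 2 + Real.log T / 2 = Real.log T by ring, Real.exp_log hT0]
    rw [h5, ← Real.exp_add]; congr 1; ring
  have hsTle : √T ≤ Real.exp (C0 / 2) * Real.exp (y / 2) := by
    rw [Real.sqrt_le_left (by positivity), ← Real.exp_add, ← Real.exp_nat_mul]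
    refine hT2.trans (le_of_eq ?_)
    congr 1; push_cast; ring
  -- h = e^y / T
  obtain ⟨h, hh⟩ : ∃ h : ℝ, h = Real.exp y / T := ⟨_, rfl⟩
  have hh0 : 0 < h := by rw [hh]; have := hexp y; positivity
  have hh1 : 1 ≤ Real.exp (δ1 * y) * h := by
    rw [hh, ← mul_div_assoc, ← Real.exp_add, le_div_iff₀ hT0, one_mul]
    refine hT2.trans (Real.exp_le_exp.2 ?_)
    linarith
  have hh2 : h ≤ Real.exp ((1 / 3 - δ0) * y) := by
    rw [hh, div_le_iff₀ hT0]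
    calc Real.exp y = Real.exp ((1 / 3 - δ0) * y) * Real.exp ((2 / 3 + δ0) * y) := by
          rw [← Real.exp_add]; congr 1; ring
      _ ≤ _ := by gcongr
  have hz1 : 1 ≤ ⌊Real.exp (δ3 * y)⌋₊ := Nat.le_floor (by
    rw [Nat.cast_one]; exact Real.one_le_exp (by positivity))
  have hA1 : 1 ≤ ⌈Real.exp (δ4 * y) * (Real.exp y / T)⌉₊ := Nat.one_le_ceil_iff.2 (by positivity)
  have hkk : ∀ p ∈ DD ⌊Real.exp (δ3 * y)⌋₊ ⌊Real.exp (δ2 * y)⌋₊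
          ⌈Real.exp (δ4 * y) * (Real.exp y / T)⌉₊ ⌊Real.exp (Real.log T / 2 - δ1 * y)⌋₊,
          p.2.primeFactors.card ≤ k := by
    intro p hp
    rw [mem_DD] at hp
    obtain ⟨_, _, g3, g4, _, _, _, g8, _, _⟩ := hp
    rw [hk]
    refine rough_card y δ3 hy0 hδ3 p.2 g3 ?_ g8
    have g5 : (p.2 : ℝ) ≤ ⌊Real.exp (Real.log T / 2 - δ1 * y)⌋₊ := by exact_mod_cast g4
    exact g5.trans ((Nat.floor_le (hexp _).le).trans (Real.exp_le_exp.2 hβ2))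
  obtain ⟨L, hLdef⟩ : ∃ L : ℕ, L = ⌈2 * (y + 2)⌉₊ := ⟨_, rfl⟩
  have hLge : 2 * (y + 2) ≤ (L : ℝ) := by rw [hLdef]; exact Nat.le_ceil _
  have hLle : (L : ℝ) ≤ 3 * y := by
    have := Nat.ceil_lt_add_one (a := 2 * (y + 2)) (by positivity)
    rw [← hLdef] at this
    linarith
  have hL2 : ⌊Real.exp (y + 1)⌋₊ + 1 < 2 ^ L := by
    have h10 : ((⌊Real.exp (y + 1)⌋₊ + 1 : ℕ) : ℝ) < ((2 ^ L : ℕ) : ℝ) := by
      push_cast
      have h11 : (2 : ℝ) ^ L = Real.exp (L * Real.log 2) := by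
        rw [mul_comm, Real.exp_mul, Real.exp_log (by norm_num)]
        exact (Real.rpow_natCast 2 L).symm
      have h12 : Real.exp (y + 2) ≤ (2 : ℝ) ^ L := by
        rw [h11]
        apply Real.exp_le_exp.2
        have h20 := Real.log_two_gt_d9
        calc y + 2 = 2 * (y + 2) * (1 / 2) := by ring
          _ ≤ L * Real.log 2 := mul_le_mul hLge (by linarith) (by norm_num) (Nat.cast_nonneg _)
      have h13 : Real.exp (y + 2) = Real.exp (y + 1) * Real.exp 1 := by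
        rw [← Real.exp_add]; congr 1; ring
      have h14 : 1 ≤ Real.exp (y + 1) := Real.one_le_exp (by linarith)
      have h15 : (⌊Real.exp (y + 1)⌋₊ : ℝ) ≤ Real.exp (y + 1) := Nat.floor_le (hexp _).le
      have he1 := Real.exp_one_gt_d9
      have he2 : Real.exp (y + 1) * 2.7 ≤ Real.exp (y + 1) * Real.exp 1 :=
        mul_le_mul_of_nonneg_left (by linarith) (hexp _).le
      linarith
    exact_mod_cast h10
  -- the parameter U
  obtain ⟨U, hUdef⟩ : ∃ U : ℕ, U = ⌈Real.exp (δ1 * y) * h⌉₊ := ⟨_, rfl⟩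
  have hUge : Real.exp (δ1 * y) * h ≤ U := by rw [hUdef]; exact Nat.le_ceil _
  have hUle : (U : ℝ) ≤ 2 * (Real.exp (δ1 * y) * h) := by
    have h5 := Nat.ceil_lt_add_one (a := Real.exp (δ1 * y) * h) (by positivity)
    rw [← hUdef] at h5
    linarith
  have hU1 : 1 ≤ U := by
    have : (1 : ℝ) ≤ U := hh1.trans hUge
    exact_mod_cast this
  have hU3 : U * U * U ≤ ⌊Real.exp (y - 1)⌋₊ := by
    apply Nat.le_floor
    push_cast
    have h5 : (U : ℝ) ≤ 2 * (Real.exp (δ1 * y) * Real.exp ((1 / 3 - δ0) * y)) :=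
      hUle.trans (by gcongr)
    calc (U : ℝ) * U * U ≤ (2 * (Real.exp (δ1 * y) * Real.exp ((1 / 3 - δ0) * y))) *
          (2 * (Real.exp (δ1 * y) * Real.exp ((1 / 3 - δ0) * y))) *
          (2 * (Real.exp (δ1 * y) * Real.exp ((1 / 3 - δ0) * y))) := by gcongr
      _ = 8 * Real.exp ((1 - 3 * (δ0 - δ1)) * y) := by
          have : Real.exp ((1 - 3 * (δ0 - δ1)) * y) = (Real.exp (δ1 * y) *
              Real.exp ((1 / 3 - δ0) * y)) * (Real.exp (δ1 * y) * Real.exp ((1 / 3 - δ0) * y)) *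
              (Real.exp (δ1 * y) * Real.exp ((1 / 3 - δ0) * y)) := by
            rw [← Real.exp_add, ← Real.exp_add, ← Real.exp_add]; congr 1; ring
          rw [this]; ring
      _ ≤ Real.exp (y - 1) := by
          rw [Real.exp_sub, le_div_iff₀ (hexp 1)]
          linarith
  have hBN : ⌊Real.exp (Real.log T / 2 - δ1 * y)⌋₊ ≤ ⌊Real.exp (y - 1)⌋₊ := by
    apply Nat.floor_le_floor
    rw [hβe, Real.exp_sub, le_div_iff₀ (hexp 1)]
    calc √T * Real.exp (-δ1 * y) * Real.exp 1 ≤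
          (Real.exp (C0 / 2) * Real.exp (y / 2)) * Real.exp (-δ1 * y) * Real.exp 1 := by gcongr
      _ = Real.exp 1 * Real.exp (C0 / 2) * Real.exp ((1 / 2 - δ1) * y) := by
          have : Real.exp ((1 / 2 - δ1) * y) = Real.exp (y / 2) * Real.exp (-δ1 * y) := by
            rw [← Real.exp_add]; congr 1; ring
          rw [this]; ring
      _ ≤ _ := e5
  have hD01 : 1 ≤ ⌈Real.exp (δ5 * y)⌉₊ := Nat.one_le_ceil_iff.2 (hexp _)
  have hV0 : ∀ n, 0 ≤ Vw W y n := Vw_nonneg h0 y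
  have hVB : ∀ n, Vw W y n ≤ Real.exp (-(y / 2)) := Vw_le h1 y
  have hzz : ∀ M, 0 < M → M < ⌊Real.exp (y - 1)⌋₊ → Vw W y M = Vw W y (M + 1) := by
    intro M hM hMN
    rw [Vw_small hs y M hM hMN.le, Vw_small hs y (M + 1) (by omega) hMN]
  have hVN := Vw_large hs y (⌊Real.exp (y + 1)⌋₊ + 1) (Nat.lt_succ_self _)
  have hcc0 : 0 < cc κ ρ T y := cc_pos hκ1 hT0
  have hc1le : cc κ ρ T y ≤ T * Real.exp (-y) := cc_le hκ0.le hκ1 hρ0.le hT0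
  have hAge : Real.exp (δ4 * y) * (Real.exp y / T) ≤ ⌈Real.exp (δ4 * y) * (Real.exp y / T)⌉₊ :=
    Nat.le_ceil _
  have hcA : 2 ≤ cc κ ρ T y * ⌈Real.exp (δ4 * y) * (Real.exp y / T)⌉₊ := by
    calc (2 : ℝ) = (1 - κ) / (2 * Real.pi * Real.exp ρ) * (4 * Real.pi * Real.exp ρ / (1 - κ)) := by
          field_simp; norm_num
      _ ≤ (1 - κ) / (2 * Real.pi * Real.exp ρ) * Real.exp (δ4 * y) := by gcongr
      _ = cc κ ρ T y * (Real.exp (δ4 * y) * (Real.exp y / T)) := by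
          unfold cc
          rw [Real.exp_add]
          field_simp
      _ ≤ _ := by gcongr
  have hUle0 : (⌊Real.exp (δ2 * y)⌋₊ : ℝ) ≤ Real.exp (δ2 * y) := Nat.floor_le (hexp _).le
  have hBle : (⌊Real.exp (Real.log T / 2 - δ1 * y)⌋₊ : ℝ) ≤ √T * Real.exp (-δ1 * y) := by
    rw [← hβe]; exact Nat.floor_le (hexp _).le
  have hNle : (⌊Real.exp (y + 1)⌋₊ : ℝ) ≤ 3 * Real.exp y := by
    refine (Nat.floor_le (hexp _).le).trans ?_
    rw [Real.exp_add]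
    have he1 := Real.exp_one_lt_d9
    have he2 : Real.exp y * Real.exp 1 ≤ Real.exp y * 3 :=
      mul_le_mul_of_nonneg_left (by linarith) (hexp y).le
    linarith
  -- the divisor bound
  have hτ : ∀ t : ℕ, 0 < t → (t : ℝ) < 4 * cc κ ρ T y * ⌊Real.exp (δ2 * y)⌋₊ *
      ⌊Real.exp (Real.log T / 2 - δ1 * y)⌋₊ * ⌊Real.exp (y + 1)⌋₊ →
      (t.divisors.card : ℝ) ≤ Ct * Real.exp (3 * δ2 * y) := by
    intro t ht0 ht
    have h5 : (t : ℝ) ≤ Real.exp (3 * y) := by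
      refine ht.le.trans ?_
      have h6 : √T * Real.exp (-δ1 * y) ≤ Real.exp (C0 / 2) * Real.exp (y / 2) := by
        have : Real.exp (-δ1 * y) ≤ 1 := by
          apply Real.exp_le_one_iff.2
          have : 0 < δ1 * y := by positivity
          linarith
        calc √T * Real.exp (-δ1 * y) ≤ √T * 1 := by gcongr
          _ ≤ _ := by rw [mul_one]; exact hsTle
      calc 4 * cc κ ρ T y * ⌊Real.exp (δ2 * y)⌋₊ *
          ⌊Real.exp (Real.log T / 2 - δ1 * y)⌋₊ * ⌊Real.exp (y + 1)⌋₊ ≤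
          4 * (Real.exp (y + C0) * Real.exp (-y)) * Real.exp (δ2 * y) *
          (Real.exp (C0 / 2) * Real.exp (y / 2)) * (3 * Real.exp y) := by
            have h7 : cc κ ρ T y ≤ Real.exp (y + C0) * Real.exp (-y) :=
              hc1le.trans (by gcongr)
            have h8 := hBle.trans h6
            gcongr
        _ ≤ 4 * (Real.exp (y + C0)) * Real.exp (δ2 * y) *
          (Real.exp (C0 / 2) * Real.exp (y / 2)) * (3 * Real.exp y) := by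
            have h9 : Real.exp (-y) ≤ 1 := Real.exp_le_one_iff.2 (by linarith)
            gcongr
            exact mul_le_of_le_one_right (hexp (y + C0)).le h9
        _ = 12 * Real.exp (3 / 2 * C0) * Real.exp ((5 / 2 + δ2) * y) := by
            have h11 : Real.exp (3 / 2 * C0) * Real.exp ((5 / 2 + δ2) * y) =
                Real.exp (y + C0) * Real.exp (δ2 * y) *
                (Real.exp (C0 / 2) * Real.exp (y / 2)) * Real.exp y := by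
              rw [← Real.exp_add, ← Real.exp_add, ← Real.exp_add, ← Real.exp_add, ← Real.exp_add]
              congr 1; ring
            linarith
        _ ≤ _ := e7
    refine (hCt t ht0).trans ?_
    have h6 : (t : ℝ) ^ δ2 ≤ Real.exp (3 * δ2 * y) := by
      calc (t : ℝ) ^ δ2 ≤ (Real.exp (3 * y)) ^ δ2 := Real.rpow_le_rpow (by positivity) h5 hδ2.le
        _ = _ := by rw [← Real.exp_mul]; congr 1; ring
    gcongr
  have hτ01 : 1 ≤ Ct * Real.exp (3 * δ2 * y) := by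
    have : 1 ≤ Real.exp (3 * δ2 * y) := Real.one_le_exp (by positivity)
    exact one_le_mul_of_one_le_of_one_le hCt1 this
  have hκcc0 : 0 < κ * cc κ ρ T y := by positivity
  have hκcc : κ * cc κ ρ T y ≤ cc κ ρ T y := by
    calc κ * cc κ ρ T y ≤ 1 * cc κ ρ T y := by gcongr
      _ = _ := one_mul _
  have hτ00 : 0 ≤ Ct * Real.exp (3 * δ2 * y) := zero_le_one.trans hτ01
  have hA'0 : 0 ≤ 6 * K * Real.exp (-(y / 2)) * Real.exp (-y) := by positivity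
  have hVd : ∀ M, 0 < M → |Vw W y M - Vw W y (M + 1)| ≤
      6 * K * Real.exp (-(y / 2)) * Real.exp (-y) :=
    fun M hM => Vw_diff hs hd hK y (by linarith) M hM
  have hmain := FA_B ⌊Real.exp (δ3 * y)⌋₊ ⌊Real.exp (δ2 * y)⌋₊
    ⌈Real.exp (δ4 * y) * (Real.exp y / T)⌉₊ ⌊Real.exp (Real.log T / 2 - δ1 * y)⌋₊ k
    ⌈Real.exp (δ5 * y)⌉₊ hA1 hD01 hkk lam (κ * cc κ ρ T y) (cc κ ρ T y) hlam hlam2 hκcc0
    hκcc hcA ⌊Real.exp (y + 1)⌋₊ ⌊Real.exp (y - 1)⌋₊ U L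
    hU1 hU3 hL2 hBN (Vw W y) (Real.exp (-(y / 2))) (hexp _).le hV0 hVB
    (6 * K * Real.exp (-(y / 2)) * Real.exp (-y)) hA'0
    hVd hzz hVN (Ct * Real.exp (3 * δ2 * y))
    hτ00 hτ r hr b
  refine hmain.trans ?_
  -- numeric facts
  have hNge : Real.exp y ≤ ⌊Real.exp (y + 1)⌋₊ := by
    have h5 := Nat.lt_floor_add_one (Real.exp (y + 1))
    have h6 : Real.exp (y + 1) = Real.exp y * Real.exp 1 := Real.exp_add _ _
    have h7 := Real.exp_one_gt_d9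
    have h8 : 1 ≤ Real.exp y := Real.one_le_exp hy0.le
    have h9 : Real.exp y * 2.7 ≤ Real.exp y * Real.exp 1 :=
      mul_le_mul_of_nonneg_left (by linarith) (hexp y).le
    linarith
  have hlogN : Real.log ⌊Real.exp (y + 1)⌋₊ ≤ 2 * y := by
    have hNpos : (0 : ℝ) < ⌊Real.exp (y + 1)⌋₊ := (hexp y).trans_le hNge
    have h5 : Real.log ⌊Real.exp (y + 1)⌋₊ ≤ y + 1 := by
      rw [Real.log_le_iff_le_exp hNpos]
      exact Nat.floor_le (hexp _).le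
    linarith
  have hlogN0 : 0 ≤ Real.log ⌊Real.exp (y + 1)⌋₊ := Real.log_natCast_nonneg _
  have hlogB0 : 0 ≤ Real.log ⌊Real.exp (Real.log T / 2 - δ1 * y)⌋₊ := Real.log_natCast_nonneg _
  have hlogB : Real.log ⌊Real.exp (Real.log T / 2 - δ1 * y)⌋₊ ≤ y := by
    have hB1 : 1 ≤ ⌊Real.exp (Real.log T / 2 - δ1 * y)⌋₊ := Nat.le_floor (by
      rw [Nat.cast_one]; exact Real.one_le_exp hβ0)
    have hBpos : (0 : ℝ) < ⌊Real.exp (Real.log T / 2 - δ1 * y)⌋₊ := by exact_mod_cast hB1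
    rw [Real.log_le_iff_le_exp hBpos]
    refine (Nat.floor_le (hexp _).le).trans (Real.exp_le_exp.2 ?_)
    linarith
  have hD0ge : Real.exp (δ5 * y) ≤ ⌈Real.exp (δ5 * y)⌉₊ := Nat.le_ceil _
  have hD0le : (⌈Real.exp (δ5 * y)⌉₊ : ℝ) ≤ 2 * Real.exp (δ5 * y) := by
    have h5 := Nat.ceil_lt_add_one (a := Real.exp (δ5 * y)) (hexp _).le
    have h6 : 1 ≤ Real.exp (δ5 * y) := Real.one_le_exp (by positivity)
    linarith
  have hA2le : 2 / (⌈Real.exp (δ4 * y) * (Real.exp y / T)⌉₊ : ℝ) ≤ 2 * (T * Real.exp (-y)) :=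
    A_aux hT0 (by positivity) hAge
  have hA2le' : 2 / (⌈Real.exp (δ4 * y) * (Real.exp y / T)⌉₊ : ℝ) ≤
      2 * (T * Real.exp (-y) * Real.exp (-(δ4 * y))) := by
    have hApos : (0 : ℝ) < ⌈Real.exp (δ4 * y) * (Real.exp y / T)⌉₊ := by exact_mod_cast hA1
    rw [div_le_iff₀ hApos, Real.exp_neg, Real.exp_neg]
    have h5 := hexp y
    have h6 := hexp (δ4 * y)
    calc (2 : ℝ) = 2 * (T * (Real.exp y)⁻¹ * (Real.exp (δ4 * y))⁻¹) *
          (Real.exp (δ4 * y) * (Real.exp y / T)) := by field_simp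
      _ ≤ _ := mul_le_mul_of_nonneg_left hAge (by positivity)
  rw [hh] at hUge hUle
  have hGB := GB_bound (C0 := C0) k L ⌊Real.exp (δ2 * y)⌋₊ U hT0 (by linarith : (1 : ℝ) ≤ y) hT2
    hδ1 hδ15 hδ5 hUle0 hUge hUle (Nat.cast_nonneg ⌊Real.exp (Real.log T / 2 - δ1 * y)⌋₊) hBle
    hD0ge (Nat.cast_nonneg ⌊Real.exp (y + 1)⌋₊) hNle hLle hcc0.le hc1le hτ01
  have hGB0 : 0 ≤ GB k L ⌊Real.exp (δ2 * y)⌋₊ U (Ct * Real.exp (3 * δ2 * y)) (cc κ ρ T y)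
      ⌊Real.exp (Real.log T / 2 - δ1 * y)⌋₊ ⌈Real.exp (δ5 * y)⌉₊ ⌊Real.exp (y + 1)⌋₊ := by
    unfold GB; positivity
  have hΨ0 : 0 ≤ ∑ n ∈ Ioc 0 ⌊Real.exp (y + 1)⌋₊, Vw W y n * vM n :=
    sum_nonneg (fun n _ => mul_nonneg (hV0 n) (vM_nonneg n))
  have hN00 : (0 : ℝ) ≤ ⌊Real.exp (y + 1)⌋₊ := Nat.cast_nonneg _
  have hB00 : (0 : ℝ) ≤ ⌊Real.exp (Real.log T / 2 - δ1 * y)⌋₊ := Nat.cast_nonneg _
  have hB01 : (⌊Real.exp (Real.log T / 2 - δ1 * y)⌋₊ : ℝ) ≤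
      Real.exp (C0 / 2) * Real.exp (y / 2) := by
    refine hBle.trans ?_
    have : Real.exp (-δ1 * y) ≤ 1 := by
      apply Real.exp_le_one_iff.2
      have : 0 < δ1 * y := by positivity
      linarith
    calc √T * Real.exp (-δ1 * y) ≤ √T * 1 := by gcongr
      _ ≤ _ := by rw [mul_one]; exact hsTle
  have hU00 : (0 : ℝ) ≤ ⌊Real.exp (δ2 * y)⌋₊ := Nat.cast_nonneg _
  have hD00 : (0 : ℝ) ≤ ⌈Real.exp (δ5 * y)⌉₊ := Nat.cast_nonneg _
  have hA20 : 0 ≤ 2 / (⌈Real.exp (δ4 * y) * (Real.exp y / T)⌉₊ : ℝ) := by positivity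
  clear hmain hzz hVN hkk hU3 hBN hL2 hUge hUle hU1 hT1 e4 e5 hNge hD0ge hV0 hVB hAge hBle
  generalize GB k L ⌊Real.exp (δ2 * y)⌋₊ U (Ct * Real.exp (3 * δ2 * y)) (cc κ ρ T y)
      ⌊Real.exp (Real.log T / 2 - δ1 * y)⌋₊ ⌈Real.exp (δ5 * y)⌉₊ ⌊Real.exp (y + 1)⌋₊ = GB0 at *
  generalize ∑ n ∈ Ioc 0 ⌊Real.exp (y + 1)⌋₊, Vw W y n * vM n = Ψ at *
  generalize (⌊Real.exp (y + 1)⌋₊ : ℝ) = N at *
  generalize (⌈Real.exp (δ5 * y)⌉₊ : ℝ) = D at *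
  generalize (⌊Real.exp (Real.log T / 2 - δ1 * y)⌋₊ : ℝ) = B at *
  generalize (⌊Real.exp (δ2 * y)⌋₊ : ℝ) = U0 at *
  exact FB_num k hT0 (by linarith) hK0 hN00 hGB0 hB00 hD00 hΨ0 hA20 hcc0.le hlogN0 hlogB0 hU00 hlam
    hCt1 hNle hGB hUle0 hlogB hB01 hD0le e8 hA2le hA2le' hc1le hlogN e1 e2 e3

end Pool.Agent.Lib.MP_00e05b_nt
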