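import Mathlib
import Pool.Agent.Lib.MP_00e05b_nt.SharpFB2
import Pool.Agent.Lib.MP_00e05b_nt.FinalBase
import Pool.Agent.Lib.MP_00e05b_nt.SharpWindow

/-!
# The lower bound `F(α, T) ≥ 3/2 - α - ε`
-/

open Finset Filter
open scoped ContDiff

namespace Pool.Agent.Lib.MP_00e05b_nt

open Pool.Agent.Lib.MP_2a816b_nt

theorem window_stage2 (hRH : RiemannHypothesis) {t θ : ℝ} (ht0 : 0 < t) (ht1 : t ≤ 1 / 100)
    (hθ0 : 0 < θ) (hθ1 : θ ≤ 1 / 4) (C0 : ℝ) :
    ∀ᶠ y : ℝ in atTop, ∀ T g : ℝ, Real.exp ((2 / 3 + θ) * y) ≤ T → T ≤ Real.exp (y + C0) →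
      0 ≤ g → g ≤ 3 / 2 * Real.log T - y - θ * y →
      2 * t * (T / (2 * Real.pi)) * ((1 - 12 * t) * g) ≤ ∫ u in (y - t)..(y + t), ‖SS T u‖ ^ 2 := by
  obtain ⟨W, hW, h0, h1, hs', hmass⟩ := exists_bumpR (r1 := t * (1 - t)) (r2 := t * (1 - t / 2))
    (by nlinarith) (by nlinarith) (by nlinarith)
  have hρ' : t * (1 - t / 2) < t := by nlinarith
  have hs : ∀ u, 3 / 4 ≤ |u| → W u = 0 := fun u hu => hs' u (by linarith)
  obtain ⟨K, bK⟩ := bump_of_smooth hW hs
  set η : ℝ := min (2 * t * t) (θ / 16) with hη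
  have hη0 : 0 < η := lt_min (by positivity) (by positivity)
  have hη1 : η ≤ 2 * t * t := min_le_left _ _
  have hη2 : η ≤ θ / 16 := min_le_right _ _
  set P0 : ℝ := 2 * t * (1 - 2 * t) with hP0
  have hP00 : 0 ≤ P0 := by
    have : 0 ≤ 1 - 2 * t := by linarith
    positivity
  have hP : P0 < ∫ v in (-1 : ℝ)..1, W v * Real.exp v := by
    refine lt_of_lt_of_le ?_ hmass
    rw [hP0]; nlinarith
  -- the block parameter
  have ht4 : (0 : ℝ) < t / 4 := by positivity
  have hlam1 : Real.exp (t / 4) ≤ 1 + t / 2 := by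
    have h5 := Real.exp_bound' (x := t / 4) ht4.le (by linarith) (n := 1) (by norm_num)
    simp at h5
    nlinarith
  have hlam2 : Real.exp (t / 4) ≤ 2 := by linarith
  have hlam3 : 1 - t / 4 ≤ Real.exp (-(t / 4)) := by
    have := Real.add_one_le_exp (-(t / 4))
    linarith
  have hlam4 : Real.exp (-(t / 4)) * Real.exp (t / 4) = 1 := by rw [← Real.exp_add]; simp
  have hlam5 : Real.exp (-(t / 4)) ≤ 1 := Real.exp_le_one_iff.2 (by linarith)
  have hpb := psi_bounds hRH hW h0 h1 hs (P0 := P0) (δ := θ / 1024) (by linarith) hP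
  have hw := window_general hRH hW h0 h1 (ρ := t) (κ := t) ht0 hρ' (by linarith) hs' ht0
    (by linarith) (P0 := P0) (κ' := t) (η := η) (δ2 := θ / 1024) (δ3 := θ ^ 2 / 32768)
    (δ4 := θ / 8) (C0 := C0) hP00 hP ht0 (by linarith) hη0 (by positivity) (by linarith)
    (by positivity) (by positivity)
  have hFB := FB_ev h0 h1 hs bK.d0 bK.b1 (κ := t) (ρ := t) (C0 := C0) (lam := t / 4) (δ0 := θ)
    (δ1 := θ / 8) (δ2 := θ / 1024) (δ3 := θ ^ 2 / 32768) (δ4 := θ / 8) (δ5 := θ / 64) ht0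
    (by linarith) ht0 ht4 hlam2 (hpb.mono fun y hy => hy.2) (by linarith) (by positivity)
    (by linarith) (by linarith) (by positivity) (by positivity) (by positivity) (by positivity)
    (by linarith) (by linarith) (by linarith)
  filter_upwards [hw, hFB, eventually_ge_atTop (2 * Real.pi * η / (t ^ 2 * θ)),
    eventually_ge_atTop 1, eventually_ge_atTop (C0 / (2 * (θ / 8 - 3 * (θ / 1024))))] with y hw' hFB'
      hyη hy1 hyC
  intro T g hT1 hT2 hg0 hg1
  have hy0 : 0 < y := by linarith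
  have hT0 : 0 < T := (Real.exp_pos _).trans_le hT1
  have hcc0 : 0 < cc t t T y := cc_pos (by linarith) hT0
  have hlogT : Real.log T ≤ y + C0 := by
    rw [Real.log_le_iff_le_exp hT0]; exact hT2
  have hβ : Real.log T / 2 - θ / 8 * y ≤ (1 / 2 - 3 * (θ / 1024)) * y := by
    rw [div_le_iff₀ (by linarith)] at hyC
    nlinarith
  have hT1' : Real.exp (2 / 3 * y) ≤ T := by
    refine (Real.exp_le_exp.2 ?_).trans hT1
    nlinarith
  have hI : 0 ≤ ∫ u in (y - t)..(y + t), ‖SS T u‖ ^ 2 :=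
    intervalIntegral.integral_nonneg (by linarith) (fun u _ => by positivity)
  set c := cc t t T y with hc
  have h2 := hw' T (Real.log T / 2 - θ / 8 * y) (t * c * Real.exp (t / 4))
    (c * Real.exp (-(t / 4))) (wB (t / 4) (t * c) c) hT1' hT2 hβ
    (by
      have : 1 ≤ Real.exp (t / 4) := Real.one_le_exp ht4.le
      have h3 : 0 < t * c := by positivity
      nlinarith)
    (by
      have h3 : t * Real.exp (t / 4) ≤ Real.exp (-(t / 4)) := by nlinarith
      calc t * c * Real.exp (t / 4) = c * (t * Real.exp (t / 4)) := by ring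
        _ ≤ _ := by gcongr)
    (by
      calc c * Real.exp (-(t / 4)) ≤ c * 1 := by gcongr
        _ = c := mul_one _)
    (by
      have h3 : 1 - 2 * t ≤ Real.exp (-(t / 4)) - t * Real.exp (t / 4) := by nlinarith
      calc (1 - 2 * t) * c ≤ (Real.exp (-(t / 4)) - t * Real.exp (t / 4)) * c := by gcongr
        _ = _ := by ring)
    (fun r s a => wB_nonneg _ _ _ r s a) (fun r s a => wB_le_one _ _ _ r s a)
    (fun r s a ha0 ha1 => wB_eq_one ht4 (by positivity) (by positivity) le_rfl (by positivity)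
      (by rw [mul_assoc, hlam4, mul_one]) r s a ha0 ha1)
    (fun r hr b hb => hFB' T hT1 hT2 r hr b hb)
  refine conv_aux (G := Real.log T / 2 - θ / 8 * y + Real.log T - y - (θ / 8 + θ / 1024 +
    2 * (θ ^ 2 / 32768) / (θ / 1024) + η) * y) (θy := θ / 2 * y) ht0 ht1 hT0 hP0 hη0 hη1 hg0 ?_ hI
    ?_ h2
  · rw [div_le_iff₀ (by positivity)] at hyη
    nlinarith
  · have e1 : 2 * (θ ^ 2 / 32768) / (θ / 1024) = θ / 16 := by field_simp; norm_num
    rw [e1]
    nlinarith

/-- **The lower bound**: `F(α, T) ≥ 3/2 - α - ε` for `1 ≤ α ≤ 3/2`. -/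
theorem F_stage2 (hRH : RiemannHypothesis) {ε : ℝ} (hε : 0 < ε) :
    ∃ T₀ : ℝ, ∀ T : ℝ, T₀ ≤ T → ∀ α : ℝ, 1 ≤ α → α ≤ 3 / 2 →
      ∃ r : ℝ, pairF α T = r ∧ 3 / 2 - α - ε ≤ r := by
  set t : ℝ := min (ε / 100) (1 / 100) with ht
  have ht0 : 0 < t := lt_min (by positivity) (by norm_num)
  have ht1 : t ≤ 1 / 100 := min_le_right _ _
  have htε : t ≤ ε / 100 := min_le_left _ _
  have hw := fun C0 : ℝ => window_stage2 hRH ht0 ht1 ht0 (by linarith : t ≤ 1 / 4) C0
  have hF := F_of_window_bound (t := t) (θ := t) (cy := 2 / 3 + t) (a := 3 / 2) (b := 1)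
    (A1 := 3 / 2 - 3 * t) ht0 ht1 ht0 (by positivity) (by norm_num) (by norm_num) (by nlinarith)
    (fun C0 => by
      filter_upwards [hw C0] with y hy
      intro T g hT1 hT2 hg0 hg1
      exact hy T g hT1 hT2 hg0 (by linarith))
  obtain ⟨T₀, hT₀⟩ := hF
  refine ⟨max T₀ 3, ?_⟩
  intro T hT α hα1 hα2
  have hT3 : 3 ≤ T := (le_max_right _ _).trans hT
  by_cases hα : α ≤ 3 / 2 - 3 * t
  · obtain ⟨r, hr1, _, hr3⟩ := hT₀ T ((le_max_left _ _).trans hT) α hα1 hα
    refine ⟨r, hr1, le_trans ?_ hr3⟩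
    nlinarith
  · push Not at hα
    have hT0 : 0 < T := by linarith
    have hnn : 0 ≤ (T / (2 * Real.pi) * Real.log T)⁻¹ *
        ∫ v : ℝ, ‖SS T (α * Real.log T + v)‖ ^ 2 * Real.exp (-(2 * |v|)) := by
      have hl0 : 0 < Real.log T := Real.log_pos (by linarith)
      apply mul_nonneg
      · have := Real.pi_pos
        positivity
      · apply MeasureTheory.integral_nonneg
        intro v
        simp only [Pi.zero_apply]
        positivity
    refine ⟨_, pairF_eq hT0 α, le_trans ?_ hnn⟩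
    linarith

end Pool.Agent.Lib.MP_00e05b_nt
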